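import Mathlib
import Pool.Agent.H805.T5.Tree2
import Pool.Agent.H805.T5.Auts
import Pool.Agent.H184.T5.D.F124_33_1
import Pool.Agent.H184.T5.D.F12_43_1
import Pool.Agent.H184.T5.D.F14_43_1
import Pool.Agent.H184.T5.D.F14_43_2
import Pool.Agent.H184.T5.D.F1_91_0
import Pool.Agent.H184.T5.D.F24_43_1
import Pool.Agent.H184.T5.D.F2_33_0
import Pool.Agent.H184.T5.D.F2_33_1
import Pool.Agent.H184.T5.D.F32_91_0
import Pool.Agent.H184.T5.D.F32_91_1
import Pool.Agent.H184.T5.D.F33_91_0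
import Pool.Agent.H184.T5.D.F33_91_1
import Pool.Agent.H184.T5.D.F38_33_1
import Pool.Agent.H184.T5.D.F38_33_2
import Pool.Agent.H184.T5.D.F44_4_1
import Pool.Agent.H184.T5.D.F7_33_0
import Pool.Agent.H184.T5.D.F7_33_2
import Pool.Agent.H184.T5.D.F8_33_2
import Pool.Agent.H184.T5.D.F9_33_0
import Pool.Agent.H184.T5.D.F9_33_1
import Pool.Agent.H184.T5.D.F9_33_2
import Pool.Agent.H184.T5.D.F9_33_3
import Pool.Agent.H184.T5.D.V_002
import Pool.Agent.H184.T5.D.V_003
import Pool.Agent.H184.T5.D.V_005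
import Pool.Agent.H184.T5.D.V_006

set_option autoImplicit false
set_option maxRecDepth 20000

namespace Pool.Agent.H805.T5.N0

open Pool.Agent.Helper582.Cube

def P : List (ℕ × ℕ) :=
  [(0x4000000200000020, 0x80000000000020000000001),
   (0x4000080000000002, 0x80200000000000000000001),
   (0x4000000000000014, 0x80200000001),
   (0x4000000200000002, 0x80000000000020000000001),
   (0x100000000004000000000000200, 0x200100001),
   (0x4000020000000080, 0x800000000000200000001),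
   (0x4000020000000100, 0x800000000000200000001),
   (0x4000020000000200, 0x800000000000200000001),
   (0x80000004000000000000004, 0x80200000001),
   (0x4000000200000080, 0x80000000000020000000001),
   (0x4000020000001004, 0x800000000000201000001),
   (0x4000000000000480, 0x800000000000200000001),
   (0x10000000000000004000004000000000, 0x800000000000000000011),
   (0x4000000200000008, 0x80200000000000000000001),
   (0x4000000200000100, 0x80000000000020000000001),
   (0x10000000000000004000008000000000, 0x10000000000000000200000001),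
   (0x4000020000040004, 0x10000800000000000200000001),
   (0x4000020000080004, 0x10000800000000000200000001),
   (0x4000020000100004, 0x10000800000000000200000001),
   (0x4000020000200004, 0x10000800000000000200000001),
   (0x4000020000400004, 0x800000000000201000001),
   (0x4000020000800004, 0x800000000000201000001),
   (0x4000020001000004, 0x10000800000000000200000001),
   (0x4000020002000004, 0x10000800000000000200000001),
   (0x4000000001000200, 0x10000000000000000200000001),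
   (0x4000000100000080, 0x10000000000000000200000001),
   (0x80000000004000004000000000, 0x10000000000000000200000001),
   (0x200004000000000000200, 0x80200000001),
   (0x4000000200000040, 0x80200000000000000000001),
   (0x200004000000080000004, 0x80200100001),
   (0x4000000100000004, 0x80200000001),
   (0x4000020400000004, 0x10000800000000000200000001),
   (0x4000000200000080, 0x80200000000000000000001),
   (0x4000000300000000, 0x80000000000020000000001),
   (0x4000022000000004, 0x800000000000201000001),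
   (0x4000040200000000, 0x80000000000020000000001),
   (0x4000800200000000, 0x80000000000020000000001),
   (0x4000030000000004, 0x10000800000000000200000001),
   (0x4000060000000004, 0x800000000000201000001),
   (0x40000a0000000004, 0x10000800000000000200000001),
   (0x4000000001000200, 0x10000000000000020000000001),
   (0x4000000200000200, 0x80200000000000000000001),
   (0x4000000600000000, 0x80000000000020000000001),
   (0x4000008200000000, 0x80000000000020000000001),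
   (0x4001020000000004, 0x10000800000000000200000001),
   (0x4002000200000000, 0x80000000000020000000001),
   (0x4400004000000000, 0x10000000000000000200000001),
   (0x4000000a00000000, 0x80200000000000000000001),
   (0x4000000000001004, 0x80200000001),
   (0x24000000200000000, 0x80000000000020000000001),
   (0x200004000000000004000, 0x80200000001),
   (0x4000000800000004, 0x80200000001),
   (0x10000000000000004000000000004000, 0x80000100001),
   (0x4000002000000004, 0x80200000001),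
   (0x200004000004000000000, 0x80200000001),
   (0x804000000200000000, 0x80000000000020000000001),
   (0x800004000000000001000, 0xa0000000001),
   (0x4000002200000000, 0x80200000000000000000001),
   (0x100000000004000000000001000, 0x80000100001),
   (0x1004000000200000000, 0x80000000000020000000001),
   (0x4000000200002000, 0x80200000000000000000001),
   (0x44000020000000004, 0x800000000000201000001),
   (0x84000020000000004, 0x800000000000201000001),
   (0x4040004000000000, 0x10000000000000000200000001),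
   (0x10000000000000004000800000000000, 0x800000000000000000011),
   (0x80000004000000000004000, 0x80200000001),
   (0x10000000000000004000800000000000, 0x200000000000000000011),
   (0x14000000200000000, 0x80000000000020000000001),
   (0x2004000020000000004, 0x10000800000000000200000001),
   (0x4004000000200000000, 0x80000000000020000000001),
   (0x8004000020000000004, 0x10000800000000000200000001),
   (0x4000010200000000, 0x80200000000000000000001),
   (0x4000000000020004, 0x80200000001),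
   (0x40004000020000000004, 0x10000800000000000200000001),
   (0x4000000000080004, 0x80200000001),
   (0x80000004000000000000100, 0x80200000001),
   (0x200004000020000000004, 0x10000800000000000200000001),
   (0x44000000200000000, 0x80200000000000000000001),
   (0x1000004000020000000004, 0x10000800000000000200000001),
   (0x80000004000000000000080, 0x80200000001),
   (0x44000000000000004, 0x80200000001),
   (0x8000004000020000000004, 0x800000000000201000001),
   (0x10000000000000004000000000000004, 0x200100001),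
   (0x2000000004000000200000000, 0x80000000000020000000001),
   (0x10000000000000004000000000000200, 0x10000000000000000200000001),
   (0x4000080100000000, 0x80200000000000000000001),
   (0x200000004000000000000004, 0x80200000001),
   (0x400000004000000000000004, 0x80200000001),
   (0x80000004000000000000200, 0x80200000001),
   (0x1000000004000000000000004, 0x800000000000200000001),
   (0x204000000200000000, 0x80200000000000000000001),
   (0x4000000004000020000000004, 0x10000800000000000200000001),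
   (0x1000000000000004000100000000000, 0x800000000000000000011),
   (0x4000000000100004, 0x80200000001),
   (0x10000004000000004000000000000000, 0x10000000000000000200000001),
   (0x4000000000400004, 0x80200000001),
   (0x800000004000000200000000, 0x80200000000000000000001),
   (0x200004000000001000000, 0x80200000001),
   (0x200000000004000020000000004, 0x10000800000000000200000001),
   (0x4000400000000004, 0x80200000001),
   (0x4000800000000004, 0x80200000001),
   (0x4001000000000004, 0x80200000001),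
   (0x2000000000000004000000200000000, 0x80000000000020000000001),
   (0x800004000000000004000, 0xa0000000001),
   (0x804000000000000004, 0x80200000001),
   (0x10000000000004000020000000004, 0x800000000000201000001),
   (0x2004000000000000004, 0x80200000001),
   (0x10000000000000004000000100000000, 0x10080000000000000000000001),
   (0x4000000200800000, 0x80200000000000000000001),
   (0x4001000200000000, 0x80200000000000000000001),
   (0x2004000000200000000, 0x80200000000000000000001),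
   (0x4000000004000000200000000, 0x80200000000000000000001),
   (0x8000000000000004000000200000000, 0x80000000000020000000001),
   (0x800004000000001000000, 0xa0000000001),
   (0x4002000200000000, 0x80200000000000000000001),
   (0x4000000101000000, 0x10080000000000000000000001),
   (0x8000000004000000200000000, 0x80200000000000000000001),
   (0x10000000000000004000020000000004, 0x800000000000201000001)]

theorem hP : ∀ p ∈ P, BP p.1 p.2 :=
  consP Pool.Agent.H184.T5.B.p33_91_5 <|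
  consP Pool.Agent.H184.T5.B.p1_91_43 <|
  consP Pool.Agent.H184.T5.B.p2_33_4 <|
  consP Pool.Agent.H184.T5.B.p1_91_33 <|
  consP Pool.Agent.H184.T5.B.p9_33_104 <|
  consP Pool.Agent.H184.T5.B.p7_33_41 <|
  consP Pool.Agent.H184.T5.V.p217 <|
  consP Pool.Agent.H184.T5.B.p9_33_41 <|
  consP Pool.Agent.H184.T5.B.p2_33_91 <|
  consP Pool.Agent.H184.T5.B.p33_91_7 <|
  consP Pool.Agent.H184.T5.V.p399 <|
  consP Pool.Agent.H184.T5.V.p150 <|
  consP Pool.Agent.H184.T5.V.p225 <|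
  consP Pool.Agent.H184.T5.B.p33_91_3 <|
  consP Pool.Agent.H184.T5.B.p33_91_8 <|
  consP Pool.Agent.H184.T5.V.p400 <|
  consP Pool.Agent.H184.T5.V.p401 <|
  consP Pool.Agent.H184.T5.V.p402 <|
  consP Pool.Agent.H184.T5.V.p403 <|
  consP Pool.Agent.H184.T5.V.p404 <|
  consP Pool.Agent.H184.T5.V.p405 <|
  consP Pool.Agent.H184.T5.V.p406 <|
  consP Pool.Agent.H184.T5.V.p407 <|
  consP Pool.Agent.H184.T5.V.p408 <|
  consP Pool.Agent.H184.T5.B.p9_33_24 <|
  consP Pool.Agent.H184.T5.V.p409 <|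
  consP Pool.Agent.H184.T5.B.p38_33_103 <|
  consP Pool.Agent.H184.T5.B.p9_33_81 <|
  consP Pool.Agent.H184.T5.V.p410 <|
  consP Pool.Agent.H184.T5.V.p411 <|
  consP Pool.Agent.H184.T5.B.p2_33_32 <|
  consP Pool.Agent.H184.T5.V.p412 <|
  consP Pool.Agent.H184.T5.V.p198 <|
  consP Pool.Agent.H184.T5.B.p32_91_33 <|
  consP Pool.Agent.H184.T5.V.p413 <|
  consP Pool.Agent.H184.T5.B.p33_91_42 <|
  consP Pool.Agent.H184.T5.B.p33_91_47 <|
  consP Pool.Agent.H184.T5.V.p414 <|
  consP Pool.Agent.H184.T5.V.p415 <|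
  consP Pool.Agent.H184.T5.V.p416 <|
  consP Pool.Agent.H184.T5.V.p417 <|
  consP Pool.Agent.H184.T5.B.p33_91_9 <|
  consP Pool.Agent.H184.T5.B.p33_91_34 <|
  consP Pool.Agent.H184.T5.B.p33_91_39 <|
  consP Pool.Agent.H184.T5.V.p418 <|
  consP Pool.Agent.H184.T5.B.p33_91_49 <|
  consP Pool.Agent.H184.T5.B.p38_33_58 <|
  consP Pool.Agent.H184.T5.B.p33_91_35 <|
  consP Pool.Agent.H184.T5.V.p419 <|
  consP Pool.Agent.H184.T5.B.p33_91_65 <|
  consP Pool.Agent.H184.T5.B.p14_43_81 <|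
  consP Pool.Agent.H184.T5.V.p420 <|
  consP Pool.Agent.H184.T5.B.p14_43_124 <|
  consP Pool.Agent.H184.T5.B.p2_33_37 <|
  consP Pool.Agent.H184.T5.B.p38_33_81 <|
  consP Pool.Agent.H184.T5.B.p33_91_71 <|
  consP Pool.Agent.H184.T5.B.p12_43_83 <|
  consP Pool.Agent.H184.T5.B.p33_91_37 <|
  consP Pool.Agent.H184.T5.B.p12_43_104 <|
  consP Pool.Agent.H184.T5.B.p33_91_72 <|
  consP Pool.Agent.H184.T5.B.p33_91_13 <|
  consP Pool.Agent.H184.T5.V.p421 <|
  consP Pool.Agent.H184.T5.V.p422 <|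
  consP Pool.Agent.H184.T5.B.p38_33_54 <|
  consP Pool.Agent.H184.T5.V.p423 <|
  consP Pool.Agent.H184.T5.B.p14_43_91 <|
  consP Pool.Agent.H184.T5.V.p424 <|
  consP Pool.Agent.H184.T5.B.p33_91_64 <|
  consP Pool.Agent.H184.T5.V.p425 <|
  consP Pool.Agent.H184.T5.B.p33_91_74 <|
  consP Pool.Agent.H184.T5.V.p426 <|
  consP Pool.Agent.H184.T5.B.p33_91_40 <|
  consP Pool.Agent.H184.T5.V.p427 <|
  consP Pool.Agent.H184.T5.V.p428 <|
  consP Pool.Agent.H184.T5.B.p2_33_19 <|
  consP Pool.Agent.H184.T5.B.p8_33_91 <|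
  consP Pool.Agent.H184.T5.V.p429 <|
  consP Pool.Agent.H184.T5.B.p33_91_66 <|
  consP Pool.Agent.H184.T5.V.p430 <|
  consP Pool.Agent.H184.T5.B.p7_33_91 <|
  consP Pool.Agent.H184.T5.B.p2_33_66 <|
  consP Pool.Agent.H184.T5.V.p431 <|
  consP Pool.Agent.H184.T5.B.p2_33_124 <|
  consP Pool.Agent.H184.T5.B.p33_91_97 <|
  consP Pool.Agent.H184.T5.B.p9_33_124 <|
  consP Pool.Agent.H184.T5.B.p32_91_43 <|
  consP Pool.Agent.H184.T5.B.p2_33_93 <|
  consP Pool.Agent.H184.T5.B.p2_33_94 <|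
  consP Pool.Agent.H184.T5.B.p9_33_91 <|
  consP Pool.Agent.H184.T5.B.p2_33_96 <|
  consP Pool.Agent.H184.T5.B.p33_91_69 <|
  consP Pool.Agent.H184.T5.V.p432 <|
  consP Pool.Agent.H184.T5.B.p44_4_120 <|
  consP Pool.Agent.H184.T5.B.p2_33_20 <|
  consP Pool.Agent.H184.T5.B.p124_33_98 <|
  consP Pool.Agent.H184.T5.B.p2_33_22 <|
  consP Pool.Agent.H184.T5.B.p33_91_95 <|
  consP Pool.Agent.H184.T5.B.p24_43_81 <|
  consP Pool.Agent.H184.T5.V.p433 <|
  consP Pool.Agent.H184.T5.V.p434 <|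
  consP Pool.Agent.H184.T5.B.p2_33_47 <|
  consP Pool.Agent.H184.T5.V.p435 <|
  consP Pool.Agent.H184.T5.B.p33_91_121 <|
  consP Pool.Agent.H184.T5.B.p14_43_83 <|
  consP Pool.Agent.H184.T5.V.p436 <|
  consP Pool.Agent.H184.T5.V.p437 <|
  consP Pool.Agent.H184.T5.B.p2_33_73 <|
  consP Pool.Agent.H184.T5.B.p32_91_124 <|
  consP Pool.Agent.H184.T5.B.p33_91_23 <|
  consP Pool.Agent.H184.T5.B.p33_91_48 <|
  consP Pool.Agent.H184.T5.B.p33_91_73 <|
  consP Pool.Agent.H184.T5.B.p33_91_98 <|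
  consP Pool.Agent.H184.T5.B.p33_91_123 <|
  consP Pool.Agent.H184.T5.B.p24_43_83 <|
  consP Pool.Agent.H184.T5.V.p209 <|
  consP Pool.Agent.H184.T5.B.p32_91_24 <|
  consP Pool.Agent.H184.T5.B.p33_91_99 <|
  consP Pool.Agent.H184.T5.V.p438 <|
  nilP

def T : List Ent :=
  [⟨12, 24, 0, 10⟩,
   ⟨18, 100, 0, 16⟩,
   ⟨19, 100, 0, 17⟩,
   ⟨20, 100, 0, 18⟩,
   ⟨21, 100, 0, 19⟩,
   ⟨22, 24, 0, 20⟩,
   ⟨23, 24, 0, 21⟩,
   ⟨24, 100, 0, 22⟩,
   ⟨25, 100, 0, 23⟩,
   ⟨31, 100, 1, 29⟩,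
   ⟨34, 100, 0, 31⟩,
   ⟨37, 24, 0, 34⟩,
   ⟨40, 100, 0, 37⟩,
   ⟨42, 24, 0, 38⟩,
   ⟨43, 100, 0, 39⟩,
   ⟨48, 100, 0, 44⟩,
   ⟨66, 24, 0, 61⟩,
   ⟨67, 24, 0, 62⟩,
   ⟨73, 100, 0, 68⟩,
   ⟨75, 100, 0, 70⟩,
   ⟨78, 100, 0, 73⟩,
   ⟨81, 100, 0, 76⟩,
   ⟨84, 100, 0, 78⟩,
   ⟨87, 24, 0, 81⟩,
   ⟨98, 100, 0, 91⟩,
   ⟨105, 100, 0, 98⟩,
   ⟨112, 24, 0, 105⟩,
   ⟨124, 24, 0, 117⟩]

def F : List Ent :=
  [⟨1, 2, 4, 0⟩,
   ⟨3, 2, 3, 1⟩,
   ⟨4, 41, 1, 2⟩,
   ⟨5, 2, 4, 3⟩,
   ⟨6, 2, 66, 4⟩,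
   ⟨7, 2, 0, 5⟩,
   ⟨8, 2, 0, 6⟩,
   ⟨9, 2, 0, 7⟩,
   ⟨10, 2, 10, 8⟩,
   ⟨11, 2, 4, 9⟩,
   ⟨13, 41, 6, 11⟩,
   ⟨14, 2, 118, 12⟩,
   ⟨15, 2, 8, 13⟩,
   ⟨16, 2, 4, 14⟩,
   ⟨17, 2, 68, 15⟩,
   ⟨26, 2, 67, 24⟩,
   ⟨27, 41, 67, 25⟩,
   ⟨28, 41, 68, 26⟩,
   ⟨29, 2, 1, 27⟩,
   ⟨30, 2, 8, 28⟩,
   ⟨32, 41, 1, 30⟩,
   ⟨35, 2, 8, 32⟩,
   ⟨36, 2, 4, 33⟩,
   ⟨38, 2, 4, 35⟩,
   ⟨39, 2, 4, 36⟩,
   ⟨44, 2, 81, 40⟩,
   ⟨45, 2, 8, 41⟩,
   ⟨46, 2, 4, 42⟩,
   ⟨47, 2, 4, 43⟩,
   ⟨49, 2, 4, 45⟩,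
   ⟨50, 41, 68, 46⟩,
   ⟨51, 2, 8, 47⟩,
   ⟨52, 41, 1, 48⟩,
   ⟨53, 2, 4, 49⟩,
   ⟨54, 2, 1, 50⟩,
   ⟨55, 41, 1, 51⟩,
   ⟨56, 2, 90, 52⟩,
   ⟨57, 41, 1, 53⟩,
   ⟨58, 2, 1, 54⟩,
   ⟨59, 2, 4, 55⟩,
   ⟨60, 2, 11, 56⟩,
   ⟨61, 2, 8, 57⟩,
   ⟨63, 2, 95, 58⟩,
   ⟨64, 2, 4, 59⟩,
   ⟨65, 2, 8, 60⟩,
   ⟨68, 41, 68, 63⟩,
   ⟨69, 2, 118, 64⟩,
   ⟨70, 2, 10, 65⟩,
   ⟨71, 2, 104, 66⟩,
   ⟨72, 2, 4, 67⟩,
   ⟨74, 2, 4, 69⟩,
   ⟨76, 2, 8, 71⟩,
   ⟨77, 41, 1, 72⟩,
   ⟨79, 41, 1, 74⟩,
   ⟨80, 2, 10, 75⟩,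
   ⟨82, 2, 8, 77⟩,
   ⟨85, 2, 10, 79⟩,
   ⟨86, 41, 1, 80⟩,
   ⟨88, 2, 70, 82⟩,
   ⟨89, 2, 4, 83⟩,
   ⟨90, 2, 68, 84⟩,
   ⟨91, 41, 1, 8⟩,
   ⟨92, 2, 3, 85⟩,
   ⟨93, 41, 1, 86⟩,
   ⟨94, 41, 1, 87⟩,
   ⟨95, 2, 10, 88⟩,
   ⟨96, 41, 0, 89⟩,
   ⟨97, 2, 8, 90⟩,
   ⟨99, 2, 116, 92⟩,
   ⟨100, 41, 1, 93⟩,
   ⟨101, 2, 68, 94⟩,
   ⟨102, 41, 1, 95⟩,
   ⟨103, 2, 8, 96⟩,
   ⟨104, 2, 1, 97⟩,
   ⟨106, 41, 1, 99⟩,
   ⟨107, 41, 1, 100⟩,
   ⟨108, 41, 1, 101⟩,
   ⟨109, 2, 4, 102⟩,
   ⟨110, 2, 11, 103⟩,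
   ⟨111, 41, 1, 104⟩,
   ⟨113, 41, 1, 106⟩,
   ⟨114, 2, 128, 107⟩,
   ⟨115, 2, 8, 108⟩,
   ⟨116, 2, 8, 109⟩,
   ⟨117, 2, 8, 110⟩,
   ⟨118, 2, 8, 111⟩,
   ⟨119, 2, 4, 112⟩,
   ⟨120, 2, 11, 113⟩,
   ⟨121, 2, 8, 114⟩,
   ⟨122, 2, 127, 115⟩,
   ⟨123, 2, 8, 116⟩]

theorem ok : nodeOK2 autA 192 P [2, 41, 62] [0, 33, 83] T F = true := by decide +kernel

theorem t : BP 0x4000020000000004 0x800000000000200000001 := by
  have h := node2 autOK hP ok
  rw [show maskL [2, 41, 62] = 0x4000020000000004 from by decide +kernel, show maskL [0, 33, 83] = 0x800000000000200000001 from by decide +kernel] at h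
  exact h

end Pool.Agent.H805.T5.N0
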