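import Mathlib
import Pool.Agent.H805.T5.Tree2
import Pool.Agent.H805.T5.Auts
import Pool.Agent.H184.T5.D.F12_43_0
import Pool.Agent.H184.T5.D.F12_43_1
import Pool.Agent.H184.T5.D.F14_43_0
import Pool.Agent.H184.T5.D.F14_43_1
import Pool.Agent.H184.T5.D.F14_43_2
import Pool.Agent.H184.T5.D.F1_91_0
import Pool.Agent.H184.T5.D.F24_43_0
import Pool.Agent.H184.T5.D.F2_33_0
import Pool.Agent.H184.T5.D.F32_91_0
import Pool.Agent.H184.T5.D.F32_91_1
import Pool.Agent.H184.T5.D.F33_91_0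
import Pool.Agent.H184.T5.D.F34_33_0
import Pool.Agent.H184.T5.D.F34_33_1
import Pool.Agent.H184.T5.D.F38_33_1
import Pool.Agent.H184.T5.D.F4_33_0
import Pool.Agent.H184.T5.D.F4_33_1
import Pool.Agent.H184.T5.D.F64_41_2
import Pool.Agent.H184.T5.D.F7_33_0
import Pool.Agent.H184.T5.D.F8_33_0
import Pool.Agent.H184.T5.D.F8_33_1
import Pool.Agent.H184.T5.D.F9_33_0
import Pool.Agent.H184.T5.D.F9_33_1
import Pool.Agent.H184.T5.D.V_000
import Pool.Agent.H184.T5.D.V_001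
import Pool.Agent.H184.T5.D.V_005

set_option autoImplicit false
set_option maxRecDepth 20000

namespace Pool.Agent.H805.T5.N1

open Pool.Agent.Helper582.Cube

def P : List (ℕ × ℕ) :=
  [(0x4000000000000014, 0x80200000001),
   (0x4000000000000012, 0x80000000000020000000001),
   (0x4000000000000032, 0x100000000000000080200000001),
   (0x4000000400000200, 0x10000000000000000200000001),
   (0x4000000000000092, 0x100000000000000080200000001),
   (0x4000000000000112, 0x80200100001),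
   (0x4000000000000202, 0x80200000001),
   (0x4000000000000410, 0x80200000001),
   (0x4000008400000000, 0x200100001),
   (0x4000000000001002, 0x80200000001),
   (0x4000000c00000000, 0x200100001),
   (0x4000000000004010, 0x80200000001),
   (0x4000000000008010, 0x80200000001),
   (0x4002000400000000, 0x200100001),
   (0x4000800400000000, 0x200100001),
   (0x4000000000040012, 0x80200100001),
   (0x4000400400000000, 0x200100001),
   (0x4000000000100012, 0x100000000000000080200000001),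
   (0x4000000000200012, 0x80200100001),
   (0x4000000000004020, 0xa0000000001),
   (0x40000004000100000000000, 0x10000000000000020000000001),
   (0x4000000001000010, 0x80200000001),
   (0x4000000400000100, 0x200100001),
   (0x4000000400000200, 0x200100001),
   (0x4000000000000082, 0x800000000000200000001),
   (0x4000000000000102, 0x800000000000200000001),
   (0x4000000000000202, 0x800000000000200000001),
   (0x400000004000000000000002, 0x10080000000000000000000001),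
   (0x4000000080000012, 0xa0200000001),
   (0x4000000080000004, 0x200100001),
   (0x4000000400000002, 0x80200000001),
   (0x4000000400002000, 0x200100001),
   (0x4000000400004000, 0x200100001),
   (0x4000100000001000, 0x80000100001),
   (0x8004000004000000000, 0x80200000001),
   (0x4000000400000800, 0x200100001),
   (0x8004000000000000100, 0x80200000001),
   (0x4000020000000012, 0x80200100001),
   (0x4000000400400000, 0x200100001),
   (0x4000100000000012, 0x100000000000000080200000001),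
   (0x4000000400040000, 0x200100001),
   (0x4000000400080000, 0x200100001),
   (0x4000000400020000, 0x200100001),
   (0x4001000000000012, 0x80200100001),
   (0x4002000000000010, 0x80200000001),
   (0x4000000000008004, 0x800000000000200000001),
   (0x4000008400000000, 0x10000000000000000200000001),
   (0x4000002400000000, 0x10000000000000000200000001),
   (0x4000000000008080, 0x800000000000200000001),
   (0x4000001400000000, 0x10000000000000000200000001),
   (0x4000000400002000, 0x10000000000000000200000001),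
   (0x4100000000000012, 0x100000000000000080200000001),
   (0x100000000000014000000000000000, 0x20000000011),
   (0x4000000400000400, 0x10000000000000000200000001),
   (0x4000008000000002, 0x800000000000200000001),
   (0x8004000000000001000, 0xa0000000001),
   (0x6000000000000012, 0xa0200000001),
   (0xc000000000000010, 0x800000000000200000001),
   (0x6000000400000000, 0x10000000000000000200000001),
   (0x8004000000000000080, 0x80200000001),
   (0x4004000000400000000, 0x200100001),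
   (0x1004000000400000000, 0x200100001),
   (0x4001000000000004, 0x10000000000000000200000001),
   (0x804000000400000000, 0x200100001),
   (0x8004000000000004000, 0xa0000000001),
   (0x204000000400000000, 0x200100001),
   (0x1004000000000000012, 0x100000000000000080200000001),
   (0x24000000400000000, 0x200100001),
   (0x1000000004000000100000000, 0x10080000000000000000000001),
   (0x8004000000000000012, 0x80200100001),
   (0x10004000000000000012, 0x80200100001),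
   (0x20004000000000000012, 0x80200100001),
   (0x4000200400000000, 0x10000000000000000200000001),
   (0x80004000000000000012, 0x100000000000000080200000001),
   (0x4000000400800000, 0x10000000000000000200000001),
   (0x4000000200000020, 0x80000000000020000000001),
   (0x4000000000000004000100000000000, 0x10000000000000020000000001),
   (0x800004000000000000012, 0x100000000000000080200000001),
   (0x4000000400200000, 0x10000000000000000200000001),
   (0x2000004000000000000012, 0x80200100001),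
   (0x4000004000000000000012, 0x80200100001),
   (0x8000004000000000000012, 0x80200100001),
   (0x400000000000004000000000004000, 0x80000100001),
   (0x804000000400000000, 0x10000000000000000200000001),
   (0x4001000000000200, 0x10000000000000000200000001),
   (0x4000000200000008, 0x80200000000000000000001),
   (0x4000000100000008, 0x80000000000020000000001),
   (0x200000004000000000000012, 0x800000000080200000001),
   (0x2000000000000004000000400000000, 0x200100001),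
   (0x1000000004000000200000000, 0x800000000000000000011),
   (0x8000000004000000400000000, 0x10000000000000000200000001),
   (0x2000000004000000400000000, 0x10000000000000000200000001),
   (0x800000004000000400000000, 0x10000000000000000200000001),
   (0x1000000004000000400000000, 0x10000000000000000200000001),
   (0x10000000004000000000000012, 0x80200100001),
   (0x20000000004000000000000012, 0x80200100001),
   (0x4000040400000000, 0x10000000000000000200000001),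
   (0x4000000000008200, 0x800000000000200000001),
   (0x100000000004000000000000012, 0x80200100001),
   (0x4000000400040000, 0x10000000000000000200000001),
   (0x400000000004000000000000012, 0x80200100001),
   (0x4000000400020000, 0x10000000000000000200000001),
   (0x4000000400008000, 0x10000000000000000200000001),
   (0x2000000000004000000000000012, 0x80200100001),
   (0x4000000000004000000000000012, 0x80200100001),
   (0x8000000000004000000000000012, 0x80200100001),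
   (0x84000000400000000, 0x10000000000000000200000001),
   (0x24000000400000000, 0x10000000000000000200000001),
   (0x40000000000004000000000000012, 0x100000000000000080200000001),
   (0x800000004000000000000010, 0x800000000000200000001),
   (0x1000000004000000000000010, 0x800000000000200000001),
   (0x2000000004000000400000000, 0x200100001),
   (0x800000004000000400000000, 0x200100001),
   (0x1000000004000000400000000, 0x200100001),
   (0x8004000000001000000, 0x80200000001),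
   (0x400000004000000400000000, 0x200100001),
   (0x4000000000000004000000000000010, 0x800000000000200000001),
   (0x8000000000000004000000000000010, 0x800000000000200000001),
   (0x10000000000000004000000000000010, 0x800000000000200000001)]

theorem hP : ∀ p ∈ P, BP p.1 p.2 :=
  consP Pool.Agent.H184.T5.B.p2_33_4 <|
  consP Pool.Agent.H184.T5.B.p1_91_4 <|
  consP Pool.Agent.H184.T5.V.p370 <|
  consP Pool.Agent.H184.T5.B.p9_33_34 <|
  consP Pool.Agent.H184.T5.V.p371 <|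
  consP Pool.Agent.H184.T5.V.p372 <|
  consP Pool.Agent.H184.T5.V.p29 <|
  consP Pool.Agent.H184.T5.B.p4_33_10 <|
  consP Pool.Agent.H184.T5.B.p34_33_39 <|
  consP Pool.Agent.H184.T5.B.p12_43_1 <|
  consP Pool.Agent.H184.T5.V.p31 <|
  consP Pool.Agent.H184.T5.B.p14_43_4 <|
  consP Pool.Agent.H184.T5.B.p4_33_15 <|
  consP Pool.Agent.H184.T5.B.p34_33_49 <|
  consP Pool.Agent.H184.T5.B.p34_33_47 <|
  consP Pool.Agent.H184.T5.V.p374 <|
  consP Pool.Agent.H184.T5.B.p34_33_46 <|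
  consP Pool.Agent.H184.T5.V.p106 <|
  consP Pool.Agent.H184.T5.V.p375 <|
  consP Pool.Agent.H184.T5.B.p14_43_5 <|
  consP Pool.Agent.H184.T5.V.p30 <|
  consP Pool.Agent.H184.T5.B.p4_33_24 <|
  consP Pool.Agent.H184.T5.B.p8_33_34 <|
  consP Pool.Agent.H184.T5.V.p2 <|
  consP Pool.Agent.H184.T5.B.p7_33_1 <|
  consP Pool.Agent.H184.T5.B.p8_33_1 <|
  consP Pool.Agent.H184.T5.B.p9_33_1 <|
  consP Pool.Agent.H184.T5.V.p0 <|
  consP Pool.Agent.H184.T5.V.p79 <|
  consP Pool.Agent.H184.T5.B.p2_33_31 <|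
  consP Pool.Agent.H184.T5.B.p34_33_1 <|
  consP Pool.Agent.H184.T5.B.p34_33_13 <|
  consP Pool.Agent.H184.T5.B.p34_33_14 <|
  consP Pool.Agent.H184.T5.B.p12_43_44 <|
  consP Pool.Agent.H184.T5.B.p38_33_75 <|
  consP Pool.Agent.H184.T5.B.p34_33_11 <|
  consP Pool.Agent.H184.T5.B.p8_33_75 <|
  consP Pool.Agent.H184.T5.V.p376 <|
  consP Pool.Agent.H184.T5.B.p34_33_22 <|
  consP Pool.Agent.H184.T5.V.p377 <|
  consP Pool.Agent.H184.T5.B.p34_33_18 <|
  consP Pool.Agent.H184.T5.B.p34_33_19 <|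
  consP Pool.Agent.H184.T5.B.p34_33_17 <|
  consP Pool.Agent.H184.T5.V.p378 <|
  consP Pool.Agent.H184.T5.B.p4_33_49 <|
  consP Pool.Agent.H184.T5.B.p2_33_15 <|
  consP Pool.Agent.H184.T5.V.p23 <|
  consP Pool.Agent.H184.T5.V.p21 <|
  consP Pool.Agent.H184.T5.B.p7_33_15 <|
  consP Pool.Agent.H184.T5.V.p22 <|
  consP Pool.Agent.H184.T5.V.p15 <|
  consP Pool.Agent.H184.T5.V.p379 <|
  consP Pool.Agent.H184.T5.B.p64_41_116 <|
  consP Pool.Agent.H184.T5.B.p34_33_10 <|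
  consP Pool.Agent.H184.T5.V.p16 <|
  consP Pool.Agent.H184.T5.B.p12_43_75 <|
  consP Pool.Agent.H184.T5.V.p380 <|
  consP Pool.Agent.H184.T5.B.p4_33_63 <|
  consP Pool.Agent.H184.T5.B.p34_33_61 <|
  consP Pool.Agent.H184.T5.V.p24 <|
  consP Pool.Agent.H184.T5.B.p34_33_74 <|
  consP Pool.Agent.H184.T5.B.p34_33_72 <|
  consP Pool.Agent.H184.T5.B.p2_33_48 <|
  consP Pool.Agent.H184.T5.V.p25 <|
  consP Pool.Agent.H184.T5.B.p14_43_75 <|
  consP Pool.Agent.H184.T5.B.p34_33_69 <|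
  consP Pool.Agent.H184.T5.V.p381 <|
  consP Pool.Agent.H184.T5.V.p18 <|
  consP Pool.Agent.H184.T5.B.p32_91_96 <|
  consP Pool.Agent.H184.T5.V.p382 <|
  consP Pool.Agent.H184.T5.V.p383 <|
  consP Pool.Agent.H184.T5.V.p384 <|
  consP Pool.Agent.H184.T5.B.p34_33_45 <|
  consP Pool.Agent.H184.T5.V.p385 <|
  consP Pool.Agent.H184.T5.V.p35 <|
  consP Pool.Agent.H184.T5.B.p33_91_5 <|
  consP Pool.Agent.H184.T5.V.p36 <|
  consP Pool.Agent.H184.T5.V.p386 <|
  consP Pool.Agent.H184.T5.B.p34_33_21 <|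
  consP Pool.Agent.H184.T5.V.p387 <|
  consP Pool.Agent.H184.T5.V.p388 <|
  consP Pool.Agent.H184.T5.V.p389 <|
  consP Pool.Agent.H184.T5.B.p14_43_118 <|
  consP Pool.Agent.H184.T5.B.p34_33_71 <|
  consP Pool.Agent.H184.T5.B.p9_33_48 <|
  consP Pool.Agent.H184.T5.B.p33_91_3 <|
  consP Pool.Agent.H184.T5.B.p32_91_3 <|
  consP Pool.Agent.H184.T5.V.p52 <|
  consP Pool.Agent.H184.T5.B.p34_33_121 <|
  consP Pool.Agent.H184.T5.V.p369 <|
  consP Pool.Agent.H184.T5.B.p34_33_99 <|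
  consP Pool.Agent.H184.T5.V.p38 <|
  consP Pool.Agent.H184.T5.V.p37 <|
  consP Pool.Agent.H184.T5.V.p39 <|
  consP Pool.Agent.H184.T5.V.p390 <|
  consP Pool.Agent.H184.T5.V.p391 <|
  consP Pool.Agent.H184.T5.V.p11 <|
  consP Pool.Agent.H184.T5.B.p9_33_15 <|
  consP Pool.Agent.H184.T5.V.p392 <|
  consP Pool.Agent.H184.T5.V.p5 <|
  consP Pool.Agent.H184.T5.V.p393 <|
  consP Pool.Agent.H184.T5.V.p6 <|
  consP Pool.Agent.H184.T5.B.p34_33_15 <|
  consP Pool.Agent.H184.T5.V.p394 <|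
  consP Pool.Agent.H184.T5.V.p395 <|
  consP Pool.Agent.H184.T5.V.p396 <|
  consP Pool.Agent.H184.T5.B.p34_33_67 <|
  consP Pool.Agent.H184.T5.B.p34_33_65 <|
  consP Pool.Agent.H184.T5.V.p397 <|
  consP Pool.Agent.H184.T5.B.p4_33_95 <|
  consP Pool.Agent.H184.T5.B.p4_33_96 <|
  consP Pool.Agent.H184.T5.B.p34_33_97 <|
  consP Pool.Agent.H184.T5.B.p34_33_95 <|
  consP Pool.Agent.H184.T5.B.p34_33_96 <|
  consP Pool.Agent.H184.T5.B.p24_43_75 <|
  consP Pool.Agent.H184.T5.B.p34_33_94 <|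
  consP Pool.Agent.H184.T5.B.p4_33_122 <|
  consP Pool.Agent.H184.T5.B.p4_33_123 <|
  consP Pool.Agent.H184.T5.B.p4_33_124 <|
  nilP

def T : List Ent :=
  [⟨5, 104, 0, 2⟩,
   ⟨7, 104, 0, 4⟩,
   ⟨8, 20, 0, 5⟩,
   ⟨18, 20, 0, 15⟩,
   ⟨20, 104, 0, 17⟩,
   ⟨21, 20, 0, 18⟩,
   ⟨31, 41, 0, 28⟩,
   ⟨41, 20, 0, 37⟩,
   ⟨44, 104, 0, 39⟩,
   ⟨48, 20, 0, 43⟩,
   ⟨56, 104, 0, 51⟩,
   ⟨61, 41, 0, 56⟩,
   ⟨72, 104, 0, 66⟩,
   ⟨75, 20, 0, 69⟩,
   ⟨76, 20, 0, 70⟩,
   ⟨77, 20, 0, 71⟩,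
   ⟨79, 104, 0, 73⟩,
   ⟨83, 104, 0, 77⟩,
   ⟨85, 20, 0, 79⟩,
   ⟨86, 20, 0, 80⟩,
   ⟨87, 20, 0, 81⟩,
   ⟨93, 83, 0, 87⟩,
   ⟨100, 20, 0, 94⟩,
   ⟨101, 20, 0, 95⟩,
   ⟨104, 20, 0, 98⟩,
   ⟨106, 20, 0, 100⟩,
   ⟨109, 20, 0, 103⟩,
   ⟨110, 20, 0, 104⟩,
   ⟨111, 20, 0, 105⟩,
   ⟨114, 104, 0, 108⟩]

def F : List Ent :=
  [⟨2, 1, 0, 0⟩,
   ⟨3, 1, 3, 1⟩,
   ⟨6, 4, 66, 3⟩,
   ⟨9, 4, 0, 6⟩,
   ⟨10, 1, 0, 7⟩,
   ⟨11, 4, 67, 8⟩,
   ⟨12, 4, 0, 9⟩,
   ⟨13, 4, 67, 10⟩,
   ⟨14, 1, 0, 11⟩,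
   ⟨15, 1, 0, 12⟩,
   ⟨16, 4, 67, 13⟩,
   ⟨17, 4, 67, 14⟩,
   ⟨19, 4, 67, 16⟩,
   ⟨22, 4, 4, 19⟩,
   ⟨23, 4, 79, 20⟩,
   ⟨24, 1, 0, 21⟩,
   ⟨25, 4, 67, 22⟩,
   ⟨26, 4, 67, 23⟩,
   ⟨27, 4, 1, 24⟩,
   ⟨28, 4, 1, 25⟩,
   ⟨29, 4, 1, 26⟩,
   ⟨30, 4, 126, 27⟩,
   ⟨32, 1, 67, 29⟩,
   ⟨34, 4, 0, 30⟩,
   ⟨35, 4, 67, 31⟩,
   ⟨36, 4, 67, 32⟩,
   ⟨37, 4, 91, 33⟩,
   ⟨38, 4, 11, 34⟩,
   ⟨39, 4, 67, 35⟩,
   ⟨40, 4, 11, 36⟩,
   ⟨42, 4, 67, 38⟩,
   ⟨45, 4, 67, 40⟩,
   ⟨46, 4, 67, 41⟩,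
   ⟨47, 4, 67, 42⟩,
   ⟨49, 1, 0, 44⟩,
   ⟨50, 4, 7, 45⟩,
   ⟨51, 4, 66, 46⟩,
   ⟨52, 4, 66, 47⟩,
   ⟨53, 4, 7, 48⟩,
   ⟨54, 4, 66, 49⟩,
   ⟨55, 4, 66, 50⟩,
   ⟨57, 4, 83, 52⟩,
   ⟨58, 4, 66, 53⟩,
   ⟨59, 4, 1, 54⟩,
   ⟨60, 4, 10, 55⟩,
   ⟨63, 1, 1, 57⟩,
   ⟨64, 4, 66, 58⟩,
   ⟨65, 4, 11, 59⟩,
   ⟨66, 4, 67, 60⟩,
   ⟨67, 4, 67, 61⟩,
   ⟨68, 4, 69, 62⟩,
   ⟨69, 4, 67, 63⟩,
   ⟨70, 4, 10, 64⟩,
   ⟨71, 4, 67, 65⟩,
   ⟨73, 4, 67, 67⟩,
   ⟨74, 4, 129, 68⟩,
   ⟨78, 4, 66, 72⟩,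
   ⟨80, 4, 66, 74⟩,
   ⟨81, 4, 5, 75⟩,
   ⟨82, 4, 79, 76⟩,
   ⟨84, 4, 66, 78⟩,
   ⟨88, 4, 94, 82⟩,
   ⟨89, 4, 66, 83⟩,
   ⟨90, 4, 69, 84⟩,
   ⟨91, 4, 2, 85⟩,
   ⟨92, 4, 3, 86⟩,
   ⟨94, 4, 67, 88⟩,
   ⟨95, 1, 119, 89⟩,
   ⟨96, 4, 66, 90⟩,
   ⟨97, 4, 66, 91⟩,
   ⟨98, 4, 66, 92⟩,
   ⟨99, 4, 66, 93⟩,
   ⟨102, 4, 66, 96⟩,
   ⟨103, 4, 7, 97⟩,
   ⟨105, 4, 66, 99⟩,
   ⟨107, 4, 66, 101⟩,
   ⟨108, 4, 66, 102⟩,
   ⟨112, 4, 66, 106⟩,
   ⟨113, 4, 66, 107⟩,
   ⟨115, 1, 1, 109⟩,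
   ⟨116, 1, 1, 110⟩,
   ⟨117, 4, 67, 111⟩,
   ⟨118, 4, 67, 112⟩,
   ⟨119, 4, 67, 113⟩,
   ⟨120, 4, 11, 114⟩,
   ⟨121, 4, 67, 115⟩,
   ⟨122, 1, 1, 116⟩,
   ⟨123, 1, 1, 117⟩,
   ⟨124, 1, 1, 118⟩]

theorem ok : nodeOK2 autA 192 P [1, 4, 62] [0, 33, 43] T F = true := by decide +kernel

theorem t : BP 0x4000000000000012 0x80200000001 := by
  have h := node2 autOK hP ok
  rw [show maskL [1, 4, 62] = 0x4000000000000012 from by decide +kernel, show maskL [0, 33, 43] = 0x80200000001 from by decide +kernel] at h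
  exact h

end Pool.Agent.H805.T5.N1
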