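import Mathlib
import Pool.Agent.H805.T5.Tree2
import Pool.Agent.H805.T5.Auts
import Pool.Agent.H184.T5.D.F12_43_1
import Pool.Agent.H184.T5.D.F1_91_0
import Pool.Agent.H184.T5.D.F1_91_1
import Pool.Agent.H184.T5.D.F24_43_0
import Pool.Agent.H184.T5.D.F24_43_1
import Pool.Agent.H184.T5.D.F2_33_0
import Pool.Agent.H184.T5.D.F2_33_1
import Pool.Agent.H184.T5.D.F32_91_0
import Pool.Agent.H184.T5.D.F33_91_0
import Pool.Agent.H184.T5.D.F34_33_1
import Pool.Agent.H184.T5.D.F38_33_2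
import Pool.Agent.H184.T5.D.F39_33_1
import Pool.Agent.H184.T5.D.F39_33_2
import Pool.Agent.H184.T5.D.F44_4_0
import Pool.Agent.H184.T5.D.F4_33_0
import Pool.Agent.H184.T5.D.F4_33_1
import Pool.Agent.H184.T5.D.F64_41_2
import Pool.Agent.H184.T5.D.F7_33_2
import Pool.Agent.H184.T5.D.F8_33_0
import Pool.Agent.H184.T5.D.F9_33_0
import Pool.Agent.H184.T5.D.F9_33_2
import Pool.Agent.H184.T5.D.V_000
import Pool.Agent.H184.T5.D.V_001
import Pool.Agent.H184.T5.D.V_004
import Pool.Agent.H184.T5.D.V_005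
import Pool.Agent.H184.T5.D.V_007
import Pool.Agent.H184.T5.D.V_010
import Pool.Agent.H184.T5.D.V_011
import Pool.Agent.H184.T5.D.V_018
import Pool.Agent.H184.T5.D.V_019
import Pool.Agent.H184.T5.D.V_020
import Pool.Agent.H184.T5.D.V_023

set_option autoImplicit false
set_option maxRecDepth 20000

namespace Pool.Agent.H805.T5.N3

open Pool.Agent.Helper582.Cube

def P : List (ℕ × ℕ) :=
  [(0x4000000000080012, 0x10000000000000020200000001),
   (0x80004000000000000014, 0x80200100001),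
   (0x4000000084000000, 0xa0000000001),
   (0x4000000000080030, 0x10000800000000000200000001),
   (0x400000000004000000000000200, 0x80200000001),
   (0x4000000000080080, 0x10000000000000000200000001),
   (0x4000000000080100, 0x10000000000000000200000001),
   (0x4000000000080200, 0x10000000000000000200000001),
   (0x4000000000080410, 0x10000000000000020200000001),
   (0x4000000000000810, 0x10000000000000000200000001),
   (0x2000000000014000000000000000, 0x20000000011),
   (0x4000000000002010, 0x10000000000000000200000001),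
   (0x4000000000004010, 0x10000000000000000200000001),
   (0x4000000000088010, 0x10000000000000020200000001),
   (0x4002100000000000, 0x200000000000000000011),
   (0x40000000000a0010, 0x10000000000000020200000001),
   (0x40000000000c0010, 0x10000000000000020200000001),
   (0x4000000000300010, 0x10000800000000000200000001),
   (0x4000000000280010, 0x10000000000000020200000001),
   (0x4000000000480010, 0x10000000000000020200000001),
   (0x4000000000880010, 0x10000000000000020200000001),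
   (0x4000000600000000, 0x80000000000020000000001),
   (0x4000000002080010, 0x10000800000000000200000001),
   (0x4000000000000050, 0x200100001),
   (0x4000000008080010, 0x10000000000000020200000001),
   (0x4000000400000002, 0x80000000000020000000001),
   (0x4000000000000210, 0x200100001),
   (0x4000000004000000000000002, 0x80000000000020000000001),
   (0x4000000080080010, 0x10000000000000020200000001),
   (0x4000400000000004, 0x800000000000200000001),
   (0x4000000400080010, 0x10000000000000020200000001),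
   (0x400000004000000000000080, 0x800000000000200000001),
   (0x4000001000000010, 0x10000000000000000200000001),
   (0x4000002000080010, 0x10000000000000020200000001),
   (0x400000004000000000000004, 0x80200000001),
   (0x4000008000000010, 0x10000000000000000200000001),
   (0x4000010000080010, 0x10000000000000020200000001),
   (0x4000020000080010, 0x10000800000000000200000001),
   (0x4000040000080010, 0x10000000000000000200100001),
   (0x4002000080000000, 0x200000000000000000011),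
   (0x4000100000080010, 0x10000000000000020200000001),
   (0x2000000000000004000000000000200, 0x200100001),
   (0x4000400000080010, 0x10000800000000000200000001),
   (0x4000800000080010, 0x10000800000000000200000001),
   (0x2000000000000004000000400000000, 0x200100001),
   (0x4002000000080010, 0x10000800000000000200000001),
   (0x400000000004000004000000000, 0x80200000001),
   (0x400000000004000008000000000, 0x80200000001),
   (0x8000000004000000000001000, 0x80000000011),
   (0x4020000000080010, 0x10000800000000000200000001),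
   (0x4040000000080010, 0x10000000000000020200000001),
   (0x4080000000080010, 0x10000800000000000200000001),
   (0x4100000000080010, 0x10000000000000020200000001),
   (0x8000000004000002000000000, 0x80000000011),
   (0x4000004001000000, 0x80000100001),
   (0x80004000008000000000, 0x200100001),
   (0x20000000004000000000001000, 0x80000100001),
   (0x6000000000000010, 0x10000000000000000200000001),
   (0x400000004000000000001000, 0x80200000001),
   (0x14000000000080010, 0x10000000000000020200000001),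
   (0x24000000000080010, 0x10000800000000000200000001),
   (0x44000000000080010, 0x10080000000000000200000001),
   (0x84000000000080010, 0x10080000000000000200000001),
   (0x104000000000000010, 0x10000000000000000200000001),
   (0x204000000000080010, 0x10000000000000020200000001),
   (0x404000000000080010, 0x10000000000000020200000001),
   (0x804000000000080010, 0x10000000000000020200000001),
   (0x1004000000000080010, 0x10000800000000000200000001),
   (0x2000000000000004000008000000000, 0x200100001),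
   (0x4004000000000080010, 0x10000000000000020200000001),
   (0x8004000000000080010, 0x10000000000000020200000001),
   (0x4000000000010010, 0x200100001),
   (0x80004000000000020010, 0x80200100001),
   (0x80004000000000040010, 0x80200100001),
   (0x80004000000000080010, 0x10000800000000000200000001),
   (0x4000010000000010, 0x200100001),
   (0x400000000004000000001000000, 0x80200000001),
   (0x400004000000000080010, 0x10000000000000020200000001),
   (0x400000000004000000000000010, 0xa0000000001),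
   (0x4000100000000010, 0x200100001),
   (0x2000004000000000080010, 0x10000800000000000200000001),
   (0x4000004000000000080010, 0x10000000000000020200000001),
   (0x4000000014000000000000000, 0xa0000000001),
   (0x10000004000000000080010, 0x10000800000000000200000001),
   (0x204000000000000010, 0x200100001),
   (0x40000004000000000000010, 0x200100001),
   (0x80000004000000000000010, 0x10000000000000000200000001),
   (0x4000000100000200, 0x10080000000000000000000001),
   (0x400000004000000001000000, 0x80200000001),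
   (0x400000004000000000000010, 0x200100001),
   (0x800000004000000000080010, 0x10000800000000000200000001),
   (0x1000000004000000000080010, 0x10000000000000020200000001),
   (0x2000000004000000000080010, 0x10000000000000020200000001),
   (0x4000000004000000000080010, 0x10000800000000000200000001),
   (0x8000000004000000000080010, 0x10000800000000000200000001),
   (0x20000000004000000000080010, 0x10000000000000020200000001),
   (0x400000004000004000000000, 0x800000000000200000001),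
   (0x80000000004000000000080010, 0x10000800000000000200000001),
   (0x100000000004000000000080010, 0x10000800000000000200000001),
   (0x200000000004000000000080010, 0x10000800000000000200000001),
   (0x400000000004000000000080010, 0x10000800000000000200000001),
   (0x800000000004000000000080010, 0x10000000000000020200000001),
   (0x4001000000000010, 0x200100001),
   (0x2000000000004000000000080010, 0x10000000000000020200000001),
   (0x2000000000000004000000000000004, 0x200100001),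
   (0x804000000000000010, 0x200100001),
   (0x14000000000100000, 0x20000000011),
   (0x20000000000004000000000080010, 0x10000000000000020200000001),
   (0x4004000000000000010, 0x200100001),
   (0x80000000000004000000000080010, 0x10000000000000020200000001),
   (0x100000000000004000000000080010, 0x10000000000000020200000001),
   (0x400000004000008000000000, 0x800000000000200000001),
   (0x400000004000000000000200, 0x80200000001),
   (0x800000000000004000000000080010, 0x10000000000000020200000001),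
   (0x1000000000000004000000000080010, 0x110000000000000000200000001),
   (0x2000000000000004000000000080010, 0x10000000000000020200000001),
   (0x4000000000000004000000000080010, 0x10000800000000000200000001),
   (0x8000000000000004000000000080010, 0x10000800000000000200000001),
   (0x10000000000000004000000000080010, 0x10000000000000020200000001)]

theorem hP : ∀ p ∈ P, BP p.1 p.2 :=
  consP Pool.Agent.H184.T5.V.p1580 <|
  consP Pool.Agent.H184.T5.V.p1581 <|
  consP Pool.Agent.H184.T5.V.p46 <|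
  consP Pool.Agent.H184.T5.V.p1582 <|
  consP Pool.Agent.H184.T5.B.p9_33_106 <|
  consP Pool.Agent.H184.T5.V.p1583 <|
  consP Pool.Agent.H184.T5.B.p8_33_19 <|
  consP Pool.Agent.H184.T5.B.p9_33_19 <|
  consP Pool.Agent.H184.T5.V.p1584 <|
  consP Pool.Agent.H184.T5.B.p4_33_11 <|
  consP Pool.Agent.H184.T5.B.p64_41_109 <|
  consP Pool.Agent.H184.T5.B.p4_33_13 <|
  consP Pool.Agent.H184.T5.B.p4_33_14 <|
  consP Pool.Agent.H184.T5.V.p1585 <|
  consP Pool.Agent.H184.T5.B.p44_4_49 <|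
  consP Pool.Agent.H184.T5.V.p1586 <|
  consP Pool.Agent.H184.T5.V.p1587 <|
  consP Pool.Agent.H184.T5.V.p673 <|
  consP Pool.Agent.H184.T5.V.p672 <|
  consP Pool.Agent.H184.T5.V.p1588 <|
  consP Pool.Agent.H184.T5.V.p1589 <|
  consP Pool.Agent.H184.T5.B.p33_91_34 <|
  consP Pool.Agent.H184.T5.V.p1590 <|
  consP Pool.Agent.H184.T5.B.p4_33_6 <|
  consP Pool.Agent.H184.T5.V.p1591 <|
  consP Pool.Agent.H184.T5.B.p1_91_34 <|
  consP Pool.Agent.H184.T5.B.p4_33_9 <|
  consP Pool.Agent.H184.T5.B.p1_91_98 <|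
  consP Pool.Agent.H184.T5.V.p1592 <|
  consP Pool.Agent.H184.T5.B.p2_33_46 <|
  consP Pool.Agent.H184.T5.V.p85 <|
  consP Pool.Agent.H184.T5.B.p7_33_94 <|
  consP Pool.Agent.H184.T5.B.p4_33_36 <|
  consP Pool.Agent.H184.T5.V.p1593 <|
  consP Pool.Agent.H184.T5.B.p2_33_94 <|
  consP Pool.Agent.H184.T5.B.p4_33_39 <|
  consP Pool.Agent.H184.T5.V.p1594 <|
  consP Pool.Agent.H184.T5.V.p1421 <|
  consP Pool.Agent.H184.T5.V.p1595 <|
  consP Pool.Agent.H184.T5.V.p364 <|
  consP Pool.Agent.H184.T5.V.p1596 <|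
  consP Pool.Agent.H184.T5.B.p9_33_121 <|
  consP Pool.Agent.H184.T5.V.p1597 <|
  consP Pool.Agent.H184.T5.V.p1598 <|
  consP Pool.Agent.H184.T5.B.p34_33_121 <|
  consP Pool.Agent.H184.T5.V.p1599 <|
  consP Pool.Agent.H184.T5.B.p38_33_106 <|
  consP Pool.Agent.H184.T5.B.p39_33_106 <|
  consP Pool.Agent.H184.T5.B.p12_43_99 <|
  consP Pool.Agent.H184.T5.V.p1600 <|
  consP Pool.Agent.H184.T5.V.p1601 <|
  consP Pool.Agent.H184.T5.V.p1602 <|
  consP Pool.Agent.H184.T5.V.p1603 <|
  consP Pool.Agent.H184.T5.V.p1604 <|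
  consP Pool.Agent.H184.T5.B.p24_43_38 <|
  consP Pool.Agent.H184.T5.B.p39_33_79 <|
  consP Pool.Agent.H184.T5.B.p12_43_101 <|
  consP Pool.Agent.H184.T5.B.p4_33_61 <|
  consP Pool.Agent.H184.T5.B.p12_43_94 <|
  consP Pool.Agent.H184.T5.V.p1605 <|
  consP Pool.Agent.H184.T5.V.p1606 <|
  consP Pool.Agent.H184.T5.V.p1607 <|
  consP Pool.Agent.H184.T5.V.p1608 <|
  consP Pool.Agent.H184.T5.B.p4_33_68 <|
  consP Pool.Agent.H184.T5.V.p1609 <|
  consP Pool.Agent.H184.T5.V.p1610 <|
  consP Pool.Agent.H184.T5.V.p1611 <|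
  consP Pool.Agent.H184.T5.V.p1612 <|
  consP Pool.Agent.H184.T5.B.p39_33_121 <|
  consP Pool.Agent.H184.T5.V.p1613 <|
  consP Pool.Agent.H184.T5.V.p1614 <|
  consP Pool.Agent.H184.T5.B.p4_33_16 <|
  consP Pool.Agent.H184.T5.V.p1615 <|
  consP Pool.Agent.H184.T5.V.p1616 <|
  consP Pool.Agent.H184.T5.V.p1617 <|
  consP Pool.Agent.H184.T5.B.p4_33_40 <|
  consP Pool.Agent.H184.T5.B.p24_43_106 <|
  consP Pool.Agent.H184.T5.V.p1618 <|
  consP Pool.Agent.H184.T5.V.p1267 <|
  consP Pool.Agent.H184.T5.B.p4_33_44 <|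
  consP Pool.Agent.H184.T5.V.p1619 <|
  consP Pool.Agent.H184.T5.V.p761 <|
  consP Pool.Agent.H184.T5.B.p64_41_98 <|
  consP Pool.Agent.H184.T5.V.p1620 <|
  consP Pool.Agent.H184.T5.B.p4_33_69 <|
  consP Pool.Agent.H184.T5.B.p4_33_90 <|
  consP Pool.Agent.H184.T5.B.p4_33_91 <|
  consP Pool.Agent.H184.T5.B.p32_91_9 <|
  consP Pool.Agent.H184.T5.B.p24_43_94 <|
  consP Pool.Agent.H184.T5.B.p4_33_94 <|
  consP Pool.Agent.H184.T5.V.p1621 <|
  consP Pool.Agent.H184.T5.V.p1622 <|
  consP Pool.Agent.H184.T5.V.p1623 <|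
  consP Pool.Agent.H184.T5.V.p1624 <|
  consP Pool.Agent.H184.T5.V.p446 <|
  consP Pool.Agent.H184.T5.V.p1625 <|
  consP Pool.Agent.H184.T5.B.p38_33_94 <|
  consP Pool.Agent.H184.T5.V.p1626 <|
  consP Pool.Agent.H184.T5.V.p1627 <|
  consP Pool.Agent.H184.T5.V.p1628 <|
  consP Pool.Agent.H184.T5.V.p1629 <|
  consP Pool.Agent.H184.T5.V.p1630 <|
  consP Pool.Agent.H184.T5.B.p4_33_48 <|
  consP Pool.Agent.H184.T5.V.p1631 <|
  consP Pool.Agent.H184.T5.B.p2_33_121 <|
  consP Pool.Agent.H184.T5.B.p4_33_71 <|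
  consP Pool.Agent.H184.T5.V.p313 <|
  consP Pool.Agent.H184.T5.V.p1632 <|
  consP Pool.Agent.H184.T5.B.p4_33_74 <|
  consP Pool.Agent.H184.T5.V.p1633 <|
  consP Pool.Agent.H184.T5.V.p1634 <|
  consP Pool.Agent.H184.T5.B.p39_33_94 <|
  consP Pool.Agent.H184.T5.B.p9_33_94 <|
  consP Pool.Agent.H184.T5.V.p1635 <|
  consP Pool.Agent.H184.T5.V.p1302 <|
  consP Pool.Agent.H184.T5.V.p1636 <|
  consP Pool.Agent.H184.T5.V.p1637 <|
  consP Pool.Agent.H184.T5.V.p1638 <|
  consP Pool.Agent.H184.T5.V.p1639 <|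
  nilP

def T : List Ent :=
  [⟨1, 41, 0, 0⟩,
   ⟨2, 83, 1, 1⟩,
   ⟨5, 83, 0, 3⟩,
   ⟨10, 41, 0, 8⟩,
   ⟨15, 41, 0, 13⟩,
   ⟨17, 41, 0, 15⟩,
   ⟨18, 41, 0, 16⟩,
   ⟨20, 83, 6, 17⟩,
   ⟨21, 41, 0, 18⟩,
   ⟨22, 41, 0, 19⟩,
   ⟨23, 41, 0, 20⟩,
   ⟨25, 83, 0, 22⟩,
   ⟨27, 41, 0, 24⟩,
   ⟨31, 41, 0, 28⟩,
   ⟨34, 41, 0, 30⟩,
   ⟨37, 41, 0, 33⟩,
   ⟨40, 41, 0, 36⟩,
   ⟨41, 83, 0, 37⟩,
   ⟨42, 20, 0, 38⟩,
   ⟨44, 41, 0, 40⟩,
   ⟨46, 83, 0, 42⟩,
   ⟨47, 83, 0, 43⟩,
   ⟨49, 83, 0, 45⟩,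
   ⟨53, 83, 0, 49⟩,
   ⟨54, 41, 0, 50⟩,
   ⟨55, 83, 0, 51⟩,
   ⟨56, 41, 0, 52⟩,
   ⟨64, 41, 0, 59⟩,
   ⟨65, 83, 0, 60⟩,
   ⟨66, 91, 0, 61⟩,
   ⟨67, 91, 0, 62⟩,
   ⟨69, 41, 0, 64⟩,
   ⟨70, 41, 0, 65⟩,
   ⟨71, 41, 0, 66⟩,
   ⟨72, 83, 0, 67⟩,
   ⟨74, 41, 0, 69⟩,
   ⟨75, 41, 0, 70⟩,
   ⟨77, 83, 1, 72⟩,
   ⟨78, 83, 1, 73⟩,
   ⟨79, 83, 0, 74⟩,
   ⟨82, 41, 0, 77⟩,
   ⟨85, 83, 0, 80⟩,
   ⟨86, 41, 0, 81⟩,
   ⟨88, 83, 0, 83⟩,
   ⟨95, 83, 0, 90⟩,
   ⟨96, 41, 0, 91⟩,
   ⟨97, 41, 0, 92⟩,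
   ⟨98, 83, 0, 93⟩,
   ⟨99, 83, 0, 94⟩,
   ⟨101, 41, 0, 95⟩,
   ⟨103, 83, 0, 97⟩,
   ⟨104, 83, 0, 98⟩,
   ⟨105, 83, 0, 99⟩,
   ⟨106, 83, 0, 100⟩,
   ⟨107, 41, 0, 101⟩,
   ⟨109, 41, 0, 103⟩,
   ⟨113, 41, 0, 107⟩,
   ⟨115, 41, 0, 109⟩,
   ⟨116, 41, 0, 110⟩,
   ⟨119, 41, 0, 113⟩,
   ⟨120, 104, 0, 114⟩,
   ⟨121, 41, 0, 115⟩,
   ⟨122, 83, 0, 116⟩,
   ⟨123, 83, 0, 117⟩,
   ⟨124, 41, 0, 118⟩]

def F : List Ent :=
  [⟨3, 19, 80, 2⟩,
   ⟨6, 4, 66, 4⟩,
   ⟨7, 4, 0, 5⟩,
   ⟨8, 4, 0, 6⟩,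
   ⟨9, 4, 0, 7⟩,
   ⟨11, 19, 0, 9⟩,
   ⟨12, 4, 23, 10⟩,
   ⟨13, 19, 0, 11⟩,
   ⟨14, 19, 0, 12⟩,
   ⟨16, 4, 19, 14⟩,
   ⟨24, 4, 81, 21⟩,
   ⟨26, 19, 1, 23⟩,
   ⟨28, 4, 81, 25⟩,
   ⟨29, 19, 1, 26⟩,
   ⟨30, 4, 127, 27⟩,
   ⟨32, 4, 67, 29⟩,
   ⟨35, 4, 117, 31⟩,
   ⟨36, 19, 0, 32⟩,
   ⟨38, 4, 95, 34⟩,
   ⟨39, 19, 0, 35⟩,
   ⟨43, 4, 19, 39⟩,
   ⟨45, 4, 35, 41⟩,
   ⟨48, 4, 35, 44⟩,
   ⟨50, 4, 66, 46⟩,
   ⟨51, 4, 66, 47⟩,
   ⟨52, 4, 17, 48⟩,
   ⟨57, 4, 17, 53⟩,
   ⟨58, 19, 29, 54⟩,
   ⟨59, 4, 1, 55⟩,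
   ⟨60, 4, 10, 56⟩,
   ⟨61, 19, 0, 57⟩,
   ⟨63, 4, 95, 58⟩,
   ⟨68, 19, 0, 63⟩,
   ⟨73, 4, 35, 68⟩,
   ⟨76, 19, 1, 71⟩,
   ⟨80, 19, 1, 75⟩,
   ⟨81, 4, 66, 76⟩,
   ⟨83, 4, 80, 78⟩,
   ⟨84, 19, 1, 79⟩,
   ⟨87, 4, 94, 82⟩,
   ⟨89, 19, 1, 84⟩,
   ⟨90, 19, 1, 85⟩,
   ⟨91, 19, 0, 86⟩,
   ⟨92, 4, 2, 87⟩,
   ⟨93, 4, 95, 88⟩,
   ⟨94, 19, 1, 89⟩,
   ⟨102, 4, 117, 96⟩,
   ⟨108, 19, 1, 102⟩,
   ⟨110, 4, 35, 104⟩,
   ⟨111, 19, 1, 105⟩,
   ⟨112, 19, 5, 106⟩,
   ⟨114, 19, 1, 108⟩,
   ⟨117, 4, 117, 111⟩,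
   ⟨118, 4, 95, 112⟩]

theorem ok : nodeOK2 autA 192 P [4, 19, 62] [0, 33, 100] T F = true := by decide +kernel

theorem t : BP 0x4000000000080010 0x10000000000000000200000001 := by
  have h := node2 autOK hP ok
  rw [show maskL [4, 19, 62] = 0x4000000000080010 from by decide +kernel, show maskL [0, 33, 100] = 0x10000000000000000200000001 from by decide +kernel] at h
  exact h

end Pool.Agent.H805.T5.N3
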