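import Mathlib
import Pool.Agent.H805.T5.Tree2
import Pool.Agent.H805.T5.Auts
import Pool.Agent.H184.T5.D.F12_43_1
import Pool.Agent.H184.T5.D.F14_43_2
import Pool.Agent.H184.T5.D.F1_91_0
import Pool.Agent.H184.T5.D.F1_91_1
import Pool.Agent.H184.T5.D.F24_43_0
import Pool.Agent.H184.T5.D.F24_43_1
import Pool.Agent.H184.T5.D.F2_33_0
import Pool.Agent.H184.T5.D.F2_33_1
import Pool.Agent.H184.T5.D.F32_91_0
import Pool.Agent.H184.T5.D.F32_91_1
import Pool.Agent.H184.T5.D.F34_33_0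
import Pool.Agent.H184.T5.D.F38_33_2
import Pool.Agent.H184.T5.D.F39_33_0
import Pool.Agent.H184.T5.D.F39_33_2
import Pool.Agent.H184.T5.D.F49_43_1
import Pool.Agent.H184.T5.D.F4_33_0
import Pool.Agent.H184.T5.D.F4_33_1
import Pool.Agent.H184.T5.D.F64_41_0
import Pool.Agent.H184.T5.D.F64_41_1
import Pool.Agent.H184.T5.D.F8_33_0
import Pool.Agent.H184.T5.D.F9_33_2
import Pool.Agent.H184.T5.D.V_000
import Pool.Agent.H184.T5.D.V_001
import Pool.Agent.H184.T5.D.V_002
import Pool.Agent.H184.T5.D.V_004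
import Pool.Agent.H184.T5.D.V_005
import Pool.Agent.H184.T5.D.V_010
import Pool.Agent.H184.T5.D.V_011
import Pool.Agent.H184.T5.D.V_012
import Pool.Agent.H184.T5.D.V_019
import Pool.Agent.H805.T5.N.N3

set_option autoImplicit false
set_option maxRecDepth 20000

namespace Pool.Agent.H805.T5.N4

open Pool.Agent.Helper582.Cube

def P : List (ℕ × ℕ) :=
  [(0x20000000004000000000000012, 0x80200100001),
   (0x4000000000200004, 0x10000000000000000200000001),
   (0x4000000084000000, 0xa0000000001),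
   (0x4000000000200030, 0x10000800000000000200000001),
   (0x1000004000000000000200, 0x80200000001),
   (0x4000000000200090, 0x10000000000000020200000001),
   (0x4000000000200100, 0x10000000000000000200000001),
   (0x2000000000004002000000000000, 0x80000000011),
   (0x4000000000200410, 0x10000000000000020200000001),
   (0x4000000000000810, 0x10000000000000000200000001),
   (0x14000000001000000, 0x80000000011),
   (0x4000000000002010, 0x10000000000000000200000001),
   (0x4001000100000000, 0x80000000000020000000001),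
   (0x4000000000208010, 0x10000800000000000200000001),
   (0x4002100000000000, 0x800000000000000000011),
   (0x4000000000220010, 0x10000000000000020200000001),
   (0x4000000000240010, 0x10000800000000000200000001),
   (0x4000000000080010, 0x10000000000000000200000001),
   (0x4000000000300010, 0x10000800000000000200000001),
   (0x4000000000600010, 0x10000000000000020200000001),
   (0x4000000000a00010, 0x10000800000000000200000001),
   (0x4000000001000200, 0x10000000000000020000000001),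
   (0x4000000002200010, 0x10000800000000000200000001),
   (0x4000000000000050, 0x200100001),
   (0x20000000004000000000000080, 0x200100001),
   (0x4001000000000002, 0x80000000000020000000001),
   (0x20000000004000000000000200, 0x200100001),
   (0x4000100000000002, 0x80200000000000000000001),
   (0x4002000200000000, 0x800000000000000000011),
   (0x1000004000000080000004, 0x100000000000000080200000001),
   (0x4000000400200000, 0x10000000000000000200000001),
   (0x1000000004000000000000080, 0x800000000000200000001),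
   (0x4000001000000010, 0x10000000000000000200000001),
   (0x4000002000200010, 0x10000800000000000200000001),
   (0x1000000004000000000000004, 0x800000000000200000001),
   (0x4000008000200000, 0x10000000000000000200000001),
   (0x4000010000200010, 0x10000000000000020200000001),
   (0x4000020000200010, 0x10000800000000000200000001),
   (0x4000040000200010, 0x10000000000000020200000001),
   (0x1000000004000000000000010, 0x800000000000200000001),
   (0x4000100000200010, 0x10000000000000020200000001),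
   (0x8000000004000000000000200, 0x200100001),
   (0x4000400000200010, 0x10000800000000000200000001),
   (0x4000800000200010, 0x10000800000000000200000001),
   (0x4001000000200010, 0x10000800000000000200000001),
   (0x4002000000200010, 0x10000800000000000200000001),
   (0x100000000000004000004000000000, 0x80200000001),
   (0x4008000000200010, 0x10000800000000000200000001),
   (0x2000000000004000000000001000, 0x80000000011),
   (0x4020000000200010, 0x10000800000000000200000001),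
   (0x2000000000000004000000000004000, 0x80000100001),
   (0x4080000000200010, 0x10000800000000000200000001),
   (0x4100000000200010, 0x10000000000000020200000001),
   (0x4200000000200010, 0x10000000000000020200000001),
   (0x8000000004000004000000000, 0x200100001),
   (0x4800000000200010, 0x10000000000000020200000001),
   (0x80004000000000001000, 0x80000100001),
   (0x1000014000000000000000, 0x80000000000020000000001),
   (0x1000000000004000000000001000, 0xa0000000001),
   (0x14000000000200010, 0x10000000000000020200000001),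
   (0x24000000000200010, 0x10000000000000020200000001),
   (0x44000000000200010, 0x10000000000000020200000001),
   (0x84000000000200010, 0x10000000000000020200000001),
   (0x104000000000000010, 0x10000000000000000200000001),
   (0x204000000000200010, 0x10000800000000000200000001),
   (0x404000000000200010, 0x10000000000000020200000001),
   (0x804000000000200010, 0x10000800000000000200000001),
   (0x14000000000000200, 0x10000000000000020000000001),
   (0x8000000004000008000000000, 0x200100001),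
   (0x4004000000000200010, 0x10000000000000020200000001),
   (0x8004000000000200010, 0x10000000000000020200000001),
   (0x4000000000010010, 0x200100001),
   (0x20000000004000000000020010, 0x80200100001),
   (0x20000000004000000000040010, 0x80200100001),
   (0x20000000004000000000080010, 0x80200100001),
   (0x4000010000000010, 0x200100001),
   (0x1000004000000001000000, 0x80200000001),
   (0x1000000004000000000004000, 0xa0000000001),
   (0x1000000000004000000000000010, 0xa0000000001),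
   (0x4000100000000010, 0x200100001),
   (0x2000004000000000200010, 0x10000000000000020200000001),
   (0x4002000100000000, 0x80000000000000000100001),
   (0x8000004000000000200010, 0x10000800000000000200000001),
   (0x1000000000004000000000004000, 0xa0000000001),
   (0x204000000000000010, 0x200100001),
   (0x40000004000000000000010, 0x200100001),
   (0x80000004000000000000010, 0x10000000000000000200000001),
   (0x4000000100800000, 0x10080000000000000000000001),
   (0x1000000000004000000001000000, 0xa0000000001),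
   (0x400000004000000000000010, 0x200100001),
   (0x800000004000000000200010, 0x10000800000000000200000001),
   (0x1000000004000000000200010, 0x10000000000000020200000001),
   (0x2000000004000000000200010, 0x10000800000000000200000001),
   (0x4000000400180000, 0x10000800000000000200000001),
   (0x8000000004000000000200010, 0x10000000000000020200000001),
   (0x20000000004000000000200010, 0x10000000000000020200000001),
   (0x40000000004000000000200010, 0x10000000000000020200000001),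
   (0x80000000004000000000200010, 0x10000800000000000200000001),
   (0x100000000004000000000200010, 0x10000000000000020200000001),
   (0x200000000004000000000200010, 0x10000800000000000200000001),
   (0x400000000004000000000200010, 0x10000800000000000200000001),
   (0x800000000004000000000200010, 0x10000000000000020200000001),
   (0x4001000000000010, 0x200100001),
   (0x2000000000004000000000200010, 0x10000000000000020200000001),
   (0x8000000004000000000000004, 0x200100001),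
   (0x804000000000000010, 0x200100001),
   (0x14000000000100000, 0x20000000011),
   (0x100000000000004000000000000080, 0x80200000001),
   (0x4004000000000000010, 0x200100001),
   (0x80000000000004000000000200010, 0x10000000000000020200000001),
   (0x100000000000004000000000200010, 0x10000800000000000200000001),
   (0x200000000000004000000000200010, 0x10000000000000020200000001),
   (0x4000000004000000000000010, 0x200100001),
   (0x800000000000004000000000200010, 0x10000000000000020200000001),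
   (0x1000000000000004000000000200010, 0x10000000000000020200000001),
   (0x2000000000000004000000000200010, 0x10000800000000000200000001),
   (0x4000100100000000, 0x80200000000000000000001),
   (0x80004002000000000000, 0x80000100001),
   (0x10000000000000004000000000200010, 0x10000000000000020200000001)]

theorem hP : ∀ p ∈ P, BP p.1 p.2 :=
  consP Pool.Agent.H184.T5.V.p391 <|
  consP Pool.Agent.H184.T5.B.p2_33_21 <|
  consP Pool.Agent.H184.T5.V.p46 <|
  consP Pool.Agent.H184.T5.V.p667 <|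
  consP Pool.Agent.H184.T5.V.p311 <|
  consP Pool.Agent.H184.T5.V.p668 <|
  consP Pool.Agent.H184.T5.B.p8_33_21 <|
  consP Pool.Agent.H184.T5.B.p49_43_109 <|
  consP Pool.Agent.H184.T5.V.p669 <|
  consP Pool.Agent.H184.T5.B.p4_33_11 <|
  consP Pool.Agent.H184.T5.B.p24_43_64 <|
  consP Pool.Agent.H184.T5.B.p4_33_13 <|
  consP Pool.Agent.H184.T5.B.p32_91_48 <|
  consP Pool.Agent.H184.T5.V.p345 <|
  consP Pool.Agent.H184.T5.V.p791 <|
  consP Pool.Agent.H184.T5.V.p670 <|
  consP Pool.Agent.H184.T5.V.p671 <|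
  consP Pool.Agent.H805.T5.N3.t <|
  consP Pool.Agent.H184.T5.V.p673 <|
  consP Pool.Agent.H184.T5.V.p674 <|
  consP Pool.Agent.H184.T5.V.p675 <|
  consP Pool.Agent.H184.T5.V.p417 <|
  consP Pool.Agent.H184.T5.V.p676 <|
  consP Pool.Agent.H184.T5.B.p4_33_6 <|
  consP Pool.Agent.H184.T5.V.p194 <|
  consP Pool.Agent.H184.T5.B.p1_91_48 <|
  consP Pool.Agent.H184.T5.B.p9_33_101 <|
  consP Pool.Agent.H184.T5.B.p1_91_44 <|
  consP Pool.Agent.H184.T5.V.p349 <|
  consP Pool.Agent.H184.T5.V.p862 <|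
  consP Pool.Agent.H184.T5.B.p34_33_21 <|
  consP Pool.Agent.H184.T5.V.p145 <|
  consP Pool.Agent.H184.T5.B.p4_33_36 <|
  consP Pool.Agent.H184.T5.V.p677 <|
  consP Pool.Agent.H184.T5.B.p2_33_96 <|
  consP Pool.Agent.H184.T5.B.p39_33_21 <|
  consP Pool.Agent.H184.T5.V.p678 <|
  consP Pool.Agent.H184.T5.V.p679 <|
  consP Pool.Agent.H184.T5.V.p680 <|
  consP Pool.Agent.H184.T5.B.p4_33_96 <|
  consP Pool.Agent.H184.T5.V.p681 <|
  consP Pool.Agent.H184.T5.B.p9_33_99 <|
  consP Pool.Agent.H184.T5.V.p682 <|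
  consP Pool.Agent.H184.T5.V.p683 <|
  consP Pool.Agent.H184.T5.V.p49 <|
  consP Pool.Agent.H184.T5.V.p684 <|
  consP Pool.Agent.H184.T5.B.p38_33_116 <|
  consP Pool.Agent.H184.T5.V.p685 <|
  consP Pool.Agent.H184.T5.B.p12_43_109 <|
  consP Pool.Agent.H184.T5.V.p686 <|
  consP Pool.Agent.H184.T5.B.p14_43_121 <|
  consP Pool.Agent.H184.T5.V.p687 <|
  consP Pool.Agent.H184.T5.V.p688 <|
  consP Pool.Agent.H184.T5.V.p689 <|
  consP Pool.Agent.H184.T5.B.p38_33_99 <|
  consP Pool.Agent.H184.T5.V.p690 <|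
  consP Pool.Agent.H184.T5.B.p12_43_79 <|
  consP Pool.Agent.H184.T5.B.p64_41_84 <|
  consP Pool.Agent.H184.T5.B.p12_43_108 <|
  consP Pool.Agent.H184.T5.V.p691 <|
  consP Pool.Agent.H184.T5.V.p692 <|
  consP Pool.Agent.H184.T5.V.p693 <|
  consP Pool.Agent.H184.T5.V.p694 <|
  consP Pool.Agent.H184.T5.B.p4_33_68 <|
  consP Pool.Agent.H184.T5.V.p695 <|
  consP Pool.Agent.H184.T5.V.p696 <|
  consP Pool.Agent.H184.T5.V.p697 <|
  consP Pool.Agent.H184.T5.B.p64_41_9 <|
  consP Pool.Agent.H184.T5.B.p39_33_99 <|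
  consP Pool.Agent.H184.T5.V.p698 <|
  consP Pool.Agent.H184.T5.V.p699 <|
  consP Pool.Agent.H184.T5.B.p4_33_16 <|
  consP Pool.Agent.H184.T5.V.p701 <|
  consP Pool.Agent.H184.T5.V.p702 <|
  consP Pool.Agent.H184.T5.V.p703 <|
  consP Pool.Agent.H184.T5.B.p4_33_40 <|
  consP Pool.Agent.H184.T5.B.p24_43_84 <|
  consP Pool.Agent.H184.T5.B.p14_43_96 <|
  consP Pool.Agent.H184.T5.V.p117 <|
  consP Pool.Agent.H184.T5.B.p4_33_44 <|
  consP Pool.Agent.H184.T5.V.p704 <|
  consP Pool.Agent.H184.T5.V.p771 <|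
  consP Pool.Agent.H184.T5.V.p705 <|
  consP Pool.Agent.H184.T5.B.p14_43_108 <|
  consP Pool.Agent.H184.T5.B.p4_33_69 <|
  consP Pool.Agent.H184.T5.B.p4_33_90 <|
  consP Pool.Agent.H184.T5.B.p4_33_91 <|
  consP Pool.Agent.H184.T5.B.p32_91_23 <|
  consP Pool.Agent.H184.T5.B.p24_43_108 <|
  consP Pool.Agent.H184.T5.B.p4_33_94 <|
  consP Pool.Agent.H184.T5.V.p706 <|
  consP Pool.Agent.H184.T5.V.p707 <|
  consP Pool.Agent.H184.T5.V.p708 <|
  consP Pool.Agent.H184.T5.V.p709 <|
  consP Pool.Agent.H184.T5.V.p710 <|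
  consP Pool.Agent.H184.T5.V.p711 <|
  consP Pool.Agent.H184.T5.V.p712 <|
  consP Pool.Agent.H184.T5.V.p713 <|
  consP Pool.Agent.H184.T5.V.p714 <|
  consP Pool.Agent.H184.T5.V.p715 <|
  consP Pool.Agent.H184.T5.V.p716 <|
  consP Pool.Agent.H184.T5.V.p717 <|
  consP Pool.Agent.H184.T5.B.p4_33_48 <|
  consP Pool.Agent.H184.T5.V.p718 <|
  consP Pool.Agent.H184.T5.B.p2_33_99 <|
  consP Pool.Agent.H184.T5.B.p4_33_71 <|
  consP Pool.Agent.H184.T5.V.p313 <|
  consP Pool.Agent.H184.T5.V.p719 <|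
  consP Pool.Agent.H184.T5.B.p4_33_74 <|
  consP Pool.Agent.H184.T5.V.p721 <|
  consP Pool.Agent.H184.T5.V.p722 <|
  consP Pool.Agent.H184.T5.V.p723 <|
  consP Pool.Agent.H184.T5.B.p4_33_98 <|
  consP Pool.Agent.H184.T5.V.p724 <|
  consP Pool.Agent.H184.T5.V.p1307 <|
  consP Pool.Agent.H184.T5.V.p725 <|
  consP Pool.Agent.H184.T5.B.p32_91_44 <|
  consP Pool.Agent.H184.T5.B.p49_43_79 <|
  consP Pool.Agent.H184.T5.V.p726 <|
  nilP

def T : List Ent :=
  [⟨1, 83, 1, 0⟩,
   ⟨5, 83, 0, 3⟩,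
   ⟨7, 41, 0, 5⟩,
   ⟨10, 41, 0, 8⟩,
   ⟨15, 83, 0, 13⟩,
   ⟨17, 41, 0, 15⟩,
   ⟨18, 83, 0, 16⟩,
   ⟨20, 83, 0, 18⟩,
   ⟨22, 41, 0, 19⟩,
   ⟨23, 83, 0, 20⟩,
   ⟨25, 83, 0, 22⟩,
   ⟨32, 41, 66, 29⟩,
   ⟨37, 83, 0, 33⟩,
   ⟨40, 41, 0, 36⟩,
   ⟨41, 83, 0, 37⟩,
   ⟨42, 41, 0, 38⟩,
   ⟨44, 41, 0, 40⟩,
   ⟨46, 83, 0, 42⟩,
   ⟨47, 83, 0, 43⟩,
   ⟨48, 83, 0, 44⟩,
   ⟨49, 83, 0, 45⟩,
   ⟨51, 83, 0, 47⟩,
   ⟨53, 83, 0, 49⟩,
   ⟨55, 83, 0, 51⟩,
   ⟨56, 41, 0, 52⟩,
   ⟨57, 41, 0, 53⟩,
   ⟨59, 41, 0, 55⟩,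
   ⟨64, 41, 0, 59⟩,
   ⟨65, 41, 0, 60⟩,
   ⟨66, 41, 0, 61⟩,
   ⟨67, 41, 0, 62⟩,
   ⟨69, 83, 0, 64⟩,
   ⟨70, 41, 0, 65⟩,
   ⟨71, 83, 0, 66⟩,
   ⟨74, 41, 0, 69⟩,
   ⟨75, 41, 0, 70⟩,
   ⟨77, 83, 1, 72⟩,
   ⟨78, 83, 1, 73⟩,
   ⟨79, 83, 1, 74⟩,
   ⟨85, 41, 0, 80⟩,
   ⟨87, 83, 0, 82⟩,
   ⟨95, 83, 0, 90⟩,
   ⟨96, 41, 0, 91⟩,
   ⟨97, 83, 0, 92⟩,
   ⟨98, 83, 6, 93⟩,
   ⟨99, 41, 0, 94⟩,
   ⟨101, 41, 0, 95⟩,
   ⟨102, 41, 0, 96⟩,
   ⟨103, 83, 0, 97⟩,
   ⟨104, 41, 0, 98⟩,
   ⟨105, 83, 0, 99⟩,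
   ⟨106, 83, 0, 100⟩,
   ⟨107, 41, 0, 101⟩,
   ⟨109, 41, 0, 103⟩,
   ⟨115, 41, 0, 109⟩,
   ⟨116, 83, 0, 110⟩,
   ⟨117, 41, 0, 111⟩,
   ⟨119, 41, 0, 113⟩,
   ⟨120, 41, 0, 114⟩,
   ⟨121, 83, 0, 115⟩,
   ⟨124, 41, 0, 118⟩]

def F : List Ent :=
  [⟨2, 4, 0, 1⟩,
   ⟨3, 21, 80, 2⟩,
   ⟨6, 4, 66, 4⟩,
   ⟨8, 4, 0, 6⟩,
   ⟨9, 4, 17, 7⟩,
   ⟨11, 21, 0, 9⟩,
   ⟨12, 21, 17, 10⟩,
   ⟨13, 21, 0, 11⟩,
   ⟨14, 4, 81, 12⟩,
   ⟨16, 4, 21, 14⟩,
   ⟨19, 21, 0, 17⟩,
   ⟨24, 4, 4, 21⟩,
   ⟨26, 21, 1, 23⟩,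
   ⟨27, 4, 1, 24⟩,
   ⟨28, 4, 81, 25⟩,
   ⟨29, 4, 1, 26⟩,
   ⟨30, 4, 126, 27⟩,
   ⟨31, 4, 21, 28⟩,
   ⟨34, 4, 0, 30⟩,
   ⟨35, 4, 117, 31⟩,
   ⟨36, 21, 0, 32⟩,
   ⟨38, 4, 117, 34⟩,
   ⟨39, 4, 0, 35⟩,
   ⟨43, 4, 117, 39⟩,
   ⟨45, 4, 35, 41⟩,
   ⟨50, 4, 95, 46⟩,
   ⟨52, 4, 17, 48⟩,
   ⟨54, 4, 29, 50⟩,
   ⟨58, 4, 35, 54⟩,
   ⟨60, 4, 10, 56⟩,
   ⟨61, 4, 127, 57⟩,
   ⟨63, 4, 94, 58⟩,
   ⟨68, 21, 0, 63⟩,
   ⟨72, 4, 4, 67⟩,
   ⟨73, 4, 35, 68⟩,
   ⟨76, 21, 1, 71⟩,
   ⟨80, 21, 1, 75⟩,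
   ⟨81, 4, 66, 76⟩,
   ⟨82, 4, 80, 77⟩,
   ⟨83, 4, 94, 78⟩,
   ⟨84, 21, 1, 79⟩,
   ⟨86, 4, 33, 81⟩,
   ⟨88, 4, 94, 83⟩,
   ⟨89, 21, 1, 84⟩,
   ⟨90, 21, 1, 85⟩,
   ⟨91, 21, 0, 86⟩,
   ⟨92, 4, 2, 87⟩,
   ⟨93, 4, 94, 88⟩,
   ⟨94, 21, 1, 89⟩,
   ⟨108, 21, 1, 102⟩,
   ⟨110, 4, 35, 104⟩,
   ⟨111, 21, 1, 105⟩,
   ⟨112, 21, 5, 106⟩,
   ⟨113, 4, 95, 107⟩,
   ⟨114, 21, 1, 108⟩,
   ⟨118, 21, 1, 112⟩,
   ⟨122, 4, 126, 116⟩,
   ⟨123, 4, 10, 117⟩]

theorem ok : nodeOK2 autA 192 P [4, 21, 62] [0, 33, 100] T F = true := by decide +kernel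

theorem t : BP 0x4000000000200010 0x10000000000000000200000001 := by
  have h := node2 autOK hP ok
  rw [show maskL [4, 21, 62] = 0x4000000000200010 from by decide +kernel, show maskL [0, 33, 100] = 0x10000000000000000200000001 from by decide +kernel] at h
  exact h

end Pool.Agent.H805.T5.N4
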