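import Mathlib
import Pool.Agent.H805.T5.Tree2
import Pool.Agent.H805.T5.Auts
import Pool.Agent.H184.T5.D.F12_43_0
import Pool.Agent.H184.T5.D.F14_43_0
import Pool.Agent.H184.T5.D.F1_91_0
import Pool.Agent.H184.T5.D.F2_33_0
import Pool.Agent.H184.T5.D.F33_91_0
import Pool.Agent.H184.T5.D.F33_91_1
import Pool.Agent.H184.T5.D.F34_33_0
import Pool.Agent.H184.T5.D.F38_33_0
import Pool.Agent.H184.T5.D.F38_33_1
import Pool.Agent.H184.T5.D.F38_33_2
import Pool.Agent.H184.T5.D.F44_4_0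
import Pool.Agent.H184.T5.D.F4_33_0
import Pool.Agent.H184.T5.D.F4_33_1
import Pool.Agent.H184.T5.D.F64_41_0
import Pool.Agent.H184.T5.D.F7_33_0
import Pool.Agent.H184.T5.D.F8_33_0
import Pool.Agent.H184.T5.D.F9_33_0
import Pool.Agent.H184.T5.D.F9_33_1
import Pool.Agent.H184.T5.D.F9_33_2
import Pool.Agent.H184.T5.D.V_002
import Pool.Agent.H184.T5.D.V_007
import Pool.Agent.H184.T5.D.V_008
import Pool.Agent.H184.T5.D.V_011
import Pool.Agent.H184.T5.D.V_016
import Pool.Agent.H184.T5.D.V_018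
import Pool.Agent.H805.T5.N.N4

set_option autoImplicit false
set_option maxRecDepth 20000

namespace Pool.Agent.H805.T5.N5

open Pool.Agent.Helper582.Cube

def P : List (ℕ × ℕ) :=
  [(0x4000000000400012, 0x80200100001),
   (0x4000000000400014, 0x80200100001),
   (0x4000000000400002, 0x80000000000000000100001),
   (0x4000000000400030, 0x80200100001),
   (0x4000000000000050, 0x200100001),
   (0x4000000000400080, 0x200100001),
   (0x4000000000400100, 0x200100001),
   (0x4000004000040000, 0x800000000000200000001),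
   (0x4400004000000000, 0x80200000001),
   (0x2004000004000000000, 0x800000000000200000001),
   (0x4000000000001004, 0x80000100001),
   (0x4000000000402010, 0x80200100001),
   (0x4000000000004004, 0x80000100001),
   (0x4000000000408010, 0x80200100001),
   (0x4000000000010010, 0x200100001),
   (0x4000000000420010, 0x80200100001),
   (0x4000000000440010, 0x80200100001),
   (0x4000000000480010, 0x80200100001),
   (0x4000000000600010, 0x80200100001),
   (0x4000000000c00010, 0x80200100001),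
   (0x4000000001000014, 0x80200100001),
   (0x4000040000000100, 0x80200000001),
   (0x4000040000000200, 0x80200000001),
   (0x4000040000000080, 0x80200000001),
   (0x40000000004000000000000100, 0x10000000000000000200000001),
   (0x40000000004000000000000200, 0x10000000000000000200000001),
   (0x4000040000000002, 0x80000000000020000000001),
   (0x4000000080400010, 0x80200100001),
   (0x4000004000000400, 0x800000000000200000001),
   (0x4000000400400000, 0x200100001),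
   (0x4000000800400010, 0x80200100001),
   (0x4000040000004000, 0x80200000001),
   (0x4000002000400010, 0x80200100001),
   (0x4004004000000000, 0x800000000000200000001),
   (0x24000004000000000, 0x800000000000200000001),
   (0x4000010000000010, 0x200100001),
   (0x4000020000400010, 0x80200100001),
   (0x4000040000400010, 0x80200100001),
   (0x10000000004000004000000000, 0x800000000000200000001),
   (0x4000100000000010, 0x200100001),
   (0x4000200000400010, 0x10000000000000000200100001),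
   (0x4000400000400010, 0x80200100001),
   (0x4000800000400010, 0x80200100001),
   (0x4001000000000010, 0x200100001),
   (0x4002000000400010, 0x80200100001),
   (0x400004000004000000000, 0x800000000000200000001),
   (0x4000000000000810, 0x10000000000000000200000001),
   (0x8000004000004000000000, 0x800000000000200000001),
   (0x4000000000002010, 0x10000000000000000200000001),
   (0x4000000000004010, 0x10000000000000000200000001),
   (0x4004000000000080, 0x200100001),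
   (0x4000001000000010, 0x10000000000000000200000001),
   (0x4200000000400010, 0x80200100001),
   (0x40000000004000004000000000, 0x10000000000000000200000001),
   (0x4000004000020000, 0x800000000000200000001),
   (0x4200004000000000, 0x800000000000200000001),
   (0x6000000000000010, 0x10000000000000000200000001),
   (0xc000000000400010, 0x80200100001),
   (0x14000000000400010, 0x80200100001),
   (0x24000000000400010, 0x80200100001),
   (0x44000000000400010, 0x80200100001),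
   (0x84000000000400010, 0x80200100001),
   (0x104000000000400010, 0x200000000000200100001),
   (0x204000000000000010, 0x200100001),
   (0x4000000000000404, 0x10000000000000000200000001),
   (0x4000804000000000, 0x800000000000200000001),
   (0x14000000000004000, 0x20000000011),
   (0x4000000000000480, 0x10000000000000000200000001),
   (0x4004000000000000010, 0x200100001),
   (0x8004000000000400010, 0x80200100001),
   (0x4000100000000400, 0x200000000000000000011),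
   (0x40000000004000000000020010, 0x10000000000000000200100001),
   (0x80004000004000000000, 0x800000000000200000001),
   (0x400000004000004000000000, 0x800000000000200000001),
   (0x100004000000000400010, 0x80200100001),
   (0x200004000000000400010, 0x80200100001),
   (0x400004000000000400010, 0x80200100001),
   (0x800004000000000400010, 0x80200100001),
   (0x1000004000000000400010, 0x80200100001),
   (0x4400008000000000, 0x80200000001),
   (0x4000004000000000400010, 0x80200100001),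
   (0x8000004000000000400010, 0x80200100001),
   (0x104000000000000010, 0x10000000000000000200000001),
   (0x20000004000000000400010, 0x80200100001),
   (0x40000004000000000000010, 0x200100001),
   (0x4000000200000400, 0x10080000000000000000000001),
   (0x100000004000000000000010, 0x10000000000000000200000001),
   (0x100000000004000004000000000, 0x800000000000200000001),
   (0x400000004000000000000010, 0x200100001),
   (0x800000004000000000400010, 0x80200100001),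
   (0x1000000004000000000400010, 0x80200100001),
   (0x2000000004000000000400010, 0x80200100001),
   (0x4400000000000200, 0x80200000001),
   (0x8000000004000000000400010, 0x80200100001),
   (0x40000000004000000000100010, 0x10000800000000000200000001),
   (0x4000000000200010, 0x10000000000000000200000001),
   (0x4000004000004000000000, 0x800000000000200000001),
   (0x80000000004000000000400010, 0x80200100001),
   (0x44000000200000000, 0x80200000000000000000001),
   (0x4004000000000200, 0x200100001),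
   (0x400000000004000000000400010, 0x80200100001),
   (0x800000000004000000000400010, 0x80200100001),
   (0x4000000400000400, 0x10000000000000000200000001),
   (0x2000000000004000000000400010, 0x80200100001),
   (0x4000000000004000000000400010, 0x80200100001),
   (0x8000000000004000000000400010, 0x80200100001),
   (0x10000000000004000000000400010, 0x80200100001),
   (0x4008004000000000, 0x800000000000200000001),
   (0x44000004000000000, 0x800000000000200000001),
   (0x80000000000004000000000400010, 0x80200100001),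
   (0x100000000000004000000000400010, 0x80200100001),
   (0x200000000000004000000000400010, 0x80200100001),
   (0x400000000000004000000000400010, 0x80200100001),
   (0x800000000000004000000000400010, 0x80200100001),
   (0x1000000000000004000000000400010, 0x80200100001),
   (0x2000000000000004000000000400010, 0x80200100001),
   (0x4000000000000004000000000400010, 0x80200100001),
   (0x8000000000000004000000000400010, 0x80200100001),
   (0x4000040200000000, 0x80000000000020000000001)]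

theorem hP : ∀ p ∈ P, BP p.1 p.2 :=
  consP Pool.Agent.H184.T5.V.p501 <|
  consP Pool.Agent.H184.T5.V.p502 <|
  consP Pool.Agent.H184.T5.B.p1_91_22 <|
  consP Pool.Agent.H184.T5.V.p503 <|
  consP Pool.Agent.H184.T5.B.p4_33_6 <|
  consP Pool.Agent.H184.T5.B.p7_33_22 <|
  consP Pool.Agent.H184.T5.B.p8_33_22 <|
  consP Pool.Agent.H184.T5.B.p38_33_18 <|
  consP Pool.Agent.H184.T5.V.p504 <|
  consP Pool.Agent.H184.T5.B.p38_33_73 <|
  consP Pool.Agent.H184.T5.B.p12_43_2 <|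
  consP Pool.Agent.H184.T5.V.p505 <|
  consP Pool.Agent.H184.T5.B.p14_43_2 <|
  consP Pool.Agent.H184.T5.V.p506 <|
  consP Pool.Agent.H184.T5.B.p4_33_16 <|
  consP Pool.Agent.H184.T5.V.p508 <|
  consP Pool.Agent.H184.T5.V.p509 <|
  consP Pool.Agent.H184.T5.V.p510 <|
  consP Pool.Agent.H184.T5.V.p511 <|
  consP Pool.Agent.H184.T5.V.p512 <|
  consP Pool.Agent.H184.T5.V.p513 <|
  consP Pool.Agent.H184.T5.B.p8_33_42 <|
  consP Pool.Agent.H184.T5.B.p9_33_42 <|
  consP Pool.Agent.H184.T5.B.p7_33_42 <|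
  consP Pool.Agent.H184.T5.V.p514 <|
  consP Pool.Agent.H184.T5.B.p9_33_102 <|
  consP Pool.Agent.H184.T5.B.p1_91_42 <|
  consP Pool.Agent.H184.T5.V.p515 <|
  consP Pool.Agent.H184.T5.B.p38_33_10 <|
  consP Pool.Agent.H184.T5.B.p34_33_22 <|
  consP Pool.Agent.H184.T5.V.p516 <|
  consP Pool.Agent.H184.T5.B.p14_43_42 <|
  consP Pool.Agent.H184.T5.V.p517 <|
  consP Pool.Agent.H184.T5.B.p38_33_50 <|
  consP Pool.Agent.H184.T5.B.p38_33_65 <|
  consP Pool.Agent.H184.T5.B.p4_33_40 <|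
  consP Pool.Agent.H184.T5.V.p1119 <|
  consP Pool.Agent.H184.T5.V.p518 <|
  consP Pool.Agent.H184.T5.B.p38_33_100 <|
  consP Pool.Agent.H184.T5.B.p4_33_44 <|
  consP Pool.Agent.H184.T5.V.p519 <|
  consP Pool.Agent.H184.T5.V.p520 <|
  consP Pool.Agent.H184.T5.V.p521 <|
  consP Pool.Agent.H184.T5.B.p4_33_48 <|
  consP Pool.Agent.H184.T5.V.p522 <|
  consP Pool.Agent.H184.T5.B.p38_33_82 <|
  consP Pool.Agent.H184.T5.B.p4_33_11 <|
  consP Pool.Agent.H184.T5.B.p38_33_87 <|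
  consP Pool.Agent.H184.T5.B.p4_33_13 <|
  consP Pool.Agent.H184.T5.B.p4_33_14 <|
  consP Pool.Agent.H184.T5.V.p183 <|
  consP Pool.Agent.H184.T5.B.p4_33_36 <|
  consP Pool.Agent.H184.T5.V.p523 <|
  consP Pool.Agent.H184.T5.B.p38_33_102 <|
  consP Pool.Agent.H184.T5.B.p38_33_17 <|
  consP Pool.Agent.H184.T5.B.p38_33_57 <|
  consP Pool.Agent.H184.T5.B.p4_33_61 <|
  consP Pool.Agent.H184.T5.V.p524 <|
  consP Pool.Agent.H184.T5.V.p525 <|
  consP Pool.Agent.H184.T5.V.p526 <|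
  consP Pool.Agent.H184.T5.V.p738 <|
  consP Pool.Agent.H184.T5.V.p527 <|
  consP Pool.Agent.H184.T5.V.p528 <|
  consP Pool.Agent.H184.T5.B.p4_33_69 <|
  consP Pool.Agent.H184.T5.B.p2_33_10 <|
  consP Pool.Agent.H184.T5.B.p38_33_47 <|
  consP Pool.Agent.H184.T5.B.p64_41_14 <|
  consP Pool.Agent.H184.T5.B.p7_33_10 <|
  consP Pool.Agent.H184.T5.B.p4_33_74 <|
  consP Pool.Agent.H184.T5.V.p530 <|
  consP Pool.Agent.H184.T5.B.p44_4_10 <|
  consP Pool.Agent.H184.T5.V.p531 <|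
  consP Pool.Agent.H184.T5.B.p38_33_79 <|
  consP Pool.Agent.H184.T5.B.p38_33_94 <|
  consP Pool.Agent.H184.T5.V.p532 <|
  consP Pool.Agent.H184.T5.V.p533 <|
  consP Pool.Agent.H184.T5.V.p534 <|
  consP Pool.Agent.H184.T5.V.p535 <|
  consP Pool.Agent.H184.T5.V.p536 <|
  consP Pool.Agent.H184.T5.V.p537 <|
  consP Pool.Agent.H184.T5.V.p538 <|
  consP Pool.Agent.H184.T5.V.p539 <|
  consP Pool.Agent.H184.T5.B.p4_33_68 <|
  consP Pool.Agent.H184.T5.V.p540 <|
  consP Pool.Agent.H184.T5.B.p4_33_90 <|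
  consP Pool.Agent.H184.T5.B.p33_91_10 <|
  consP Pool.Agent.H184.T5.B.p4_33_92 <|
  consP Pool.Agent.H184.T5.B.p38_33_104 <|
  consP Pool.Agent.H184.T5.B.p4_33_94 <|
  consP Pool.Agent.H184.T5.V.p541 <|
  consP Pool.Agent.H184.T5.V.p542 <|
  consP Pool.Agent.H184.T5.V.p543 <|
  consP Pool.Agent.H184.T5.B.p9_33_58 <|
  consP Pool.Agent.H184.T5.V.p544 <|
  consP Pool.Agent.H184.T5.V.p545 <|
  consP Pool.Agent.H805.T5.N4.t <|
  consP Pool.Agent.H184.T5.V.p546 <|
  consP Pool.Agent.H184.T5.V.p547 <|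
  consP Pool.Agent.H184.T5.B.p33_91_66 <|
  consP Pool.Agent.H184.T5.B.p9_33_50 <|
  consP Pool.Agent.H184.T5.V.p548 <|
  consP Pool.Agent.H184.T5.V.p549 <|
  consP Pool.Agent.H184.T5.B.p34_33_10 <|
  consP Pool.Agent.H184.T5.V.p550 <|
  consP Pool.Agent.H184.T5.V.p551 <|
  consP Pool.Agent.H184.T5.V.p552 <|
  consP Pool.Agent.H184.T5.V.p553 <|
  consP Pool.Agent.H184.T5.B.p38_33_51 <|
  consP Pool.Agent.H184.T5.B.p38_33_66 <|
  consP Pool.Agent.H184.T5.V.p554 <|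
  consP Pool.Agent.H184.T5.V.p555 <|
  consP Pool.Agent.H184.T5.V.p556 <|
  consP Pool.Agent.H184.T5.V.p557 <|
  consP Pool.Agent.H184.T5.V.p487 <|
  consP Pool.Agent.H184.T5.V.p1286 <|
  consP Pool.Agent.H184.T5.V.p558 <|
  consP Pool.Agent.H184.T5.V.p559 <|
  consP Pool.Agent.H184.T5.V.p560 <|
  consP Pool.Agent.H184.T5.B.p33_91_42 <|
  nilP

def T : List Ent :=
  [⟨1, 43, 0, 0⟩,
   ⟨2, 43, 0, 1⟩,
   ⟨5, 43, 0, 3⟩,
   ⟨13, 43, 0, 11⟩,
   ⟨15, 43, 0, 13⟩,
   ⟨17, 43, 0, 15⟩,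
   ⟨18, 43, 0, 16⟩,
   ⟨19, 43, 0, 17⟩,
   ⟨21, 43, 0, 18⟩,
   ⟨23, 43, 0, 19⟩,
   ⟨24, 43, 28, 20⟩,
   ⟨31, 43, 0, 27⟩,
   ⟨35, 43, 0, 30⟩,
   ⟨37, 43, 0, 32⟩,
   ⟨41, 43, 0, 36⟩,
   ⟨42, 43, 0, 37⟩,
   ⟨45, 100, 0, 40⟩,
   ⟨46, 43, 0, 41⟩,
   ⟨47, 43, 0, 42⟩,
   ⟨49, 43, 0, 44⟩,
   ⟨57, 43, 0, 52⟩,
   ⟨63, 43, 0, 57⟩,
   ⟨64, 43, 0, 58⟩,
   ⟨65, 43, 0, 59⟩,
   ⟨66, 43, 0, 60⟩,
   ⟨67, 43, 0, 61⟩,
   ⟨68, 81, 0, 62⟩,
   ⟨75, 43, 0, 69⟩,
   ⟨77, 100, 1, 71⟩,
   ⟨80, 43, 0, 74⟩,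
   ⟨81, 43, 0, 75⟩,
   ⟨82, 43, 0, 76⟩,
   ⟨83, 43, 0, 77⟩,
   ⟨84, 43, 0, 78⟩,
   ⟨86, 43, 0, 80⟩,
   ⟨87, 43, 0, 81⟩,
   ⟨89, 43, 0, 83⟩,
   ⟨95, 43, 0, 89⟩,
   ⟨96, 43, 0, 90⟩,
   ⟨97, 43, 0, 91⟩,
   ⟨99, 43, 0, 93⟩,
   ⟨100, 43, 1, 94⟩,
   ⟨103, 43, 0, 97⟩,
   ⟨106, 43, 0, 100⟩,
   ⟨107, 43, 0, 101⟩,
   ⟨109, 43, 0, 103⟩,
   ⟨110, 43, 0, 104⟩,
   ⟨111, 43, 0, 105⟩,
   ⟨112, 43, 0, 106⟩,
   ⟨115, 43, 0, 109⟩,
   ⟨116, 43, 0, 110⟩,
   ⟨117, 43, 0, 111⟩,
   ⟨118, 43, 0, 112⟩,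
   ⟨119, 43, 0, 113⟩,
   ⟨120, 43, 0, 114⟩,
   ⟨121, 43, 0, 115⟩,
   ⟨122, 43, 0, 116⟩,
   ⟨123, 43, 0, 117⟩]

def F : List Ent :=
  [⟨3, 4, 2, 2⟩,
   ⟨6, 22, 0, 4⟩,
   ⟨7, 4, 0, 5⟩,
   ⟨8, 4, 0, 6⟩,
   ⟨9, 4, 116, 7⟩,
   ⟨10, 4, 94, 8⟩,
   ⟨11, 4, 116, 9⟩,
   ⟨12, 4, 28, 10⟩,
   ⟨14, 4, 28, 12⟩,
   ⟨16, 22, 0, 14⟩,
   ⟨25, 4, 67, 21⟩,
   ⟨26, 4, 67, 22⟩,
   ⟨27, 4, 67, 23⟩,
   ⟨28, 4, 1, 24⟩,
   ⟨29, 4, 1, 25⟩,
   ⟨30, 4, 126, 26⟩,
   ⟨32, 4, 116, 28⟩,
   ⟨34, 4, 0, 29⟩,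
   ⟨36, 4, 67, 31⟩,
   ⟨38, 4, 116, 33⟩,
   ⟨39, 4, 116, 34⟩,
   ⟨40, 22, 0, 35⟩,
   ⟨43, 4, 116, 38⟩,
   ⟨44, 22, 0, 39⟩,
   ⟨48, 22, 0, 43⟩,
   ⟨50, 4, 66, 45⟩,
   ⟨51, 22, 1, 46⟩,
   ⟨52, 4, 116, 47⟩,
   ⟨53, 22, 1, 48⟩,
   ⟨54, 22, 1, 49⟩,
   ⟨55, 4, 34, 50⟩,
   ⟨56, 22, 1, 51⟩,
   ⟨58, 4, 1, 53⟩,
   ⟨59, 4, 116, 54⟩,
   ⟨60, 4, 116, 55⟩,
   ⟨61, 22, 1, 56⟩,
   ⟨69, 22, 0, 63⟩,
   ⟨70, 4, 154, 64⟩,
   ⟨71, 4, 116, 65⟩,
   ⟨72, 4, 4, 66⟩,
   ⟨73, 4, 154, 67⟩,
   ⟨74, 22, 0, 68⟩,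
   ⟨76, 4, 18, 70⟩,
   ⟨78, 4, 116, 72⟩,
   ⟨79, 4, 116, 73⟩,
   ⟨85, 4, 94, 79⟩,
   ⟨88, 22, 1, 82⟩,
   ⟨90, 22, 0, 84⟩,
   ⟨91, 4, 152, 85⟩,
   ⟨92, 22, 1, 86⟩,
   ⟨93, 4, 116, 87⟩,
   ⟨94, 22, 0, 88⟩,
   ⟨98, 4, 94, 92⟩,
   ⟨101, 22, 1, 95⟩,
   ⟨102, 4, 116, 96⟩,
   ⟨104, 4, 106, 98⟩,
   ⟨105, 4, 34, 99⟩,
   ⟨108, 4, 154, 102⟩,
   ⟨113, 4, 116, 107⟩,
   ⟨114, 4, 116, 108⟩,
   ⟨124, 4, 126, 118⟩]

theorem ok : nodeOK2 autA 192 P [4, 22, 62] [0, 20, 33] T F = true := by decide +kernel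

theorem t : BP 0x4000000000400010 0x200100001 := by
  have h := node2 autOK hP ok
  rw [show maskL [4, 22, 62] = 0x4000000000400010 from by decide +kernel, show maskL [0, 20, 33] = 0x200100001 from by decide +kernel] at h
  exact h

end Pool.Agent.H805.T5.N5
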