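import Mathlib
import Pool.Agent.H805.T5.Tree2
import Pool.Agent.H805.T5.Auts
import Pool.Agent.H184.T5.D.F12_43_0
import Pool.Agent.H184.T5.D.F1_91_0
import Pool.Agent.H184.T5.D.F24_43_0
import Pool.Agent.H184.T5.D.F2_33_0
import Pool.Agent.H184.T5.D.F38_33_0
import Pool.Agent.H184.T5.D.F38_33_2
import Pool.Agent.H184.T5.D.F4_33_0
import Pool.Agent.H184.T5.D.F4_33_1
import Pool.Agent.H184.T5.D.F7_33_0
import Pool.Agent.H184.T5.D.F8_33_0
import Pool.Agent.H184.T5.D.F8_33_1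
import Pool.Agent.H184.T5.D.F8_33_2
import Pool.Agent.H184.T5.D.F9_33_0
import Pool.Agent.H184.T5.D.V_000
import Pool.Agent.H184.T5.D.V_002
import Pool.Agent.H184.T5.D.V_004
import Pool.Agent.H184.T5.D.V_007
import Pool.Agent.H184.T5.D.V_010
import Pool.Agent.H184.T5.D.V_011
import Pool.Agent.H184.T5.D.V_012
import Pool.Agent.H184.T5.D.V_015
import Pool.Agent.H184.T5.D.V_016
import Pool.Agent.H184.T5.D.V_018
import Pool.Agent.H184.T5.D.V_019
import Pool.Agent.H184.T5.D.V_022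
import Pool.Agent.H184.T5.D.V_023
import Pool.Agent.H805.T5.N.N3
import Pool.Agent.H805.T5.N.N4
import Pool.Agent.H805.T5.N.N5

set_option autoImplicit false
set_option maxRecDepth 20000

namespace Pool.Agent.H805.T5.N6

open Pool.Agent.Helper582.Cube

def P : List (ℕ × ℕ) :=
  [(0x4000000000800012, 0x80200100001),
   (0x4000000000800014, 0x80200100001),
   (0x4000000084000000, 0xa0000000001),
   (0x4000000000800030, 0x80200100001),
   (0x4000000000000050, 0x200100001),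
   (0x4000000000800080, 0x200100001),
   (0x4000000000800100, 0x200100001),
   (0x40004000000000000100, 0x80200000001),
   (0x4000014000000000, 0x80200000001),
   (0x4000000000800810, 0x80200100001),
   (0x4000000000001010, 0x200100001),
   (0x4000000000802010, 0x80200100001),
   (0x4000000000804010, 0x80200100001),
   (0x4000000000808010, 0x80200100001),
   (0x4000000000010010, 0x200100001),
   (0x4000000000820010, 0x80200100001),
   (0x4000000000840010, 0x80200100001),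
   (0x4000000000880010, 0x80200100001),
   (0x4000000000a00010, 0x80200100001),
   (0x4000000000400010, 0x200100001),
   (0x4000000001800010, 0x80200100001),
   (0x4000000002800010, 0x80200100001),
   (0x4000010000000200, 0x80200000001),
   (0x4000000008800010, 0x80200100001),
   (0x4000000010800010, 0x80200100001),
   (0x40000004000000000000100, 0x80200000001),
   (0x4000010000000002, 0x80000000000020000000001),
   (0x4000000080800010, 0x80200100001),
   (0x4000010080000004, 0x80200100001),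
   (0x8004000000000000100, 0x80200000001),
   (0x4000000800800010, 0x80200100001),
   (0x4000001000800010, 0x80200100001),
   (0x4000002000800010, 0x80200100001),
   (0x4000004001000000, 0x80000100001),
   (0x4000008000800010, 0x80200100001),
   (0x4000010000000010, 0x200100001),
   (0x4000020000800010, 0x80200100001),
   (0x4000040000800010, 0x80200100001),
   (0x4000080000800010, 0x200000000000200100001),
   (0x800000004000000000000100, 0x80200000001),
   (0x4000200000800010, 0x80200100001),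
   (0x4000400000800010, 0x80200100001),
   (0x4000800000800010, 0x80200100001),
   (0x4001000000000010, 0x200100001),
   (0x4002000000800010, 0x80200100001),
   (0x4000040000000100, 0x80200000001),
   (0x200000000000004000000000000100, 0x80200000001),
   (0x14000000001000000, 0x80000000011),
   (0x4000000000002010, 0x10000000000000000200000001),
   (0x4000000000004010, 0x10000000000000000200000001),
   (0x4080000000800010, 0x80200100001),
   (0x4000001000000010, 0x10000000000000000200000001),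
   (0x4200000000800010, 0x80200100001),
   (0x80000000004000004000000000, 0x10000000000000000200000001),
   (0x20004000000000000100, 0x80200000001),
   (0x4000000020001000, 0x80000000011),
   (0x6000000000000010, 0x10000000000000000200000001),
   (0xc000000000800010, 0x80200100001),
   (0x14000000000800010, 0x80200100001),
   (0x24000000000800010, 0x80200100001),
   (0x4000000000000004000000000000100, 0x80200000001),
   (0x84000000000800010, 0x80200100001),
   (0x104000000000800010, 0x80200100001),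
   (0x204000000000000010, 0x200100001),
   (0x4000000000000024, 0x10000000000000000200000001),
   (0x804000000000000010, 0x200100001),
   (0x14000000000100000, 0x20000000011),
   (0x2004000000000800010, 0x80200100001),
   (0x4004000000000000010, 0x200100001),
   (0x8004000000000800010, 0x80200100001),
   (0x800000000000004000000000000100, 0x80200000001),
   (0x80000000004000000000020010, 0x10000800000000000200000001),
   (0x80000000004000000000040010, 0x10000800000000000200000001),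
   (0x4000000000080010, 0x10000000000000000200000001),
   (0x100004000000000800010, 0x80200100001),
   (0x200004000000000800010, 0x80200100001),
   (0x400004000000000800010, 0x80200100001),
   (0x800004000000000800010, 0x80200100001),
   (0x1000004000000000800010, 0x80200100001),
   (0x2000004000000000800010, 0x80200100001),
   (0x4000004000000000800010, 0x80200100001),
   (0x8000004000000000800010, 0x80200100001),
   (0x104000000000000010, 0x10000000000000000200000001),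
   (0x20000004000000000000100, 0x80200000001),
   (0x40000004000000000000010, 0x200100001),
   (0x80000004000000000000010, 0x10000000000000000200000001),
   (0x100000004000000000000010, 0x10000000000000000200000001),
   (0x4000000001000100, 0x80200000001),
   (0x400000004000000000000010, 0x200100001),
   (0x800000004000000000800010, 0x80200100001),
   (0x1000000004000000000800010, 0x80200100001),
   (0x2000000004000000000800010, 0x80200100001),
   (0x4000000004000000000000010, 0x200100001),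
   (0x8000000004000000000800010, 0x80200100001),
   (0x10000000004000000000800010, 0x200000000000200100001),
   (0x4000000000200010, 0x10000000000000000200000001),
   (0x80000000004000000000400010, 0x10000000000000020200000001),
   (0x80000000004000000000800010, 0x80200100001),
   (0x80000004000000000000100, 0x80200000001),
   (0x200000000004000000000800010, 0x80200100001),
   (0x400000000004000000000800010, 0x80200100001),
   (0x800000000004000000000800010, 0x80200100001),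
   (0x1000000000004000000000800010, 0x80200100001),
   (0x2000000000004000000000800010, 0x80200100001),
   (0x4000000000004000000000800010, 0x80200100001),
   (0x8000000000004000000000800010, 0x80200100001),
   (0x10000000000004000000000800010, 0x80200100001),
   (0x2004000000000000010, 0x10000000000000000200000001),
   (0x40000000000004000000000800010, 0x80200100001),
   (0x80000000000004000000000800010, 0x80200100001),
   (0x100000000000004000000000800010, 0x80200100001),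
   (0x804000000000000100, 0x80200000001),
   (0x200000000004000000400100000, 0x10000800000000000200000001),
   (0x800000000000004000000000800010, 0x80200100001),
   (0x1000000000000004000000000800010, 0x80200100001),
   (0x2000000000000004000000000800010, 0x80200100001),
   (0x4100000000000100, 0x80200000001),
   (0x8000000000000004000000000800010, 0x80200100001),
   (0x10000000000000004000000000800010, 0x80200100001)]

theorem hP : ∀ p ∈ P, BP p.1 p.2 :=
  consP Pool.Agent.H184.T5.V.p1518 <|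
  consP Pool.Agent.H184.T5.V.p1519 <|
  consP Pool.Agent.H184.T5.V.p46 <|
  consP Pool.Agent.H184.T5.V.p1520 <|
  consP Pool.Agent.H184.T5.B.p4_33_6 <|
  consP Pool.Agent.H184.T5.B.p7_33_23 <|
  consP Pool.Agent.H184.T5.B.p8_33_23 <|
  consP Pool.Agent.H184.T5.B.p8_33_78 <|
  consP Pool.Agent.H184.T5.B.p38_33_40 <|
  consP Pool.Agent.H184.T5.V.p1521 <|
  consP Pool.Agent.H184.T5.B.p4_33_12 <|
  consP Pool.Agent.H184.T5.V.p1522 <|
  consP Pool.Agent.H184.T5.V.p1523 <|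
  consP Pool.Agent.H184.T5.V.p1524 <|
  consP Pool.Agent.H184.T5.B.p4_33_16 <|
  consP Pool.Agent.H184.T5.V.p1525 <|
  consP Pool.Agent.H184.T5.V.p1526 <|
  consP Pool.Agent.H184.T5.V.p1527 <|
  consP Pool.Agent.H184.T5.V.p1528 <|
  consP Pool.Agent.H805.T5.N5.t <|
  consP Pool.Agent.H184.T5.V.p1529 <|
  consP Pool.Agent.H184.T5.V.p1530 <|
  consP Pool.Agent.H184.T5.B.p9_33_40 <|
  consP Pool.Agent.H184.T5.V.p1531 <|
  consP Pool.Agent.H184.T5.V.p1532 <|
  consP Pool.Agent.H184.T5.B.p8_33_90 <|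
  consP Pool.Agent.H184.T5.B.p1_91_40 <|
  consP Pool.Agent.H184.T5.V.p1533 <|
  consP Pool.Agent.H184.T5.V.p844 <|
  consP Pool.Agent.H184.T5.B.p8_33_75 <|
  consP Pool.Agent.H184.T5.V.p1534 <|
  consP Pool.Agent.H184.T5.V.p1535 <|
  consP Pool.Agent.H184.T5.V.p1536 <|
  consP Pool.Agent.H184.T5.B.p24_43_38 <|
  consP Pool.Agent.H184.T5.V.p1537 <|
  consP Pool.Agent.H184.T5.B.p4_33_40 <|
  consP Pool.Agent.H184.T5.V.p1120 <|
  consP Pool.Agent.H184.T5.V.p1538 <|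
  consP Pool.Agent.H184.T5.V.p1315 <|
  consP Pool.Agent.H184.T5.B.p8_33_95 <|
  consP Pool.Agent.H184.T5.V.p1539 <|
  consP Pool.Agent.H184.T5.V.p1540 <|
  consP Pool.Agent.H184.T5.V.p1541 <|
  consP Pool.Agent.H184.T5.B.p4_33_48 <|
  consP Pool.Agent.H184.T5.V.p1542 <|
  consP Pool.Agent.H184.T5.B.p8_33_42 <|
  consP Pool.Agent.H184.T5.B.p8_33_117 <|
  consP Pool.Agent.H184.T5.B.p24_43_64 <|
  consP Pool.Agent.H184.T5.B.p4_33_13 <|
  consP Pool.Agent.H184.T5.B.p4_33_14 <|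
  consP Pool.Agent.H184.T5.V.p184 <|
  consP Pool.Agent.H184.T5.B.p4_33_36 <|
  consP Pool.Agent.H184.T5.V.p1512 <|
  consP Pool.Agent.H184.T5.B.p38_33_103 <|
  consP Pool.Agent.H184.T5.B.p8_33_77 <|
  consP Pool.Agent.H184.T5.B.p12_43_29 <|
  consP Pool.Agent.H184.T5.B.p4_33_61 <|
  consP Pool.Agent.H184.T5.V.p1543 <|
  consP Pool.Agent.H184.T5.V.p1544 <|
  consP Pool.Agent.H184.T5.V.p1545 <|
  consP Pool.Agent.H184.T5.V.p739 <|
  consP Pool.Agent.H184.T5.V.p1073 <|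
  consP Pool.Agent.H184.T5.V.p1546 <|
  consP Pool.Agent.H184.T5.B.p4_33_69 <|
  consP Pool.Agent.H184.T5.B.p2_33_5 <|
  consP Pool.Agent.H184.T5.B.p4_33_71 <|
  consP Pool.Agent.H184.T5.V.p313 <|
  consP Pool.Agent.H184.T5.V.p1547 <|
  consP Pool.Agent.H184.T5.B.p4_33_74 <|
  consP Pool.Agent.H184.T5.V.p1548 <|
  consP Pool.Agent.H184.T5.B.p8_33_119 <|
  consP Pool.Agent.H184.T5.V.p1549 <|
  consP Pool.Agent.H184.T5.V.p1550 <|
  consP Pool.Agent.H805.T5.N3.t <|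
  consP Pool.Agent.H184.T5.V.p1551 <|
  consP Pool.Agent.H184.T5.V.p1552 <|
  consP Pool.Agent.H184.T5.V.p1553 <|
  consP Pool.Agent.H184.T5.V.p1554 <|
  consP Pool.Agent.H184.T5.V.p1555 <|
  consP Pool.Agent.H184.T5.V.p1556 <|
  consP Pool.Agent.H184.T5.V.p1557 <|
  consP Pool.Agent.H184.T5.V.p1558 <|
  consP Pool.Agent.H184.T5.B.p4_33_68 <|
  consP Pool.Agent.H184.T5.V.p1559 <|
  consP Pool.Agent.H184.T5.B.p4_33_90 <|
  consP Pool.Agent.H184.T5.B.p4_33_91 <|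
  consP Pool.Agent.H184.T5.B.p4_33_92 <|
  consP Pool.Agent.H184.T5.B.p8_33_24 <|
  consP Pool.Agent.H184.T5.B.p4_33_94 <|
  consP Pool.Agent.H184.T5.V.p1560 <|
  consP Pool.Agent.H184.T5.V.p1561 <|
  consP Pool.Agent.H184.T5.V.p1562 <|
  consP Pool.Agent.H184.T5.B.p4_33_98 <|
  consP Pool.Agent.H184.T5.V.p1563 <|
  consP Pool.Agent.H184.T5.V.p1564 <|
  consP Pool.Agent.H805.T5.N4.t <|
  consP Pool.Agent.H184.T5.V.p1565 <|
  consP Pool.Agent.H184.T5.V.p1566 <|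
  consP Pool.Agent.H184.T5.B.p8_33_91 <|
  consP Pool.Agent.H184.T5.V.p655 <|
  consP Pool.Agent.H184.T5.V.p1567 <|
  consP Pool.Agent.H184.T5.V.p1568 <|
  consP Pool.Agent.H184.T5.V.p66 <|
  consP Pool.Agent.H184.T5.V.p1569 <|
  consP Pool.Agent.H184.T5.V.p1570 <|
  consP Pool.Agent.H184.T5.V.p1571 <|
  consP Pool.Agent.H184.T5.V.p1572 <|
  consP Pool.Agent.H184.T5.B.p4_33_73 <|
  consP Pool.Agent.H184.T5.V.p1573 <|
  consP Pool.Agent.H184.T5.V.p1574 <|
  consP Pool.Agent.H184.T5.V.p1575 <|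
  consP Pool.Agent.H184.T5.B.p8_33_71 <|
  consP Pool.Agent.H184.T5.V.p1576 <|
  consP Pool.Agent.H184.T5.V.p488 <|
  consP Pool.Agent.H184.T5.V.p1287 <|
  consP Pool.Agent.H184.T5.V.p1577 <|
  consP Pool.Agent.H184.T5.B.p8_33_56 <|
  consP Pool.Agent.H184.T5.V.p1578 <|
  consP Pool.Agent.H184.T5.V.p1579 <|
  nilP

def T : List Ent :=
  [⟨1, 43, 0, 0⟩,
   ⟨2, 43, 0, 1⟩,
   ⟨5, 43, 0, 3⟩,
   ⟨11, 43, 0, 9⟩,
   ⟨13, 43, 0, 11⟩,
   ⟨14, 43, 0, 12⟩,
   ⟨15, 43, 0, 13⟩,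
   ⟨17, 43, 0, 15⟩,
   ⟨18, 43, 0, 16⟩,
   ⟨19, 43, 0, 17⟩,
   ⟨21, 43, 0, 18⟩,
   ⟨24, 43, 0, 20⟩,
   ⟨25, 43, 0, 21⟩,
   ⟨27, 43, 0, 23⟩,
   ⟨28, 43, 0, 24⟩,
   ⟨31, 43, 0, 27⟩,
   ⟨32, 43, 67, 28⟩,
   ⟨35, 43, 0, 30⟩,
   ⟨36, 43, 0, 31⟩,
   ⟨37, 43, 0, 32⟩,
   ⟨39, 43, 0, 34⟩,
   ⟨41, 43, 0, 36⟩,
   ⟨42, 43, 0, 37⟩,
   ⟨43, 81, 0, 38⟩,
   ⟨45, 43, 0, 40⟩,
   ⟨46, 43, 0, 41⟩,
   ⟨47, 43, 0, 42⟩,
   ⟨49, 43, 0, 44⟩,
   ⟨55, 43, 0, 50⟩,
   ⟨57, 43, 0, 52⟩,
   ⟨63, 43, 0, 57⟩,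
   ⟨64, 43, 0, 58⟩,
   ⟨65, 43, 0, 59⟩,
   ⟨67, 43, 0, 61⟩,
   ⟨68, 43, 0, 62⟩,
   ⟨73, 43, 0, 67⟩,
   ⟨75, 43, 0, 69⟩,
   ⟨77, 43, 1, 71⟩,
   ⟨78, 43, 1, 72⟩,
   ⟨80, 43, 0, 74⟩,
   ⟨81, 43, 0, 75⟩,
   ⟨82, 43, 0, 76⟩,
   ⟨83, 43, 0, 77⟩,
   ⟨84, 43, 0, 78⟩,
   ⟨85, 43, 0, 79⟩,
   ⟨86, 43, 0, 80⟩,
   ⟨87, 43, 0, 81⟩,
   ⟨95, 43, 0, 89⟩,
   ⟨96, 43, 0, 90⟩,
   ⟨97, 43, 0, 91⟩,
   ⟨99, 43, 0, 93⟩,
   ⟨100, 81, 0, 94⟩,
   ⟨102, 81, 1, 96⟩,
   ⟨103, 43, 0, 97⟩,
   ⟨105, 43, 0, 99⟩,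
   ⟨106, 43, 0, 100⟩,
   ⟨107, 43, 0, 101⟩,
   ⟨108, 43, 0, 102⟩,
   ⟨109, 43, 0, 103⟩,
   ⟨110, 43, 0, 104⟩,
   ⟨111, 43, 0, 105⟩,
   ⟨112, 43, 0, 106⟩,
   ⟨114, 43, 0, 108⟩,
   ⟨115, 43, 0, 109⟩,
   ⟨116, 43, 0, 110⟩,
   ⟨118, 43, 7, 112⟩,
   ⟨119, 43, 0, 113⟩,
   ⟨120, 43, 0, 114⟩,
   ⟨121, 43, 0, 115⟩,
   ⟨123, 43, 0, 117⟩,
   ⟨124, 43, 0, 118⟩]

def F : List Ent :=
  [⟨3, 23, 81, 2⟩,
   ⟨6, 23, 0, 4⟩,
   ⟨7, 4, 0, 5⟩,
   ⟨8, 4, 0, 6⟩,
   ⟨9, 4, 94, 7⟩,
   ⟨10, 4, 67, 8⟩,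
   ⟨12, 23, 0, 10⟩,
   ⟨16, 23, 0, 14⟩,
   ⟨22, 23, 0, 19⟩,
   ⟨26, 4, 67, 22⟩,
   ⟨29, 4, 94, 25⟩,
   ⟨30, 4, 126, 26⟩,
   ⟨34, 4, 94, 29⟩,
   ⟨38, 23, 28, 33⟩,
   ⟨40, 23, 0, 35⟩,
   ⟨44, 4, 94, 39⟩,
   ⟨48, 23, 0, 43⟩,
   ⟨50, 4, 94, 45⟩,
   ⟨51, 4, 94, 46⟩,
   ⟨52, 23, 16, 47⟩,
   ⟨53, 23, 1, 48⟩,
   ⟨54, 23, 1, 49⟩,
   ⟨56, 23, 1, 51⟩,
   ⟨58, 4, 1, 53⟩,
   ⟨59, 4, 94, 54⟩,
   ⟨60, 4, 10, 55⟩,
   ⟨61, 23, 1, 56⟩,
   ⟨66, 4, 94, 60⟩,
   ⟨69, 23, 0, 63⟩,
   ⟨70, 4, 154, 64⟩,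
   ⟨71, 23, 0, 65⟩,
   ⟨72, 23, 4, 66⟩,
   ⟨74, 23, 0, 68⟩,
   ⟨76, 4, 94, 70⟩,
   ⟨79, 23, 1, 73⟩,
   ⟨88, 23, 1, 82⟩,
   ⟨89, 4, 94, 83⟩,
   ⟨90, 23, 0, 84⟩,
   ⟨91, 23, 1, 85⟩,
   ⟨92, 23, 1, 86⟩,
   ⟨93, 4, 94, 87⟩,
   ⟨94, 23, 0, 88⟩,
   ⟨98, 23, 0, 92⟩,
   ⟨101, 23, 1, 95⟩,
   ⟨104, 4, 94, 98⟩,
   ⟨113, 23, 1, 107⟩,
   ⟨117, 4, 94, 111⟩,
   ⟨122, 4, 94, 116⟩]

theorem ok : nodeOK2 autA 192 P [4, 23, 62] [0, 20, 33] T F = true := by decide +kernel

theorem t : BP 0x4000000000800010 0x200100001 := by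
  have h := node2 autOK hP ok
  rw [show maskL [4, 23, 62] = 0x4000000000800010 from by decide +kernel, show maskL [0, 20, 33] = 0x200100001 from by decide +kernel] at h
  exact h

end Pool.Agent.H805.T5.N6
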