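import Mathlib
import Pool.Agent.H805.T5.Tree2
import Pool.Agent.H805.T5.Auts
import Pool.Agent.H184.T5.D.F12_43_0
import Pool.Agent.H184.T5.D.F14_43_0
import Pool.Agent.H184.T5.D.F14_43_2
import Pool.Agent.H184.T5.D.F1_91_0
import Pool.Agent.H184.T5.D.F1_91_1
import Pool.Agent.H184.T5.D.F24_43_0
import Pool.Agent.H184.T5.D.F24_43_1
import Pool.Agent.H184.T5.D.F2_33_0
import Pool.Agent.H184.T5.D.F2_33_1
import Pool.Agent.H184.T5.D.F38_33_2
import Pool.Agent.H184.T5.D.F44_4_0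
import Pool.Agent.H184.T5.D.F4_33_0
import Pool.Agent.H184.T5.D.F4_33_1
import Pool.Agent.H184.T5.D.F7_33_0
import Pool.Agent.H184.T5.D.F7_33_2
import Pool.Agent.H184.T5.D.F8_33_0
import Pool.Agent.H184.T5.D.F8_33_1
import Pool.Agent.H184.T5.D.F9_33_2
import Pool.Agent.H184.T5.D.V_003
import Pool.Agent.H184.T5.D.V_005
import Pool.Agent.H184.T5.D.V_007
import Pool.Agent.H184.T5.D.V_014
import Pool.Agent.H184.T5.D.V_015
import Pool.Agent.H184.T5.D.V_016
import Pool.Agent.H184.T5.D.V_025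
import Pool.Agent.H805.T5.N.N5
import Pool.Agent.H805.T5.N.N6

set_option autoImplicit false
set_option maxRecDepth 20000

namespace Pool.Agent.H805.T5.N10

open Pool.Agent.Helper582.Cube

def P : List (ℕ × ℕ) :=
  [(0x4000020000000012, 0x80200100001),
   (0x800004000000000000014, 0x80000000000000200100001),
   (0x4000000005000000, 0xa0000000001),
   (0x4000020000000030, 0x80200100001),
   (0x4000000000000050, 0x200100001),
   (0x4000000009000000, 0x80200000001),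
   (0x1000000000000004000000000000002, 0x80000000000020000000001),
   (0x4000000000000210, 0x200100001),
   (0x4000020000000410, 0x80200100001),
   (0x4000008001000000, 0x80200000001),
   (0x4000000080001000, 0x80000000011),
   (0x4000020000002010, 0x80200100001),
   (0x4000000080004000, 0x80000100001),
   (0x4000020000008010, 0x80200100001),
   (0x4002000001000000, 0x80200000001),
   (0x4000020000020010, 0x80200100001),
   (0x4000000021000000, 0xa0000000001),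
   (0x4000020000080010, 0x80000000000000200100001),
   (0x4000020000200010, 0x200000000000200100001),
   (0x4000000000400010, 0x200100001),
   (0x4000000000800010, 0x200100001),
   (0x4000020001000010, 0x80200100001),
   (0x4000000001000100, 0x80200000001),
   (0x4000000001000200, 0x80200000001),
   (0x4000000001000080, 0x80200000001),
   (0x200004000000000000100, 0x10000000000000000200000001),
   (0x4000000001000040, 0xa0000000001),
   (0x4000000001000002, 0x80200000000000000000001),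
   (0x4000000001000010, 0x80200000001),
   (0x4000000001000004, 0x80200000001),
   (0x4000000001000002, 0x80200000001),
   (0x4000000001002000, 0x80200000001),
   (0x4000021000000010, 0x80200100001),
   (0x4000022000000010, 0x80200100001),
   (0x4000000001000004, 0xa0000000001),
   (0x4000028000000010, 0x80200100001),
   (0x4000010000000010, 0x200100001),
   (0x4000060000000010, 0x200000000000200100001),
   (0x4000080200000000, 0x20000000011),
   (0x4000100000000010, 0x200100001),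
   (0x4000000001000040, 0xa00000000000000000001),
   (0x4000420000000010, 0x80200100001),
   (0x4000820000000010, 0x80200100001),
   (0x4001000000000010, 0x200100001),
   (0x4002020000000010, 0x80200100001),
   (0x100000000004000004000000000, 0x800000000000200000001),
   (0x4000000000000810, 0x10000000000000000200000001),
   (0x14000000001000000, 0x80000000011),
   (0x4000000000002010, 0x10000000000000000200000001),
   (0x4100000001000000, 0xa0000000001),
   (0x200000004000000000000080, 0x200100001),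
   (0x4040000001000000, 0x80200000001),
   (0x200004000002000000010, 0x10000800000000000200000001),
   (0x1000000000000004000000000000004, 0x80200000001),
   (0x4000008000000010, 0x10000000000000000200000001),
   (0xc000000001000000, 0x80200000001),
   (0x6000000000000010, 0x10000000000000000200000001),
   (0x4010000001000000, 0xa0000000001),
   (0x4200000001000000, 0xa0000000001),
   (0x24000020000000010, 0x80200100001),
   (0x4100000080000000, 0x80000000011),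
   (0x84000020000000010, 0x80200100001),
   (0x100000000004000000000004000, 0xa0000000001),
   (0x204000000000000010, 0x200100001),
   (0x404000020000000010, 0x80200100001),
   (0x804000000000000010, 0x200100001),
   (0xc000000001000000, 0xa0000000001),
   (0x2004000020000000010, 0x80200100001),
   (0x4004000000000000010, 0x200100001),
   (0x4000000080080000, 0x800000000000000000011),
   (0x200004000000000010010, 0x10000800000000000200000001),
   (0x800000000004000000001000000, 0x80200000001),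
   (0x20000000004000000001000000, 0xa0000000001),
   (0x400000000004000000001000000, 0x80200000001),
   (0x1000000000000004000000000000200, 0x800000000000200000001),
   (0x200004000020000000010, 0x80200100001),
   (0x4000000000000004000020000000010, 0x80200100001),
   (0x800004000020000000010, 0x80200100001),
   (0x1000004000020000000010, 0x200000000000200100001),
   (0x20000000000004000000001000000, 0x80200000001),
   (0x4000004000020000000010, 0x80200100001),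
   (0x10000000000004000000001000000, 0x80200000001),
   (0x40000000004000000001000000, 0xa0000000001),
   (0x800000000004000000001000000, 0xa0000000001),
   (0x800000000000004000000001000000, 0xa0000000001),
   (0x10000000000000004000000001000000, 0x80200000001),
   (0x40000000000004000000001000000, 0xa0000000001),
   (0x200000004000000000000010, 0x200100001),
   (0x2000000000004000000001000000, 0xa0000000001),
   (0x400000000000004000000001000000, 0x80200000001),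
   (0x4000100200000000, 0x200000000000000000011),
   (0x2000000004000020000000010, 0x80200100001),
   (0x4000000004000000000000010, 0x200100001),
   (0x1000000000004000000001000000, 0xa0000000001),
   (0x200004000000000100010, 0x10000800000000000200000001),
   (0x1000004000000001000000, 0x80200000001),
   (0x400004000000001000000, 0x80200000001),
   (0x200004000000000800010, 0x10000800000000000200000001),
   (0x200004000000001000000, 0x80200000001),
   (0x200000004000000000000200, 0x200100001),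
   (0x400000000004000020000000010, 0x80200100001),
   (0x20004000000001000000, 0x80200000001),
   (0x8004000000001000000, 0x80200000001),
   (0x2000000000004000020000000010, 0x80200100001),
   (0x10000004000000001000000, 0x80200000001),
   (0x20000004000000001000000, 0x80200000001),
   (0x8000004000000001000000, 0x80200000001),
   (0x2004000000000000010, 0x10000000000000000200000001),
   (0x40000000000004000000080000000, 0x80000100001),
   (0x20000000004000000080000000, 0x80000000011),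
   (0x8000000004000000001000000, 0xa0000000001),
   (0x200000000000004000020000000010, 0x80200100001),
   (0x80004000000001000000, 0xa0000000001),
   (0x400000004000000001000000, 0x80200000001),
   (0x8000000000000004000020000000010, 0x80200100001),
   (0x800004000000001000000, 0xa0000000001)]

theorem hP : ∀ p ∈ P, BP p.1 p.2 :=
  consP Pool.Agent.H184.T5.V.p376 <|
  consP Pool.Agent.H184.T5.V.p1111 <|
  consP Pool.Agent.H184.T5.B.p24_43_26 <|
  consP Pool.Agent.H184.T5.V.p1112 <|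
  consP Pool.Agent.H184.T5.B.p4_33_6 <|
  consP Pool.Agent.H184.T5.B.p24_43_27 <|
  consP Pool.Agent.H184.T5.B.p1_91_120 <|
  consP Pool.Agent.H184.T5.B.p4_33_9 <|
  consP Pool.Agent.H184.T5.V.p1113 <|
  consP Pool.Agent.H184.T5.B.p24_43_39 <|
  consP Pool.Agent.H184.T5.B.p12_43_31 <|
  consP Pool.Agent.H184.T5.V.p1114 <|
  consP Pool.Agent.H184.T5.B.p14_43_31 <|
  consP Pool.Agent.H184.T5.V.p1115 <|
  consP Pool.Agent.H184.T5.B.p24_43_49 <|
  consP Pool.Agent.H184.T5.V.p1116 <|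
  consP Pool.Agent.H184.T5.B.p24_43_29 <|
  consP Pool.Agent.H184.T5.V.p1117 <|
  consP Pool.Agent.H184.T5.V.p1118 <|
  consP Pool.Agent.H805.T5.N5.t <|
  consP Pool.Agent.H805.T5.N6.t <|
  consP Pool.Agent.H184.T5.V.p1121 <|
  consP Pool.Agent.H184.T5.B.p8_33_24 <|
  consP Pool.Agent.H184.T5.B.p24_43_9 <|
  consP Pool.Agent.H184.T5.B.p7_33_24 <|
  consP Pool.Agent.H184.T5.B.p8_33_81 <|
  consP Pool.Agent.H184.T5.B.p24_43_6 <|
  consP Pool.Agent.H184.T5.B.p1_91_24 <|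
  consP Pool.Agent.H184.T5.B.p4_33_24 <|
  consP Pool.Agent.H184.T5.B.p2_33_24 <|
  consP Pool.Agent.H184.T5.B.p24_43_1 <|
  consP Pool.Agent.H184.T5.B.p24_43_13 <|
  consP Pool.Agent.H184.T5.V.p1122 <|
  consP Pool.Agent.H184.T5.V.p1123 <|
  consP Pool.Agent.H184.T5.B.p24_43_2 <|
  consP Pool.Agent.H184.T5.V.p1124 <|
  consP Pool.Agent.H184.T5.B.p4_33_40 <|
  consP Pool.Agent.H184.T5.V.p1125 <|
  consP Pool.Agent.H184.T5.V.p266 <|
  consP Pool.Agent.H184.T5.B.p4_33_44 <|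
  consP Pool.Agent.H184.T5.V.p977 <|
  consP Pool.Agent.H184.T5.V.p1126 <|
  consP Pool.Agent.H184.T5.V.p1127 <|
  consP Pool.Agent.H184.T5.B.p4_33_48 <|
  consP Pool.Agent.H184.T5.V.p1128 <|
  consP Pool.Agent.H184.T5.B.p38_33_104 <|
  consP Pool.Agent.H184.T5.B.p4_33_11 <|
  consP Pool.Agent.H184.T5.B.p24_43_64 <|
  consP Pool.Agent.H184.T5.B.p4_33_13 <|
  consP Pool.Agent.H184.T5.B.p24_43_56 <|
  consP Pool.Agent.H184.T5.B.p7_33_93 <|
  consP Pool.Agent.H184.T5.B.p24_43_54 <|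
  consP Pool.Agent.H184.T5.V.p1129 <|
  consP Pool.Agent.H184.T5.B.p2_33_120 <|
  consP Pool.Agent.H184.T5.B.p4_33_39 <|
  consP Pool.Agent.H184.T5.B.p24_43_63 <|
  consP Pool.Agent.H184.T5.B.p4_33_61 <|
  consP Pool.Agent.H184.T5.B.p24_43_52 <|
  consP Pool.Agent.H184.T5.B.p24_43_57 <|
  consP Pool.Agent.H184.T5.V.p1130 <|
  consP Pool.Agent.H184.T5.V.p1003 <|
  consP Pool.Agent.H184.T5.V.p1082 <|
  consP Pool.Agent.H184.T5.B.p14_43_104 <|
  consP Pool.Agent.H184.T5.B.p4_33_69 <|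
  consP Pool.Agent.H184.T5.V.p1131 <|
  consP Pool.Agent.H184.T5.B.p4_33_71 <|
  consP Pool.Agent.H184.T5.V.p1203 <|
  consP Pool.Agent.H184.T5.V.p1132 <|
  consP Pool.Agent.H184.T5.B.p4_33_74 <|
  consP Pool.Agent.H184.T5.V.p1016 <|
  consP Pool.Agent.H184.T5.V.p479 <|
  consP Pool.Agent.H184.T5.V.p1014 <|
  consP Pool.Agent.H184.T5.B.p24_43_101 <|
  consP Pool.Agent.H184.T5.B.p24_43_106 <|
  consP Pool.Agent.H184.T5.B.p9_33_120 <|
  consP Pool.Agent.H184.T5.V.p1134 <|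
  consP Pool.Agent.H184.T5.V.p1135 <|
  consP Pool.Agent.H184.T5.V.p1136 <|
  consP Pool.Agent.H184.T5.V.p1137 <|
  consP Pool.Agent.H184.T5.B.p24_43_113 <|
  consP Pool.Agent.H184.T5.V.p1138 <|
  consP Pool.Agent.H184.T5.B.p24_43_112 <|
  consP Pool.Agent.H184.T5.B.p24_43_102 <|
  consP Pool.Agent.H184.T5.B.p24_43_107 <|
  consP Pool.Agent.H184.T5.B.p24_43_119 <|
  consP Pool.Agent.H184.T5.B.p24_43_124 <|
  consP Pool.Agent.H184.T5.B.p24_43_114 <|
  consP Pool.Agent.H184.T5.B.p4_33_93 <|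
  consP Pool.Agent.H184.T5.B.p24_43_109 <|
  consP Pool.Agent.H184.T5.B.p24_43_118 <|
  consP Pool.Agent.H184.T5.B.p44_4_33 <|
  consP Pool.Agent.H184.T5.V.p1140 <|
  consP Pool.Agent.H184.T5.B.p4_33_98 <|
  consP Pool.Agent.H184.T5.B.p24_43_108 <|
  consP Pool.Agent.H184.T5.V.p1141 <|
  consP Pool.Agent.H184.T5.B.p24_43_84 <|
  consP Pool.Agent.H184.T5.B.p24_43_82 <|
  consP Pool.Agent.H184.T5.V.p1142 <|
  consP Pool.Agent.H184.T5.B.p24_43_81 <|
  consP Pool.Agent.H184.T5.B.p9_33_93 <|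
  consP Pool.Agent.H184.T5.V.p1143 <|
  consP Pool.Agent.H184.T5.B.p24_43_77 <|
  consP Pool.Agent.H184.T5.B.p24_43_75 <|
  consP Pool.Agent.H184.T5.V.p1139 <|
  consP Pool.Agent.H184.T5.B.p24_43_88 <|
  consP Pool.Agent.H184.T5.B.p24_43_89 <|
  consP Pool.Agent.H184.T5.B.p24_43_87 <|
  consP Pool.Agent.H184.T5.B.p4_33_73 <|
  consP Pool.Agent.H184.T5.V.p278 <|
  consP Pool.Agent.H184.T5.V.p260 <|
  consP Pool.Agent.H184.T5.B.p24_43_99 <|
  consP Pool.Agent.H184.T5.V.p1144 <|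
  consP Pool.Agent.H184.T5.B.p24_43_79 <|
  consP Pool.Agent.H184.T5.B.p24_43_94 <|
  consP Pool.Agent.H184.T5.V.p1145 <|
  consP Pool.Agent.H184.T5.B.p24_43_83 <|
  nilP

def T : List Ent :=
  [⟨1, 43, 0, 0⟩,
   ⟨2, 91, 2, 1⟩,
   ⟨5, 43, 0, 3⟩,
   ⟨10, 43, 0, 8⟩,
   ⟨13, 43, 0, 11⟩,
   ⟨15, 43, 0, 13⟩,
   ⟨17, 43, 0, 15⟩,
   ⟨19, 91, 0, 17⟩,
   ⟨21, 81, 0, 18⟩,
   ⟨24, 43, 0, 21⟩,
   ⟨36, 43, 0, 32⟩,
   ⟨37, 43, 0, 33⟩,
   ⟨39, 43, 0, 35⟩,
   ⟨42, 81, 0, 37⟩,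
   ⟨46, 43, 0, 41⟩,
   ⟨47, 43, 0, 42⟩,
   ⟨49, 43, 0, 44⟩,
   ⟨57, 43, 1, 52⟩,
   ⟨65, 43, 0, 59⟩,
   ⟨67, 43, 0, 61⟩,
   ⟨70, 43, 0, 64⟩,
   ⟨73, 43, 0, 67⟩,
   ⟨76, 43, 1, 70⟩,
   ⟨81, 43, 0, 75⟩,
   ⟨82, 43, 91, 76⟩,
   ⟨83, 43, 0, 77⟩,
   ⟨84, 81, 0, 78⟩,
   ⟨86, 43, 0, 80⟩,
   ⟨97, 43, 0, 91⟩,
   ⟨100, 43, 1, 94⟩,
   ⟨103, 43, 1, 97⟩,
   ⟨106, 43, 0, 100⟩,
   ⟨109, 43, 0, 103⟩,
   ⟨117, 43, 0, 111⟩,
   ⟨119, 43, 115, 70⟩,
   ⟨122, 43, 0, 76⟩,
   ⟨123, 43, 0, 114⟩]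

def F : List Ent :=
  [⟨3, 4, 81, 2⟩,
   ⟨6, 41, 0, 4⟩,
   ⟨7, 4, 67, 5⟩,
   ⟨8, 4, 80, 6⟩,
   ⟨9, 41, 0, 7⟩,
   ⟨11, 4, 67, 9⟩,
   ⟨12, 4, 16, 10⟩,
   ⟨14, 4, 28, 12⟩,
   ⟨16, 4, 67, 14⟩,
   ⟨18, 4, 81, 16⟩,
   ⟨22, 41, 0, 19⟩,
   ⟨23, 41, 0, 20⟩,
   ⟨25, 4, 67, 22⟩,
   ⟨26, 4, 67, 23⟩,
   ⟨27, 4, 67, 24⟩,
   ⟨28, 4, 1, 25⟩,
   ⟨29, 4, 81, 26⟩,
   ⟨30, 4, 127, 27⟩,
   ⟨31, 4, 67, 28⟩,
   ⟨32, 4, 67, 29⟩,
   ⟨34, 4, 67, 30⟩,
   ⟨35, 4, 67, 31⟩,
   ⟨38, 4, 81, 34⟩,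
   ⟨40, 41, 0, 36⟩,
   ⟨43, 4, 4, 38⟩,
   ⟨44, 41, 0, 39⟩,
   ⟨45, 4, 117, 40⟩,
   ⟨48, 41, 0, 43⟩,
   ⟨50, 4, 66, 45⟩,
   ⟨51, 41, 1, 46⟩,
   ⟨52, 41, 16, 47⟩,
   ⟨53, 41, 1, 48⟩,
   ⟨54, 4, 81, 49⟩,
   ⟨55, 4, 34, 50⟩,
   ⟨56, 4, 67, 51⟩,
   ⟨58, 4, 94, 53⟩,
   ⟨59, 41, 1, 54⟩,
   ⟨60, 4, 67, 55⟩,
   ⟨61, 41, 1, 56⟩,
   ⟨63, 4, 81, 57⟩,
   ⟨64, 4, 81, 58⟩,
   ⟨66, 4, 16, 60⟩,
   ⟨68, 4, 95, 62⟩,
   ⟨69, 41, 0, 63⟩,
   ⟨71, 41, 0, 65⟩,
   ⟨72, 4, 81, 66⟩,
   ⟨74, 41, 0, 68⟩,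
   ⟨75, 4, 20, 69⟩,
   ⟨77, 4, 67, 71⟩,
   ⟨78, 4, 81, 72⟩,
   ⟨79, 4, 67, 73⟩,
   ⟨80, 4, 116, 74⟩,
   ⟨85, 4, 67, 79⟩,
   ⟨87, 4, 67, 81⟩,
   ⟨88, 4, 81, 82⟩,
   ⟨89, 4, 81, 83⟩,
   ⟨90, 4, 81, 84⟩,
   ⟨91, 4, 67, 85⟩,
   ⟨92, 4, 81, 86⟩,
   ⟨93, 41, 0, 87⟩,
   ⟨94, 4, 81, 88⟩,
   ⟨95, 4, 67, 89⟩,
   ⟨96, 4, 8, 90⟩,
   ⟨98, 41, 0, 92⟩,
   ⟨99, 4, 81, 93⟩,
   ⟨101, 4, 67, 95⟩,
   ⟨102, 4, 67, 96⟩,
   ⟨104, 4, 67, 98⟩,
   ⟨105, 4, 34, 99⟩,
   ⟨107, 4, 67, 101⟩,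
   ⟨108, 4, 67, 102⟩,
   ⟨110, 4, 67, 104⟩,
   ⟨111, 4, 67, 105⟩,
   ⟨112, 4, 67, 106⟩,
   ⟨113, 41, 1, 107⟩,
   ⟨114, 4, 28, 108⟩,
   ⟨115, 4, 16, 109⟩,
   ⟨116, 4, 81, 110⟩,
   ⟨118, 4, 81, 112⟩,
   ⟨120, 4, 34, 87⟩,
   ⟨121, 4, 67, 113⟩,
   ⟨124, 4, 81, 115⟩]

theorem ok : nodeOK2 autA 192 P [4, 41, 62] [0, 20, 33] T F = true := by decide +kernel

theorem t : BP 0x4000020000000010 0x200100001 := by
  have h := node2 autOK hP ok
  rw [show maskL [4, 41, 62] = 0x4000020000000010 from by decide +kernel, show maskL [0, 20, 33] = 0x200100001 from by decide +kernel] at h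
  exact h

end Pool.Agent.H805.T5.N10
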