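import Mathlib
import Pool.Agent.H805.T5.Tree2
import Pool.Agent.H805.T5.Auts
import Pool.Agent.H184.T5.D.F12_43_0
import Pool.Agent.H184.T5.D.F12_43_1
import Pool.Agent.H184.T5.D.F14_43_0
import Pool.Agent.H184.T5.D.F14_43_1
import Pool.Agent.H184.T5.D.F14_43_2
import Pool.Agent.H184.T5.D.F1_91_0
import Pool.Agent.H184.T5.D.F24_43_0
import Pool.Agent.H184.T5.D.F2_33_0
import Pool.Agent.H184.T5.D.F32_91_0
import Pool.Agent.H184.T5.D.F32_91_1
import Pool.Agent.H184.T5.D.F33_91_0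
import Pool.Agent.H184.T5.D.F34_33_0
import Pool.Agent.H184.T5.D.F34_33_1
import Pool.Agent.H184.T5.D.F38_33_1
import Pool.Agent.H184.T5.D.F4_33_0
import Pool.Agent.H184.T5.D.F64_41_2
import Pool.Agent.H184.T5.D.F7_33_0
import Pool.Agent.H184.T5.D.F8_33_0
import Pool.Agent.H184.T5.D.F8_33_1
import Pool.Agent.H184.T5.D.F9_33_0
import Pool.Agent.H184.T5.D.F9_33_1
import Pool.Agent.H184.T5.D.V_000
import Pool.Agent.H184.T5.D.V_001
import Pool.Agent.H805.T5.N.N1
import Pool.Agent.H805.T5.N.N3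

set_option autoImplicit false
set_option maxRecDepth 20000

namespace Pool.Agent.H805.T5.N7

open Pool.Agent.Helper582.Cube

def P : List (ℕ × ℕ) :=
  [(0x4000000400000002, 0x80200000001),
   (0x4000000400000004, 0x200100001),
   (0x400000004000000000000002, 0x10080000000000000000000001),
   (0x4000000000000102, 0x800000000000200000001),
   (0x4000000000000202, 0x800000000000200000001),
   (0x4000000000000082, 0x800000000000200000001),
   (0x4000000400000100, 0x200100001),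
   (0x4000000000000210, 0x200100001),
   (0x8004000004000000000, 0x80200000001),
   (0x4000000400000800, 0x200100001),
   (0x4000100000001000, 0x80000100001),
   (0x4000000400002000, 0x200100001),
   (0x4000000400004000, 0x200100001),
   (0x4000000400008010, 0x80200100001),
   (0x4000000400010000, 0x200100001),
   (0x4000000400020000, 0x200100001),
   (0x4000000400040000, 0x200100001),
   (0x4000000400080000, 0x200100001),
   (0x4000000400200010, 0x200000000000200100001),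
   (0x4000000400400000, 0x200100001),
   (0x8004000000000000100, 0x80200000001),
   (0x4000000401000010, 0x80200100001),
   (0x4000000400000030, 0x10000800000000000200000001),
   (0x4000000000000202, 0x80200000001),
   (0x4000000408000010, 0x80200100001),
   (0x4000000410000010, 0x200000000000200100001),
   (0x4000000400000200, 0x10000000000000000200000001),
   (0x400000000000000a, 0x80000000000020000000001),
   (0x4000000000000012, 0x80200000001),
   (0x4000000000000006, 0x80200000001),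
   (0x4000000c00000000, 0x200100001),
   (0x4000001400000010, 0x80200100001),
   (0x4000000000001002, 0x80200000001),
   (0x4000004400000000, 0x200100001),
   (0x4000008400000000, 0x200100001),
   (0x4000010000000010, 0x200100001),
   (0x4000000001000002, 0x80200000001),
   (0x4000000000004020, 0xa0000000001),
   (0x4000080400000010, 0x80000000000000200100001),
   (0x4000100000000010, 0x200100001),
   (0x4000200400000010, 0x201100001),
   (0x4000400400000000, 0x200100001),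
   (0x4000800400000000, 0x200100001),
   (0x4001000400000000, 0x200100001),
   (0x4002000400000000, 0x200100001),
   (0x4000000400000400, 0x10000000000000000200000001),
   (0x4000000000000810, 0x10000000000000000200000001),
   (0x100000000000014000000000000000, 0x20000000011),
   (0x4000000000002010, 0x10000000000000000200000001),
   (0x4000000000004010, 0x10000000000000000200000001),
   (0x4000000000008080, 0x800000000000200000001),
   (0x4000001000000010, 0x10000000000000000200000001),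
   (0x4000002400000000, 0x10000000000000000200000001),
   (0x4000000000008004, 0x800000000000200000001),
   (0x4000008000000010, 0x10000000000000000200000001),
   (0x400000000000004000000000001000, 0x80000000011),
   (0x6000000400000000, 0x10000000000000000200000001),
   (0x8004000000000001000, 0xa0000000001),
   (0x14000000400000010, 0x80200100001),
   (0x24000000400000000, 0x200100001),
   (0x1000000004000000100000000, 0x10080000000000000000000001),
   (0x84000000400000010, 0x200000000000200100001),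
   (0x8004000000000004000, 0xa0000000001),
   (0x204000000400000000, 0x200100001),
   (0x4001000000000004, 0x10000000000000000200000001),
   (0x804000000000000010, 0x200100001),
   (0x1004000000400000000, 0x200100001),
   (0x8004000000000000080, 0x80200000001),
   (0x4004000000400000000, 0x200100001),
   (0x4000000400008000, 0x10000000000000000200000001),
   (0x4000000400010010, 0x10000800000000000200000001),
   (0x4000000400020000, 0x10000000000000000200000001),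
   (0x4000000400040000, 0x10000000000000000200000001),
   (0x4000000000080010, 0x10000000000000000200000001),
   (0x4000000000008200, 0x800000000000200000001),
   (0x200004000000400000010, 0x80200100001),
   (0x4000040400000000, 0x10000000000000000200000001),
   (0x200000004000000000008010, 0x10000800000000000200000001),
   (0x1000004000000400000010, 0x201100001),
   (0x24000000400000000, 0x10000000000000000200000001),
   (0x4000004000000400000010, 0x80200100001),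
   (0x84000000400000000, 0x10000000000000000200000001),
   (0x104000000000000010, 0x10000000000000000200000001),
   (0x20000004000000400000010, 0x200000000000200100001),
   (0x40000004000000400000000, 0x200100001),
   (0x80000004000000000000010, 0x10000000000000000200000001),
   (0x400000004000000100000000, 0x10080000000000000000000001),
   (0x8004000000001000000, 0x80200000001),
   (0x400000004000000400000000, 0x200100001),
   (0x800000004000000400000000, 0x200100001),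
   (0x1000000004000000400000000, 0x200100001),
   (0x2000000004000000400000000, 0x200100001),
   (0x8004000000000000200, 0x80200000001),
   (0x8000000004000000400000010, 0x200000000000200100001),
   (0x4000000400100010, 0x10000800000000000200000001),
   (0x4000000400200000, 0x10000000000000000200000001),
   (0x4000000000000004000100000000000, 0x10000000000000020000000001),
   (0x4000000400800000, 0x10000000000000000200000001),
   (0x4000000200000020, 0x80000000000020000000001),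
   (0x4000200400000000, 0x10000000000000000200000001),
   (0x400000000004000000400000010, 0x200000000000200100001),
   (0x800000000004000000400000010, 0x201100001),
   (0x1000000000004000000400000010, 0x80200100001),
   (0x2000000000004000000400000010, 0x80200100001),
   (0x400000000000004000000000004000, 0x80000100001),
   (0x804000000400000000, 0x10000000000000000200000001),
   (0x10000000000004000000400000010, 0x200000000000200100001),
   (0x2004000000000000010, 0x10000000000000000200000001),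
   (0x40000000000004000000400000010, 0x201100001),
   (0x800000004000000400000000, 0x10000000000000000200000001),
   (0x1000000004000000400000000, 0x10000000000000000200000001),
   (0x2000000004000000400000000, 0x10000000000000000200000001),
   (0x400000000000004000000400000010, 0x80200100001),
   (0x8000000004000000400000000, 0x10000000000000000200000001),
   (0x1000000000000004000000400000010, 0x201100001),
   (0x2000000000000004000000400000000, 0x200100001),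
   (0x4000000100000008, 0x80000000000020000000001),
   (0x4001000000000200, 0x10000000000000000200000001),
   (0x4000000200000008, 0x80200000000000000000001)]

theorem hP : ∀ p ∈ P, BP p.1 p.2 :=
  consP Pool.Agent.H184.T5.B.p34_33_1 <|
  consP Pool.Agent.H184.T5.B.p2_33_34 <|
  consP Pool.Agent.H184.T5.V.p0 <|
  consP Pool.Agent.H184.T5.B.p8_33_1 <|
  consP Pool.Agent.H184.T5.B.p9_33_1 <|
  consP Pool.Agent.H184.T5.B.p7_33_1 <|
  consP Pool.Agent.H184.T5.B.p8_33_34 <|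
  consP Pool.Agent.H184.T5.B.p4_33_9 <|
  consP Pool.Agent.H184.T5.B.p38_33_75 <|
  consP Pool.Agent.H184.T5.B.p34_33_11 <|
  consP Pool.Agent.H184.T5.B.p12_43_44 <|
  consP Pool.Agent.H184.T5.B.p34_33_13 <|
  consP Pool.Agent.H184.T5.B.p34_33_14 <|
  consP Pool.Agent.H184.T5.V.p73 <|
  consP Pool.Agent.H184.T5.B.p34_33_16 <|
  consP Pool.Agent.H184.T5.B.p34_33_17 <|
  consP Pool.Agent.H184.T5.B.p34_33_18 <|
  consP Pool.Agent.H184.T5.B.p34_33_19 <|
  consP Pool.Agent.H184.T5.V.p74 <|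
  consP Pool.Agent.H184.T5.B.p34_33_22 <|
  consP Pool.Agent.H184.T5.B.p8_33_75 <|
  consP Pool.Agent.H184.T5.V.p75 <|
  consP Pool.Agent.H184.T5.V.p76 <|
  consP Pool.Agent.H184.T5.V.p29 <|
  consP Pool.Agent.H184.T5.V.p77 <|
  consP Pool.Agent.H184.T5.V.p78 <|
  consP Pool.Agent.H184.T5.B.p9_33_34 <|
  consP Pool.Agent.H184.T5.B.p1_91_3 <|
  consP Pool.Agent.H805.T5.N1.t <|
  consP Pool.Agent.H184.T5.B.p2_33_1 <|
  consP Pool.Agent.H184.T5.V.p31 <|
  consP Pool.Agent.H184.T5.V.p80 <|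
  consP Pool.Agent.H184.T5.B.p12_43_1 <|
  consP Pool.Agent.H184.T5.B.p34_33_38 <|
  consP Pool.Agent.H184.T5.B.p34_33_39 <|
  consP Pool.Agent.H184.T5.B.p4_33_40 <|
  consP Pool.Agent.H184.T5.B.p24_43_1 <|
  consP Pool.Agent.H184.T5.B.p14_43_5 <|
  consP Pool.Agent.H184.T5.V.p101 <|
  consP Pool.Agent.H184.T5.B.p4_33_44 <|
  consP Pool.Agent.H184.T5.V.p81 <|
  consP Pool.Agent.H184.T5.B.p34_33_46 <|
  consP Pool.Agent.H184.T5.B.p34_33_47 <|
  consP Pool.Agent.H184.T5.B.p34_33_48 <|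
  consP Pool.Agent.H184.T5.B.p34_33_49 <|
  consP Pool.Agent.H184.T5.B.p34_33_10 <|
  consP Pool.Agent.H184.T5.B.p4_33_11 <|
  consP Pool.Agent.H184.T5.B.p64_41_116 <|
  consP Pool.Agent.H184.T5.B.p4_33_13 <|
  consP Pool.Agent.H184.T5.B.p4_33_14 <|
  consP Pool.Agent.H184.T5.B.p7_33_15 <|
  consP Pool.Agent.H184.T5.B.p4_33_36 <|
  consP Pool.Agent.H184.T5.V.p21 <|
  consP Pool.Agent.H184.T5.B.p2_33_15 <|
  consP Pool.Agent.H184.T5.B.p4_33_39 <|
  consP Pool.Agent.H184.T5.B.p12_43_118 <|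
  consP Pool.Agent.H184.T5.B.p34_33_61 <|
  consP Pool.Agent.H184.T5.B.p12_43_75 <|
  consP Pool.Agent.H184.T5.V.p82 <|
  consP Pool.Agent.H184.T5.V.p18 <|
  consP Pool.Agent.H184.T5.B.p32_91_96 <|
  consP Pool.Agent.H184.T5.V.p83 <|
  consP Pool.Agent.H184.T5.B.p14_43_75 <|
  consP Pool.Agent.H184.T5.B.p34_33_69 <|
  consP Pool.Agent.H184.T5.B.p2_33_48 <|
  consP Pool.Agent.H184.T5.B.p4_33_71 <|
  consP Pool.Agent.H184.T5.B.p34_33_72 <|
  consP Pool.Agent.H184.T5.V.p24 <|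
  consP Pool.Agent.H184.T5.B.p34_33_74 <|
  consP Pool.Agent.H184.T5.B.p34_33_15 <|
  consP Pool.Agent.H184.T5.V.p84 <|
  consP Pool.Agent.H184.T5.V.p6 <|
  consP Pool.Agent.H184.T5.V.p5 <|
  consP Pool.Agent.H805.T5.N3.t <|
  consP Pool.Agent.H184.T5.B.p9_33_15 <|
  consP Pool.Agent.H184.T5.V.p86 <|
  consP Pool.Agent.H184.T5.V.p11 <|
  consP Pool.Agent.H184.T5.V.p87 <|
  consP Pool.Agent.H184.T5.V.p88 <|
  consP Pool.Agent.H184.T5.B.p34_33_65 <|
  consP Pool.Agent.H184.T5.V.p89 <|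
  consP Pool.Agent.H184.T5.B.p34_33_67 <|
  consP Pool.Agent.H184.T5.B.p4_33_68 <|
  consP Pool.Agent.H184.T5.V.p90 <|
  consP Pool.Agent.H184.T5.B.p34_33_90 <|
  consP Pool.Agent.H184.T5.B.p4_33_91 <|
  consP Pool.Agent.H184.T5.B.p32_91_94 <|
  consP Pool.Agent.H184.T5.B.p24_43_75 <|
  consP Pool.Agent.H184.T5.B.p34_33_94 <|
  consP Pool.Agent.H184.T5.B.p34_33_95 <|
  consP Pool.Agent.H184.T5.B.p34_33_96 <|
  consP Pool.Agent.H184.T5.B.p34_33_97 <|
  consP Pool.Agent.H184.T5.B.p9_33_75 <|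
  consP Pool.Agent.H184.T5.V.p91 <|
  consP Pool.Agent.H184.T5.V.p92 <|
  consP Pool.Agent.H184.T5.B.p34_33_21 <|
  consP Pool.Agent.H184.T5.V.p36 <|
  consP Pool.Agent.H184.T5.V.p35 <|
  consP Pool.Agent.H184.T5.B.p33_91_5 <|
  consP Pool.Agent.H184.T5.B.p34_33_45 <|
  consP Pool.Agent.H184.T5.V.p93 <|
  consP Pool.Agent.H184.T5.V.p94 <|
  consP Pool.Agent.H184.T5.V.p95 <|
  consP Pool.Agent.H184.T5.V.p96 <|
  consP Pool.Agent.H184.T5.B.p14_43_118 <|
  consP Pool.Agent.H184.T5.B.p34_33_71 <|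
  consP Pool.Agent.H184.T5.V.p97 <|
  consP Pool.Agent.H184.T5.B.p4_33_73 <|
  consP Pool.Agent.H184.T5.V.p98 <|
  consP Pool.Agent.H184.T5.V.p37 <|
  consP Pool.Agent.H184.T5.V.p39 <|
  consP Pool.Agent.H184.T5.V.p38 <|
  consP Pool.Agent.H184.T5.V.p99 <|
  consP Pool.Agent.H184.T5.B.p34_33_99 <|
  consP Pool.Agent.H184.T5.V.p100 <|
  consP Pool.Agent.H184.T5.B.p34_33_121 <|
  consP Pool.Agent.H184.T5.B.p32_91_3 <|
  consP Pool.Agent.H184.T5.B.p9_33_48 <|
  consP Pool.Agent.H184.T5.B.p33_91_3 <|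
  nilP

def T : List Ent :=
  [⟨15, 43, 0, 13⟩,
   ⟨21, 81, 0, 18⟩,
   ⟨24, 43, 0, 21⟩,
   ⟨25, 43, 1, 22⟩,
   ⟨27, 43, 0, 24⟩,
   ⟨28, 81, 0, 25⟩,
   ⟨36, 43, 0, 31⟩,
   ⟨43, 91, 0, 38⟩,
   ⟨45, 24, 0, 40⟩,
   ⟨64, 43, 0, 58⟩,
   ⟨67, 81, 0, 61⟩,
   ⟨76, 43, 1, 70⟩,
   ⟨81, 43, 0, 75⟩,
   ⟨83, 43, 116, 77⟩,
   ⟨84, 24, 0, 78⟩,
   ⟨86, 43, 0, 80⟩,
   ⟨89, 81, 0, 83⟩,
   ⟨99, 81, 0, 93⟩,
   ⟨100, 43, 1, 94⟩,
   ⟨106, 81, 0, 100⟩,
   ⟨107, 24, 0, 101⟩,
   ⟨108, 43, 0, 102⟩,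
   ⟨109, 43, 0, 103⟩,
   ⟨112, 81, 0, 106⟩,
   ⟨114, 24, 0, 108⟩,
   ⟨118, 43, 0, 112⟩,
   ⟨120, 24, 0, 114⟩]

def F : List Ent :=
  [⟨1, 4, 67, 0⟩,
   ⟨2, 4, 0, 1⟩,
   ⟨3, 4, 3, 2⟩,
   ⟨5, 4, 66, 3⟩,
   ⟨6, 4, 66, 4⟩,
   ⟨7, 4, 66, 5⟩,
   ⟨8, 4, 0, 6⟩,
   ⟨9, 34, 0, 7⟩,
   ⟨10, 4, 94, 8⟩,
   ⟨11, 4, 0, 9⟩,
   ⟨12, 4, 28, 10⟩,
   ⟨13, 4, 0, 11⟩,
   ⟨14, 4, 0, 12⟩,
   ⟨16, 4, 0, 14⟩,
   ⟨17, 4, 0, 15⟩,
   ⟨18, 4, 0, 16⟩,
   ⟨19, 4, 0, 17⟩,
   ⟨22, 4, 0, 19⟩,
   ⟨23, 4, 94, 20⟩,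
   ⟨26, 4, 67, 23⟩,
   ⟨29, 4, 1, 26⟩,
   ⟨30, 4, 126, 27⟩,
   ⟨31, 4, 67, 28⟩,
   ⟨32, 4, 67, 29⟩,
   ⟨35, 4, 0, 30⟩,
   ⟨37, 4, 67, 32⟩,
   ⟨38, 4, 0, 33⟩,
   ⟨39, 4, 0, 34⟩,
   ⟨40, 34, 0, 35⟩,
   ⟨41, 4, 67, 36⟩,
   ⟨42, 4, 81, 37⟩,
   ⟨44, 34, 0, 39⟩,
   ⟨46, 4, 0, 41⟩,
   ⟨47, 4, 0, 42⟩,
   ⟨48, 4, 0, 43⟩,
   ⟨49, 4, 0, 44⟩,
   ⟨50, 4, 1, 45⟩,
   ⟨51, 34, 1, 46⟩,
   ⟨52, 4, 22, 47⟩,
   ⟨53, 34, 1, 48⟩,
   ⟨54, 34, 1, 49⟩,
   ⟨55, 4, 116, 50⟩,
   ⟨56, 34, 1, 51⟩,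
   ⟨57, 4, 1, 52⟩,
   ⟨58, 4, 116, 53⟩,
   ⟨59, 34, 1, 54⟩,
   ⟨60, 4, 10, 55⟩,
   ⟨61, 4, 1, 56⟩,
   ⟨63, 4, 95, 57⟩,
   ⟨65, 4, 0, 59⟩,
   ⟨66, 4, 152, 60⟩,
   ⟨68, 4, 95, 62⟩,
   ⟨69, 4, 0, 63⟩,
   ⟨70, 4, 154, 64⟩,
   ⟨71, 34, 0, 65⟩,
   ⟨72, 4, 0, 66⟩,
   ⟨73, 4, 94, 67⟩,
   ⟨74, 4, 0, 68⟩,
   ⟨75, 4, 1, 69⟩,
   ⟨77, 4, 1, 71⟩,
   ⟨78, 4, 1, 72⟩,
   ⟨79, 34, 1, 73⟩,
   ⟨80, 4, 116, 74⟩,
   ⟨82, 4, 1, 76⟩,
   ⟨85, 4, 1, 79⟩,
   ⟨87, 4, 1, 81⟩,
   ⟨88, 34, 1, 82⟩,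
   ⟨90, 4, 0, 84⟩,
   ⟨91, 34, 1, 85⟩,
   ⟨92, 4, 3, 86⟩,
   ⟨93, 4, 94, 87⟩,
   ⟨94, 4, 0, 88⟩,
   ⟨95, 4, 0, 89⟩,
   ⟨96, 4, 0, 90⟩,
   ⟨97, 4, 0, 91⟩,
   ⟨98, 4, 94, 92⟩,
   ⟨101, 4, 1, 95⟩,
   ⟨102, 4, 150, 96⟩,
   ⟨103, 4, 1, 97⟩,
   ⟨104, 4, 80, 98⟩,
   ⟨105, 4, 1, 99⟩,
   ⟨110, 4, 11, 104⟩,
   ⟨111, 4, 1, 105⟩,
   ⟨113, 34, 1, 107⟩,
   ⟨115, 4, 1, 109⟩,
   ⟨116, 4, 1, 110⟩,
   ⟨117, 4, 1, 111⟩,
   ⟨119, 4, 1, 113⟩,
   ⟨121, 4, 0, 115⟩,
   ⟨122, 4, 126, 116⟩,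
   ⟨123, 4, 154, 117⟩,
   ⟨124, 4, 127, 118⟩]

theorem ok : nodeOK2 autA 192 P [4, 34, 62] [0, 20, 33] T F = true := by decide +kernel

theorem t : BP 0x4000000400000010 0x200100001 := by
  have h := node2 autOK hP ok
  rw [show maskL [4, 34, 62] = 0x4000000400000010 from by decide +kernel, show maskL [0, 20, 33] = 0x200100001 from by decide +kernel] at h
  exact h

end Pool.Agent.H805.T5.N7
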