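import Mathlib
import Pool.Agent.H805.T5.Tree2
import Pool.Agent.H805.T5.Auts
import Pool.Agent.H184.T5.D.F12_43_0
import Pool.Agent.H184.T5.D.F14_43_0
import Pool.Agent.H184.T5.D.F1_91_0
import Pool.Agent.H184.T5.D.F2_33_0
import Pool.Agent.H184.T5.D.F32_91_0
import Pool.Agent.H184.T5.D.F34_33_0
import Pool.Agent.H184.T5.D.F38_33_0
import Pool.Agent.H184.T5.D.F38_33_1
import Pool.Agent.H184.T5.D.F38_33_2
import Pool.Agent.H184.T5.D.F39_33_0
import Pool.Agent.H184.T5.D.F39_33_1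
import Pool.Agent.H184.T5.D.F39_33_2
import Pool.Agent.H184.T5.D.F4_33_0
import Pool.Agent.H184.T5.D.F4_33_1
import Pool.Agent.H184.T5.D.F64_41_1
import Pool.Agent.H184.T5.D.F64_41_2
import Pool.Agent.H184.T5.D.F7_33_0
import Pool.Agent.H184.T5.D.F7_33_1
import Pool.Agent.H184.T5.D.F8_33_1
import Pool.Agent.H184.T5.D.F9_33_0
import Pool.Agent.H184.T5.D.F9_33_1
import Pool.Agent.H184.T5.D.V_001
import Pool.Agent.H184.T5.D.V_002
import Pool.Agent.H184.T5.D.V_003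
import Pool.Agent.H184.T5.D.V_018
import Pool.Agent.H184.T5.D.V_019
import Pool.Agent.H184.T5.D.V_020
import Pool.Agent.H184.T5.D.V_026
import Pool.Agent.H805.T5.N.N6
import Pool.Agent.H805.T5.N.N7

set_option autoImplicit false
set_option maxRecDepth 20000

namespace Pool.Agent.H805.T5.N11

open Pool.Agent.Helper582.Cube

def P : List (ℕ × ℕ) :=
  [(0x4000000400100000, 0x80200000001),
   (0x4000080000000004, 0x200100001),
   (0x4000020000000002, 0x10080000000000000000000001),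
   (0x4000080000000030, 0x200000000000200100001),
   (0x4000000000000050, 0x200100001),
   (0x4000080000000080, 0x200100001),
   (0x4000000000100002, 0x80200000000000000000001),
   (0x4000080000000200, 0x200100001),
   (0x4000004000100000, 0x80200000001),
   (0x4000008000100000, 0x80200000001),
   (0x4000000200001000, 0x80000100001),
   (0x4000000008000010, 0xa0000000001),
   (0x4000000200004000, 0x80000100001),
   (0x4000080000008010, 0x200000000000200100001),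
   (0x4000000000010010, 0x200100001),
   (0x204000000000000010, 0xa0000000001),
   (0x4000000020000010, 0xa0000000001),
   (0x4000080000080010, 0x200000000000200100001),
   (0x4000080000200010, 0x200000000000200100001),
   (0x10000000004000004000000000, 0x800000000000200000001),
   (0x4000000000800010, 0x200100001),
   (0x4000080001000010, 0x200000000000200100001),
   (0x4000080002000010, 0x200000000000200100001),
   (0x4000000000100200, 0x80200000001),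
   (0x4000000000100080, 0x80200000001),
   (0x800004000000000000100, 0x10000000000000000200000001),
   (0x800004000000000000200, 0x10000000000000000200000001),
   (0x4000000080100010, 0x10000000000000000000080200000001),
   (0x4000000000100004, 0x80200000001),
   (0x4000000400000010, 0x200100001),
   (0x4000000000104000, 0x80200000001),
   (0x4000000000001010, 0xa0000000001),
   (0x4000084000000000, 0x200100001),
   (0x4000088000000000, 0x200100001),
   (0x4000010000000010, 0x200100001),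
   (0x4000080200000000, 0x20000000011),
   (0x4040000000000010, 0xa0000000001),
   (0x4000100000000010, 0x200100001),
   (0x20000000004000000000000010, 0xa0000000001),
   (0x4000000000002010, 0xa0000000001),
   (0x4002080000000010, 0x200000000000200100001),
   (0x10000000004000008000000000, 0x800000000000200000001),
   (0x14000080000000000, 0x20000000011),
   (0x4000000000002010, 0x10000000000000000200000001),
   (0x4000000100100000, 0x80200000000000000000001),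
   (0x4000001000000010, 0x10000000000000000200000001),
   (0x800004000002000000010, 0x10000000000000020200000001),
   (0x800004000008000000000, 0x10000000000000000200000001),
   (0x10000000014000000000000000, 0x80000000000020000000001),
   (0x80000014000000000000000, 0x10000000000000020000000001),
   (0x4000020100000000, 0x10080000000000000000000001),
   (0x84000080000000010, 0x200000000000200100001),
   (0x204000000000000010, 0x200100001),
   (0x804000000000000010, 0x200100001),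
   (0x4004000000000000010, 0x200100001),
   (0x8004000080000000010, 0x200000000000200100001),
   (0x800004000000000010010, 0x110000000000000000200000001),
   (0x8000000000004000000000000010, 0xa0000000001),
   (0x400000000004000000000000010, 0xa0000000001),
   (0x10000000004000000000000200, 0x800000000000200000001),
   (0x800004000020000000010, 0x110000000000000000200000001),
   (0x404000000000000010, 0xa0000000001),
   (0x200000004000000000100010, 0x100000000000000080200000001),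
   (0x1000004000080000000010, 0x200000000000200100001),
   (0x4000004000080000000010, 0x201100001),
   (0x800000000004000000000000010, 0xa0000000001),
   (0x40000004000000000000010, 0x200100001),
   (0x80000004000000000000010, 0x10000000000000000200000001),
   (0x200000004000000000000010, 0x200100001),
   (0x400000004000000000000010, 0x200100001),
   (0x1000000004000080000000010, 0x10000000000000000200100001),
   (0x1000000000004000000000000010, 0xa0000000001),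
   (0x800004000000000100010, 0x10000000000000020200000001),
   (0x4000004000000000000010, 0xa0000000001),
   (0x800004000000000800010, 0x10000000000000020200000001),
   (0x800004000000001000010, 0x10000000000000020200000001),
   (0x400000000004000080000000010, 0x200000000000200100001),
   (0x1000000000004000080000000010, 0x10000000000000000200100001),
   (0x2000000000004000080000000010, 0x200000000000200100001),
   (0x400004000000000000010, 0xa0000000001),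
   (0x80000000000004000080000000010, 0x200000000000200100001),
   (0x2000000000004000000000000010, 0xa0000000001),
   (0x20000004000000000000010, 0xa0000000001),
   (0x4000000000000210, 0xa0000000001),
   (0x800000000000004000080000000010, 0x200000000000200100001),
   (0x1000000000000004000080000000010, 0x200000000000200100001),
   (0x10000000000000004000080000000010, 0x200000000000200100001)]

theorem hP : ∀ p ∈ P, BP p.1 p.2 :=
  consP Pool.Agent.H184.T5.B.p34_33_20 <|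
  consP Pool.Agent.H184.T5.B.p2_33_43 <|
  consP Pool.Agent.H184.T5.B.p1_91_41 <|
  consP Pool.Agent.H184.T5.V.p1311 <|
  consP Pool.Agent.H184.T5.B.p4_33_6 <|
  consP Pool.Agent.H184.T5.B.p7_33_43 <|
  consP Pool.Agent.H184.T5.B.p1_91_20 <|
  consP Pool.Agent.H184.T5.B.p9_33_43 <|
  consP Pool.Agent.H184.T5.B.p38_33_20 <|
  consP Pool.Agent.H184.T5.B.p39_33_20 <|
  consP Pool.Agent.H184.T5.B.p12_43_33 <|
  consP Pool.Agent.H184.T5.V.p200 <|
  consP Pool.Agent.H184.T5.B.p14_43_33 <|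
  consP Pool.Agent.H184.T5.V.p1312 <|
  consP Pool.Agent.H184.T5.B.p4_33_16 <|
  consP Pool.Agent.H184.T5.V.p215 <|
  consP Pool.Agent.H184.T5.V.p201 <|
  consP Pool.Agent.H184.T5.V.p1313 <|
  consP Pool.Agent.H184.T5.V.p1314 <|
  consP Pool.Agent.H184.T5.B.p38_33_100 <|
  consP Pool.Agent.H805.T5.N6.t <|
  consP Pool.Agent.H184.T5.V.p1316 <|
  consP Pool.Agent.H184.T5.V.p1317 <|
  consP Pool.Agent.H184.T5.B.p9_33_20 <|
  consP Pool.Agent.H184.T5.B.p7_33_20 <|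
  consP Pool.Agent.H184.T5.B.p8_33_83 <|
  consP Pool.Agent.H184.T5.B.p9_33_83 <|
  consP Pool.Agent.H184.T5.V.p1360 <|
  consP Pool.Agent.H184.T5.B.p2_33_20 <|
  consP Pool.Agent.H805.T5.N7.t <|
  consP Pool.Agent.H184.T5.B.p14_43_20 <|
  consP Pool.Agent.H184.T5.B.p12_43_4 <|
  consP Pool.Agent.H184.T5.B.p38_33_43 <|
  consP Pool.Agent.H184.T5.B.p39_33_43 <|
  consP Pool.Agent.H184.T5.B.p4_33_40 <|
  consP Pool.Agent.H184.T5.V.p266 <|
  consP Pool.Agent.H184.T5.V.p1817 <|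
  consP Pool.Agent.H184.T5.B.p4_33_44 <|
  consP Pool.Agent.H184.T5.V.p228 <|
  consP Pool.Agent.H184.T5.V.p213 <|
  consP Pool.Agent.H184.T5.V.p1319 <|
  consP Pool.Agent.H184.T5.B.p39_33_100 <|
  consP Pool.Agent.H184.T5.B.p64_41_43 <|
  consP Pool.Agent.H184.T5.B.p4_33_13 <|
  consP Pool.Agent.H184.T5.B.p32_91_20 <|
  consP Pool.Agent.H184.T5.B.p4_33_36 <|
  consP Pool.Agent.H184.T5.V.p1320 <|
  consP Pool.Agent.H184.T5.B.p39_33_83 <|
  consP Pool.Agent.H184.T5.B.p64_41_100 <|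
  consP Pool.Agent.H184.T5.B.p64_41_91 <|
  consP Pool.Agent.H184.T5.B.p32_91_41 <|
  consP Pool.Agent.H184.T5.V.p1321 <|
  consP Pool.Agent.H184.T5.B.p4_33_69 <|
  consP Pool.Agent.H184.T5.B.p4_33_71 <|
  consP Pool.Agent.H184.T5.B.p4_33_74 <|
  consP Pool.Agent.H184.T5.V.p1323 <|
  consP Pool.Agent.H184.T5.V.p1351 <|
  consP Pool.Agent.H184.T5.V.p1260 <|
  consP Pool.Agent.H184.T5.V.p1267 <|
  consP Pool.Agent.H184.T5.V.p218 <|
  consP Pool.Agent.H184.T5.V.p1324 <|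
  consP Pool.Agent.H184.T5.V.p1259 <|
  consP Pool.Agent.H184.T5.V.p1372 <|
  consP Pool.Agent.H184.T5.V.p1325 <|
  consP Pool.Agent.H184.T5.V.p1326 <|
  consP Pool.Agent.H184.T5.V.p115 <|
  consP Pool.Agent.H184.T5.B.p4_33_90 <|
  consP Pool.Agent.H184.T5.B.p4_33_91 <|
  consP Pool.Agent.H184.T5.B.p4_33_93 <|
  consP Pool.Agent.H184.T5.B.p4_33_94 <|
  consP Pool.Agent.H184.T5.V.p1337 <|
  consP Pool.Agent.H184.T5.V.p117 <|
  consP Pool.Agent.H184.T5.V.p1327 <|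
  consP Pool.Agent.H184.T5.V.p212 <|
  consP Pool.Agent.H184.T5.V.p1328 <|
  consP Pool.Agent.H184.T5.V.p203 <|
  consP Pool.Agent.H184.T5.V.p1329 <|
  consP Pool.Agent.H184.T5.V.p123 <|
  consP Pool.Agent.H184.T5.V.p1330 <|
  consP Pool.Agent.H184.T5.V.p122 <|
  consP Pool.Agent.H184.T5.V.p1331 <|
  consP Pool.Agent.H184.T5.V.p1270 <|
  consP Pool.Agent.H184.T5.V.p208 <|
  consP Pool.Agent.H184.T5.V.p107 <|
  consP Pool.Agent.H184.T5.V.p1332 <|
  consP Pool.Agent.H184.T5.V.p1333 <|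
  consP Pool.Agent.H184.T5.V.p222 <|
  nilP

def T : List Ent :=
  [⟨5, 81, 0, 3⟩,
   ⟨15, 81, 0, 13⟩,
   ⟨19, 81, 0, 17⟩,
   ⟨21, 81, 0, 18⟩,
   ⟨24, 81, 0, 21⟩,
   ⟨25, 81, 0, 22⟩,
   ⟨31, 91, 67, 27⟩,
   ⟨49, 81, 0, 40⟩,
   ⟨57, 81, 1, 46⟩,
   ⟨67, 81, 0, 51⟩,
   ⟨75, 81, 0, 55⟩,
   ⟨76, 24, 1, 56⟩,
   ⟨81, 24, 1, 60⟩,
   ⟨83, 81, 94, 62⟩,
   ⟨84, 81, 0, 63⟩,
   ⟨86, 24, 0, 64⟩,
   ⟨96, 100, 0, 70⟩,
   ⟨100, 81, 1, 72⟩,
   ⟨103, 81, 1, 74⟩,
   ⟨104, 81, 1, 75⟩,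
   ⟨106, 81, 0, 76⟩,
   ⟨108, 100, 0, 77⟩,
   ⟨109, 81, 0, 78⟩,
   ⟨115, 81, 0, 80⟩,
   ⟨119, 81, 0, 84⟩,
   ⟨120, 81, 0, 85⟩,
   ⟨124, 81, 0, 86⟩]

def F : List Ent :=
  [⟨1, 4, 67, 0⟩,
   ⟨2, 4, 0, 1⟩,
   ⟨3, 4, 3, 2⟩,
   ⟨6, 43, 0, 4⟩,
   ⟨7, 4, 0, 5⟩,
   ⟨8, 4, 106, 6⟩,
   ⟨9, 4, 0, 7⟩,
   ⟨10, 4, 67, 8⟩,
   ⟨11, 4, 67, 9⟩,
   ⟨12, 4, 28, 10⟩,
   ⟨13, 4, 81, 11⟩,
   ⟨14, 4, 28, 12⟩,
   ⟨16, 43, 0, 14⟩,
   ⟨17, 4, 95, 15⟩,
   ⟨18, 4, 81, 16⟩,
   ⟨22, 4, 116, 19⟩,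
   ⟨23, 43, 0, 20⟩,
   ⟨26, 4, 67, 23⟩,
   ⟨27, 4, 67, 24⟩,
   ⟨28, 4, 1, 25⟩,
   ⟨29, 4, 1, 26⟩,
   ⟨30, 4, 127, 6⟩,
   ⟨32, 4, 67, 28⟩,
   ⟨34, 43, 0, 29⟩,
   ⟨35, 4, 95, 11⟩,
   ⟨36, 4, 67, 30⟩,
   ⟨37, 4, 81, 31⟩,
   ⟨38, 4, 0, 32⟩,
   ⟨39, 4, 0, 33⟩,
   ⟨40, 43, 0, 34⟩,
   ⟨41, 4, 4, 35⟩,
   ⟨42, 4, 95, 36⟩,
   ⟨44, 43, 0, 37⟩,
   ⟨45, 4, 152, 2⟩,
   ⟨46, 4, 95, 38⟩,
   ⟨47, 4, 81, 39⟩,
   ⟨48, 4, 154, 25⟩,
   ⟨50, 4, 66, 19⟩,
   ⟨51, 4, 66, 41⟩,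
   ⟨52, 4, 22, 42⟩,
   ⟨53, 43, 1, 43⟩,
   ⟨54, 4, 106, 44⟩,
   ⟨55, 4, 34, 5⟩,
   ⟨56, 43, 1, 45⟩,
   ⟨58, 4, 94, 28⟩,
   ⟨59, 4, 1, 47⟩,
   ⟨60, 4, 11, 10⟩,
   ⟨61, 4, 126, 48⟩,
   ⟨63, 4, 95, 31⟩,
   ⟨64, 4, 150, 49⟩,
   ⟨65, 4, 81, 15⟩,
   ⟨66, 4, 152, 50⟩,
   ⟨68, 4, 81, 36⟩,
   ⟨69, 43, 0, 52⟩,
   ⟨70, 4, 34, 1⟩,
   ⟨71, 43, 0, 53⟩,
   ⟨72, 4, 4, 42⟩,
   ⟨73, 4, 94, 24⟩,
   ⟨74, 43, 0, 54⟩,
   ⟨77, 4, 81, 57⟩,
   ⟨78, 4, 81, 38⟩,
   ⟨79, 4, 81, 58⟩,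
   ⟨80, 4, 116, 59⟩,
   ⟨82, 4, 95, 61⟩,
   ⟨85, 4, 94, 9⟩,
   ⟨87, 4, 80, 48⟩,
   ⟨88, 4, 94, 30⟩,
   ⟨89, 4, 81, 65⟩,
   ⟨90, 43, 0, 66⟩,
   ⟨91, 43, 1, 67⟩,
   ⟨92, 4, 3, 50⟩,
   ⟨93, 43, 0, 68⟩,
   ⟨94, 43, 0, 69⟩,
   ⟨95, 4, 94, 0⟩,
   ⟨97, 4, 116, 41⟩,
   ⟨98, 4, 94, 23⟩,
   ⟨99, 4, 81, 71⟩,
   ⟨101, 4, 95, 71⟩,
   ⟨102, 4, 81, 73⟩,
   ⟨105, 4, 34, 7⟩,
   ⟨107, 4, 154, 47⟩,
   ⟨110, 4, 11, 12⟩,
   ⟨111, 4, 95, 65⟩,
   ⟨112, 4, 5, 49⟩,
   ⟨113, 4, 34, 33⟩,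
   ⟨114, 4, 81, 79⟩,
   ⟨116, 4, 95, 81⟩,
   ⟨117, 4, 81, 82⟩,
   ⟨118, 4, 95, 83⟩,
   ⟨121, 4, 95, 58⟩,
   ⟨122, 4, 127, 44⟩,
   ⟨123, 4, 154, 26⟩]

theorem ok : nodeOK2 autA 192 P [4, 43, 62] [0, 20, 33] T F = true := by decide +kernel

theorem t : BP 0x4000080000000010 0x200100001 := by
  have h := node2 autOK hP ok
  rw [show maskL [4, 43, 62] = 0x4000080000000010 from by decide +kernel, show maskL [0, 20, 33] = 0x200100001 from by decide +kernel] at h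
  exact h

end Pool.Agent.H805.T5.N11
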