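import Mathlib
import Pool.Agent.H805.T5.Tree2
import Pool.Agent.H805.T5.Auts
import Pool.Agent.H184.T5.D.F12_43_0
import Pool.Agent.H184.T5.D.F14_43_0
import Pool.Agent.H184.T5.D.F2_33_0
import Pool.Agent.H184.T5.D.F34_33_0
import Pool.Agent.H184.T5.D.F38_33_0
import Pool.Agent.H184.T5.D.F38_33_1
import Pool.Agent.H184.T5.D.F4_33_0
import Pool.Agent.H184.T5.D.F4_33_1
import Pool.Agent.H184.T5.D.F64_41_0
import Pool.Agent.H184.T5.D.F6_81_0
import Pool.Agent.H184.T5.D.F7_33_0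
import Pool.Agent.H184.T5.D.F8_33_1
import Pool.Agent.H184.T5.D.F8_33_2
import Pool.Agent.H184.T5.D.F9_33_0
import Pool.Agent.H184.T5.D.F9_33_1
import Pool.Agent.H184.T5.D.F9_33_2
import Pool.Agent.H184.T5.D.V_000
import Pool.Agent.H184.T5.D.V_002
import Pool.Agent.H184.T5.D.V_005
import Pool.Agent.H184.T5.D.V_009
import Pool.Agent.H184.T5.D.V_010
import Pool.Agent.H184.T5.D.V_011
import Pool.Agent.H184.T5.D.V_015
import Pool.Agent.H184.T5.D.V_020
import Pool.Agent.H184.T5.D.V_023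
import Pool.Agent.H184.T5.D.V_024

set_option autoImplicit false
set_option maxRecDepth 20000

namespace Pool.Agent.H805.T5.N2

open Pool.Agent.Helper582.Cube

def P : List (ℕ × ℕ) :=
  [(0x4000200400000000, 0x10000000000000000200000001),
   (0x4000000000000014, 0x80200000001),
   (0x4000000000000240, 0x200000000000000100001),
   (0x200000000004000000000000100, 0x200100001),
   (0x4000000000040050, 0x800000000000201000001),
   (0x4000000000040080, 0x800000000000200000001),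
   (0x4000000000040110, 0x10000800000000000200000001),
   (0x4000000000040210, 0x800000000000201000001),
   (0x4000204000000000, 0x10000000000000000200000001),
   (0x800000000004000000000000200, 0x200100001),
   (0x4000000000041010, 0x10000800000000000200000001),
   (0x40000000000000c0, 0x800000000000200000001),
   (0x400004000000000000200, 0x200100001),
   (0x4000000400000200, 0x200100001),
   (0x4000000000050010, 0x10000800000000000200000001),
   (0x4000000000060010, 0x10000800000000000200000001),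
   (0x1000004000000000000200, 0x200100001),
   (0x4000000000140010, 0x10000800000000000200000001),
   (0x4000000000240010, 0x10000800000000000200000001),
   (0x4100000000000200, 0x200100001),
   (0x4000000000840010, 0x800000000000201000001),
   (0x4000000001040010, 0x10000800000000000200000001),
   (0x4001000000000200, 0x200100001),
   (0x4000200000000200, 0x10000000000000000200000001),
   (0x4000000008040010, 0x10000800000000000200000001),
   (0x40004000000000000100, 0x80200000001),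
   (0x40004000000000000200, 0x80200000001),
   (0x4000200000000200, 0x200100001),
   (0x4000000080040010, 0x800000000000201000001),
   (0x4000200000000004, 0x10000000000000000200000001),
   (0x4000000400040010, 0x800000000000201000001),
   (0x4000000800040010, 0x10000800000000000200000001),
   (0x4000001000040010, 0x10000800000000000200000001),
   (0x4000002000000050, 0x800000000000201000001),
   (0x4000004000040000, 0x800000000000200000001),
   (0x2000000004000000000000200, 0x200100001),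
   (0x4000010000040010, 0x10000800000000000200000001),
   (0x4000020000040010, 0x10000800000000000200000001),
   (0x4000040000040010, 0x10000800000000000200000001),
   (0x4000080000040010, 0x10000800000000000200000001),
   (0x8000000004000000000000200, 0x200100001),
   (0x4000400000000200, 0x200100001),
   (0x2000000000000004000000000000200, 0x200100001),
   (0x4000800000040010, 0x10000800000000000200000001),
   (0x4001000000040010, 0x800000000000201000001),
   (0x1000000004000000000000200, 0x200100001),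
   (0x4000004000000200, 0x200100001),
   (0x20000000000004000000000000200, 0x200100001),
   (0x4010000000040010, 0x10000800000000000200000001),
   (0x4020000000040010, 0x10000800000000000200000001),
   (0x4000000000004010, 0x80200000001),
   (0x4080000000040010, 0x800000000000201000001),
   (0x4100000000040010, 0x10000800000000000200000001),
   (0x4200000000040010, 0x10000800000000000200000001),
   (0x4400000000040010, 0x10000800000000000200000001),
   (0x4800000000040010, 0x10000800000000000200000001),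
   (0x4000000004001000, 0x80200000001),
   (0x6000000000040010, 0x10000800000000000200000001),
   (0x4000000000081000, 0x80000100001),
   (0x8000004000000000000200, 0x200100001),
   (0x4000008000000200, 0x200100001),
   (0x40000000000004000000000000200, 0x200100001),
   (0x84000000000040010, 0x10000800000000000200000001),
   (0x104000000000040010, 0x800000000000201000001),
   (0x20000004000000000000200, 0x200100001),
   (0x404000000000040010, 0x10000800000000000200000001),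
   (0x8000000000004000000000000200, 0x200100001),
   (0x14000000000040000, 0x80000000000020000000001),
   (0x2004000000000040010, 0x800000000000201000001),
   (0x4004000000000040010, 0x10000800000000000200000001),
   (0x4000000000008010, 0x80200000001),
   (0x40004000000000010010, 0x80200100001),
   (0x40004000000000020010, 0x80200100001),
   (0x40004000000000040010, 0x10000800000000000200000001),
   (0x80004000000000040010, 0x10000800000000000200000001),
   (0x100004000000000040010, 0x10000800000000000200000001),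
   (0x4000280000000010, 0x10000000000000020200000001),
   (0x4004000000000200, 0x200100001),
   (0x1000004000000000040010, 0x10000800000000000200000001),
   (0x2000004000000000040010, 0x10000800000000000200000001),
   (0x4000004000000000040010, 0x10000800000000000200000001),
   (0x8000004000000000040010, 0x10000800000000000200000001),
   (0x4000000000804000, 0x80000000011),
   (0x20004000000000000200, 0x200100001),
   (0x40000004000000000040010, 0x800000000000201000001),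
   (0x100000000004000000000000200, 0x200100001),
   (0x4040000000000200, 0x200100001),
   (0x4000000000000210, 0x200100001),
   (0x80004000000000000200, 0x200100001),
   (0x4000000004000200, 0x80200000001),
   (0x20000000004000000000000200, 0x200100001),
   (0x4000008000000040, 0x800000000000200000001),
   (0x4000000004000000000040010, 0x10000800000000000200000001),
   (0x10004000000000000200, 0x200100001),
   (0x4000080000000200, 0x200100001),
   (0x20000000004000000000040010, 0x10000800000000000200000001),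
   (0x104000000000000200, 0x200100001),
   (0x4000000000040200, 0x200100001),
   (0x200000004000000000000200, 0x200100001),
   (0x200000000004000000000040010, 0x10000800000000000200000001),
   (0x400000000004000000000040010, 0x800000000000201000001),
   (0x24000000000000200, 0x200100001),
   (0x1000000000004000000000040010, 0x10000800000000000200000001),
   (0x4002000000000010, 0x80200000001),
   (0x4000000000004000000000040010, 0x800000000000201000001),
   (0x8000000000004000000000040010, 0x800000000000201000001),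
   (0x84000000000000200, 0x200100001),
   (0x20000000000004000000000040010, 0x10000800000000000200000001),
   (0x40000000000004000000000040010, 0x10000800000000000200000001),
   (0x1000000004000000200000000, 0x800000000000000000011),
   (0x100000000000004000000000040010, 0x10000800000000000200000001),
   (0x200000000000004000000000040010, 0x10000800000000000200000001),
   (0x400000000000004000000000040010, 0x10000800000000000200000001),
   (0x800000000000004000000000040010, 0x10000800000000000200000001),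
   (0x1000000000000004000000000040010, 0x10000800000000000200000001),
   (0x2000000000000004000000000040010, 0x800000000080200000001),
   (0x44000000000000200, 0x200100001),
   (0x8000000000000004000000000000010, 0x800000000000200000001),
   (0x10000000000000004000000000000010, 0x800000000000200000001)]

theorem hP : ∀ p ∈ P, BP p.1 p.2 :=
  consP Pool.Agent.H184.T5.B.p34_33_45 <|
  consP Pool.Agent.H184.T5.B.p2_33_4 <|
  consP Pool.Agent.H184.T5.B.p6_81_9 <|
  consP Pool.Agent.H184.T5.B.p8_33_105 <|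
  consP Pool.Agent.H184.T5.V.p1640 <|
  consP Pool.Agent.H184.T5.B.p7_33_18 <|
  consP Pool.Agent.H184.T5.V.p1641 <|
  consP Pool.Agent.H184.T5.V.p1642 <|
  consP Pool.Agent.H184.T5.B.p38_33_45 <|
  consP Pool.Agent.H184.T5.B.p9_33_107 <|
  consP Pool.Agent.H184.T5.V.p1643 <|
  consP Pool.Agent.H184.T5.V.p157 <|
  consP Pool.Agent.H184.T5.B.p9_33_82 <|
  consP Pool.Agent.H184.T5.V.p2 <|
  consP Pool.Agent.H184.T5.V.p789 <|
  consP Pool.Agent.H184.T5.V.p1644 <|
  consP Pool.Agent.H184.T5.B.p9_33_84 <|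
  consP Pool.Agent.H184.T5.V.p1645 <|
  consP Pool.Agent.H184.T5.V.p671 <|
  consP Pool.Agent.H184.T5.V.p626 <|
  consP Pool.Agent.H184.T5.V.p1646 <|
  consP Pool.Agent.H184.T5.V.p1647 <|
  consP Pool.Agent.H184.T5.V.p615 <|
  consP Pool.Agent.H184.T5.B.p9_33_45 <|
  consP Pool.Agent.H184.T5.V.p1648 <|
  consP Pool.Agent.H184.T5.B.p8_33_78 <|
  consP Pool.Agent.H184.T5.B.p9_33_78 <|
  consP Pool.Agent.H184.T5.V.p1649 <|
  consP Pool.Agent.H184.T5.V.p622 <|
  consP Pool.Agent.H184.T5.B.p2_33_45 <|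
  consP Pool.Agent.H184.T5.V.p1650 <|
  consP Pool.Agent.H184.T5.V.p1651 <|
  consP Pool.Agent.H184.T5.V.p1652 <|
  consP Pool.Agent.H184.T5.V.p1406 <|
  consP Pool.Agent.H184.T5.B.p38_33_18 <|
  consP Pool.Agent.H184.T5.V.p1653 <|
  consP Pool.Agent.H184.T5.V.p1654 <|
  consP Pool.Agent.H184.T5.V.p1655 <|
  consP Pool.Agent.H184.T5.V.p1656 <|
  consP Pool.Agent.H184.T5.V.p1657 <|
  consP Pool.Agent.H184.T5.B.p9_33_99 <|
  consP Pool.Agent.H184.T5.B.p9_33_46 <|
  consP Pool.Agent.H184.T5.B.p9_33_121 <|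
  consP Pool.Agent.H184.T5.V.p1658 <|
  consP Pool.Agent.H184.T5.V.p1659 <|
  consP Pool.Agent.H184.T5.B.p9_33_96 <|
  consP Pool.Agent.H184.T5.B.p9_33_38 <|
  consP Pool.Agent.H184.T5.B.p9_33_113 <|
  consP Pool.Agent.H184.T5.V.p1660 <|
  consP Pool.Agent.H184.T5.V.p1661 <|
  consP Pool.Agent.H184.T5.B.p14_43_4 <|
  consP Pool.Agent.H184.T5.V.p1662 <|
  consP Pool.Agent.H184.T5.V.p1663 <|
  consP Pool.Agent.H184.T5.V.p1664 <|
  consP Pool.Agent.H184.T5.V.p1665 <|
  consP Pool.Agent.H184.T5.V.p1666 <|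
  consP Pool.Agent.H184.T5.B.p12_43_26 <|
  consP Pool.Agent.H184.T5.V.p1667 <|
  consP Pool.Agent.H184.T5.B.p12_43_19 <|
  consP Pool.Agent.H184.T5.B.p9_33_87 <|
  consP Pool.Agent.H184.T5.B.p9_33_39 <|
  consP Pool.Agent.H184.T5.B.p9_33_114 <|
  consP Pool.Agent.H184.T5.V.p1668 <|
  consP Pool.Agent.H184.T5.V.p1669 <|
  consP Pool.Agent.H184.T5.V.p642 <|
  consP Pool.Agent.H184.T5.V.p1670 <|
  consP Pool.Agent.H184.T5.B.p9_33_111 <|
  consP Pool.Agent.H184.T5.B.p64_41_18 <|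
  consP Pool.Agent.H184.T5.V.p1671 <|
  consP Pool.Agent.H184.T5.V.p1672 <|
  consP Pool.Agent.H184.T5.B.p4_33_15 <|
  consP Pool.Agent.H184.T5.V.p1673 <|
  consP Pool.Agent.H184.T5.V.p1674 <|
  consP Pool.Agent.H184.T5.V.p1675 <|
  consP Pool.Agent.H184.T5.V.p1676 <|
  consP Pool.Agent.H184.T5.V.p1677 <|
  consP Pool.Agent.H184.T5.V.p627 <|
  consP Pool.Agent.H184.T5.B.p9_33_50 <|
  consP Pool.Agent.H184.T5.V.p1678 <|
  consP Pool.Agent.H184.T5.V.p1679 <|
  consP Pool.Agent.H184.T5.V.p1680 <|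
  consP Pool.Agent.H184.T5.V.p1393 <|
  consP Pool.Agent.H184.T5.B.p14_43_23 <|
  consP Pool.Agent.H184.T5.V.p1681 <|
  consP Pool.Agent.H184.T5.V.p1682 <|
  consP Pool.Agent.H184.T5.B.p9_33_104 <|
  consP Pool.Agent.H184.T5.B.p9_33_54 <|
  consP Pool.Agent.H184.T5.B.p4_33_9 <|
  consP Pool.Agent.H184.T5.V.p665 <|
  consP Pool.Agent.H184.T5.B.p9_33_26 <|
  consP Pool.Agent.H184.T5.B.p9_33_101 <|
  consP Pool.Agent.H184.T5.V.p664 <|
  consP Pool.Agent.H184.T5.V.p1683 <|
  consP Pool.Agent.H184.T5.B.p9_33_76 <|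
  consP Pool.Agent.H184.T5.B.p9_33_43 <|
  consP Pool.Agent.H184.T5.V.p1684 <|
  consP Pool.Agent.H184.T5.B.p9_33_68 <|
  consP Pool.Agent.H184.T5.V.p1392 <|
  consP Pool.Agent.H184.T5.B.p9_33_93 <|
  consP Pool.Agent.H184.T5.V.p1685 <|
  consP Pool.Agent.H184.T5.V.p1686 <|
  consP Pool.Agent.H184.T5.B.p9_33_65 <|
  consP Pool.Agent.H184.T5.V.p1687 <|
  consP Pool.Agent.H184.T5.B.p4_33_49 <|
  consP Pool.Agent.H184.T5.V.p1688 <|
  consP Pool.Agent.H184.T5.V.p1689 <|
  consP Pool.Agent.H184.T5.B.p9_33_67 <|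
  consP Pool.Agent.H184.T5.V.p1690 <|
  consP Pool.Agent.H184.T5.V.p1691 <|
  consP Pool.Agent.H184.T5.V.p369 <|
  consP Pool.Agent.H184.T5.V.p1692 <|
  consP Pool.Agent.H184.T5.V.p1693 <|
  consP Pool.Agent.H184.T5.V.p1047 <|
  consP Pool.Agent.H184.T5.V.p1694 <|
  consP Pool.Agent.H184.T5.V.p1695 <|
  consP Pool.Agent.H184.T5.V.p1696 <|
  consP Pool.Agent.H184.T5.B.p9_33_66 <|
  consP Pool.Agent.H184.T5.B.p4_33_123 <|
  consP Pool.Agent.H184.T5.B.p4_33_124 <|
  nilP

def T : List Ent :=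
  [⟨6, 24, 0, 4⟩,
   ⟨8, 100, 0, 6⟩,
   ⟨9, 24, 0, 7⟩,
   ⟨12, 100, 0, 10⟩,
   ⟨16, 100, 0, 14⟩,
   ⟨17, 100, 0, 15⟩,
   ⟨20, 100, 0, 17⟩,
   ⟨21, 100, 0, 18⟩,
   ⟨23, 24, 0, 20⟩,
   ⟨24, 100, 0, 21⟩,
   ⟨27, 100, 0, 24⟩,
   ⟨31, 24, 0, 28⟩,
   ⟨34, 24, 0, 30⟩,
   ⟨35, 100, 0, 31⟩,
   ⟨36, 100, 0, 32⟩,
   ⟨37, 24, 38, 33⟩,
   ⟨40, 100, 0, 36⟩,
   ⟨41, 100, 0, 37⟩,
   ⟨42, 100, 0, 38⟩,
   ⟨43, 100, 0, 39⟩,
   ⟨47, 100, 0, 43⟩,
   ⟨48, 24, 0, 44⟩,
   ⟨52, 100, 0, 48⟩,
   ⟨53, 100, 0, 49⟩,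
   ⟨55, 24, 0, 51⟩,
   ⟨56, 100, 0, 52⟩,
   ⟨57, 100, 0, 53⟩,
   ⟨58, 100, 0, 54⟩,
   ⟨59, 100, 0, 55⟩,
   ⟨61, 100, 0, 57⟩,
   ⟨67, 100, 0, 62⟩,
   ⟨68, 24, 0, 63⟩,
   ⟨70, 100, 0, 65⟩,
   ⟨73, 24, 0, 68⟩,
   ⟨74, 100, 0, 69⟩,
   ⟨76, 100, 1, 71⟩,
   ⟨77, 100, 1, 72⟩,
   ⟨78, 100, 0, 73⟩,
   ⟨79, 100, 0, 74⟩,
   ⟨80, 100, 0, 75⟩,
   ⟨81, 24, 78, 76⟩,
   ⟨84, 100, 0, 78⟩,
   ⟨85, 100, 0, 79⟩,
   ⟨86, 100, 0, 80⟩,
   ⟨87, 100, 0, 81⟩,
   ⟨90, 24, 0, 84⟩,
   ⟨98, 100, 0, 92⟩,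
   ⟨101, 100, 0, 95⟩,
   ⟨105, 100, 0, 99⟩,
   ⟨106, 24, 0, 100⟩,
   ⟨108, 100, 0, 102⟩,
   ⟨110, 24, 0, 104⟩,
   ⟨111, 24, 0, 105⟩,
   ⟨113, 100, 0, 107⟩,
   ⟨114, 100, 0, 108⟩,
   ⟨116, 100, 0, 110⟩,
   ⟨117, 100, 0, 111⟩,
   ⟨118, 100, 0, 112⟩,
   ⟨119, 100, 0, 113⟩,
   ⟨120, 100, 0, 114⟩,
   ⟨121, 43, 0, 115⟩]

def F : List Ent :=
  [⟨1, 4, 67, 0⟩,
   ⟨2, 18, 1, 1⟩,
   ⟨3, 4, 107, 2⟩,
   ⟨5, 4, 66, 3⟩,
   ⟨7, 4, 0, 5⟩,
   ⟨10, 4, 67, 8⟩,
   ⟨11, 4, 70, 9⟩,
   ⟨13, 4, 6, 11⟩,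
   ⟨14, 4, 70, 12⟩,
   ⟨15, 4, 70, 13⟩,
   ⟨19, 4, 70, 16⟩,
   ⟨22, 4, 70, 19⟩,
   ⟨25, 4, 70, 22⟩,
   ⟨26, 4, 67, 23⟩,
   ⟨28, 4, 1, 25⟩,
   ⟨29, 4, 1, 26⟩,
   ⟨30, 4, 70, 27⟩,
   ⟨32, 4, 67, 29⟩,
   ⟨38, 4, 0, 34⟩,
   ⟨39, 4, 70, 35⟩,
   ⟨44, 4, 70, 40⟩,
   ⟨45, 4, 70, 41⟩,
   ⟨46, 4, 70, 42⟩,
   ⟨49, 4, 70, 45⟩,
   ⟨50, 4, 70, 46⟩,
   ⟨51, 4, 70, 47⟩,
   ⟨54, 18, 1, 50⟩,
   ⟨60, 4, 10, 56⟩,
   ⟨63, 4, 95, 58⟩,
   ⟨64, 4, 70, 59⟩,
   ⟨65, 4, 70, 60⟩,
   ⟨66, 4, 70, 61⟩,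
   ⟨69, 4, 70, 64⟩,
   ⟨71, 4, 70, 66⟩,
   ⟨72, 4, 4, 67⟩,
   ⟨75, 18, 1, 70⟩,
   ⟨82, 4, 70, 77⟩,
   ⟨88, 4, 94, 82⟩,
   ⟨89, 4, 70, 83⟩,
   ⟨91, 4, 70, 85⟩,
   ⟨92, 4, 70, 86⟩,
   ⟨93, 4, 70, 87⟩,
   ⟨94, 4, 70, 88⟩,
   ⟨95, 4, 10, 89⟩,
   ⟨96, 4, 70, 90⟩,
   ⟨97, 4, 6, 91⟩,
   ⟨99, 4, 70, 93⟩,
   ⟨100, 4, 70, 94⟩,
   ⟨102, 4, 70, 96⟩,
   ⟨103, 4, 70, 97⟩,
   ⟨104, 4, 70, 98⟩,
   ⟨107, 4, 70, 101⟩,
   ⟨109, 18, 1, 103⟩,
   ⟨112, 4, 70, 106⟩,
   ⟨115, 18, 118, 109⟩,
   ⟨122, 4, 70, 116⟩,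
   ⟨123, 18, 0, 117⟩,
   ⟨124, 18, 0, 118⟩]

theorem ok : nodeOK2 autA 192 P [4, 18, 62] [0, 33, 83] T F = true := by decide +kernel

theorem t : BP 0x4000000000040010 0x800000000000200000001 := by
  have h := node2 autOK hP ok
  rw [show maskL [4, 18, 62] = 0x4000000000040010 from by decide +kernel, show maskL [0, 33, 83] = 0x800000000000200000001 from by decide +kernel] at h
  exact h

end Pool.Agent.H805.T5.N2
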