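import Mathlib
import Pool.Agent.H805.T5.Tree2
import Pool.Agent.H805.T5.Auts
import Pool.Agent.H184.T5.D.F12_43_0
import Pool.Agent.H184.T5.D.F14_43_0
import Pool.Agent.H184.T5.D.F24_43_0
import Pool.Agent.H184.T5.D.F2_33_0
import Pool.Agent.H184.T5.D.F34_33_0
import Pool.Agent.H184.T5.D.F38_33_0
import Pool.Agent.H184.T5.D.F38_33_1
import Pool.Agent.H184.T5.D.F4_33_0
import Pool.Agent.H184.T5.D.F4_33_1
import Pool.Agent.H184.T5.D.F64_41_0
import Pool.Agent.H184.T5.D.F6_81_0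
import Pool.Agent.H184.T5.D.F7_33_0
import Pool.Agent.H184.T5.D.F8_33_1
import Pool.Agent.H184.T5.D.F8_33_2
import Pool.Agent.H184.T5.D.F9_33_0
import Pool.Agent.H184.T5.D.F9_33_1
import Pool.Agent.H184.T5.D.F9_33_2
import Pool.Agent.H184.T5.D.V_000
import Pool.Agent.H184.T5.D.V_002
import Pool.Agent.H184.T5.D.V_004
import Pool.Agent.H184.T5.D.V_007
import Pool.Agent.H184.T5.D.V_008
import Pool.Agent.H184.T5.D.V_009
import Pool.Agent.H184.T5.D.V_010
import Pool.Agent.H184.T5.D.V_011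
import Pool.Agent.H184.T5.D.V_012
import Pool.Agent.H184.T5.D.V_024
import Pool.Agent.H805.T5.N.N2
import Pool.Agent.H805.T5.N.N6

set_option autoImplicit false
set_option maxRecDepth 20000

namespace Pool.Agent.H805.T5.N12

open Pool.Agent.Helper582.Cube

def P : List (ℕ × ℕ) :=
  [(0x4000200000000012, 0x10000800000000000200000001),
   (0x4000200000000004, 0x10000000000000000200000001),
   (0x4000200000000200, 0x200100001),
   (0x40004000000000000100, 0x80200000001),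
   (0x40004000000000000200, 0x80200000001),
   (0x4000200000000090, 0x10000800000000000200000001),
   (0x4001000000000200, 0x200100001),
   (0x4000200000000200, 0x10000000000000000200000001),
   (0x4000004000040000, 0x800000000000200000001),
   (0x4000000000000810, 0x10000000000000000200000001),
   (0x14000000001000000, 0x80000000011),
   (0x4000000000002010, 0x10000000000000000200000001),
   (0x4000000000004010, 0x10000000000000000200000001),
   (0x4000200000008010, 0x10000000000000020200000001),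
   (0x1000000004000000000000200, 0x200100001),
   (0x4000200000020010, 0x10000000000000020200000001),
   (0x4000400000000200, 0x200100001),
   (0x2000000000000004000000000000200, 0x200100001),
   (0x4000200000100010, 0x10000000000000020200000001),
   (0x8000000004000000000000200, 0x200100001),
   (0x4000200000400010, 0x10000000000000000200100001),
   (0x4000200000800010, 0x10000800000000000200000001),
   (0x4000200001000010, 0x10000800000000000200000001),
   (0x4000200002000010, 0x10000800000000000200000001),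
   (0x4000000000000050, 0x200100001),
   (0x4000000000040080, 0x800000000000200000001),
   (0x200000000004000000000000100, 0x200100001),
   (0x4000000000000210, 0x200100001),
   (0x4000000000000240, 0x200000000000000100001),
   (0x4000000000040010, 0x800000000000200000001),
   (0x40004000000080000004, 0x100000000000000080200000001),
   (0x4000200400000000, 0x10000000000000000200000001),
   (0x40000000000000c0, 0x800000000000200000001),
   (0x400004000000000000200, 0x200100001),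
   (0x4000202000000010, 0x10000800000000000200000001),
   (0x4000204000000000, 0x10000000000000000200000001),
   (0x800000000004000000000000200, 0x200100001),
   (0x4000210000000010, 0x10000800000000000200000001),
   (0x4000220000000010, 0x110000000000000000200000001),
   (0x4100000000000200, 0x200100001),
   (0x4000280000000010, 0x10000000000000020200000001),
   (0x4000300000000010, 0x10000800000000000200000001),
   (0x1000004000000000000200, 0x200100001),
   (0x4000a00000000010, 0x10000800000000000200000001),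
   (0x4000000400000200, 0x200100001),
   (0x4002200000000010, 0x10000800000000000200000001),
   (0x4004200000000010, 0x10000000000000000200100001),
   (0x4008200000000010, 0x10000800000000000200000001),
   (0x4000000000001010, 0x200100001),
   (0x4020200000000010, 0x10000800000000000200000001),
   (0x4040200000000010, 0x10000000000000000200100001),
   (0x4080200000000010, 0x10000800000000000200000001),
   (0x4100200000000010, 0x10000000000000020200000001),
   (0x200000000004000002000000010, 0x201100001),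
   (0x4000004000000200, 0x200100001),
   (0x20000000000004000000000000200, 0x200100001),
   (0x4000000000081000, 0x80000100001),
   (0x8000004000000000000200, 0x200100001),
   (0x4000000004001000, 0x80200000001),
   (0x14000200000000010, 0x110000000000000000200000001),
   (0x24000200000000010, 0x10000800000000000200000001),
   (0x44000200000000010, 0x10000800000000000200000001),
   (0x14000000000040000, 0x80000000000020000000001),
   (0x104000000000000010, 0x10000000000000000200000001),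
   (0x8000000000004000000000000200, 0x200100001),
   (0x404000200000000010, 0x10000800000000000200000001),
   (0x20000004000000000000200, 0x200100001),
   (0x1004000200000000010, 0x10000000000000000200100001),
   (0x4000008000000200, 0x200100001),
   (0x40000000000004000000000000200, 0x200100001),
   (0x8004000200000000010, 0x10000800000000000200000001),
   (0x4000000000010010, 0x200100001),
   (0x24000000000000200, 0x200100001),
   (0x200000000004000000000040010, 0x80200100001),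
   (0x200000000004000000000080010, 0x80200100001),
   (0x4000010000000010, 0x200100001),
   (0x200000004000000000000200, 0x200100001),
   (0x104000000000000200, 0x200100001),
   (0x4000080000000200, 0x200100001),
   (0x4000100000000010, 0x200100001),
   (0x2000004000200000000010, 0x10000800000000000200000001),
   (0x4000004000200000000010, 0x10080000000000000200000001),
   (0x84000000000000200, 0x200100001),
   (0x10000004000200000000010, 0x10000000000000000200100001),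
   (0x204000000000000010, 0x200100001),
   (0x40000004000000000000010, 0x200100001),
   (0x80000004000000000000010, 0x10000000000000000200000001),
   (0x44000000000000200, 0x200100001),
   (0x200000004000000000000010, 0x200100001),
   (0x400000004000000000000010, 0x200100001),
   (0x800000004000200000000010, 0x10000800000000000200000001),
   (0x1000000004000200000000010, 0x10000800000000000200000001),
   (0x2000000004000200000000010, 0x10000000000000020200000001),
   (0x4000000004000200000000010, 0x10000800000000000200000001),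
   (0x8000000004000200000000010, 0x10000800000000000200000001),
   (0x200000000004000000000200010, 0x80200100001),
   (0x4004000000000200, 0x200100001),
   (0x4000000000800010, 0x200100001),
   (0x100000000004000200000000010, 0x10000800000000000200000001),
   (0x200000000004000200000000010, 0x10000800000000000200000001),
   (0x400000000004000200000000010, 0x10000800000000000200000001),
   (0x800000000004000200000000010, 0x10000800000000000200000001),
   (0x4001000000000010, 0x200100001),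
   (0x2000000000004000200000000010, 0x10000800000000000200000001),
   (0x4000000000804000, 0x80000000011),
   (0x804000000000000010, 0x200100001),
   (0x14000000000100000, 0x20000000011),
   (0x20000000000004000200000000010, 0x10000800000000000200000001),
   (0x4004000000000000010, 0x200100001),
   (0x80000000000004000200000000010, 0x10000800000000000200000001),
   (0x10004000000000000200, 0x200100001),
   (0x4000008000000040, 0x800000000000200000001),
   (0x4000000004000200, 0x80200000001),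
   (0x20000000004000000000000200, 0x200100001),
   (0x80004000000000000200, 0x200100001),
   (0x4040000000000200, 0x200100001),
   (0x8000000000000004000200000000010, 0x10000800000000000200000001),
   (0x100000000004000000000000200, 0x200100001)]

theorem hP : ∀ p ∈ P, BP p.1 p.2 :=
  consP Pool.Agent.H184.T5.V.p613 <|
  consP Pool.Agent.H184.T5.B.p2_33_45 <|
  consP Pool.Agent.H184.T5.V.p1649 <|
  consP Pool.Agent.H184.T5.B.p8_33_78 <|
  consP Pool.Agent.H184.T5.B.p9_33_78 <|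
  consP Pool.Agent.H184.T5.V.p614 <|
  consP Pool.Agent.H184.T5.V.p615 <|
  consP Pool.Agent.H184.T5.B.p9_33_45 <|
  consP Pool.Agent.H184.T5.B.p38_33_18 <|
  consP Pool.Agent.H184.T5.B.p4_33_11 <|
  consP Pool.Agent.H184.T5.B.p24_43_64 <|
  consP Pool.Agent.H184.T5.B.p4_33_13 <|
  consP Pool.Agent.H184.T5.B.p4_33_14 <|
  consP Pool.Agent.H184.T5.V.p616 <|
  consP Pool.Agent.H184.T5.B.p9_33_96 <|
  consP Pool.Agent.H184.T5.V.p617 <|
  consP Pool.Agent.H184.T5.B.p9_33_46 <|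
  consP Pool.Agent.H184.T5.B.p9_33_121 <|
  consP Pool.Agent.H184.T5.V.p618 <|
  consP Pool.Agent.H184.T5.B.p9_33_99 <|
  consP Pool.Agent.H184.T5.V.p519 <|
  consP Pool.Agent.H184.T5.V.p619 <|
  consP Pool.Agent.H184.T5.V.p620 <|
  consP Pool.Agent.H184.T5.V.p621 <|
  consP Pool.Agent.H184.T5.B.p4_33_6 <|
  consP Pool.Agent.H184.T5.B.p7_33_18 <|
  consP Pool.Agent.H184.T5.B.p8_33_105 <|
  consP Pool.Agent.H184.T5.B.p4_33_9 <|
  consP Pool.Agent.H184.T5.B.p6_81_9 <|
  consP Pool.Agent.H805.T5.N2.t <|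
  consP Pool.Agent.H184.T5.V.p857 <|
  consP Pool.Agent.H184.T5.B.p34_33_45 <|
  consP Pool.Agent.H184.T5.V.p157 <|
  consP Pool.Agent.H184.T5.B.p9_33_82 <|
  consP Pool.Agent.H184.T5.V.p623 <|
  consP Pool.Agent.H184.T5.B.p38_33_45 <|
  consP Pool.Agent.H184.T5.B.p9_33_107 <|
  consP Pool.Agent.H184.T5.V.p624 <|
  consP Pool.Agent.H184.T5.V.p625 <|
  consP Pool.Agent.H184.T5.V.p626 <|
  consP Pool.Agent.H184.T5.V.p627 <|
  consP Pool.Agent.H184.T5.V.p628 <|
  consP Pool.Agent.H184.T5.B.p9_33_84 <|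
  consP Pool.Agent.H184.T5.V.p629 <|
  consP Pool.Agent.H184.T5.V.p2 <|
  consP Pool.Agent.H184.T5.V.p630 <|
  consP Pool.Agent.H184.T5.V.p631 <|
  consP Pool.Agent.H184.T5.V.p632 <|
  consP Pool.Agent.H184.T5.B.p4_33_12 <|
  consP Pool.Agent.H184.T5.V.p633 <|
  consP Pool.Agent.H184.T5.V.p634 <|
  consP Pool.Agent.H184.T5.V.p635 <|
  consP Pool.Agent.H184.T5.V.p636 <|
  consP Pool.Agent.H184.T5.V.p637 <|
  consP Pool.Agent.H184.T5.B.p9_33_38 <|
  consP Pool.Agent.H184.T5.B.p9_33_113 <|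
  consP Pool.Agent.H184.T5.B.p12_43_19 <|
  consP Pool.Agent.H184.T5.B.p9_33_87 <|
  consP Pool.Agent.H184.T5.B.p12_43_26 <|
  consP Pool.Agent.H184.T5.V.p638 <|
  consP Pool.Agent.H184.T5.V.p639 <|
  consP Pool.Agent.H184.T5.V.p640 <|
  consP Pool.Agent.H184.T5.B.p64_41_18 <|
  consP Pool.Agent.H184.T5.B.p4_33_68 <|
  consP Pool.Agent.H184.T5.B.p9_33_111 <|
  consP Pool.Agent.H184.T5.V.p641 <|
  consP Pool.Agent.H184.T5.V.p642 <|
  consP Pool.Agent.H184.T5.V.p643 <|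
  consP Pool.Agent.H184.T5.B.p9_33_39 <|
  consP Pool.Agent.H184.T5.B.p9_33_114 <|
  consP Pool.Agent.H184.T5.V.p644 <|
  consP Pool.Agent.H184.T5.B.p4_33_16 <|
  consP Pool.Agent.H184.T5.B.p9_33_65 <|
  consP Pool.Agent.H184.T5.V.p646 <|
  consP Pool.Agent.H184.T5.V.p647 <|
  consP Pool.Agent.H184.T5.B.p4_33_40 <|
  consP Pool.Agent.H184.T5.B.p9_33_93 <|
  consP Pool.Agent.H184.T5.B.p9_33_68 <|
  consP Pool.Agent.H184.T5.B.p9_33_43 <|
  consP Pool.Agent.H184.T5.B.p4_33_44 <|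
  consP Pool.Agent.H184.T5.V.p648 <|
  consP Pool.Agent.H184.T5.V.p774 <|
  consP Pool.Agent.H184.T5.B.p9_33_67 <|
  consP Pool.Agent.H184.T5.V.p649 <|
  consP Pool.Agent.H184.T5.B.p4_33_69 <|
  consP Pool.Agent.H184.T5.B.p4_33_90 <|
  consP Pool.Agent.H184.T5.B.p4_33_91 <|
  consP Pool.Agent.H184.T5.B.p9_33_66 <|
  consP Pool.Agent.H184.T5.B.p4_33_93 <|
  consP Pool.Agent.H184.T5.B.p4_33_94 <|
  consP Pool.Agent.H184.T5.V.p650 <|
  consP Pool.Agent.H184.T5.V.p651 <|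
  consP Pool.Agent.H184.T5.V.p652 <|
  consP Pool.Agent.H184.T5.V.p653 <|
  consP Pool.Agent.H184.T5.V.p461 <|
  consP Pool.Agent.H184.T5.V.p654 <|
  consP Pool.Agent.H184.T5.B.p9_33_50 <|
  consP Pool.Agent.H805.T5.N6.t <|
  consP Pool.Agent.H184.T5.V.p656 <|
  consP Pool.Agent.H184.T5.V.p657 <|
  consP Pool.Agent.H184.T5.V.p658 <|
  consP Pool.Agent.H184.T5.V.p659 <|
  consP Pool.Agent.H184.T5.B.p4_33_48 <|
  consP Pool.Agent.H184.T5.V.p660 <|
  consP Pool.Agent.H184.T5.B.p14_43_23 <|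
  consP Pool.Agent.H184.T5.B.p4_33_71 <|
  consP Pool.Agent.H184.T5.V.p313 <|
  consP Pool.Agent.H184.T5.V.p661 <|
  consP Pool.Agent.H184.T5.B.p4_33_74 <|
  consP Pool.Agent.H184.T5.V.p663 <|
  consP Pool.Agent.H184.T5.B.p9_33_76 <|
  consP Pool.Agent.H184.T5.V.p664 <|
  consP Pool.Agent.H184.T5.B.p9_33_26 <|
  consP Pool.Agent.H184.T5.B.p9_33_101 <|
  consP Pool.Agent.H184.T5.V.p665 <|
  consP Pool.Agent.H184.T5.B.p9_33_54 <|
  consP Pool.Agent.H184.T5.V.p666 <|
  consP Pool.Agent.H184.T5.B.p9_33_104 <|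
  nilP

def T : List Ent :=
  [⟨1, 83, 0, 0⟩,
   ⟨7, 83, 0, 5⟩,
   ⟨15, 41, 0, 13⟩,
   ⟨17, 41, 0, 15⟩,
   ⟨20, 41, 0, 18⟩,
   ⟨22, 20, 0, 20⟩,
   ⟨23, 83, 0, 21⟩,
   ⟨24, 83, 0, 22⟩,
   ⟨25, 83, 0, 23⟩,
   ⟨32, 41, 66, 30⟩,
   ⟨37, 83, 0, 34⟩,
   ⟨40, 83, 0, 37⟩,
   ⟨41, 104, 0, 38⟩,
   ⟨43, 41, 0, 40⟩,
   ⟨44, 83, 0, 41⟩,
   ⟨47, 83, 0, 43⟩,
   ⟨49, 83, 0, 45⟩,
   ⟨50, 20, 0, 46⟩,
   ⟨51, 83, 0, 47⟩,
   ⟨53, 83, 0, 49⟩,
   ⟨54, 20, 0, 50⟩,
   ⟨55, 83, 0, 51⟩,
   ⟨56, 41, 0, 52⟩,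
   ⟨57, 104, 1, 53⟩,
   ⟨64, 104, 0, 59⟩,
   ⟨65, 83, 0, 60⟩,
   ⟨66, 83, 0, 61⟩,
   ⟨70, 83, 0, 65⟩,
   ⟨72, 20, 0, 67⟩,
   ⟨75, 83, 0, 70⟩,
   ⟨78, 83, 1, 73⟩,
   ⟨79, 83, 1, 74⟩,
   ⟨85, 83, 0, 80⟩,
   ⟨86, 91, 0, 81⟩,
   ⟨88, 20, 0, 83⟩,
   ⟨95, 83, 0, 90⟩,
   ⟨96, 83, 0, 91⟩,
   ⟨97, 41, 0, 92⟩,
   ⟨98, 83, 0, 93⟩,
   ⟨99, 83, 0, 94⟩,
   ⟨101, 83, 1, 95⟩,
   ⟨104, 83, 0, 98⟩,
   ⟨105, 83, 0, 99⟩,
   ⟨106, 83, 0, 100⟩,
   ⟨107, 83, 0, 101⟩,
   ⟨109, 83, 0, 103⟩,
   ⟨113, 83, 0, 107⟩,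
   ⟨115, 83, 0, 109⟩,
   ⟨123, 83, 0, 116⟩]

def F : List Ent :=
  [⟨2, 4, 0, 1⟩,
   ⟨3, 4, 35, 2⟩,
   ⟨5, 4, 66, 3⟩,
   ⟨6, 4, 66, 4⟩,
   ⟨8, 4, 35, 6⟩,
   ⟨9, 4, 0, 7⟩,
   ⟨10, 4, 67, 8⟩,
   ⟨11, 45, 0, 9⟩,
   ⟨12, 45, 17, 10⟩,
   ⟨13, 45, 0, 11⟩,
   ⟨14, 45, 0, 12⟩,
   ⟨16, 4, 35, 14⟩,
   ⟨18, 4, 35, 16⟩,
   ⟨19, 4, 35, 17⟩,
   ⟨21, 4, 35, 19⟩,
   ⟨26, 45, 1, 24⟩,
   ⟨27, 4, 67, 25⟩,
   ⟨28, 4, 1, 26⟩,
   ⟨29, 45, 1, 27⟩,
   ⟨30, 4, 8, 28⟩,
   ⟨31, 4, 67, 29⟩,
   ⟨34, 4, 0, 31⟩,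
   ⟨35, 4, 117, 32⟩,
   ⟨36, 4, 35, 33⟩,
   ⟨38, 4, 0, 35⟩,
   ⟨39, 4, 35, 36⟩,
   ⟨42, 4, 35, 39⟩,
   ⟨46, 4, 35, 42⟩,
   ⟨48, 4, 35, 44⟩,
   ⟨52, 45, 1, 48⟩,
   ⟨58, 4, 35, 54⟩,
   ⟨59, 4, 35, 55⟩,
   ⟨60, 4, 10, 56⟩,
   ⟨61, 4, 35, 57⟩,
   ⟨63, 4, 95, 58⟩,
   ⟨67, 4, 81, 62⟩,
   ⟨68, 45, 0, 63⟩,
   ⟨69, 4, 35, 64⟩,
   ⟨71, 4, 35, 66⟩,
   ⟨73, 4, 35, 68⟩,
   ⟨74, 4, 35, 69⟩,
   ⟨76, 45, 1, 71⟩,
   ⟨77, 4, 35, 72⟩,
   ⟨80, 45, 1, 75⟩,
   ⟨81, 4, 35, 76⟩,
   ⟨82, 4, 35, 77⟩,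
   ⟨83, 4, 35, 78⟩,
   ⟨84, 45, 1, 79⟩,
   ⟨87, 4, 35, 82⟩,
   ⟨89, 45, 1, 84⟩,
   ⟨90, 45, 1, 85⟩,
   ⟨91, 45, 0, 86⟩,
   ⟨92, 4, 35, 87⟩,
   ⟨93, 45, 1, 88⟩,
   ⟨94, 45, 1, 89⟩,
   ⟨102, 4, 35, 96⟩,
   ⟨103, 45, 1, 97⟩,
   ⟨108, 45, 1, 102⟩,
   ⟨110, 4, 11, 104⟩,
   ⟨111, 45, 1, 105⟩,
   ⟨112, 45, 5, 106⟩,
   ⟨114, 45, 1, 108⟩,
   ⟨116, 4, 35, 110⟩,
   ⟨117, 4, 117, 111⟩,
   ⟨118, 4, 95, 112⟩,
   ⟨119, 4, 35, 113⟩,
   ⟨120, 4, 35, 27⟩,
   ⟨121, 4, 35, 114⟩,
   ⟨122, 4, 35, 115⟩,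
   ⟨124, 4, 35, 117⟩]

theorem ok : nodeOK2 autA 192 P [4, 45, 62] [0, 33, 100] T F = true := by decide +kernel

theorem t : BP 0x4000200000000010 0x10000000000000000200000001 := by
  have h := node2 autOK hP ok
  rw [show maskL [4, 45, 62] = 0x4000200000000010 from by decide +kernel, show maskL [0, 33, 100] = 0x10000000000000000200000001 from by decide +kernel] at h
  exact h

end Pool.Agent.H805.T5.N12
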