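import Mathlib
import Pool.Agent.H805.T5.Tree2
import Pool.Agent.H805.T5.Auts
import Pool.Agent.H184.T5.D.F12_43_0
import Pool.Agent.H184.T5.D.F12_43_1
import Pool.Agent.H184.T5.D.F14_43_1
import Pool.Agent.H184.T5.D.F1_91_1
import Pool.Agent.H184.T5.D.F24_43_0
import Pool.Agent.H184.T5.D.F24_43_1
import Pool.Agent.H184.T5.D.F2_33_1
import Pool.Agent.H184.T5.D.F32_91_0
import Pool.Agent.H184.T5.D.F32_91_1
import Pool.Agent.H184.T5.D.F39_33_1
import Pool.Agent.H184.T5.D.F44_4_1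
import Pool.Agent.H184.T5.D.F49_43_1
import Pool.Agent.H184.T5.D.F4_33_0
import Pool.Agent.H184.T5.D.F4_33_1
import Pool.Agent.H184.T5.D.F7_33_1
import Pool.Agent.H184.T5.D.F9_33_1
import Pool.Agent.H184.T5.D.V_000
import Pool.Agent.H184.T5.D.V_002
import Pool.Agent.H184.T5.D.V_011
import Pool.Agent.H184.T5.D.V_012
import Pool.Agent.H184.T5.D.V_014
import Pool.Agent.H805.T5.N.N12
import Pool.Agent.H805.T5.N.N3
import Pool.Agent.H805.T5.N.N5

set_option autoImplicit false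
set_option maxRecDepth 20000

namespace Pool.Agent.H805.T5.N13

open Pool.Agent.Helper582.Cube

def P : List (ℕ × ℕ) :=
  [(0x44000000000000012, 0x200000000000200100001),
   (0x44000000000000014, 0x80200100001),
   (0x4000000084000000, 0xa0000000001),
   (0x44000000000000030, 0x80200100001),
   (0x4000000000000050, 0x200100001),
   (0x44000000000000080, 0x200100001),
   (0x4000000000000004000000000000002, 0x80200000000000000000001),
   (0x44000000000000200, 0x200100001),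
   (0x4000000100000400, 0x80000000000000000100001),
   (0x44000000000000810, 0x200000000000200100001),
   (0x4100000000001000, 0x80000000011),
   (0x44000000000002010, 0x80200100001),
   (0x4100000000004000, 0x80000100001),
   (0x44000000000008010, 0x200000000000200100001),
   (0x4000000000010010, 0x200100001),
   (0x44000000000020010, 0x80200100001),
   (0x44000000000040010, 0x80200100001),
   (0x44000000000080010, 0x80200100001),
   (0x44000000000200010, 0x200000000000200100001),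
   (0x4000000000400010, 0x200100001),
   (0x4000000000000004000000000000100, 0x80200000001),
   (0x44000000001000010, 0x80200100001),
   (0x44000000002000010, 0x80200100001),
   (0x4004000000000000200, 0x80200000001),
   (0x4004000000000000080, 0x80200000001),
   (0x44000000010000010, 0x10000000000000000200100001),
   (0x2000000000000004000000100000000, 0x10080000000000000000000001),
   (0x4004000000000000002, 0x80200000000000000000001),
   (0x44000000080000010, 0x80200100001),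
   (0x4004000000000000004, 0x80200000001),
   (0x1000000004000000100000000, 0x10080000000000000000000001),
   (0x44000000800000010, 0x80200100001),
   (0x44000001000000010, 0x80200100001),
   (0x44000002000000010, 0x80200100001),
   (0x4000004001000000, 0x80000100001),
   (0x44000008000000000, 0x200100001),
   (0x4000010000000010, 0x200100001),
   (0x4100000080000000, 0x80000000011),
   (0x44000040000000010, 0x200000000000200100001),
   (0x4000020100000000, 0x10080000000000000000000001),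
   (0x4000100000000010, 0x200100001),
   (0x44000200000000010, 0x200000000000200100001),
   (0x44000400000000010, 0x80200100001),
   (0x4000000100000800, 0x10080000000000000000000001),
   (0x4400100000000000, 0x20000000011),
   (0x4000000100200000, 0x10080000000000000000000001),
   (0x44004000000000010, 0x80200100001),
   (0x4000000000000810, 0x10000000000000000200000001),
   (0x1004000000100000000, 0x80000000000000000100001),
   (0x4000000000002010, 0x10000000000000000200000001),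
   (0x4000000000000004000000100000000, 0x80000000000020000000001),
   (0x100000004000000000000080, 0x200100001),
   (0x4000001000000010, 0x10000000000000000200000001),
   (0x4000004000002000000010, 0x10000800000000000200000001),
   (0x200000004000000000000004, 0x80200000001),
   (0x4000008000000010, 0x10000000000000000200000001),
   (0x400004000000000001000, 0x80000100001),
   (0x6000000000000010, 0x10000000000000000200000001),
   (0x4c000000000000010, 0x80200100001),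
   (0x54000000000000010, 0x80200100001),
   (0x64000000000000010, 0x80200100001),
   (0xc4000000000000010, 0x80200100001),
   (0x4000040100000000, 0x10080000000000000000000001),
   (0x204000000000000010, 0x200100001),
   (0x444000000000000010, 0x201100001),
   (0x804000000000000010, 0x200100001),
   (0x4000000100001000, 0x10080000000000000000000001),
   (0x2044000000000000010, 0x80200100001),
   (0x4000000100400000, 0x10080000000000000000000001),
   (0x8044000000000000010, 0x80200100001),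
   (0x4000004000000000010010, 0x10000000000000020200000001),
   (0x4000004000000000020010, 0x10000000000000020200000001),
   (0x4000000004000000100000000, 0x80000000000000000100001),
   (0x4000000000080010, 0x10000000000000000200000001),
   (0x4000004000010000000010, 0x10000000000000020200000001),
   (0x4000004000020000000010, 0x110000000000000000200000001),
   (0x4000004000040000000010, 0x10000000000000000200100001),
   (0x4000000000000004000000000000010, 0x800000000000200000001),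
   (0x1000044000000000000010, 0x200000000000200100001),
   (0x2000044000000000000010, 0x200000000000200100001),
   (0x40000000004004000000000000000, 0x80200000001),
   (0xc000000100000000, 0x80000000000000000100001),
   (0x104000000000000010, 0x10000000000000000200000001),
   (0x2004000000100000000, 0x10080000000000000000000001),
   (0x40000004000000000000010, 0x200100001),
   (0x80000004000000000000010, 0x10000000000000000200000001),
   (0x100000004000000000000010, 0x10000000000000000200000001),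
   (0x40000000000004000000001000000, 0xa0000000001),
   (0x400000004000000000000010, 0x200100001),
   (0x800000044000000000000010, 0x80200100001),
   (0x4000000100000100, 0x10080000000000000000000001),
   (0x20000000004004000000000000000, 0xa0000000001),
   (0x4000000004000000000000010, 0x200100001),
   (0x4000000100800000, 0x10080000000000000000000001),
   (0x4000004000000000100010, 0x10000000000000020200000001),
   (0x4002000100000000, 0x80000000000000000100001),
   (0x4000004000000000400010, 0x10000000000000020200000001),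
   (0x4000004000000000800010, 0x10000800000000000200000001),
   (0x10000000000000004000000100000000, 0x10080000000000000000000001),
   (0x4000200000000010, 0x10000000000000000200000001),
   (0x4000004000400000000010, 0x10000000000000020200000001),
   (0x4000004000800000000010, 0x10000800000000000200000001),
   (0x400000004000000100000000, 0x10080000000000000000000001),
   (0x2000000000044000000000000010, 0x80200100001),
   (0x4000000000044000000000000010, 0x80200100001),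
   (0x8000000000044000000000000010, 0x80200100001),
   (0x14000000100000000, 0x80000000000000000100001),
   (0x2004000000000000010, 0x10000000000000000200000001),
   (0x40000000000044000000000000010, 0x80200100001),
   (0x80000000000044000000000000010, 0x80200100001),
   (0x4000000500000000, 0x80000000000000000100001),
   (0x200000000000044000000000000010, 0x80200100001),
   (0x400000000000044000000000000010, 0x80200100001),
   (0x800000000000044000000000000010, 0x200000000000200100001),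
   (0x4000000100000200, 0x10080000000000000000000001),
   (0x4000000100004000, 0x10080000000000000000000001),
   (0x400004002000000000000, 0x80000100001),
   (0x4000000101000000, 0x10080000000000000000000001)]

theorem hP : ∀ p ∈ P, BP p.1 p.2 :=
  consP Pool.Agent.H184.T5.V.p727 <|
  consP Pool.Agent.H184.T5.V.p728 <|
  consP Pool.Agent.H184.T5.V.p46 <|
  consP Pool.Agent.H184.T5.V.p729 <|
  consP Pool.Agent.H184.T5.B.p4_33_6 <|
  consP Pool.Agent.H184.T5.B.p7_33_66 <|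
  consP Pool.Agent.H184.T5.B.p1_91_122 <|
  consP Pool.Agent.H184.T5.B.p9_33_66 <|
  consP Pool.Agent.H184.T5.B.p32_91_10 <|
  consP Pool.Agent.H184.T5.V.p730 <|
  consP Pool.Agent.H184.T5.B.p12_43_56 <|
  consP Pool.Agent.H184.T5.V.p731 <|
  consP Pool.Agent.H184.T5.B.p14_43_56 <|
  consP Pool.Agent.H184.T5.V.p732 <|
  consP Pool.Agent.H184.T5.B.p4_33_16 <|
  consP Pool.Agent.H184.T5.V.p734 <|
  consP Pool.Agent.H184.T5.V.p735 <|
  consP Pool.Agent.H184.T5.V.p736 <|
  consP Pool.Agent.H184.T5.V.p737 <|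
  consP Pool.Agent.H805.T5.N5.t <|
  consP Pool.Agent.H184.T5.V.p739 <|
  consP Pool.Agent.H184.T5.V.p740 <|
  consP Pool.Agent.H184.T5.V.p741 <|
  consP Pool.Agent.H184.T5.B.p9_33_74 <|
  consP Pool.Agent.H184.T5.B.p7_33_74 <|
  consP Pool.Agent.H184.T5.V.p742 <|
  consP Pool.Agent.H184.T5.B.p32_91_121 <|
  consP Pool.Agent.H184.T5.B.p1_91_74 <|
  consP Pool.Agent.H184.T5.V.p743 <|
  consP Pool.Agent.H184.T5.V.p855 <|
  consP Pool.Agent.H184.T5.B.p32_91_96 <|
  consP Pool.Agent.H184.T5.V.p744 <|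
  consP Pool.Agent.H184.T5.V.p745 <|
  consP Pool.Agent.H184.T5.V.p746 <|
  consP Pool.Agent.H184.T5.B.p24_43_38 <|
  consP Pool.Agent.H184.T5.B.p39_33_66 <|
  consP Pool.Agent.H184.T5.B.p4_33_40 <|
  consP Pool.Agent.H184.T5.V.p1003 <|
  consP Pool.Agent.H184.T5.V.p747 <|
  consP Pool.Agent.H184.T5.B.p32_91_41 <|
  consP Pool.Agent.H184.T5.B.p4_33_44 <|
  consP Pool.Agent.H184.T5.V.p748 <|
  consP Pool.Agent.H184.T5.V.p749 <|
  consP Pool.Agent.H184.T5.V.p750 <|
  consP Pool.Agent.H184.T5.B.p44_4_58 <|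
  consP Pool.Agent.H184.T5.B.p32_91_21 <|
  consP Pool.Agent.H184.T5.V.p751 <|
  consP Pool.Agent.H184.T5.B.p4_33_11 <|
  consP Pool.Agent.H184.T5.B.p32_91_72 <|
  consP Pool.Agent.H184.T5.B.p4_33_13 <|
  consP Pool.Agent.H184.T5.B.p32_91_122 <|
  consP Pool.Agent.H184.T5.V.p177 <|
  consP Pool.Agent.H184.T5.B.p4_33_36 <|
  consP Pool.Agent.H184.T5.V.p752 <|
  consP Pool.Agent.H184.T5.B.p2_33_93 <|
  consP Pool.Agent.H184.T5.B.p4_33_39 <|
  consP Pool.Agent.H184.T5.B.p12_43_82 <|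
  consP Pool.Agent.H184.T5.B.p4_33_61 <|
  consP Pool.Agent.H184.T5.V.p753 <|
  consP Pool.Agent.H184.T5.V.p754 <|
  consP Pool.Agent.H184.T5.V.p755 <|
  consP Pool.Agent.H184.T5.V.p756 <|
  consP Pool.Agent.H184.T5.B.p32_91_42 <|
  consP Pool.Agent.H184.T5.B.p4_33_69 <|
  consP Pool.Agent.H184.T5.V.p757 <|
  consP Pool.Agent.H184.T5.B.p4_33_71 <|
  consP Pool.Agent.H184.T5.B.p32_91_12 <|
  consP Pool.Agent.H184.T5.V.p758 <|
  consP Pool.Agent.H184.T5.B.p32_91_22 <|
  consP Pool.Agent.H184.T5.V.p759 <|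
  consP Pool.Agent.H184.T5.V.p816 <|
  consP Pool.Agent.H184.T5.V.p760 <|
  consP Pool.Agent.H184.T5.B.p32_91_98 <|
  consP Pool.Agent.H805.T5.N3.t <|
  consP Pool.Agent.H184.T5.V.p762 <|
  consP Pool.Agent.H184.T5.V.p763 <|
  consP Pool.Agent.H184.T5.V.p764 <|
  consP Pool.Agent.H184.T5.B.p4_33_122 <|
  consP Pool.Agent.H184.T5.V.p765 <|
  consP Pool.Agent.H184.T5.V.p766 <|
  consP Pool.Agent.H184.T5.V.p767 <|
  consP Pool.Agent.H184.T5.B.p32_91_63 <|
  consP Pool.Agent.H184.T5.B.p4_33_68 <|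
  consP Pool.Agent.H184.T5.B.p32_91_73 <|
  consP Pool.Agent.H184.T5.B.p4_33_90 <|
  consP Pool.Agent.H184.T5.B.p4_33_91 <|
  consP Pool.Agent.H184.T5.B.p4_33_92 <|
  consP Pool.Agent.H184.T5.B.p24_43_114 <|
  consP Pool.Agent.H184.T5.B.p4_33_94 <|
  consP Pool.Agent.H184.T5.V.p768 <|
  consP Pool.Agent.H184.T5.B.p32_91_8 <|
  consP Pool.Agent.H184.T5.V.p769 <|
  consP Pool.Agent.H184.T5.B.p4_33_98 <|
  consP Pool.Agent.H184.T5.B.p32_91_23 <|
  consP Pool.Agent.H184.T5.V.p770 <|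
  consP Pool.Agent.H184.T5.V.p771 <|
  consP Pool.Agent.H184.T5.V.p772 <|
  consP Pool.Agent.H184.T5.V.p773 <|
  consP Pool.Agent.H184.T5.B.p32_91_124 <|
  consP Pool.Agent.H805.T5.N12.t <|
  consP Pool.Agent.H184.T5.V.p775 <|
  consP Pool.Agent.H184.T5.V.p776 <|
  consP Pool.Agent.H184.T5.B.p32_91_94 <|
  consP Pool.Agent.H184.T5.V.p777 <|
  consP Pool.Agent.H184.T5.V.p778 <|
  consP Pool.Agent.H184.T5.V.p779 <|
  consP Pool.Agent.H184.T5.B.p32_91_64 <|
  consP Pool.Agent.H184.T5.B.p4_33_73 <|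
  consP Pool.Agent.H184.T5.V.p780 <|
  consP Pool.Agent.H184.T5.V.p781 <|
  consP Pool.Agent.H184.T5.B.p32_91_34 <|
  consP Pool.Agent.H184.T5.V.p782 <|
  consP Pool.Agent.H184.T5.V.p783 <|
  consP Pool.Agent.H184.T5.V.p784 <|
  consP Pool.Agent.H184.T5.B.p32_91_9 <|
  consP Pool.Agent.H184.T5.B.p32_91_14 <|
  consP Pool.Agent.H184.T5.B.p49_43_82 <|
  consP Pool.Agent.H184.T5.B.p32_91_24 <|
  nilP

def T : List Ent :=
  [⟨1, 81, 0, 0⟩,
   ⟨2, 43, 0, 1⟩,
   ⟨5, 43, 0, 3⟩,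
   ⟨11, 81, 0, 9⟩,
   ⟨13, 43, 0, 11⟩,
   ⟨15, 81, 0, 13⟩,
   ⟨17, 43, 0, 15⟩,
   ⟨18, 43, 0, 16⟩,
   ⟨19, 43, 0, 17⟩,
   ⟨21, 81, 0, 18⟩,
   ⟨24, 43, 0, 21⟩,
   ⟨25, 43, 0, 22⟩,
   ⟨28, 100, 0, 25⟩,
   ⟨31, 43, 0, 28⟩,
   ⟨35, 43, 0, 31⟩,
   ⟨36, 43, 0, 32⟩,
   ⟨37, 43, 0, 33⟩,
   ⟨42, 81, 0, 38⟩,
   ⟨45, 81, 0, 41⟩,
   ⟨46, 43, 0, 42⟩,
   ⟨50, 43, 0, 46⟩,
   ⟨57, 43, 1, 53⟩,
   ⟨63, 43, 0, 58⟩,
   ⟨64, 43, 0, 59⟩,
   ⟨65, 43, 0, 60⟩,
   ⟨67, 43, 0, 61⟩,
   ⟨70, 24, 0, 64⟩,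
   ⟨73, 43, 0, 67⟩,
   ⟨75, 43, 0, 69⟩,
   ⟨76, 81, 1, 70⟩,
   ⟨77, 81, 1, 71⟩,
   ⟨80, 81, 1, 74⟩,
   ⟨81, 24, 1, 75⟩,
   ⟨82, 100, 1, 76⟩,
   ⟨84, 81, 0, 78⟩,
   ⟨85, 81, 0, 79⟩,
   ⟨95, 43, 0, 89⟩,
   ⟨100, 81, 1, 94⟩,
   ⟨102, 81, 1, 96⟩,
   ⟨103, 43, 1, 97⟩,
   ⟨106, 81, 1, 100⟩,
   ⟨107, 43, 1, 101⟩,
   ⟨109, 43, 0, 103⟩,
   ⟨110, 43, 0, 104⟩,
   ⟨111, 43, 0, 105⟩,
   ⟨114, 43, 0, 108⟩,
   ⟨115, 43, 0, 109⟩,
   ⟨117, 43, 0, 111⟩,
   ⟨118, 43, 0, 112⟩,
   ⟨119, 81, 0, 113⟩]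

def F : List Ent :=
  [⟨3, 66, 81, 2⟩,
   ⟨6, 66, 0, 4⟩,
   ⟨7, 4, 0, 5⟩,
   ⟨8, 4, 106, 6⟩,
   ⟨9, 4, 0, 7⟩,
   ⟨10, 4, 32, 8⟩,
   ⟨12, 4, 16, 10⟩,
   ⟨14, 4, 28, 12⟩,
   ⟨16, 66, 0, 14⟩,
   ⟨22, 66, 0, 19⟩,
   ⟨23, 4, 94, 20⟩,
   ⟨26, 4, 67, 23⟩,
   ⟨27, 4, 67, 24⟩,
   ⟨29, 4, 152, 26⟩,
   ⟨30, 4, 127, 27⟩,
   ⟨32, 4, 67, 29⟩,
   ⟨34, 4, 152, 30⟩,
   ⟨38, 66, 28, 34⟩,
   ⟨39, 4, 0, 35⟩,
   ⟨40, 66, 0, 36⟩,
   ⟨41, 4, 16, 37⟩,
   ⟨43, 4, 152, 39⟩,
   ⟨44, 66, 0, 40⟩,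
   ⟨47, 4, 152, 43⟩,
   ⟨48, 4, 4, 44⟩,
   ⟨49, 4, 152, 45⟩,
   ⟨51, 66, 1, 47⟩,
   ⟨52, 4, 32, 48⟩,
   ⟨53, 66, 1, 49⟩,
   ⟨54, 4, 80, 50⟩,
   ⟨55, 4, 34, 51⟩,
   ⟨56, 66, 1, 52⟩,
   ⟨58, 66, 94, 54⟩,
   ⟨59, 66, 1, 55⟩,
   ⟨60, 4, 11, 56⟩,
   ⟨61, 66, 1, 57⟩,
   ⟨68, 4, 152, 62⟩,
   ⟨69, 66, 0, 63⟩,
   ⟨71, 66, 0, 65⟩,
   ⟨72, 4, 152, 66⟩,
   ⟨74, 4, 152, 68⟩,
   ⟨78, 4, 32, 72⟩,
   ⟨79, 66, 1, 73⟩,
   ⟨83, 4, 116, 77⟩,
   ⟨86, 4, 67, 80⟩,
   ⟨87, 4, 32, 81⟩,
   ⟨88, 66, 1, 82⟩,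
   ⟨89, 4, 152, 83⟩,
   ⟨90, 66, 0, 84⟩,
   ⟨91, 66, 1, 85⟩,
   ⟨92, 66, 1, 86⟩,
   ⟨93, 4, 95, 87⟩,
   ⟨94, 66, 0, 88⟩,
   ⟨96, 4, 152, 90⟩,
   ⟨97, 4, 81, 91⟩,
   ⟨98, 66, 0, 92⟩,
   ⟨99, 4, 152, 93⟩,
   ⟨101, 4, 32, 95⟩,
   ⟨104, 4, 152, 98⟩,
   ⟨105, 66, 1, 99⟩,
   ⟨108, 4, 152, 102⟩,
   ⟨112, 4, 32, 106⟩,
   ⟨113, 66, 1, 107⟩,
   ⟨116, 4, 32, 110⟩,
   ⟨120, 4, 154, 86⟩,
   ⟨121, 4, 152, 114⟩,
   ⟨122, 4, 152, 115⟩,
   ⟨123, 4, 11, 116⟩,
   ⟨124, 4, 152, 117⟩]

theorem ok : nodeOK2 autA 192 P [4, 62, 66] [0, 20, 33] T F = true := by decide +kernel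

theorem t : BP 0x44000000000000010 0x200100001 := by
  have h := node2 autOK hP ok
  rw [show maskL [4, 62, 66] = 0x44000000000000010 from by decide +kernel, show maskL [0, 20, 33] = 0x200100001 from by decide +kernel] at h
  exact h

end Pool.Agent.H805.T5.N13
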