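import Mathlib
import Pool.Agent.H805.T5.Tree2
import Pool.Agent.H805.T5.Auts
import Pool.Agent.H184.T5.D.F14_43_0
import Pool.Agent.H184.T5.D.F1_91_0
import Pool.Agent.H184.T5.D.F1_91_1
import Pool.Agent.H184.T5.D.F24_43_0
import Pool.Agent.H184.T5.D.F2_33_0
import Pool.Agent.H184.T5.D.F38_33_0
import Pool.Agent.H184.T5.D.F38_33_1
import Pool.Agent.H184.T5.D.F39_33_1
import Pool.Agent.H184.T5.D.F44_4_0
import Pool.Agent.H184.T5.D.F49_43_0
import Pool.Agent.H184.T5.D.F4_33_0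
import Pool.Agent.H184.T5.D.F4_33_1
import Pool.Agent.H184.T5.D.F64_41_0
import Pool.Agent.H184.T5.D.F64_41_1
import Pool.Agent.H184.T5.D.F6_81_1
import Pool.Agent.H184.T5.D.F7_33_0
import Pool.Agent.H184.T5.D.F7_33_1
import Pool.Agent.H184.T5.D.F7_33_2
import Pool.Agent.H184.T5.D.V_002
import Pool.Agent.H805.T5.N.N6

set_option autoImplicit false
set_option maxRecDepth 20000

namespace Pool.Agent.H805.T5.N8

open Pool.Agent.Helper582.Cube

def P : List (ℕ × ℕ) :=
  [(0x4080000000000012, 0x80000000000000200100001),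
   (0x4000000800000004, 0x10000000000000000200000001),
   (0x20004000000000000040, 0x80200000000000000000001),
   (0x4000000000800080, 0x200100001),
   (0x800000004000000000000080, 0x800000000000200000001),
   (0x4000000800000080, 0x10000000000000000200000001),
   (0x4001000000000080, 0x200100001),
   (0x40000004000000000000080, 0x800000000000200000001),
   (0x4000000000400080, 0x200100001),
   (0x2000000004000000000000080, 0x800000000000200000001),
   (0x14000000001000000, 0x80000000011),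
   (0x4000000000002010, 0x10000000000000000200000001),
   (0x100000004000000000000080, 0x800000000000200000001),
   (0x4000000800008010, 0x10000000000000020200000001),
   (0x1000000004000000000000080, 0x200100001),
   (0x804000000000000080, 0x200100001),
   (0x4000400000000080, 0x200100001),
   (0x400000004000000000000080, 0x800000000000200000001),
   (0x4000000800100010, 0x10000800000000000200000001),
   (0x1000000004000000000000080, 0x800000000000200000001),
   (0x4000004000000000000080, 0x800000000000200000001),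
   (0x4002000000000080, 0x200100001),
   (0x4000000801000010, 0x10000800000000000200000001),
   (0x4080000000000030, 0x280100001),
   (0x4000000000000050, 0x200100001),
   (0x4000000000002080, 0x800000000000200000001),
   (0x4000000000020002, 0x80000000000020000000001),
   (0x4000000000040080, 0x800000000000200000001),
   (0x200000004000000000000002, 0x80000000000020000000001),
   (0x4080000080000010, 0x80000000000000200100001),
   (0x4000000000000480, 0x800000000000200000001),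
   (0x4000000000008080, 0x800000000000200000001),
   (0x4000001000000010, 0x10000000000000000200000001),
   (0x4000002800000010, 0x10000000000000000200100001),
   (0x4000004800000000, 0x10000000000000000200000001),
   (0x4000000000020080, 0x800000000000200000001),
   (0x4000010800000010, 0x10000000000000020200000001),
   (0x4000020800000010, 0x10000800000000000200000001),
   (0x4000040800000010, 0x10000800000000000200000001),
   (0x4000080800000010, 0x10000800000000000200000001),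
   (0x4000100800000010, 0x10000800000000000200000001),
   (0x40000000000000c0, 0x800000000000200000001),
   (0x4000400800000010, 0x10000000000000020200000001),
   (0x4000000000000880, 0x800000000000200000001),
   (0x4000000000000082, 0x800000000000200000001),
   (0x4002000800000010, 0x10000800000000000200000001),
   (0x4020004000000000, 0x80200000001),
   (0x4020008000000000, 0x80200000001),
   (0x4000000000001010, 0x200100001),
   (0x4000000800000080, 0x200100001),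
   (0x4000000000004000000000000080, 0x200100001),
   (0x4000000000002080, 0x200100001),
   (0x4100000800000010, 0x10000800000000000200000001),
   (0x4200000800000010, 0x10000800000000000200000001),
   (0x4000004000000080, 0x200100001),
   (0x4080008000000000, 0x200100001),
   (0x4000000000001080, 0x200100001),
   (0x1004000000000000080, 0x800000000000200000001),
   (0x4000002000000080, 0x200100001),
   (0x14000000800000010, 0x10000000000000020200000001),
   (0x4000000000000880, 0x200100001),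
   (0x4000004000000000000080, 0x200100001),
   (0x6000000000000080, 0x200100001),
   (0x4000000008004000, 0x80200000001),
   (0x8000000000004000000000000080, 0x200100001),
   (0x4000000000004080, 0x200100001),
   (0x804000000000000080, 0x800000000000200000001),
   (0x14000000008000000, 0x10000000000000020000000001),
   (0x4000008000000080, 0x200100001),
   (0x44000000000000080, 0x800000000000200000001),
   (0x4080000000008010, 0x80200100001),
   (0x4000000000010010, 0x200100001),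
   (0x24000000000000080, 0x200100001),
   (0x4000010000000080, 0x200100001),
   (0x4080000000080010, 0x80000000000000200100001),
   (0x4000010000000010, 0x200100001),
   (0x200000004000000000000080, 0x200100001),
   (0x104000000000000080, 0x200100001),
   (0x4000080000000080, 0x200100001),
   (0x80000000000004000000000000080, 0x800000000000200000001),
   (0x800000000004000000000000080, 0x800000000000200000001),
   (0x100000004000000000000080, 0x200100001),
   (0x34000000000000000, 0xa0000000001),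
   (0x10000004000000800000010, 0x110000000000000000200000001),
   (0x200000000000004000000000000080, 0x800000000000200000001),
   (0x4000000000010080, 0x200100001),
   (0x80000004000000000000010, 0x10000000000000000200000001),
   (0x44000000000000080, 0x200100001),
   (0x4000000009000000, 0x80200000001),
   (0x400000004000000000000010, 0x200100001),
   (0x4000000000080080, 0x200100001),
   (0x1000000004000000800000010, 0x10000800000000000200000001),
   (0x2000000004000000800000010, 0x10000000000000020200000001),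
   (0x4000100000000080, 0x200100001),
   (0x100000000000004000000000000080, 0x800000000000200000001),
   (0x4080000000200010, 0x80200100001),
   (0x4004000000000080, 0x200100001),
   (0x4000000000800010, 0x200100001),
   (0x4080000001000010, 0x80200100001),
   (0x4000000000000088, 0x200100001),
   (0x400000000004000000800000010, 0x10000800000000000200000001),
   (0x800000000004000000800000010, 0x10000800000000000200000001),
   (0x4000100000002000, 0x80000000011),
   (0x2000000000004000000800000010, 0x10000800000000000200000001),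
   (0x4000000000000084, 0x200100001),
   (0x4000800000000080, 0x800000000000200000001),
   (0x14008000000000000, 0x20000000011),
   (0x4000000008000080, 0x200100001),
   (0x4004000000000000010, 0x200100001),
   (0x80000000000004000000800000010, 0x10000000000000020200000001),
   (0x4000100000000800, 0x200000000000000000011),
   (0x200000000000004000000800000010, 0x10000800000000000200000001),
   (0x4000000004000080, 0x200100001),
   (0x20000000004000000000000080, 0x200100001),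
   (0x1000000000000004000000800000010, 0x10000000000000020200000001),
   (0x2000000000000004000000800000010, 0x10000800000000000200000001),
   (0x4000001000000080, 0x800000000000200000001),
   (0x4002000000002000, 0x80000000011),
   (0x4000020000000080, 0x800000000000200000001)]

theorem hP : ∀ p ∈ P, BP p.1 p.2 :=
  consP Pool.Agent.H184.T5.V.p142 <|
  consP Pool.Agent.H184.T5.B.p2_33_35 <|
  consP Pool.Agent.H184.T5.B.p6_81_77 <|
  consP Pool.Agent.H184.T5.B.p7_33_23 <|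
  consP Pool.Agent.H184.T5.B.p7_33_95 <|
  consP Pool.Agent.H184.T5.B.p7_33_35 <|
  consP Pool.Agent.H184.T5.B.p7_33_48 <|
  consP Pool.Agent.H184.T5.B.p7_33_90 <|
  consP Pool.Agent.H184.T5.B.p7_33_22 <|
  consP Pool.Agent.H184.T5.B.p7_33_97 <|
  consP Pool.Agent.H184.T5.B.p24_43_64 <|
  consP Pool.Agent.H184.T5.B.p4_33_13 <|
  consP Pool.Agent.H184.T5.B.p7_33_92 <|
  consP Pool.Agent.H184.T5.V.p143 <|
  consP Pool.Agent.H184.T5.B.p7_33_96 <|
  consP Pool.Agent.H184.T5.B.p7_33_71 <|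
  consP Pool.Agent.H184.T5.B.p7_33_46 <|
  consP Pool.Agent.H184.T5.B.p7_33_94 <|
  consP Pool.Agent.H184.T5.V.p144 <|
  consP Pool.Agent.H184.T5.V.p145 <|
  consP Pool.Agent.H184.T5.V.p146 <|
  consP Pool.Agent.H184.T5.B.p7_33_49 <|
  consP Pool.Agent.H184.T5.V.p147 <|
  consP Pool.Agent.H184.T5.V.p148 <|
  consP Pool.Agent.H184.T5.B.p4_33_6 <|
  consP Pool.Agent.H184.T5.B.p7_33_13 <|
  consP Pool.Agent.H184.T5.B.p1_91_17 <|
  consP Pool.Agent.H184.T5.B.p7_33_18 <|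
  consP Pool.Agent.H184.T5.B.p1_91_93 <|
  consP Pool.Agent.H184.T5.V.p149 <|
  consP Pool.Agent.H184.T5.V.p150 <|
  consP Pool.Agent.H184.T5.B.p7_33_15 <|
  consP Pool.Agent.H184.T5.B.p4_33_36 <|
  consP Pool.Agent.H184.T5.V.p151 <|
  consP Pool.Agent.H184.T5.B.p38_33_35 <|
  consP Pool.Agent.H184.T5.B.p7_33_17 <|
  consP Pool.Agent.H184.T5.V.p152 <|
  consP Pool.Agent.H184.T5.V.p153 <|
  consP Pool.Agent.H184.T5.V.p154 <|
  consP Pool.Agent.H184.T5.V.p155 <|
  consP Pool.Agent.H184.T5.V.p156 <|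
  consP Pool.Agent.H184.T5.V.p157 <|
  consP Pool.Agent.H184.T5.V.p158 <|
  consP Pool.Agent.H184.T5.B.p7_33_11 <|
  consP Pool.Agent.H184.T5.B.p7_33_1 <|
  consP Pool.Agent.H184.T5.V.p159 <|
  consP Pool.Agent.H184.T5.B.p38_33_53 <|
  consP Pool.Agent.H184.T5.B.p39_33_53 <|
  consP Pool.Agent.H184.T5.B.p4_33_12 <|
  consP Pool.Agent.H184.T5.V.p160 <|
  consP Pool.Agent.H184.T5.V.p161 <|
  consP Pool.Agent.H184.T5.V.p162 <|
  consP Pool.Agent.H184.T5.V.p163 <|
  consP Pool.Agent.H184.T5.V.p164 <|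
  consP Pool.Agent.H184.T5.B.p7_33_38 <|
  consP Pool.Agent.H184.T5.B.p39_33_55 <|
  consP Pool.Agent.H184.T5.B.p7_33_12 <|
  consP Pool.Agent.H184.T5.B.p7_33_72 <|
  consP Pool.Agent.H184.T5.B.p7_33_37 <|
  consP Pool.Agent.H184.T5.V.p165 <|
  consP Pool.Agent.H184.T5.V.p166 <|
  consP Pool.Agent.H184.T5.V.p167 <|
  consP Pool.Agent.H184.T5.B.p7_33_61 <|
  consP Pool.Agent.H184.T5.B.p14_43_27 <|
  consP Pool.Agent.H184.T5.V.p168 <|
  consP Pool.Agent.H184.T5.B.p7_33_14 <|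
  consP Pool.Agent.H184.T5.V.p169 <|
  consP Pool.Agent.H184.T5.B.p64_41_27 <|
  consP Pool.Agent.H184.T5.B.p7_33_39 <|
  consP Pool.Agent.H184.T5.V.p170 <|
  consP Pool.Agent.H184.T5.V.p171 <|
  consP Pool.Agent.H184.T5.B.p4_33_16 <|
  consP Pool.Agent.H184.T5.V.p173 <|
  consP Pool.Agent.H184.T5.B.p7_33_40 <|
  consP Pool.Agent.H184.T5.V.p174 <|
  consP Pool.Agent.H184.T5.B.p4_33_40 <|
  consP Pool.Agent.H184.T5.B.p7_33_93 <|
  consP Pool.Agent.H184.T5.B.p7_33_68 <|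
  consP Pool.Agent.H184.T5.B.p7_33_43 <|
  consP Pool.Agent.H184.T5.B.p7_33_115 <|
  consP Pool.Agent.H184.T5.V.p176 <|
  consP Pool.Agent.H184.T5.V.p177 <|
  consP Pool.Agent.H184.T5.B.p64_41_65 <|
  consP Pool.Agent.H184.T5.V.p178 <|
  consP Pool.Agent.H184.T5.B.p7_33_117 <|
  consP Pool.Agent.H184.T5.B.p7_33_16 <|
  consP Pool.Agent.H184.T5.B.p4_33_91 <|
  consP Pool.Agent.H184.T5.B.p7_33_66 <|
  consP Pool.Agent.H184.T5.B.p24_43_27 <|
  consP Pool.Agent.H184.T5.B.p4_33_94 <|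
  consP Pool.Agent.H184.T5.B.p7_33_19 <|
  consP Pool.Agent.H184.T5.V.p179 <|
  consP Pool.Agent.H184.T5.V.p180 <|
  consP Pool.Agent.H184.T5.B.p7_33_44 <|
  consP Pool.Agent.H184.T5.V.p181 <|
  consP Pool.Agent.H184.T5.V.p182 <|
  consP Pool.Agent.H184.T5.V.p183 <|
  consP Pool.Agent.H805.T5.N6.t <|
  consP Pool.Agent.H184.T5.V.p185 <|
  consP Pool.Agent.H184.T5.V.p186 <|
  consP Pool.Agent.H184.T5.V.p187 <|
  consP Pool.Agent.H184.T5.V.p188 <|
  consP Pool.Agent.H184.T5.B.p44_4_13 <|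
  consP Pool.Agent.H184.T5.V.p189 <|
  consP Pool.Agent.H184.T5.B.p2_33_7 <|
  consP Pool.Agent.H184.T5.B.p7_33_47 <|
  consP Pool.Agent.H184.T5.B.p64_41_51 <|
  consP Pool.Agent.H184.T5.B.p7_33_27 <|
  consP Pool.Agent.H184.T5.B.p4_33_74 <|
  consP Pool.Agent.H184.T5.V.p191 <|
  consP Pool.Agent.H184.T5.V.p192 <|
  consP Pool.Agent.H184.T5.V.p193 <|
  consP Pool.Agent.H184.T5.B.p7_33_26 <|
  consP Pool.Agent.H184.T5.V.p194 <|
  consP Pool.Agent.H184.T5.V.p195 <|
  consP Pool.Agent.H184.T5.V.p196 <|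
  consP Pool.Agent.H184.T5.B.p7_33_36 <|
  consP Pool.Agent.H184.T5.B.p49_43_13 <|
  consP Pool.Agent.H184.T5.B.p7_33_41 <|
  nilP

def T : List Ent :=
  [⟨1, 91, 1, 0⟩,
   ⟨15, 41, 0, 13⟩,
   ⟨20, 83, 0, 18⟩,
   ⟨24, 83, 0, 22⟩,
   ⟨25, 31, 1, 23⟩,
   ⟨31, 91, 1, 29⟩,
   ⟨37, 20, 0, 33⟩,
   ⟨40, 41, 0, 36⟩,
   ⟨41, 83, 0, 37⟩,
   ⟨42, 83, 0, 38⟩,
   ⟨43, 83, 0, 39⟩,
   ⟨44, 83, 0, 40⟩,
   ⟨46, 41, 0, 42⟩,
   ⟨49, 83, 0, 45⟩,
   ⟨56, 83, 0, 52⟩,
   ⟨57, 83, 0, 53⟩,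
   ⟨64, 41, 0, 59⟩,
   ⟨75, 83, 1, 70⟩,
   ⟨79, 91, 1, 74⟩,
   ⟨88, 104, 0, 83⟩,
   ⟨96, 83, 0, 91⟩,
   ⟨97, 41, 0, 92⟩,
   ⟨101, 83, 1, 95⟩,
   ⟨104, 83, 1, 98⟩,
   ⟨106, 83, 0, 100⟩,
   ⟨107, 83, 0, 101⟩,
   ⟨109, 83, 0, 103⟩,
   ⟨115, 41, 0, 109⟩,
   ⟨117, 83, 0, 111⟩,
   ⟨120, 41, 0, 114⟩,
   ⟨121, 83, 0, 115⟩]

def F : List Ent :=
  [⟨2, 4, 0, 1⟩,
   ⟨3, 4, 107, 2⟩,
   ⟨5, 4, 35, 3⟩,
   ⟨6, 4, 117, 4⟩,
   ⟨7, 4, 0, 5⟩,
   ⟨8, 4, 35, 6⟩,
   ⟨9, 4, 117, 7⟩,
   ⟨10, 4, 35, 8⟩,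
   ⟨11, 4, 117, 9⟩,
   ⟨12, 35, 17, 10⟩,
   ⟨13, 35, 0, 11⟩,
   ⟨14, 4, 117, 12⟩,
   ⟨16, 4, 35, 14⟩,
   ⟨17, 4, 35, 15⟩,
   ⟨18, 4, 35, 16⟩,
   ⟨19, 4, 117, 17⟩,
   ⟨21, 4, 117, 19⟩,
   ⟨22, 4, 117, 20⟩,
   ⟨23, 4, 35, 21⟩,
   ⟨26, 35, 1, 24⟩,
   ⟨27, 4, 67, 25⟩,
   ⟨28, 4, 81, 26⟩,
   ⟨29, 4, 117, 27⟩,
   ⟨30, 35, 127, 28⟩,
   ⟨32, 4, 117, 30⟩,
   ⟨34, 4, 117, 31⟩,
   ⟨36, 35, 0, 32⟩,
   ⟨38, 4, 0, 34⟩,
   ⟨39, 4, 117, 35⟩,
   ⟨45, 4, 117, 41⟩,
   ⟨47, 4, 117, 43⟩,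
   ⟨48, 4, 117, 44⟩,
   ⟨50, 4, 66, 46⟩,
   ⟨51, 4, 66, 47⟩,
   ⟨52, 35, 1, 48⟩,
   ⟨53, 4, 35, 49⟩,
   ⟨54, 4, 35, 50⟩,
   ⟨55, 4, 35, 51⟩,
   ⟨58, 4, 35, 54⟩,
   ⟨59, 4, 1, 55⟩,
   ⟨60, 4, 35, 56⟩,
   ⟨61, 4, 117, 57⟩,
   ⟨63, 4, 35, 58⟩,
   ⟨65, 4, 35, 60⟩,
   ⟨66, 4, 35, 61⟩,
   ⟨67, 4, 35, 62⟩,
   ⟨68, 4, 95, 63⟩,
   ⟨69, 4, 35, 64⟩,
   ⟨70, 4, 35, 65⟩,
   ⟨71, 4, 117, 66⟩,
   ⟨72, 4, 4, 67⟩,
   ⟨73, 4, 35, 68⟩,
   ⟨74, 4, 117, 69⟩,
   ⟨76, 35, 1, 71⟩,
   ⟨77, 4, 35, 72⟩,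
   ⟨78, 4, 35, 73⟩,
   ⟨80, 35, 1, 75⟩,
   ⟨81, 4, 35, 76⟩,
   ⟨82, 4, 35, 77⟩,
   ⟨83, 4, 35, 78⟩,
   ⟨84, 4, 117, 79⟩,
   ⟨85, 4, 117, 80⟩,
   ⟨86, 4, 35, 81⟩,
   ⟨87, 4, 80, 82⟩,
   ⟨89, 4, 117, 84⟩,
   ⟨90, 4, 35, 85⟩,
   ⟨91, 35, 0, 86⟩,
   ⟨92, 4, 35, 87⟩,
   ⟨93, 4, 95, 88⟩,
   ⟨94, 35, 1, 89⟩,
   ⟨95, 4, 35, 90⟩,
   ⟨98, 4, 35, 93⟩,
   ⟨99, 4, 117, 94⟩,
   ⟨102, 4, 35, 96⟩,
   ⟨103, 35, 1, 97⟩,
   ⟨105, 4, 35, 99⟩,
   ⟨108, 4, 11, 102⟩,
   ⟨110, 4, 35, 104⟩,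
   ⟨111, 4, 117, 105⟩,
   ⟨112, 4, 5, 106⟩,
   ⟨113, 4, 35, 107⟩,
   ⟨114, 35, 1, 108⟩,
   ⟨116, 4, 9, 110⟩,
   ⟨118, 4, 35, 112⟩,
   ⟨119, 4, 35, 113⟩,
   ⟨122, 4, 117, 116⟩,
   ⟨123, 4, 11, 117⟩,
   ⟨124, 4, 117, 118⟩]

theorem ok : nodeOK2 autA 192 P [4, 35, 62] [0, 33, 100] T F = true := by decide +kernel

theorem t : BP 0x4000000800000010 0x10000000000000000200000001 := by
  have h := node2 autOK hP ok
  rw [show maskL [4, 35, 62] = 0x4000000800000010 from by decide +kernel, show maskL [0, 33, 100] = 0x10000000000000000200000001 from by decide +kernel] at h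
  exact h

end Pool.Agent.H805.T5.N8
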