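import Mathlib
import Pool.Agent.H805.T5.Tree2
import Pool.Agent.H805.T5.Auts
import Pool.Agent.H184.T5.D.F1_91_0
import Pool.Agent.H184.T5.D.F1_91_1
import Pool.Agent.H184.T5.D.F24_43_0
import Pool.Agent.H184.T5.D.F2_33_1
import Pool.Agent.H184.T5.D.F4_33_0
import Pool.Agent.H184.T5.D.F4_33_1
import Pool.Agent.H184.T5.D.V_000
import Pool.Agent.H184.T5.D.V_007
import Pool.Agent.H184.T5.D.V_015
import Pool.Agent.H184.T5.D.V_018
import Pool.Agent.H184.T5.D.V_019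
import Pool.Agent.H805.T5.N.N11
import Pool.Agent.H805.T5.N.N3
import Pool.Agent.H805.T5.N.N4
import Pool.Agent.H805.T5.N.N5
import Pool.Agent.H805.T5.N.N6
import Pool.Agent.H805.T5.N.N7
import Pool.Agent.H805.T5.N.N8

set_option autoImplicit false
set_option maxRecDepth 20000

namespace Pool.Agent.H805.T5.N14

open Pool.Agent.Helper582.Cube

def P : List (ℕ × ℕ) :=
  [(0x1000000000000004000000000000012, 0x80200100001),
   (0x1000000000000404000000000000010, 0x80200100001),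
   (0x4000000084000000, 0xa0000000001),
   (0x1000000000000004000000000000030, 0x80200100001),
   (0x4000000000000050, 0x200100001),
   (0x4000000800000010, 0x10000000000000000200000001),
   (0x200000004000000000000002, 0x80000000000020000000001),
   (0x4000000000000210, 0x200100001),
   (0x1000000000000004000000000000410, 0x80200100001),
   (0x1000000000000004000000000000810, 0x80200100001),
   (0x5000000000000010, 0x10000000000000000200000001),
   (0x1000000000000004000000800000010, 0x80200100001),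
   (0x1000000000000004000000000004010, 0x80200100001),
   (0x1000000000000004000000000008010, 0x200000000000200100001),
   (0x40000004000000000000010, 0x200100001),
   (0x1000000000000004000000000020010, 0x80200100001),
   (0x4000010000000010, 0x200100001),
   (0x1000000000000004000000000080010, 0x200000000000200100001),
   (0x1000000000000004000000000200010, 0x200000000000200100001),
   (0x4000000000400010, 0x200100001),
   (0x4000000000800010, 0x200100001),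
   (0x1000000000000004000000001000010, 0x80200100001),
   (0x4000000004000000000000010, 0x200100001),
   (0x1000000000000004000000008000010, 0x80200100001),
   (0x4001000000000010, 0x200100001),
   (0x1000000000000004000000020000010, 0x80200100001),
   (0x4000000080000002, 0x80000000000020000000001),
   (0x1000000000000004000000080000010, 0x80200100001),
   (0x200000004000000000000004, 0x80200000001),
   (0x4000000400000010, 0x200100001),
   (0x104000000000000010, 0x10000000000000000200000001),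
   (0x1000000000000004000002000000010, 0x200000000000200100001),
   (0x4000004001000000, 0x80000100001),
   (0x2004000000000000010, 0x10000000000000000200000001),
   (0x200000004000000000000010, 0x200100001),
   (0x1000000000000004000040000000010, 0x200000000000200100001),
   (0x4000080000000010, 0x200100001),
   (0x4000100000000010, 0x200100001),
   (0x1000000000000004000000000040010, 0x10000000000000020200000001),
   (0x4000000000002010, 0x10000000000000000200000001),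
   (0x1000000000000004000000000800010, 0x10000000000000020200000001),
   (0x4000000000000810, 0x10000000000000000200000001),
   (0x14000000001000000, 0x80000000011),
   (0x4000000000004010, 0x10000000000000000200000001),
   (0x4000001000000010, 0x10000000000000000200000001),
   (0x1000000000000004000002000000010, 0x10000000000000020200000001),
   (0x4000008000000010, 0x10000000000000000200000001),
   (0x4000000000001010, 0x200100001),
   (0x6000000000000010, 0x10000000000000000200000001),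
   (0x1000000000000014000000000000010, 0x80200100001),
   (0x100000004000000000000010, 0x10000000000000000200000001),
   (0x1000000000000084000000000000010, 0x200000000000200100001),
   (0x204000000000000010, 0x200100001),
   (0x804000000000000010, 0x200100001),
   (0x4004000000000000010, 0x200100001),
   (0x1000000000000004000000000010010, 0x10000000000000020200000001),
   (0x4000000000080010, 0x10000000000000000200000001),
   (0x1000000000000004000020000000010, 0x10000800000000000200000001),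
   (0x100000000004000000400100000, 0x10000000000000020200000001),
   (0x1000000000000044000000000000010, 0x110000000000000000200000001),
   (0x1000000020000004000000000000010, 0x80200100001),
   (0x4000000000010010, 0x200100001),
   (0x80000004000000000000010, 0x10000000000000000200000001),
   (0x400000004000000000000010, 0x200100001),
   (0x4000000000200010, 0x10000000000000000200000001),
   (0x1000100000000004000000000000010, 0x80200100001),
   (0x1002000000000004000000000000010, 0x80200100001),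
   (0x1000000000004004000000000000010, 0x10000000000000020200000001),
   (0x1000008000000004000000000000010, 0x10000800000000000200000001)]

theorem hP : ∀ p ∈ P, BP p.1 p.2 :=
  consP Pool.Agent.H184.T5.V.p1276 <|
  consP Pool.Agent.H184.T5.V.p1011 <|
  consP Pool.Agent.H184.T5.V.p46 <|
  consP Pool.Agent.H184.T5.V.p1277 <|
  consP Pool.Agent.H184.T5.B.p4_33_6 <|
  consP Pool.Agent.H805.T5.N8.t <|
  consP Pool.Agent.H184.T5.B.p1_91_93 <|
  consP Pool.Agent.H184.T5.B.p4_33_9 <|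
  consP Pool.Agent.H184.T5.V.p1278 <|
  consP Pool.Agent.H184.T5.V.p1279 <|
  consP Pool.Agent.H184.T5.B.p4_33_60 <|
  consP Pool.Agent.H184.T5.V.p1280 <|
  consP Pool.Agent.H184.T5.V.p1281 <|
  consP Pool.Agent.H184.T5.V.p1282 <|
  consP Pool.Agent.H184.T5.B.p4_33_90 <|
  consP Pool.Agent.H184.T5.V.p1283 <|
  consP Pool.Agent.H184.T5.B.p4_33_40 <|
  consP Pool.Agent.H184.T5.V.p1284 <|
  consP Pool.Agent.H184.T5.V.p1285 <|
  consP Pool.Agent.H805.T5.N5.t <|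
  consP Pool.Agent.H805.T5.N6.t <|
  consP Pool.Agent.H184.T5.V.p1288 <|
  consP Pool.Agent.H184.T5.B.p4_33_98 <|
  consP Pool.Agent.H184.T5.V.p1290 <|
  consP Pool.Agent.H184.T5.B.p4_33_48 <|
  consP Pool.Agent.H184.T5.V.p1291 <|
  consP Pool.Agent.H184.T5.B.p1_91_31 <|
  consP Pool.Agent.H184.T5.V.p1292 <|
  consP Pool.Agent.H184.T5.B.p2_33_93 <|
  consP Pool.Agent.H805.T5.N7.t <|
  consP Pool.Agent.H184.T5.B.p4_33_68 <|
  consP Pool.Agent.H184.T5.V.p1293 <|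
  consP Pool.Agent.H184.T5.B.p24_43_38 <|
  consP Pool.Agent.H184.T5.B.p4_33_73 <|
  consP Pool.Agent.H184.T5.B.p4_33_93 <|
  consP Pool.Agent.H184.T5.V.p1294 <|
  consP Pool.Agent.H805.T5.N11.t <|
  consP Pool.Agent.H184.T5.B.p4_33_44 <|
  consP Pool.Agent.H184.T5.V.p1295 <|
  consP Pool.Agent.H184.T5.B.p4_33_13 <|
  consP Pool.Agent.H184.T5.V.p1296 <|
  consP Pool.Agent.H184.T5.B.p4_33_11 <|
  consP Pool.Agent.H184.T5.B.p24_43_64 <|
  consP Pool.Agent.H184.T5.B.p4_33_14 <|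
  consP Pool.Agent.H184.T5.B.p4_33_36 <|
  consP Pool.Agent.H184.T5.V.p1297 <|
  consP Pool.Agent.H184.T5.B.p4_33_39 <|
  consP Pool.Agent.H184.T5.B.p4_33_12 <|
  consP Pool.Agent.H184.T5.B.p4_33_61 <|
  consP Pool.Agent.H184.T5.V.p1298 <|
  consP Pool.Agent.H184.T5.B.p4_33_92 <|
  consP Pool.Agent.H184.T5.V.p1299 <|
  consP Pool.Agent.H184.T5.B.p4_33_69 <|
  consP Pool.Agent.H184.T5.B.p4_33_71 <|
  consP Pool.Agent.H184.T5.B.p4_33_74 <|
  consP Pool.Agent.H184.T5.V.p1301 <|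
  consP Pool.Agent.H805.T5.N3.t <|
  consP Pool.Agent.H184.T5.V.p1303 <|
  consP Pool.Agent.H184.T5.V.p1304 <|
  consP Pool.Agent.H184.T5.V.p1305 <|
  consP Pool.Agent.H184.T5.V.p1306 <|
  consP Pool.Agent.H184.T5.B.p4_33_16 <|
  consP Pool.Agent.H184.T5.B.p4_33_91 <|
  consP Pool.Agent.H184.T5.B.p4_33_94 <|
  consP Pool.Agent.H805.T5.N4.t <|
  consP Pool.Agent.H184.T5.V.p1308 <|
  consP Pool.Agent.H184.T5.V.p1309 <|
  consP Pool.Agent.H184.T5.V.p1310 <|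
  consP Pool.Agent.H184.T5.V.p499 <|
  nilP

def T : List Ent :=
  [⟨1, 43, 0, 0⟩,
   ⟨2, 43, 34, 1⟩,
   ⟨5, 43, 0, 3⟩,
   ⟨10, 43, 0, 8⟩,
   ⟨11, 43, 0, 9⟩,
   ⟨13, 43, 34, 11⟩,
   ⟨14, 43, 0, 12⟩,
   ⟨15, 81, 0, 13⟩,
   ⟨17, 43, 0, 15⟩,
   ⟨19, 81, 0, 17⟩,
   ⟨21, 81, 0, 18⟩,
   ⟨24, 43, 0, 21⟩,
   ⟨27, 43, 0, 23⟩,
   ⟨29, 43, 0, 25⟩,
   ⟨31, 43, 0, 27⟩,
   ⟨35, 43, 0, 11⟩,
   ⟨37, 81, 0, 31⟩,
   ⟨42, 81, 0, 35⟩,
   ⟨46, 81, 154, 38⟩,
   ⟨49, 81, 154, 40⟩,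
   ⟨57, 81, 1, 45⟩,
   ⟨63, 81, 34, 31⟩,
   ⟨64, 43, 0, 49⟩,
   ⟨65, 43, 34, 15⟩,
   ⟨67, 81, 0, 51⟩,
   ⟨68, 81, 34, 35⟩,
   ⟨70, 43, 0, 1⟩,
   ⟨73, 43, 34, 23⟩,
   ⟨75, 81, 34, 18⟩,
   ⟨76, 81, 1, 55⟩,
   ⟨78, 81, 1, 38⟩,
   ⟨81, 43, 1, 57⟩,
   ⟨83, 43, 34, 27⟩,
   ⟨84, 81, 150, 58⟩,
   ⟨85, 43, 34, 9⟩,
   ⟨86, 24, 1, 59⟩,
   ⟨89, 43, 0, 60⟩,
   ⟨95, 43, 34, 0⟩,
   ⟨96, 81, 154, 55⟩,
   ⟨100, 43, 34, 21⟩,
   ⟨103, 81, 1, 40⟩,
   ⟨104, 43, 0, 65⟩,
   ⟨106, 81, 5, 58⟩,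
   ⟨109, 43, 0, 66⟩,
   ⟨110, 43, 34, 12⟩,
   ⟨111, 43, 34, 60⟩,
   ⟨112, 43, 34, 49⟩,
   ⟨114, 81, 1, 67⟩,
   ⟨115, 81, 34, 17⟩,
   ⟨119, 43, 1, 68⟩,
   ⟨123, 43, 34, 25⟩,
   ⟨124, 43, 34, 65⟩]

def F : List Ent :=
  [⟨3, 120, 81, 2⟩,
   ⟨6, 120, 0, 4⟩,
   ⟨7, 4, 154, 5⟩,
   ⟨8, 4, 80, 6⟩,
   ⟨9, 120, 0, 7⟩,
   ⟨12, 4, 154, 10⟩,
   ⟨16, 4, 34, 14⟩,
   ⟨18, 4, 34, 16⟩,
   ⟨22, 120, 0, 19⟩,
   ⟨23, 120, 0, 20⟩,
   ⟨25, 4, 34, 20⟩,
   ⟨26, 4, 34, 22⟩,
   ⟨28, 4, 34, 24⟩,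
   ⟨30, 4, 126, 26⟩,
   ⟨32, 4, 67, 28⟩,
   ⟨34, 120, 0, 29⟩,
   ⟨36, 4, 154, 30⟩,
   ⟨38, 4, 11, 32⟩,
   ⟨39, 4, 154, 33⟩,
   ⟨40, 120, 0, 16⟩,
   ⟨41, 4, 34, 34⟩,
   ⟨43, 4, 34, 36⟩,
   ⟨44, 120, 0, 37⟩,
   ⟨45, 4, 95, 2⟩,
   ⟨47, 4, 154, 39⟩,
   ⟨48, 120, 0, 24⟩,
   ⟨50, 4, 34, 19⟩,
   ⟨51, 120, 1, 41⟩,
   ⟨52, 120, 16, 42⟩,
   ⟨53, 120, 1, 39⟩,
   ⟨54, 120, 1, 43⟩,
   ⟨55, 120, 1, 5⟩,
   ⟨56, 120, 1, 44⟩,
   ⟨58, 120, 94, 28⟩,
   ⟨59, 120, 1, 46⟩,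
   ⟨60, 4, 34, 47⟩,
   ⟨61, 120, 1, 48⟩,
   ⟨66, 4, 154, 50⟩,
   ⟨69, 120, 0, 52⟩,
   ⟨71, 120, 0, 53⟩,
   ⟨72, 4, 10, 42⟩,
   ⟨74, 120, 0, 54⟩,
   ⟨77, 4, 34, 53⟩,
   ⟨79, 120, 1, 56⟩,
   ⟨80, 4, 34, 4⟩,
   ⟨82, 4, 154, 44⟩,
   ⟨87, 4, 154, 48⟩,
   ⟨88, 120, 1, 30⟩,
   ⟨90, 4, 34, 61⟩,
   ⟨91, 4, 154, 62⟩,
   ⟨92, 120, 1, 50⟩,
   ⟨93, 120, 0, 34⟩,
   ⟨94, 120, 0, 63⟩,
   ⟨97, 4, 154, 41⟩,
   ⟨98, 120, 0, 22⟩,
   ⟨99, 4, 154, 64⟩,
   ⟨101, 120, 1, 64⟩,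
   ⟨102, 4, 34, 54⟩,
   ⟨105, 4, 34, 7⟩,
   ⟨107, 4, 154, 46⟩,
   ⟨108, 4, 34, 29⟩,
   ⟨113, 120, 1, 33⟩,
   ⟨116, 4, 34, 63⟩,
   ⟨117, 4, 34, 52⟩,
   ⟨118, 4, 34, 37⟩,
   ⟨121, 4, 154, 56⟩,
   ⟨122, 4, 154, 43⟩]

theorem ok : nodeOK2 autA 192 P [4, 62, 120] [0, 20, 33] T F = true := by decide +kernel

theorem t : BP 0x1000000000000004000000000000010 0x200100001 := by
  have h := node2 autOK hP ok
  rw [show maskL [4, 62, 120] = 0x1000000000000004000000000000010 from by decide +kernel, show maskL [0, 20, 33] = 0x200100001 from by decide +kernel] at h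
  exact h

end Pool.Agent.H805.T5.N14
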