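import Mathlib
import Pool.Agent.H805.T5.Tree2
import Pool.Agent.H805.T5.Auts
import Pool.Agent.H184.T5.D.F1_91_0
import Pool.Agent.H184.T5.D.F1_91_1
import Pool.Agent.H184.T5.D.F6_81_0
import Pool.Agent.H184.T5.D.F7_33_0
import Pool.Agent.H184.T5.D.F8_33_0
import Pool.Agent.H184.T5.D.F8_33_1
import Pool.Agent.H184.T5.D.F8_33_2
import Pool.Agent.H184.T5.D.V_001
import Pool.Agent.H184.T5.D.V_004

set_option autoImplicit false
set_option maxRecDepth 20000

namespace Pool.Agent.H805.T5.N15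

open Pool.Agent.Helper582.Cube

def P : List (ℕ × ℕ) :=
  [(0x10000000004000000000000102, 0x201100001),
   (0x4000001000000002, 0x80000000000020000000001),
   (0x4000000000000042, 0x80200000000000000000001),
   (0x4000000080000002, 0x80000000000020000000001),
   (0x4000000000000120, 0x800000000000200000001),
   (0x10000000004000000000000140, 0x201100001),
   (0x4000000000000180, 0x200100001),
   (0x4000000000000240, 0x200000000000000100001),
   (0x44000000000000002, 0x80000000000020000000001),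
   (0x804000000000000002, 0x80000000000020000000001),
   (0x6000000000000002, 0x80000000000020000000001),
   (0x4000000000000802, 0x80200000000000000000001),
   (0x4000000000004100, 0x200100001),
   (0x4000000000008100, 0x200100001),
   (0x2000000000000004000000000000002, 0x80200000000000000000001),
   (0x10000000004000000000020100, 0x201100001),
   (0x4000000000200002, 0x80200000000000000000001),
   (0x10000000004000000000080100, 0x80200100001),
   (0x10000000004000000000200100, 0x80200100001),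
   (0x4000000000400100, 0x200100001),
   (0x4000000000800100, 0x200100001),
   (0x10000000004000000001000100, 0x80200100001),
   (0x4000010000000002, 0x80000000000020000000001),
   (0x4000200000000002, 0x80000000000020000000001),
   (0x4000000002000080, 0x80200000001),
   (0x4000000000000022, 0x80200000000000000000001),
   (0x4000000040000002, 0x80200000000000000000001),
   (0x4000000000008002, 0x80000000000020000000001),
   (0x4000080000000030, 0x10000800000000000200000001),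
   (0x4000000000000402, 0x80000000000020000000001),
   (0x4000000400000100, 0x200100001),
   (0x4000000800000100, 0x200100001),
   (0x404000000000000002, 0x80000000000020000000001),
   (0x5000000000000002, 0x80000000000020000000001),
   (0x4000004000000100, 0x200100001),
   (0x4000000800000002, 0x80200000000000000000001),
   (0x800000004000000000000002, 0x80200000000000000000001),
   (0x1000000000000004000000000000002, 0x80000000000020000000001),
   (0x4000000002004000, 0xa0000000001),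
   (0x4000000000100002, 0x80200000000000000000001),
   (0x4000100000000100, 0x200100001),
   (0x40000004000000000000002, 0x80000000000020000000001),
   (0x4000400000000100, 0x200100001),
   (0x24000000000000002, 0x80200000000000000000001),
   (0x4001000000000100, 0x200100001),
   (0x4002000000000100, 0x200100001),
   (0x4000040000000002, 0x80000000000020000000001),
   (0x4000800000000002, 0x80000000000020000000001),
   (0x4010000000000100, 0x200100001),
   (0x4800000000000040, 0x200000000000000000011),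
   (0x4000000100000002, 0x80200000000000000000001),
   (0x4000000000020002, 0x80000000000020000000001),
   (0x4100000000000100, 0x200100001),
   (0x4200000000000100, 0x200100001),
   (0x4000000000000006, 0x80000000000020000000001),
   (0x4000000000000082, 0x80000000000020000000001),
   (0x84000000000000002, 0x80000000000020000000001),
   (0x1004000000000000002, 0x80000000000020000000001),
   (0x4000000000001002, 0x80200000000000000000001),
   (0x4000002000000002, 0x80200000000000000000001),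
   (0x24000000000000100, 0x200100001),
   (0x4000000000000004000000000000002, 0x80200000000000000000001),
   (0x84000000000000100, 0x200100001),
   (0x104000000000000100, 0x200100001),
   (0x204000000000000100, 0x200100001),
   (0x100000004000000000000002, 0x80000000000020000000001),
   (0x2000000004000000000000002, 0x80000000000020000000001),
   (0x1004000000000000100, 0x200100001),
   (0x4008000000000040, 0x200000000000000100001),
   (0x4040000000000040, 0x200000000000000100001),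
   (0x10000008004000000000000100, 0x201100001),
   (0x4002000000000002, 0x80000000000020000000001),
   (0x4000008000000040, 0x200000000000000000011),
   (0x40004000000000000100, 0x200100001),
   (0x4000000400000002, 0x80000000000020000000001),
   (0x100004000000000000100, 0x200100001),
   (0x10000200004000000000000100, 0x201100001),
   (0x400004000000000000100, 0x200100001),
   (0x4000000000000012, 0x80000000000020000000001),
   (0x4000000000000202, 0x80000000000020000000001),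
   (0x2000004000000000000100, 0x200100001),
   (0x4000004000000000000100, 0x200100001),
   (0x14000000000000002, 0x80000000000020000000001),
   (0x4000000000004002, 0x80200000000000000000001),
   (0x4000008000000002, 0x80200000000000000000001),
   (0x10040000004000000000000100, 0x201100001),
   (0x10080000004000000000000100, 0x80200100001),
   (0x4004000000000000002, 0x80200000000000000000001),
   (0x4000000001000002, 0x80200000000000000000001),
   (0x400000004000000000000100, 0x200100001),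
   (0x400000004000000000000002, 0x80200000000000000000001),
   (0x8000000004000000000000002, 0x80000000000020000000001),
   (0x204000000000000002, 0x80200000000000000000001),
   (0x4000000000080002, 0x80200000000000000000001),
   (0x4000100000000002, 0x80200000000000000000001),
   (0x4001000000000002, 0x80000000000020000000001),
   (0x40000000004000000000000100, 0x200100001),
   (0x4000000000000102, 0x80200000000000000000001),
   (0x4000000200000002, 0x80000000000020000000001),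
   (0x200000000004000000000000100, 0x200100001),
   (0x400000000004000000000000100, 0x200100001),
   (0x800000000004000000000000100, 0x200100001),
   (0x400000000000000a, 0x80000000000020000000001),
   (0x2000000000004000000000000100, 0x200100001),
   (0x4000000000004000000000000100, 0x200100001),
   (0x8000000000004000000000000100, 0x200100001),
   (0xc000000000000002, 0x80000000000020000000001),
   (0x4000000000002002, 0x80200000000000000000001),
   (0x4000004000000002, 0x80200000000000000000001),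
   (0x80000000000004000000000000100, 0x200100001),
   (0x8000000000000004000000000000002, 0x80000000000020000000001),
   (0x2004000000000000002, 0x80200000000000000000001),
   (0x4000000000800002, 0x80200000000000000000001),
   (0x800000000000004000000000000040, 0x200000000000000100001),
   (0x200000004000000000000002, 0x80000000000020000000001),
   (0x4000000004000000000000002, 0x80000000000020000000001),
   (0x104000000000000002, 0x80200000000000000000001),
   (0x4000000000040002, 0x80200000000000000000001),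
   (0x4000080000000002, 0x80200000000000000000001)]

theorem hP : ∀ p ∈ P, BP p.1 p.2 :=
  consP Pool.Agent.H184.T5.V.p332 <|
  consP Pool.Agent.H184.T5.B.p1_91_36 <|
  consP Pool.Agent.H184.T5.B.p1_91_6 <|
  consP Pool.Agent.H184.T5.B.p1_91_31 <|
  consP Pool.Agent.H184.T5.B.p8_33_5 <|
  consP Pool.Agent.H184.T5.V.p333 <|
  consP Pool.Agent.H184.T5.V.p124 <|
  consP Pool.Agent.H184.T5.B.p6_81_9 <|
  consP Pool.Agent.H184.T5.B.p1_91_66 <|
  consP Pool.Agent.H184.T5.B.p1_91_71 <|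
  consP Pool.Agent.H184.T5.B.p1_91_61 <|
  consP Pool.Agent.H184.T5.B.p1_91_11 <|
  consP Pool.Agent.H184.T5.B.p8_33_14 <|
  consP Pool.Agent.H184.T5.V.p140 <|
  consP Pool.Agent.H184.T5.B.p1_91_121 <|
  consP Pool.Agent.H184.T5.V.p334 <|
  consP Pool.Agent.H184.T5.B.p1_91_21 <|
  consP Pool.Agent.H184.T5.V.p335 <|
  consP Pool.Agent.H184.T5.V.p336 <|
  consP Pool.Agent.H184.T5.B.p8_33_22 <|
  consP Pool.Agent.H184.T5.B.p8_33_23 <|
  consP Pool.Agent.H184.T5.V.p337 <|
  consP Pool.Agent.H184.T5.B.p1_91_40 <|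
  consP Pool.Agent.H184.T5.B.p1_91_45 <|
  consP Pool.Agent.H184.T5.B.p7_33_25 <|
  consP Pool.Agent.H184.T5.B.p1_91_5 <|
  consP Pool.Agent.H184.T5.B.p1_91_30 <|
  consP Pool.Agent.H184.T5.B.p1_91_15 <|
  consP Pool.Agent.H184.T5.V.p129 <|
  consP Pool.Agent.H184.T5.B.p1_91_10 <|
  consP Pool.Agent.H184.T5.B.p8_33_34 <|
  consP Pool.Agent.H184.T5.V.p133 <|
  consP Pool.Agent.H184.T5.B.p1_91_70 <|
  consP Pool.Agent.H184.T5.B.p1_91_60 <|
  consP Pool.Agent.H184.T5.B.p8_33_38 <|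
  consP Pool.Agent.H184.T5.B.p1_91_35 <|
  consP Pool.Agent.H184.T5.B.p1_91_95 <|
  consP Pool.Agent.H184.T5.B.p1_91_120 <|
  consP Pool.Agent.H184.T5.V.p137 <|
  consP Pool.Agent.H184.T5.B.p1_91_20 <|
  consP Pool.Agent.H184.T5.B.p8_33_44 <|
  consP Pool.Agent.H184.T5.B.p1_91_90 <|
  consP Pool.Agent.H184.T5.B.p8_33_46 <|
  consP Pool.Agent.H184.T5.B.p1_91_65 <|
  consP Pool.Agent.H184.T5.B.p8_33_48 <|
  consP Pool.Agent.H184.T5.B.p8_33_49 <|
  consP Pool.Agent.H184.T5.B.p1_91_42 <|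
  consP Pool.Agent.H184.T5.B.p1_91_47 <|
  consP Pool.Agent.H184.T5.B.p8_33_52 <|
  consP Pool.Agent.H184.T5.V.p128 <|
  consP Pool.Agent.H184.T5.B.p1_91_32 <|
  consP Pool.Agent.H184.T5.B.p1_91_17 <|
  consP Pool.Agent.H184.T5.V.p126 <|
  consP Pool.Agent.H184.T5.B.p8_33_57 <|
  consP Pool.Agent.H184.T5.B.p1_91_2 <|
  consP Pool.Agent.H184.T5.B.p1_91_7 <|
  consP Pool.Agent.H184.T5.B.p1_91_67 <|
  consP Pool.Agent.H184.T5.B.p1_91_72 <|
  consP Pool.Agent.H184.T5.B.p1_91_12 <|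
  consP Pool.Agent.H184.T5.B.p1_91_37 <|
  consP Pool.Agent.H184.T5.B.p8_33_65 <|
  consP Pool.Agent.H184.T5.B.p1_91_122 <|
  consP Pool.Agent.H184.T5.B.p8_33_67 <|
  consP Pool.Agent.H184.T5.B.p8_33_68 <|
  consP Pool.Agent.H184.T5.B.p8_33_69 <|
  consP Pool.Agent.H184.T5.B.p1_91_92 <|
  consP Pool.Agent.H184.T5.B.p1_91_97 <|
  consP Pool.Agent.H184.T5.B.p8_33_72 <|
  consP Pool.Agent.H184.T5.B.p6_81_51 <|
  consP Pool.Agent.H184.T5.V.p136 <|
  consP Pool.Agent.H184.T5.V.p338 <|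
  consP Pool.Agent.H184.T5.B.p1_91_49 <|
  consP Pool.Agent.H184.T5.V.p131 <|
  consP Pool.Agent.H184.T5.V.p130 <|
  consP Pool.Agent.H184.T5.B.p1_91_34 <|
  consP Pool.Agent.H184.T5.B.p8_33_80 <|
  consP Pool.Agent.H184.T5.V.p339 <|
  consP Pool.Agent.H184.T5.B.p8_33_82 <|
  consP Pool.Agent.H184.T5.B.p1_91_4 <|
  consP Pool.Agent.H184.T5.B.p1_91_9 <|
  consP Pool.Agent.H184.T5.B.p8_33_85 <|
  consP Pool.Agent.H184.T5.B.p8_33_86 <|
  consP Pool.Agent.H184.T5.B.p1_91_64 <|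
  consP Pool.Agent.H184.T5.B.p1_91_14 <|
  consP Pool.Agent.H184.T5.B.p1_91_39 <|
  consP Pool.Agent.H184.T5.V.p340 <|
  consP Pool.Agent.H184.T5.V.p341 <|
  consP Pool.Agent.H184.T5.B.p1_91_74 <|
  consP Pool.Agent.H184.T5.B.p1_91_24 <|
  consP Pool.Agent.H184.T5.B.p8_33_94 <|
  consP Pool.Agent.H184.T5.B.p1_91_94 <|
  consP Pool.Agent.H184.T5.B.p1_91_99 <|
  consP Pool.Agent.H184.T5.B.p1_91_69 <|
  consP Pool.Agent.H184.T5.B.p1_91_19 <|
  consP Pool.Agent.H184.T5.B.p1_91_44 <|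
  consP Pool.Agent.H184.T5.B.p1_91_48 <|
  consP Pool.Agent.H184.T5.B.p8_33_102 <|
  consP Pool.Agent.H184.T5.B.p1_91_8 <|
  consP Pool.Agent.H184.T5.B.p1_91_33 <|
  consP Pool.Agent.H184.T5.B.p8_33_105 <|
  consP Pool.Agent.H184.T5.B.p8_33_106 <|
  consP Pool.Agent.H184.T5.B.p8_33_107 <|
  consP Pool.Agent.H184.T5.B.p1_91_3 <|
  consP Pool.Agent.H184.T5.B.p8_33_109 <|
  consP Pool.Agent.H184.T5.B.p8_33_110 <|
  consP Pool.Agent.H184.T5.B.p8_33_111 <|
  consP Pool.Agent.H184.T5.B.p1_91_63 <|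
  consP Pool.Agent.H184.T5.B.p1_91_13 <|
  consP Pool.Agent.H184.T5.B.p1_91_38 <|
  consP Pool.Agent.H184.T5.B.p8_33_115 <|
  consP Pool.Agent.H184.T5.B.p1_91_123 <|
  consP Pool.Agent.H184.T5.B.p1_91_73 <|
  consP Pool.Agent.H184.T5.B.p1_91_23 <|
  consP Pool.Agent.H184.T5.V.p141 <|
  consP Pool.Agent.H184.T5.B.p1_91_93 <|
  consP Pool.Agent.H184.T5.B.p1_91_98 <|
  consP Pool.Agent.H184.T5.B.p1_91_68 <|
  consP Pool.Agent.H184.T5.B.p1_91_18 <|
  consP Pool.Agent.H184.T5.B.p1_91_43 <|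
  nilP

def T : List Ent :=
  [⟨1, 24, 0, 0⟩,
   ⟨6, 24, 0, 5⟩,
   ⟨17, 24, 0, 15⟩,
   ⟨19, 43, 0, 17⟩,
   ⟨21, 43, 0, 18⟩,
   ⟨24, 43, 0, 21⟩,
   ⟨31, 43, 66, 28⟩,
   ⟨75, 24, 0, 70⟩,
   ⟨81, 24, 0, 76⟩,
   ⟨90, 24, 0, 85⟩,
   ⟨91, 43, 0, 86⟩]

def F : List Ent :=
  [⟨2, 100, 80, 1⟩,
   ⟨3, 100, 106, 2⟩,
   ⟨4, 100, 80, 3⟩,
   ⟨5, 100, 66, 4⟩,
   ⟨7, 100, 0, 6⟩,
   ⟨9, 100, 30, 7⟩,
   ⟨10, 100, 80, 8⟩,
   ⟨11, 100, 80, 9⟩,
   ⟨12, 100, 80, 10⟩,
   ⟨13, 100, 106, 11⟩,
   ⟨14, 100, 0, 12⟩,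
   ⟨15, 100, 0, 13⟩,
   ⟨16, 100, 106, 14⟩,
   ⟨18, 100, 106, 16⟩,
   ⟨22, 100, 0, 19⟩,
   ⟨23, 100, 0, 20⟩,
   ⟨25, 100, 80, 22⟩,
   ⟨26, 100, 80, 23⟩,
   ⟨27, 100, 67, 24⟩,
   ⟨28, 100, 106, 25⟩,
   ⟨29, 100, 106, 26⟩,
   ⟨30, 100, 80, 27⟩,
   ⟨32, 100, 80, 29⟩,
   ⟨34, 100, 0, 30⟩,
   ⟨35, 100, 0, 31⟩,
   ⟨36, 100, 80, 32⟩,
   ⟨37, 100, 80, 33⟩,
   ⟨38, 100, 0, 34⟩,
   ⟨39, 100, 106, 35⟩,
   ⟨40, 100, 106, 36⟩,
   ⟨41, 100, 80, 37⟩,
   ⟨42, 100, 81, 38⟩,
   ⟨43, 100, 106, 39⟩,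
   ⟨44, 100, 0, 40⟩,
   ⟨45, 100, 80, 41⟩,
   ⟨46, 100, 0, 42⟩,
   ⟨47, 100, 106, 43⟩,
   ⟨48, 100, 0, 44⟩,
   ⟨49, 100, 0, 45⟩,
   ⟨50, 100, 80, 46⟩,
   ⟨51, 100, 80, 47⟩,
   ⟨52, 100, 0, 48⟩,
   ⟨53, 100, 18, 49⟩,
   ⟨54, 100, 106, 50⟩,
   ⟨55, 100, 80, 51⟩,
   ⟨56, 100, 0, 52⟩,
   ⟨57, 100, 0, 53⟩,
   ⟨58, 100, 80, 54⟩,
   ⟨59, 100, 80, 55⟩,
   ⟨60, 100, 80, 56⟩,
   ⟨61, 100, 80, 57⟩,
   ⟨63, 100, 106, 58⟩,
   ⟨64, 100, 106, 59⟩,
   ⟨65, 100, 0, 60⟩,
   ⟨66, 100, 106, 61⟩,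
   ⟨67, 100, 0, 62⟩,
   ⟨68, 100, 0, 63⟩,
   ⟨69, 100, 0, 64⟩,
   ⟨70, 100, 80, 65⟩,
   ⟨71, 100, 80, 66⟩,
   ⟨72, 100, 0, 67⟩,
   ⟨73, 100, 30, 68⟩,
   ⟨74, 100, 30, 69⟩,
   ⟨76, 100, 80, 71⟩,
   ⟨77, 100, 18, 72⟩,
   ⟨78, 100, 0, 73⟩,
   ⟨79, 100, 80, 74⟩,
   ⟨80, 100, 0, 75⟩,
   ⟨82, 100, 0, 77⟩,
   ⟨83, 100, 80, 78⟩,
   ⟨84, 100, 80, 79⟩,
   ⟨85, 100, 0, 80⟩,
   ⟨86, 100, 0, 81⟩,
   ⟨87, 100, 80, 82⟩,
   ⟨88, 100, 106, 83⟩,
   ⟨89, 100, 106, 84⟩,
   ⟨92, 100, 106, 87⟩,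
   ⟨93, 100, 106, 88⟩,
   ⟨94, 100, 0, 89⟩,
   ⟨95, 100, 106, 90⟩,
   ⟨96, 100, 80, 91⟩,
   ⟨97, 100, 106, 92⟩,
   ⟨98, 100, 106, 93⟩,
   ⟨99, 100, 106, 94⟩,
   ⟨101, 100, 80, 95⟩,
   ⟨102, 100, 0, 96⟩,
   ⟨103, 100, 106, 97⟩,
   ⟨104, 100, 80, 98⟩,
   ⟨105, 100, 0, 99⟩,
   ⟨106, 100, 0, 100⟩,
   ⟨107, 100, 0, 101⟩,
   ⟨108, 100, 80, 102⟩,
   ⟨109, 100, 0, 103⟩,
   ⟨110, 100, 0, 104⟩,
   ⟨111, 100, 0, 105⟩,
   ⟨112, 100, 80, 106⟩,
   ⟨113, 100, 106, 107⟩,
   ⟨114, 100, 106, 108⟩,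
   ⟨115, 100, 0, 109⟩,
   ⟨116, 100, 80, 110⟩,
   ⟨117, 100, 106, 111⟩,
   ⟨118, 100, 106, 112⟩,
   ⟨119, 100, 30, 113⟩,
   ⟨120, 100, 80, 114⟩,
   ⟨121, 100, 80, 115⟩,
   ⟨122, 100, 106, 116⟩,
   ⟨123, 100, 106, 117⟩,
   ⟨124, 100, 106, 118⟩]

theorem ok : nodeOK2 autA 192 P [8, 62, 100] [0, 20, 33] T F = true := by decide +kernel

theorem t : BP 0x10000000004000000000000100 0x200100001 := by
  have h := node2 autOK hP ok
  rw [show maskL [8, 62, 100] = 0x10000000004000000000000100 from by decide +kernel, show maskL [0, 20, 33] = 0x200100001 from by decide +kernel] at h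
  exact h

end Pool.Agent.H805.T5.N15
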