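import Mathlib
import Pool.Agent.H805.T5.Tree2
import Pool.Agent.H805.T5.Auts
import Pool.Agent.H184.T5.D.F12_43_0
import Pool.Agent.H184.T5.D.F14_43_0
import Pool.Agent.H184.T5.D.F14_43_1
import Pool.Agent.H184.T5.D.F14_43_2
import Pool.Agent.H184.T5.D.F1_91_0
import Pool.Agent.H184.T5.D.F1_91_1
import Pool.Agent.H184.T5.D.F24_43_0
import Pool.Agent.H184.T5.D.F2_33_0
import Pool.Agent.H184.T5.D.F2_33_1
import Pool.Agent.H184.T5.D.F4_33_0
import Pool.Agent.H184.T5.D.F4_33_1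
import Pool.Agent.H184.T5.D.V_005
import Pool.Agent.H184.T5.D.V_008
import Pool.Agent.H184.T5.D.V_014
import Pool.Agent.H184.T5.D.V_015
import Pool.Agent.H184.T5.D.V_016
import Pool.Agent.H184.T5.D.V_021
import Pool.Agent.H805.T5.N.N10
import Pool.Agent.H805.T5.N.N13
import Pool.Agent.H805.T5.N.N14
import Pool.Agent.H805.T5.N.N3
import Pool.Agent.H805.T5.N.N5
import Pool.Agent.H805.T5.N.N6

set_option autoImplicit false
set_option maxRecDepth 20000

namespace Pool.Agent.H805.T5.N16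

open Pool.Agent.Helper582.Cube

def P : List (ℕ × ℕ) :=
  [(0x4000000000008014, 0x80200100001),
   (0x4000000000000414, 0x80200100001),
   (0x4000000000000034, 0x10000000000000000200100001),
   (0x4000000000200014, 0x80200100001),
   (0x4000000000010010, 0x200100001),
   (0x4000000000004080, 0x80000000011),
   (0x4000000000000050, 0x200100001),
   (0x4000000000000016, 0x80200100001),
   (0x4000000000400010, 0x200100001),
   (0x4000000000020004, 0x200100001),
   (0x4000000000001010, 0x200100001),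
   (0x4000000000000084, 0x200100001),
   (0x4000000000800010, 0x200100001),
   (0x4000000000040004, 0x200100001),
   (0x4000000000002004, 0x200100001),
   (0x4000000080000002, 0x80000000000020000000001),
   (0x4000000000084000, 0x80000000011),
   (0x4000000001000014, 0x80200100001),
   (0x4000000000080014, 0x80200100001),
   (0x4000000000004014, 0x80200100001),
   (0x4000000000000210, 0x200100001),
   (0x4000200000000014, 0x80200100001),
   (0x4000010000000010, 0x200100001),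
   (0x4000000009004000, 0xa0000000011),
   (0x200000004000000000000002, 0x80000000000020000000001),
   (0x4000000000000024, 0x10000000000000000200000001),
   (0x4000000041004000, 0xa0000000011),
   (0x4000020000000010, 0x200100001),
   (0x4000001000000014, 0x80200100001),
   (0x4000000080000004, 0x200100001),
   (0x4000000000000044, 0x10000000000000000200000001),
   (0x4000800000000014, 0x80200100001),
   (0x4000001001004000, 0xa0000000011),
   (0x4000000100001000, 0x80200000001),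
   (0x4000000100000004, 0x80200000001),
   (0x4000008001004000, 0xa0000000011),
   (0x4001000000000010, 0x200100001),
   (0x4000080000000004, 0x200100001),
   (0x4000004001000000, 0x80000100001),
   (0x4000100000004000, 0x80000000011),
   (0x4002000000000014, 0x80200100001),
   (0x4000100000000010, 0x200100001),
   (0x4000008000000004, 0x200100001),
   (0x4000000400000004, 0x200100001),
   (0x4000000000000204, 0x10000000000000000200000001),
   (0x404000000000000004, 0x200100001),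
   (0x24000000000000004, 0x200100001),
   (0x5000000000000010, 0x10000000000000000200000001),
   (0x4000000800000004, 0x10000000000000000200000001),
   (0x4000000000000404, 0x10000000000000000200000001),
   (0x804000000000000010, 0x200100001),
   (0x44000000000000010, 0x200100001),
   (0x6000000000000010, 0x10000000000000000200000001),
   (0x4000001000000010, 0x10000000000000000200000001),
   (0x4000000000000810, 0x10000000000000000200000001),
   (0x1004000000000000004, 0x200100001),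
   (0x84000000000000004, 0x200100001),
   (0x4200000000000014, 0x80200100001),
   (0x14000000001000000, 0x80000000011),
   (0x2004000000000000014, 0x80200100001),
   (0x44000000000004000, 0x80000000011),
   (0xc000000000000014, 0x80200100001),
   (0x200000004000000000000004, 0x80200000001),
   (0x4000000000002010, 0x10000000000000000200000001),
   (0x4004000000000000010, 0x200100001),
   (0x204000000000000010, 0x200100001),
   (0x14000000000000004, 0x200100001),
   (0x4000008000000010, 0x10000000000000000200000001),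
   (0x4000000000004010, 0x10000000000000000200000001),
   (0x800000004000000000000014, 0x80200100001),
   (0x40000004000000000000010, 0x200100001),
   (0x2000004000000000000014, 0x80200100001),
   (0x100004000000000000014, 0x80200100001),
   (0x8004000000000000014, 0x80200100001),
   (0x1000000004000000000000014, 0x201100001),
   (0x80000004000000000000010, 0x10000000000000000200000001),
   (0x4000004000000000000014, 0x80200100001),
   (0x200004000000000000014, 0x80200100001),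
   (0x1000004000000000004000, 0x80000000011),
   (0x2000000004000000000000004, 0x200100001),
   (0x100000004000000000000010, 0x10000000000000000200000001),
   (0x8000004000000000004000, 0x80000000011),
   (0x4000040000000004, 0x10000000000000000200000001),
   (0x20000004000000001004000, 0xa0000000011),
   (0x4000000004000000000000010, 0x200100001),
   (0x200000004000000000000010, 0x200100001),
   (0x104000000000000010, 0x10000000000000000200000001),
   (0x800004000000000000014, 0x80000000000000200100001),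
   (0x40004000000000000014, 0x80200100001),
   (0x8000000004000000000000004, 0x200100001),
   (0x400000004000000000000010, 0x200100001),
   (0x20000004000000000000014, 0x80200100001),
   (0x1000004000000000000014, 0x200000000000200100001),
   (0x4000000000080010, 0x10000000000000000200000001),
   (0x1000000000000004000000000000010, 0x200100001),
   (0x80000000000004000000000000014, 0x80200100001),
   (0x4000000000004000000000000014, 0x80200100001),
   (0x4000200000000004, 0x10000000000000000200000001),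
   (0x10000000004000000000000014, 0x80200100001),
   (0x2000000000000004000000000000004, 0x200100001),
   (0x100000000000004000000000000014, 0x80200100001),
   (0x8000000000004000000000000014, 0x80200100001),
   (0x400000000004000000000000014, 0x80200100001),
   (0x4000000000200004, 0x10000000000000000200000001),
   (0x4000000000000004000000000000004, 0x10000000000000000200000001),
   (0x200000000000004000000000000014, 0x80200100001),
   (0x10000000000004000000000000014, 0x80200100001),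
   (0x800000000004000000000000014, 0x80200100001),
   (0x40000000004000000000000014, 0x80200100001),
   (0x8000000000000004000000000000004, 0x200100001),
   (0x4000000004000000000000004, 0x10000000000000000200000001),
   (0x2004000000000000010, 0x10000000000000000200000001),
   (0x4001000000000004, 0x10000000000000000200000001),
   (0x4000000000800004, 0x10000000000000000200000001),
   (0x10000000000000004000000000000004, 0x200100001),
   (0x800000000000004000000000000014, 0x80200100001),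
   (0x4000000000000004000000001004000, 0xa0000000011),
   (0x4002000000000004, 0x10000000000000000200000001),
   (0x100000000004000000000000014, 0x80200100001)]

theorem hP : ∀ p ∈ P, BP p.1 p.2 :=
  consP Pool.Agent.H184.T5.V.p1448 <|
  consP Pool.Agent.H184.T5.V.p1449 <|
  consP Pool.Agent.H184.T5.V.p1450 <|
  consP Pool.Agent.H184.T5.V.p1451 <|
  consP Pool.Agent.H184.T5.B.p4_33_16 <|
  consP Pool.Agent.H184.T5.B.p14_43_7 <|
  consP Pool.Agent.H184.T5.B.p4_33_6 <|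
  consP Pool.Agent.H184.T5.V.p1452 <|
  consP Pool.Agent.H805.T5.N5.t <|
  consP Pool.Agent.H184.T5.B.p2_33_17 <|
  consP Pool.Agent.H184.T5.B.p4_33_12 <|
  consP Pool.Agent.H184.T5.B.p2_33_7 <|
  consP Pool.Agent.H805.T5.N6.t <|
  consP Pool.Agent.H184.T5.B.p2_33_18 <|
  consP Pool.Agent.H184.T5.B.p2_33_13 <|
  consP Pool.Agent.H184.T5.B.p1_91_31 <|
  consP Pool.Agent.H184.T5.B.p14_43_19 <|
  consP Pool.Agent.H184.T5.V.p513 <|
  consP Pool.Agent.H184.T5.V.p1453 <|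
  consP Pool.Agent.H184.T5.V.p1454 <|
  consP Pool.Agent.H184.T5.B.p4_33_9 <|
  consP Pool.Agent.H184.T5.V.p1455 <|
  consP Pool.Agent.H184.T5.B.p4_33_40 <|
  consP Pool.Agent.H184.T5.V.p980 <|
  consP Pool.Agent.H184.T5.B.p1_91_93 <|
  consP Pool.Agent.H184.T5.B.p2_33_5 <|
  consP Pool.Agent.H184.T5.V.p982 <|
  consP Pool.Agent.H805.T5.N10.t <|
  consP Pool.Agent.H184.T5.V.p1456 <|
  consP Pool.Agent.H184.T5.B.p2_33_31 <|
  consP Pool.Agent.H184.T5.B.p2_33_6 <|
  consP Pool.Agent.H184.T5.V.p1457 <|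
  consP Pool.Agent.H184.T5.V.p985 <|
  consP Pool.Agent.H184.T5.B.p12_43_32 <|
  consP Pool.Agent.H184.T5.B.p2_33_32 <|
  consP Pool.Agent.H184.T5.V.p987 <|
  consP Pool.Agent.H184.T5.B.p4_33_48 <|
  consP Pool.Agent.H184.T5.B.p2_33_43 <|
  consP Pool.Agent.H184.T5.B.p24_43_38 <|
  consP Pool.Agent.H184.T5.B.p14_43_44 <|
  consP Pool.Agent.H184.T5.V.p1458 <|
  consP Pool.Agent.H184.T5.B.p4_33_44 <|
  consP Pool.Agent.H184.T5.B.p2_33_39 <|
  consP Pool.Agent.H184.T5.B.p2_33_34 <|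
  consP Pool.Agent.H184.T5.B.p2_33_9 <|
  consP Pool.Agent.H184.T5.B.p2_33_70 <|
  consP Pool.Agent.H184.T5.B.p2_33_65 <|
  consP Pool.Agent.H184.T5.B.p4_33_60 <|
  consP Pool.Agent.H184.T5.B.p2_33_35 <|
  consP Pool.Agent.H184.T5.B.p2_33_10 <|
  consP Pool.Agent.H184.T5.B.p4_33_71 <|
  consP Pool.Agent.H805.T5.N13.t <|
  consP Pool.Agent.H184.T5.B.p4_33_61 <|
  consP Pool.Agent.H184.T5.B.p4_33_36 <|
  consP Pool.Agent.H184.T5.B.p4_33_11 <|
  consP Pool.Agent.H184.T5.B.p2_33_72 <|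
  consP Pool.Agent.H184.T5.B.p2_33_67 <|
  consP Pool.Agent.H184.T5.V.p1459 <|
  consP Pool.Agent.H184.T5.B.p24_43_64 <|
  consP Pool.Agent.H184.T5.V.p1460 <|
  consP Pool.Agent.H184.T5.B.p14_43_66 <|
  consP Pool.Agent.H184.T5.V.p1461 <|
  consP Pool.Agent.H184.T5.B.p2_33_93 <|
  consP Pool.Agent.H184.T5.B.p4_33_13 <|
  consP Pool.Agent.H184.T5.B.p4_33_74 <|
  consP Pool.Agent.H184.T5.B.p4_33_69 <|
  consP Pool.Agent.H184.T5.B.p2_33_64 <|
  consP Pool.Agent.H184.T5.B.p4_33_39 <|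
  consP Pool.Agent.H184.T5.B.p4_33_14 <|
  consP Pool.Agent.H184.T5.V.p1462 <|
  consP Pool.Agent.H184.T5.B.p4_33_90 <|
  consP Pool.Agent.H184.T5.V.p1463 <|
  consP Pool.Agent.H184.T5.V.p1464 <|
  consP Pool.Agent.H184.T5.V.p1465 <|
  consP Pool.Agent.H184.T5.V.p1466 <|
  consP Pool.Agent.H184.T5.B.p4_33_91 <|
  consP Pool.Agent.H184.T5.V.p1467 <|
  consP Pool.Agent.H184.T5.V.p398 <|
  consP Pool.Agent.H184.T5.B.p14_43_84 <|
  consP Pool.Agent.H184.T5.B.p2_33_97 <|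
  consP Pool.Agent.H184.T5.B.p4_33_92 <|
  consP Pool.Agent.H184.T5.B.p14_43_87 <|
  consP Pool.Agent.H184.T5.B.p2_33_42 <|
  consP Pool.Agent.H184.T5.V.p1008 <|
  consP Pool.Agent.H184.T5.B.p4_33_98 <|
  consP Pool.Agent.H184.T5.B.p4_33_93 <|
  consP Pool.Agent.H184.T5.B.p4_33_68 <|
  consP Pool.Agent.H184.T5.V.p1111 <|
  consP Pool.Agent.H184.T5.V.p1468 <|
  consP Pool.Agent.H184.T5.B.p2_33_99 <|
  consP Pool.Agent.H184.T5.B.p4_33_94 <|
  consP Pool.Agent.H184.T5.V.p1469 <|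
  consP Pool.Agent.H184.T5.V.p1470 <|
  consP Pool.Agent.H805.T5.N3.t <|
  consP Pool.Agent.H805.T5.N14.t <|
  consP Pool.Agent.H184.T5.V.p1471 <|
  consP Pool.Agent.H184.T5.V.p1472 <|
  consP Pool.Agent.H184.T5.B.p2_33_45 <|
  consP Pool.Agent.H184.T5.V.p1473 <|
  consP Pool.Agent.H184.T5.B.p2_33_121 <|
  consP Pool.Agent.H184.T5.V.p1474 <|
  consP Pool.Agent.H184.T5.V.p1475 <|
  consP Pool.Agent.H184.T5.V.p1476 <|
  consP Pool.Agent.H184.T5.B.p2_33_21 <|
  consP Pool.Agent.H184.T5.B.p2_33_122 <|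
  consP Pool.Agent.H184.T5.V.p1477 <|
  consP Pool.Agent.H184.T5.V.p1478 <|
  consP Pool.Agent.H184.T5.V.p1479 <|
  consP Pool.Agent.H184.T5.V.p1480 <|
  consP Pool.Agent.H184.T5.B.p2_33_123 <|
  consP Pool.Agent.H184.T5.B.p2_33_98 <|
  consP Pool.Agent.H184.T5.B.p4_33_73 <|
  consP Pool.Agent.H184.T5.B.p2_33_48 <|
  consP Pool.Agent.H184.T5.B.p2_33_23 <|
  consP Pool.Agent.H184.T5.B.p2_33_124 <|
  consP Pool.Agent.H184.T5.V.p1481 <|
  consP Pool.Agent.H184.T5.V.p1018 <|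
  consP Pool.Agent.H184.T5.B.p2_33_49 <|
  consP Pool.Agent.H184.T5.V.p1482 <|
  nilP

def T : List Ent :=
  [⟨1, 41, 26, 0⟩,
   ⟨2, 41, 26, 1⟩,
   ⟨3, 104, 26, 2⟩,
   ⟨5, 41, 26, 3⟩,
   ⟨9, 41, 26, 7⟩,
   ⟨20, 41, 26, 17⟩,
   ⟨21, 41, 26, 18⟩,
   ⟨22, 41, 26, 19⟩,
   ⟨25, 41, 26, 21⟩,
   ⟨27, 41, 0, 23⟩,
   ⟨30, 41, 0, 26⟩,
   ⟨32, 41, 26, 28⟩,
   ⟨35, 41, 26, 31⟩,
   ⟨36, 41, 0, 32⟩,
   ⟨39, 41, 0, 35⟩,
   ⟨45, 41, 26, 40⟩,
   ⟨63, 41, 26, 57⟩,
   ⟨65, 41, 26, 59⟩,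
   ⟨67, 41, 26, 61⟩,
   ⟨75, 41, 26, 69⟩,
   ⟨77, 41, 26, 71⟩,
   ⟨78, 41, 26, 72⟩,
   ⟨79, 41, 26, 73⟩,
   ⟨80, 20, 26, 74⟩,
   ⟨82, 41, 26, 76⟩,
   ⟨83, 41, 26, 77⟩,
   ⟨89, 41, 0, 83⟩,
   ⟨93, 81, 26, 87⟩,
   ⟨94, 41, 26, 88⟩,
   ⟨97, 41, 26, 91⟩,
   ⟨98, 83, 26, 92⟩,
   ⟨101, 41, 26, 95⟩,
   ⟨102, 41, 26, 96⟩,
   ⟨104, 41, 26, 98⟩,
   ⟨106, 41, 26, 100⟩,
   ⟨107, 41, 26, 101⟩,
   ⟨108, 41, 26, 102⟩,
   ⟨111, 41, 26, 105⟩,
   ⟨112, 41, 26, 106⟩,
   ⟨113, 41, 26, 107⟩,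
   ⟨114, 41, 26, 108⟩,
   ⟨121, 41, 26, 115⟩,
   ⟨122, 41, 0, 116⟩,
   ⟨124, 41, 26, 118⟩]

def F : List Ent :=
  [⟨6, 14, 26, 4⟩,
   ⟨7, 24, 0, 5⟩,
   ⟨8, 14, 26, 6⟩,
   ⟨10, 14, 26, 8⟩,
   ⟨11, 24, 26, 9⟩,
   ⟨12, 14, 26, 10⟩,
   ⟨13, 24, 26, 11⟩,
   ⟨15, 14, 26, 12⟩,
   ⟨16, 24, 26, 13⟩,
   ⟨17, 24, 26, 14⟩,
   ⟨18, 14, 131, 15⟩,
   ⟨19, 24, 0, 16⟩,
   ⟨23, 14, 26, 20⟩,
   ⟨26, 14, 26, 22⟩,
   ⟨28, 14, 83, 24⟩,
   ⟨29, 24, 146, 25⟩,
   ⟨31, 14, 26, 27⟩,
   ⟨33, 24, 26, 29⟩,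
   ⟨34, 24, 146, 30⟩,
   ⟨37, 24, 93, 33⟩,
   ⟨38, 24, 93, 34⟩,
   ⟨40, 14, 26, 36⟩,
   ⟨41, 24, 26, 37⟩,
   ⟨42, 14, 4, 38⟩,
   ⟨44, 24, 0, 39⟩,
   ⟨46, 14, 26, 41⟩,
   ⟨47, 24, 26, 42⟩,
   ⟨48, 24, 26, 43⟩,
   ⟨49, 24, 146, 44⟩,
   ⟨50, 24, 7, 45⟩,
   ⟨51, 24, 26, 46⟩,
   ⟨52, 14, 146, 47⟩,
   ⟨53, 24, 146, 48⟩,
   ⟨54, 24, 146, 49⟩,
   ⟨55, 14, 26, 50⟩,
   ⟨56, 14, 26, 51⟩,
   ⟨57, 14, 146, 52⟩,
   ⟨58, 14, 146, 53⟩,
   ⟨59, 14, 146, 54⟩,
   ⟨60, 24, 26, 55⟩,
   ⟨61, 24, 26, 56⟩,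
   ⟨64, 14, 0, 58⟩,
   ⟨66, 24, 0, 60⟩,
   ⟨68, 14, 69, 62⟩,
   ⟨69, 14, 146, 63⟩,
   ⟨70, 14, 26, 64⟩,
   ⟨71, 14, 26, 65⟩,
   ⟨72, 24, 26, 66⟩,
   ⟨73, 14, 146, 67⟩,
   ⟨74, 14, 146, 68⟩,
   ⟨76, 14, 26, 70⟩,
   ⟨81, 14, 146, 75⟩,
   ⟨84, 24, 0, 78⟩,
   ⟨85, 24, 26, 79⟩,
   ⟨86, 14, 146, 80⟩,
   ⟨87, 24, 0, 81⟩,
   ⟨88, 24, 146, 82⟩,
   ⟨90, 14, 26, 84⟩,
   ⟨91, 14, 26, 85⟩,
   ⟨92, 14, 146, 86⟩,
   ⟨95, 24, 26, 89⟩,
   ⟨96, 14, 26, 90⟩,
   ⟨99, 14, 146, 93⟩,
   ⟨100, 14, 7, 94⟩,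
   ⟨103, 24, 146, 97⟩,
   ⟨105, 24, 26, 99⟩,
   ⟨109, 24, 146, 103⟩,
   ⟨110, 24, 146, 104⟩,
   ⟨115, 24, 26, 109⟩,
   ⟨116, 24, 146, 110⟩,
   ⟨117, 14, 146, 111⟩,
   ⟨118, 24, 146, 112⟩,
   ⟨119, 24, 146, 113⟩,
   ⟨120, 24, 26, 114⟩,
   ⟨123, 24, 146, 117⟩]

theorem ok : nodeOK2 autA 192 P [14, 24, 62] [0, 4, 43] T F = true := by decide +kernel

theorem t : BP 0x4000000001004000 0x80000000011 := by
  have h := node2 autOK hP ok
  rw [show maskL [14, 24, 62] = 0x4000000001004000 from by decide +kernel, show maskL [0, 4, 43] = 0x80000000011 from by decide +kernel] at h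
  exact h

end Pool.Agent.H805.T5.N16
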