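import Mathlib
import Pool.Agent.H805.T5.Tree2
import Pool.Agent.H805.T5.Auts
import Pool.Agent.H184.T5.D.F12_43_0
import Pool.Agent.H184.T5.D.F14_43_0
import Pool.Agent.H184.T5.D.F14_43_2
import Pool.Agent.H184.T5.D.F1_91_0
import Pool.Agent.H184.T5.D.F1_91_1
import Pool.Agent.H184.T5.D.F24_43_0
import Pool.Agent.H184.T5.D.F24_43_1
import Pool.Agent.H184.T5.D.F2_33_0
import Pool.Agent.H184.T5.D.F2_33_1
import Pool.Agent.H184.T5.D.F38_33_2
import Pool.Agent.H184.T5.D.F44_4_0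
import Pool.Agent.H184.T5.D.F4_33_0
import Pool.Agent.H184.T5.D.F7_33_0
import Pool.Agent.H184.T5.D.F7_33_2
import Pool.Agent.H184.T5.D.F8_33_0
import Pool.Agent.H184.T5.D.F8_33_1
import Pool.Agent.H184.T5.D.F9_33_2
import Pool.Agent.H184.T5.D.V_003
import Pool.Agent.H184.T5.D.V_015
import Pool.Agent.H184.T5.D.V_025

set_option autoImplicit false
set_option maxRecDepth 20000

namespace Pool.Agent.H805.T5.N17

open Pool.Agent.Helper582.Cube

def P : List (ℕ × ℕ) :=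
  [(0x4000000080080000, 0x800000000000000000011),
   (0x100000000004000004000000000, 0x800000000000200000001),
   (0x4000000001000100, 0x80200000001),
   (0x800004000000080000010, 0x80200100001),
   (0x80000004000000080000002, 0x80000100011),
   (0x800000000000004000000001000000, 0xa0000000001),
   (0x800004000000080000080, 0x200000000080000100001),
   (0x4000000021000000, 0xa0000000001),
   (0x20000000004000000080000000, 0x80000000011),
   (0x800004000000080000400, 0x80200100001),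
   (0x20000000000004000000001000000, 0x80200000001),
   (0xc000000001000000, 0x80200000001),
   (0x4000000001002000, 0x80200000001),
   (0x10000004000000001000000, 0x80200000001),
   (0x800004000000080008000, 0x80200100001),
   (0x1000000000000004000000000000200, 0x800000000000200000001),
   (0x200000004000000000000080, 0x200100001),
   (0x4000000001000002, 0x80200000000000000000001),
   (0x200000004000000000000200, 0x200100001),
   (0x400000000000004000000001000000, 0x80200000001),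
   (0x200000004000020000000004, 0x80200100001),
   (0x4000000005000000, 0xa0000000001),
   (0x200000004000000000000010, 0x200100001),
   (0x20000000004000000001000000, 0xa0000000001),
   (0x800004000000088000000, 0x80000000000080000100001),
   (0x200004000000000000100, 0x10000000000000000200000001),
   (0x8000040000000a0000000, 0x80000100011),
   (0x100000000004000000000004000, 0xa0000000001),
   (0x4000080200000000, 0x20000000011),
   (0x80004000000001000000, 0xa0000000001),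
   (0x40000000004000000001000000, 0xa0000000001),
   (0x4010000001000000, 0xa0000000001),
   (0x4000000001000004, 0xa0000000001),
   (0x800004000008080000000, 0x80200100001),
   (0x1000000000000004000000000000002, 0x80000000000020000000001),
   (0x4000000001000010, 0x80200000001),
   (0x1000000000000004000000000000004, 0x80200000001),
   (0x8004000000001000000, 0x80200000001),
   (0x4000000001000200, 0x80200000001),
   (0x4000000001000080, 0x80200000001),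
   (0x4000000001000040, 0xa0000000001),
   (0x800000000004000000001000000, 0x80200000001),
   (0x200000014000000000000000, 0x20000000011),
   (0x400004000000001000000, 0x80200000001),
   (0x40000000000004000000001000000, 0xa0000000001),
   (0x800004200000080000000, 0x80200100001),
   (0x800004800000080000000, 0x80200100001),
   (0x4000000080001000, 0x80000000011),
   (0x10000000000004000000001000000, 0x80200000001),
   (0x8000004000000001000000, 0x80200000001),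
   (0x4000000009000000, 0x80200000001),
   (0x4040000001000000, 0x80200000001),
   (0x800084000000080000000, 0x80200100001),
   (0x4000000001000004, 0x80200000001),
   (0x20004000000001000000, 0x80200000001),
   (0x800804000000080000000, 0x80000000000080000100001),
   (0xc000000001000000, 0xa0000000001),
   (0x4100000001000000, 0xa0000000001),
   (0x4000100200000000, 0x200000000000000000011),
   (0x1000004000000001000000, 0x80200000001),
   (0x4002000001000000, 0x80200000001),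
   (0x10000000000000004000000001000000, 0x80200000001),
   (0x8000000004000000001000000, 0xa0000000001),
   (0x4000008001000000, 0x80200000001),
   (0x4800004000000080000000, 0x80000000000080000100001),
   (0x20000004000000001000000, 0x80200000001),
   (0x80800004000000080000000, 0x200000000080000100001),
   (0x400800004000000080000000, 0x80000100011),
   (0x400000004000000001000000, 0x80200000001),
   (0x400000000004000000001000000, 0x80200000001),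
   (0x200004000000001000000, 0x80200000001),
   (0x2000000000004000000001000000, 0xa0000000001),
   (0x2000000800004000000080000000, 0x80000100011),
   (0x4000000080004000, 0x80000100001),
   (0x800000000004000000001000000, 0xa0000000001),
   (0x4200000001000000, 0xa0000000001),
   (0x40000000000004000000080000000, 0x80000100001),
   (0x4000000001000002, 0x80200000001),
   (0x800000000800004000000080000000, 0x80200100001),
   (0x1000000000004000000001000000, 0xa0000000001),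
   (0x800004000000001000000, 0xa0000000001)]

theorem hP : ∀ p ∈ P, BP p.1 p.2 :=
  consP Pool.Agent.H184.T5.V.p1016 <|
  consP Pool.Agent.H184.T5.B.p38_33_104 <|
  consP Pool.Agent.H184.T5.B.p8_33_24 <|
  consP Pool.Agent.H184.T5.V.p257 <|
  consP Pool.Agent.H184.T5.V.p258 <|
  consP Pool.Agent.H184.T5.B.p24_43_119 <|
  consP Pool.Agent.H184.T5.V.p259 <|
  consP Pool.Agent.H184.T5.B.p24_43_29 <|
  consP Pool.Agent.H184.T5.V.p260 <|
  consP Pool.Agent.H184.T5.V.p261 <|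
  consP Pool.Agent.H184.T5.B.p24_43_113 <|
  consP Pool.Agent.H184.T5.B.p24_43_63 <|
  consP Pool.Agent.H184.T5.B.p24_43_13 <|
  consP Pool.Agent.H184.T5.B.p24_43_88 <|
  consP Pool.Agent.H184.T5.V.p262 <|
  consP Pool.Agent.H184.T5.B.p9_33_120 <|
  consP Pool.Agent.H184.T5.B.p7_33_93 <|
  consP Pool.Agent.H184.T5.B.p1_91_24 <|
  consP Pool.Agent.H184.T5.B.p9_33_93 <|
  consP Pool.Agent.H184.T5.B.p24_43_118 <|
  consP Pool.Agent.H184.T5.V.p263 <|
  consP Pool.Agent.H184.T5.B.p24_43_26 <|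
  consP Pool.Agent.H184.T5.B.p4_33_93 <|
  consP Pool.Agent.H184.T5.B.p24_43_101 <|
  consP Pool.Agent.H184.T5.V.p264 <|
  consP Pool.Agent.H184.T5.B.p8_33_81 <|
  consP Pool.Agent.H184.T5.V.p265 <|
  consP Pool.Agent.H184.T5.B.p14_43_104 <|
  consP Pool.Agent.H184.T5.V.p266 <|
  consP Pool.Agent.H184.T5.B.p24_43_79 <|
  consP Pool.Agent.H184.T5.B.p24_43_102 <|
  consP Pool.Agent.H184.T5.B.p24_43_52 <|
  consP Pool.Agent.H184.T5.B.p24_43_2 <|
  consP Pool.Agent.H184.T5.V.p267 <|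
  consP Pool.Agent.H184.T5.B.p1_91_120 <|
  consP Pool.Agent.H184.T5.B.p4_33_24 <|
  consP Pool.Agent.H184.T5.B.p2_33_120 <|
  consP Pool.Agent.H184.T5.B.p24_43_75 <|
  consP Pool.Agent.H184.T5.B.p24_43_9 <|
  consP Pool.Agent.H184.T5.B.p7_33_24 <|
  consP Pool.Agent.H184.T5.B.p24_43_6 <|
  consP Pool.Agent.H184.T5.V.p1014 <|
  consP Pool.Agent.H184.T5.V.p268 <|
  consP Pool.Agent.H184.T5.B.p24_43_82 <|
  consP Pool.Agent.H184.T5.B.p24_43_114 <|
  consP Pool.Agent.H184.T5.V.p269 <|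
  consP Pool.Agent.H184.T5.V.p270 <|
  consP Pool.Agent.H184.T5.B.p12_43_31 <|
  consP Pool.Agent.H184.T5.B.p24_43_112 <|
  consP Pool.Agent.H184.T5.B.p24_43_87 <|
  consP Pool.Agent.H184.T5.B.p24_43_27 <|
  consP Pool.Agent.H184.T5.B.p24_43_54 <|
  consP Pool.Agent.H184.T5.V.p271 <|
  consP Pool.Agent.H184.T5.B.p2_33_24 <|
  consP Pool.Agent.H184.T5.B.p24_43_77 <|
  consP Pool.Agent.H184.T5.V.p272 <|
  consP Pool.Agent.H184.T5.V.p1203 <|
  consP Pool.Agent.H184.T5.B.p24_43_56 <|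
  consP Pool.Agent.H184.T5.B.p44_4_33 <|
  consP Pool.Agent.H184.T5.B.p24_43_84 <|
  consP Pool.Agent.H184.T5.B.p24_43_49 <|
  consP Pool.Agent.H184.T5.B.p24_43_124 <|
  consP Pool.Agent.H184.T5.B.p24_43_99 <|
  consP Pool.Agent.H184.T5.B.p24_43_39 <|
  consP Pool.Agent.H184.T5.V.p274 <|
  consP Pool.Agent.H184.T5.B.p24_43_89 <|
  consP Pool.Agent.H184.T5.V.p275 <|
  consP Pool.Agent.H184.T5.V.p276 <|
  consP Pool.Agent.H184.T5.B.p24_43_94 <|
  consP Pool.Agent.H184.T5.B.p24_43_106 <|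
  consP Pool.Agent.H184.T5.B.p24_43_81 <|
  consP Pool.Agent.H184.T5.B.p24_43_109 <|
  consP Pool.Agent.H184.T5.V.p277 <|
  consP Pool.Agent.H184.T5.B.p14_43_31 <|
  consP Pool.Agent.H184.T5.B.p24_43_107 <|
  consP Pool.Agent.H184.T5.B.p24_43_57 <|
  consP Pool.Agent.H184.T5.V.p278 <|
  consP Pool.Agent.H184.T5.B.p24_43_1 <|
  consP Pool.Agent.H184.T5.V.p279 <|
  consP Pool.Agent.H184.T5.B.p24_43_108 <|
  consP Pool.Agent.H184.T5.B.p24_43_83 <|
  nilP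

def T : List Ent :=
  [⟨4, 33, 0, 3⟩,
   ⟨5, 4, 4, 4⟩,
   ⟨7, 81, 0, 6⟩,
   ⟨10, 33, 0, 9⟩,
   ⟨15, 33, 0, 14⟩,
   ⟨22, 33, 28, 20⟩,
   ⟨27, 91, 0, 24⟩,
   ⟨29, 4, 0, 26⟩,
   ⟨39, 33, 0, 33⟩,
   ⟨50, 33, 11, 20⟩,
   ⟨55, 81, 34, 6⟩,
   ⟨57, 33, 0, 45⟩,
   ⟨59, 33, 0, 46⟩,
   ⟨67, 33, 0, 52⟩,
   ⟨71, 91, 0, 55⟩,
   ⟨73, 91, 34, 24⟩,
   ⟨77, 91, 34, 55⟩,
   ⟨86, 91, 0, 64⟩,
   ⟨91, 81, 0, 66⟩,
   ⟨94, 4, 0, 67⟩,
   ⟨107, 33, 34, 46⟩,
   ⟨109, 4, 0, 72⟩,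
   ⟨113, 33, 34, 33⟩,
   ⟨116, 120, 34, 67⟩,
   ⟨119, 33, 0, 78⟩,
   ⟨120, 33, 34, 3⟩,
   ⟨123, 120, 34, 26⟩]

def F : List Ent :=
  [⟨1, 31, 18, 0⟩,
   ⟨2, 31, 69, 1⟩,
   ⟨3, 31, 71, 2⟩,
   ⟨6, 31, 83, 5⟩,
   ⟨8, 83, 93, 7⟩,
   ⟨9, 31, 22, 8⟩,
   ⟨11, 31, 71, 10⟩,
   ⟨12, 31, 71, 11⟩,
   ⟨13, 31, 71, 12⟩,
   ⟨14, 31, 71, 13⟩,
   ⟨16, 31, 115, 15⟩,
   ⟨17, 31, 28, 16⟩,
   ⟨18, 31, 131, 17⟩,
   ⟨19, 31, 28, 18⟩,
   ⟨21, 31, 71, 19⟩,
   ⟨23, 83, 93, 21⟩,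
   ⟨24, 31, 28, 22⟩,
   ⟨25, 31, 83, 21⟩,
   ⟨26, 31, 83, 23⟩,
   ⟨28, 31, 7, 25⟩,
   ⟨30, 31, 83, 7⟩,
   ⟨32, 31, 93, 27⟩,
   ⟨33, 31, 10, 28⟩,
   ⟨34, 31, 83, 29⟩,
   ⟨35, 83, 91, 12⟩,
   ⟨36, 31, 83, 30⟩,
   ⟨37, 31, 83, 31⟩,
   ⟨38, 31, 83, 32⟩,
   ⟨40, 31, 79, 34⟩,
   ⟨41, 83, 91, 35⟩,
   ⟨42, 31, 91, 36⟩,
   ⟨44, 31, 71, 37⟩,
   ⟨45, 83, 91, 2⟩,
   ⟨46, 83, 91, 38⟩,
   ⟨47, 83, 91, 39⟩,
   ⟨48, 83, 148, 25⟩,
   ⟨49, 83, 93, 40⟩,
   ⟨51, 31, 71, 41⟩,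
   ⟨52, 31, 16, 42⟩,
   ⟨53, 31, 71, 39⟩,
   ⟨54, 31, 71, 43⟩,
   ⟨56, 31, 83, 44⟩,
   ⟨58, 83, 83, 27⟩,
   ⟨60, 31, 22, 47⟩,
   ⟨61, 31, 71, 48⟩,
   ⟨63, 83, 93, 31⟩,
   ⟨64, 31, 71, 49⟩,
   ⟨65, 31, 71, 50⟩,
   ⟨66, 83, 91, 51⟩,
   ⟨68, 31, 71, 53⟩,
   ⟨69, 31, 71, 54⟩,
   ⟨70, 83, 115, 1⟩,
   ⟨72, 31, 83, 56⟩,
   ⟨74, 83, 93, 57⟩,
   ⟨75, 83, 91, 19⟩,
   ⟨76, 83, 20, 58⟩,
   ⟨78, 31, 71, 38⟩,
   ⟨79, 31, 71, 59⟩,
   ⟨80, 31, 71, 60⟩,
   ⟨81, 31, 71, 61⟩,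
   ⟨82, 83, 93, 44⟩,
   ⟨84, 31, 83, 62⟩,
   ⟨85, 31, 71, 63⟩,
   ⟨87, 83, 91, 48⟩,
   ⟨88, 83, 93, 30⟩,
   ⟨89, 31, 71, 65⟩,
   ⟨90, 83, 69, 15⟩,
   ⟨92, 31, 71, 51⟩,
   ⟨93, 31, 71, 35⟩,
   ⟨95, 83, 8, 0⟩,
   ⟨96, 31, 6, 58⟩,
   ⟨97, 83, 91, 41⟩,
   ⟨98, 83, 93, 23⟩,
   ⟨99, 31, 71, 68⟩,
   ⟨100, 83, 11, 22⟩,
   ⟨101, 31, 71, 69⟩,
   ⟨102, 31, 83, 57⟩,
   ⟨103, 31, 83, 40⟩,
   ⟨104, 31, 71, 70⟩,
   ⟨105, 83, 4, 8⟩,
   ⟨106, 31, 83, 71⟩,
   ⟨108, 83, 93, 29⟩,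
   ⟨110, 31, 34, 73⟩,
   ⟨111, 31, 83, 74⟩,
   ⟨112, 31, 83, 75⟩,
   ⟨114, 31, 34, 76⟩,
   ⟨115, 83, 11, 18⟩,
   ⟨117, 83, 91, 54⟩,
   ⟨118, 31, 71, 77⟩,
   ⟨121, 31, 83, 79⟩,
   ⟨122, 83, 91, 43⟩,
   ⟨124, 31, 83, 80⟩]

theorem ok : nodeOK2 autA 192 P [31, 62, 83] [0, 20, 43] T F = true := by decide +kernel

theorem t : BP 0x800004000000080000000 0x80000100001 := by
  have h := node2 autOK hP ok
  rw [show maskL [31, 62, 83] = 0x800004000000080000000 from by decide +kernel, show maskL [0, 20, 43] = 0x80000100001 from by decide +kernel] at h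
  exact h

end Pool.Agent.H805.T5.N17
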