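import Mathlib
import Pool.Agent.H805.T5.Tree2
import Pool.Agent.H805.T5.Auts
import Pool.Agent.H184.T5.D.F12_43_0
import Pool.Agent.H184.T5.D.F14_43_0
import Pool.Agent.H184.T5.D.F14_43_1
import Pool.Agent.H184.T5.D.F24_43_0
import Pool.Agent.H184.T5.D.F2_33_0
import Pool.Agent.H184.T5.D.F2_33_1
import Pool.Agent.H184.T5.D.F32_91_0
import Pool.Agent.H184.T5.D.F32_91_1
import Pool.Agent.H184.T5.D.F34_33_1
import Pool.Agent.H184.T5.D.F38_33_1
import Pool.Agent.H184.T5.D.F38_33_2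
import Pool.Agent.H184.T5.D.F39_33_0
import Pool.Agent.H184.T5.D.F39_33_1
import Pool.Agent.H184.T5.D.F39_33_2
import Pool.Agent.H184.T5.D.F44_4_1
import Pool.Agent.H184.T5.D.F4_33_0
import Pool.Agent.H184.T5.D.F4_33_1
import Pool.Agent.H184.T5.D.F64_41_0
import Pool.Agent.H184.T5.D.F64_41_1
import Pool.Agent.H184.T5.D.F64_41_2
import Pool.Agent.H184.T5.D.F7_33_1
import Pool.Agent.H184.T5.D.F8_33_1
import Pool.Agent.H184.T5.D.F9_33_0
import Pool.Agent.H184.T5.D.F9_33_1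
import Pool.Agent.H184.T5.D.F9_33_2
import Pool.Agent.H184.T5.D.V_004
import Pool.Agent.H184.T5.D.V_005
import Pool.Agent.H184.T5.D.V_010
import Pool.Agent.H184.T5.D.V_011
import Pool.Agent.H184.T5.D.V_012
import Pool.Agent.H184.T5.D.V_013
import Pool.Agent.H184.T5.D.V_016
import Pool.Agent.H184.T5.D.V_017
import Pool.Agent.H184.T5.D.V_020
import Pool.Agent.H184.T5.D.V_021
import Pool.Agent.H184.T5.D.V_022
import Pool.Agent.H184.T5.D.V_025
import Pool.Agent.H805.T5.N.N2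

set_option autoImplicit false
set_option maxRecDepth 20000

namespace Pool.Agent.H805.T5.N9

open Pool.Agent.Helper582.Cube

def P : List (ℕ × ℕ) :=
  [(0x100000000000014000000000000000, 0x20000000011),
   (0x4000000000000014, 0x80200000001),
   (0x1004000000000000100, 0x200100001),
   (0x4010000000000100, 0x200100001),
   (0x4000002000000050, 0x800000000000201000001),
   (0x14008000000000000, 0x20000000011),
   (0x4000002000000110, 0x800000000000201000001),
   (0x4000002000000210, 0x10000800000000000200000001),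
   (0x4000002000000410, 0x10000800000000000200000001),
   (0x4000008000001000, 0x10000000000000000200000001),
   (0x16000000000000000, 0x20000000011),
   (0x4000002000002010, 0x800000000000201000001),
   (0x4000002000004010, 0x10000800000000000200000001),
   (0x1004000000400000000, 0x200100001),
   (0x4000002000010010, 0x10000800000000000200000001),
   (0x10000000000004000008000000000, 0x10000000000000000200000001),
   (0x4000000000040010, 0x800000000000200000001),
   (0x1000000014000000000000000, 0x20000000011),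
   (0x4000002000100010, 0x10000800000000000200000001),
   (0x4000002000200010, 0x10000800000000000200000001),
   (0x4000002000400010, 0x800000000000201000001),
   (0x4000002000800010, 0x10000800000000000200000001),
   (0x4000002001000010, 0x800000000080200000001),
   (0x4000002002000010, 0x800000000080200000001),
   (0x4000000000001200, 0x10000000000000000200000001),
   (0x4000002008000010, 0x10000800000000000200000001),
   (0x4000002010000010, 0x10000800000000000200000001),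
   (0x4200000000000200, 0x80200000001),
   (0x14000000020000000, 0x20000000011),
   (0x14000000001000000, 0x80000000011),
   (0x4000000000001004, 0x10000000000000000200000001),
   (0x80014000000000000000, 0x20000000011),
   (0x14000008000000000, 0x20000000011),
   (0x4000002100000000, 0x80000000000020000000001),
   (0x14000000000004000, 0x20000000011),
   (0x400000a000000010, 0x10000800000000000200000001),
   (0x4000012000000010, 0x800000000000201000001),
   (0x4000022000000010, 0x10000800000000000200000001),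
   (0x4014000000000000000, 0x20000000011),
   (0x4000082000000010, 0x10000800000000000200000001),
   (0x4002000200000000, 0x800000000000000000011),
   (0x14000000400000000, 0x20000000011),
   (0x2000000000014000000000000000, 0x20000000011),
   (0x14800000000000000, 0x20000000011),
   (0x4001002000000010, 0x800000000000201000001),
   (0x4002002000000010, 0x800000000080200000001),
   (0x1004000004000000000, 0x200100001),
   (0x200000000000014000000000000000, 0x20000000011),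
   (0x4200000000001000, 0x80200000001),
   (0x4020002000000010, 0x10000800000000000200000001),
   (0x4000000000004010, 0x80200000001),
   (0x4080002000000010, 0x10000800000000000200000001),
   (0x1004000000000004000, 0x80000100001),
   (0x14000000000001000, 0x80000000011),
   (0x84000004000000000, 0x80200000001),
   (0x4800002000000010, 0x10000800000000000200000001),
   (0xc000000000001000, 0xa0000000001),
   (0x6000002000000010, 0x10000800000000000200000001),
   (0x4010000000001000, 0x80000100001),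
   (0x14000002000000000, 0x800000000000000000011),
   (0x24000002000000010, 0x800000000000201000001),
   (0x4000000000000014000000000000000, 0x80000000011),
   (0x1014000000000000000, 0x20000000011),
   (0x14000000000400000, 0x20000000011),
   (0x2000000014000000000000000, 0x20000000011),
   (0x14000000100000000, 0x20000000011),
   (0x800000000014000000000000000, 0x20000000011),
   (0x1004000002000000010, 0x10000800000000000200000001),
   (0x84000008000000000, 0x80200000001),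
   (0x4004000002000000010, 0x10000800000000000200000001),
   (0x4000000000008010, 0x80200000001),
   (0x4200000000010010, 0x80200100001),
   (0x4200000000020010, 0x80200100001),
   (0xc000000000000040, 0xa00000000000000000001),
   (0x4200000000080010, 0x80200100001),
   (0x100004000002000000010, 0x10000800000000000200000001),
   (0x200004000002000000010, 0x10000800000000000200000001),
   (0x8000004000004000000000, 0x800000000000200000001),
   (0x1000004000002000000010, 0x10000800000000000200000001),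
   (0x84000000000000080, 0x80200000001),
   (0x4000004000002000000010, 0x10000800000000000200000001),
   (0x15000000000000000, 0x20000000011),
   (0x1004000000000000004, 0x200100001),
   (0x2000014000000000000000, 0x20000000011),
   (0x10000000000004000000000000200, 0x10000000000000000200000001),
   (0x80000004000002000000010, 0x10000800000000000200000001),
   (0x84000000100000000, 0x80200000000000000000001),
   (0x14000000000100000, 0x20000000011),
   (0x4002000080000000, 0x200000000000000000011),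
   (0x800000004000000000000010, 0x800000000000200000001),
   (0x1000000004000000000000010, 0x800000000000200000001),
   (0x8000004000008000000000, 0x800000000000200000001),
   (0x4000000004000002000000010, 0x10000800000000000200000001),
   (0x5000100000000000, 0x800000000000000000011),
   (0x14000080000000000, 0x20000000011),
   (0x400000000000014000000000000000, 0x20000000011),
   (0x6000000000004000, 0xa0000000001),
   (0x4200000000800010, 0x80200100001),
   (0x4000000001000010, 0x80200000001),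
   (0x200000000004000002000000010, 0x10000800000000000200000001),
   (0x80000000014000000000000000, 0x20000000011),
   (0x14020000000000000, 0x20000000011),
   (0x6000100000000000, 0xa0000000001),
   (0x4002000000000010, 0x80200000001),
   (0xc000000000004000, 0xa0000000001),
   (0x8000000000004000002000000010, 0x10000800000000000200000001),
   (0x1c000000000000000, 0x20000000011),
   (0x20000000000004000002000000010, 0x10000800000000000200000001),
   (0x1004000000100000000, 0x80000000000000000100001),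
   (0x14001000000000000, 0x20000000011),
   (0x8000000000000014000000000000000, 0x20000000011),
   (0x200000000000004000002000000010, 0x10000800000000000200000001),
   (0x14000000000800000, 0x20000000011),
   (0x14000400000000000, 0x800000000000000000011),
   (0xc000000001000000, 0xa0000000001),
   (0x2000000000000004000002000000010, 0x10000800000000000200000001),
   (0x4000000100001000, 0x10080000000000000000000001),
   (0x8000000000000004000000000000010, 0x800000000000200000001),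
   (0x10000000000000004000000000000010, 0x800000000000200000001)]

theorem hP : ∀ p ∈ P, BP p.1 p.2 :=
  consP Pool.Agent.H184.T5.B.p64_41_116 <|
  consP Pool.Agent.H184.T5.B.p2_33_4 <|
  consP Pool.Agent.H184.T5.B.p8_33_72 <|
  consP Pool.Agent.H184.T5.B.p8_33_52 <|
  consP Pool.Agent.H184.T5.V.p1406 <|
  consP Pool.Agent.H184.T5.B.p64_41_51 <|
  consP Pool.Agent.H184.T5.V.p1483 <|
  consP Pool.Agent.H184.T5.V.p920 <|
  consP Pool.Agent.H184.T5.V.p1484 <|
  consP Pool.Agent.H184.T5.B.p39_33_12 <|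
  consP Pool.Agent.H184.T5.V.p300 <|
  consP Pool.Agent.H184.T5.V.p1485 <|
  consP Pool.Agent.H184.T5.V.p1486 <|
  consP Pool.Agent.H184.T5.B.p34_33_72 <|
  consP Pool.Agent.H184.T5.V.p796 <|
  consP Pool.Agent.H184.T5.B.p39_33_112 <|
  consP Pool.Agent.H805.T5.N2.t <|
  consP Pool.Agent.H184.T5.B.p64_41_96 <|
  consP Pool.Agent.H184.T5.V.p1101 <|
  consP Pool.Agent.H184.T5.V.p677 <|
  consP Pool.Agent.H184.T5.V.p1487 <|
  consP Pool.Agent.H184.T5.V.p1488 <|
  consP Pool.Agent.H184.T5.V.p1489 <|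
  consP Pool.Agent.H184.T5.V.p1172 <|
  consP Pool.Agent.H184.T5.B.p9_33_12 <|
  consP Pool.Agent.H184.T5.V.p1490 <|
  consP Pool.Agent.H184.T5.V.p1491 <|
  consP Pool.Agent.H184.T5.B.p9_33_57 <|
  consP Pool.Agent.H184.T5.B.p64_41_29 <|
  consP Pool.Agent.H184.T5.B.p24_43_64 <|
  consP Pool.Agent.H184.T5.B.p2_33_12 <|
  consP Pool.Agent.H184.T5.B.p64_41_79 <|
  consP Pool.Agent.H184.T5.B.p64_41_39 <|
  consP Pool.Agent.H184.T5.B.p32_91_37 <|
  consP Pool.Agent.H184.T5.B.p64_41_14 <|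
  consP Pool.Agent.H184.T5.V.p1492 <|
  consP Pool.Agent.H184.T5.V.p1493 <|
  consP Pool.Agent.H184.T5.V.p1494 <|
  consP Pool.Agent.H184.T5.B.p64_41_74 <|
  consP Pool.Agent.H184.T5.V.p1495 <|
  consP Pool.Agent.H184.T5.V.p349 <|
  consP Pool.Agent.H184.T5.V.p320 <|
  consP Pool.Agent.H184.T5.B.p64_41_109 <|
  consP Pool.Agent.H184.T5.B.p64_41_59 <|
  consP Pool.Agent.H184.T5.V.p1496 <|
  consP Pool.Agent.H184.T5.V.p1497 <|
  consP Pool.Agent.H184.T5.B.p38_33_72 <|
  consP Pool.Agent.H184.T5.B.p64_41_117 <|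
  consP Pool.Agent.H184.T5.B.p12_43_57 <|
  consP Pool.Agent.H184.T5.V.p1498 <|
  consP Pool.Agent.H184.T5.B.p14_43_4 <|
  consP Pool.Agent.H184.T5.V.p1499 <|
  consP Pool.Agent.H184.T5.B.p14_43_72 <|
  consP Pool.Agent.H184.T5.B.p12_43_64 <|
  consP Pool.Agent.H184.T5.B.p38_33_67 <|
  consP Pool.Agent.H184.T5.V.p1500 <|
  consP Pool.Agent.H184.T5.B.p12_43_63 <|
  consP Pool.Agent.H184.T5.V.p1501 <|
  consP Pool.Agent.H184.T5.B.p12_43_52 <|
  consP Pool.Agent.H184.T5.V.p303 <|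
  consP Pool.Agent.H184.T5.V.p1502 <|
  consP Pool.Agent.H184.T5.V.p312 <|
  consP Pool.Agent.H184.T5.B.p64_41_72 <|
  consP Pool.Agent.H184.T5.B.p64_41_22 <|
  consP Pool.Agent.H184.T5.B.p64_41_97 <|
  consP Pool.Agent.H184.T5.V.p323 <|
  consP Pool.Agent.H184.T5.B.p64_41_107 <|
  consP Pool.Agent.H184.T5.V.p1503 <|
  consP Pool.Agent.H184.T5.B.p39_33_67 <|
  consP Pool.Agent.H184.T5.V.p1504 <|
  consP Pool.Agent.H184.T5.B.p4_33_15 <|
  consP Pool.Agent.H184.T5.V.p1505 <|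
  consP Pool.Agent.H184.T5.V.p1506 <|
  consP Pool.Agent.H184.T5.V.p1078 <|
  consP Pool.Agent.H184.T5.V.p1507 <|
  consP Pool.Agent.H184.T5.V.p1508 <|
  consP Pool.Agent.H184.T5.V.p1129 <|
  consP Pool.Agent.H184.T5.B.p38_33_87 <|
  consP Pool.Agent.H184.T5.V.p1509 <|
  consP Pool.Agent.H184.T5.B.p7_33_67 <|
  consP Pool.Agent.H184.T5.V.p752 <|
  consP Pool.Agent.H184.T5.V.p305 <|
  consP Pool.Agent.H184.T5.B.p2_33_72 <|
  consP Pool.Agent.H184.T5.B.p64_41_85 <|
  consP Pool.Agent.H184.T5.B.p9_33_112 <|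
  consP Pool.Agent.H184.T5.V.p1510 <|
  consP Pool.Agent.H184.T5.B.p32_91_67 <|
  consP Pool.Agent.H184.T5.V.p313 <|
  consP Pool.Agent.H184.T5.V.p364 <|
  consP Pool.Agent.H184.T5.B.p4_33_95 <|
  consP Pool.Agent.H184.T5.B.p4_33_96 <|
  consP Pool.Agent.H184.T5.B.p39_33_87 <|
  consP Pool.Agent.H184.T5.V.p1511 <|
  consP Pool.Agent.H184.T5.B.p44_4_60 <|
  consP Pool.Agent.H184.T5.B.p64_41_43 <|
  consP Pool.Agent.H184.T5.B.p64_41_118 <|
  consP Pool.Agent.H184.T5.B.p14_43_61 <|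
  consP Pool.Agent.H184.T5.V.p1512 <|
  consP Pool.Agent.H184.T5.B.p4_33_24 <|
  consP Pool.Agent.H184.T5.V.p1513 <|
  consP Pool.Agent.H184.T5.B.p64_41_103 <|
  consP Pool.Agent.H184.T5.V.p296 <|
  consP Pool.Agent.H184.T5.V.p297 <|
  consP Pool.Agent.H184.T5.B.p4_33_49 <|
  consP Pool.Agent.H184.T5.B.p14_43_63 <|
  consP Pool.Agent.H184.T5.V.p1514 <|
  consP Pool.Agent.H184.T5.B.p64_41_63 <|
  consP Pool.Agent.H184.T5.V.p1515 <|
  consP Pool.Agent.H184.T5.B.p32_91_72 <|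
  consP Pool.Agent.H184.T5.B.p64_41_48 <|
  consP Pool.Agent.H184.T5.B.p64_41_123 <|
  consP Pool.Agent.H184.T5.V.p1516 <|
  consP Pool.Agent.H184.T5.B.p64_41_23 <|
  consP Pool.Agent.H184.T5.V.p315 <|
  consP Pool.Agent.H184.T5.V.p1203 <|
  consP Pool.Agent.H184.T5.V.p1517 <|
  consP Pool.Agent.H184.T5.B.p32_91_12 <|
  consP Pool.Agent.H184.T5.B.p4_33_123 <|
  consP Pool.Agent.H184.T5.B.p4_33_124 <|
  nilP

def T : List Ent :=
  [⟨6, 24, 0, 4⟩,
   ⟨8, 24, 0, 6⟩,
   ⟨9, 100, 0, 7⟩,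
   ⟨10, 100, 0, 8⟩,
   ⟨13, 24, 0, 11⟩,
   ⟨14, 100, 0, 12⟩,
   ⟨16, 100, 0, 14⟩,
   ⟨20, 100, 0, 18⟩,
   ⟨21, 100, 0, 19⟩,
   ⟨22, 24, 0, 20⟩,
   ⟨23, 100, 0, 21⟩,
   ⟨24, 43, 0, 22⟩,
   ⟨25, 43, 0, 23⟩,
   ⟨27, 100, 0, 25⟩,
   ⟨28, 100, 0, 26⟩,
   ⟨39, 100, 0, 35⟩,
   ⟨40, 24, 0, 36⟩,
   ⟨41, 100, 0, 37⟩,
   ⟨43, 100, 0, 39⟩,
   ⟨48, 24, 0, 44⟩,
   ⟨49, 43, 0, 45⟩,
   ⟨53, 100, 0, 49⟩,
   ⟨55, 100, 0, 51⟩,
   ⟨59, 100, 0, 55⟩,
   ⟨61, 100, 0, 57⟩,
   ⟨65, 24, 0, 60⟩,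
   ⟨72, 100, 0, 67⟩,
   ⟨74, 100, 0, 69⟩,
   ⟨76, 100, 1, 71⟩,
   ⟨77, 100, 1, 72⟩,
   ⟨79, 100, 1, 74⟩,
   ⟨80, 100, 0, 75⟩,
   ⟨81, 100, 0, 76⟩,
   ⟨84, 100, 0, 78⟩,
   ⟨86, 100, 0, 80⟩,
   ⟨91, 100, 0, 85⟩,
   ⟨98, 100, 0, 92⟩,
   ⟨103, 100, 1, 97⟩,
   ⟨105, 100, 0, 99⟩,
   ⟨111, 100, 0, 105⟩,
   ⟨113, 100, 0, 107⟩,
   ⟨117, 100, 0, 111⟩,
   ⟨121, 100, 0, 115⟩]

def F : List Ent :=
  [⟨1, 4, 82, 0⟩,
   ⟨2, 37, 1, 1⟩,
   ⟨3, 4, 70, 2⟩,
   ⟨5, 4, 66, 3⟩,
   ⟨7, 4, 82, 5⟩,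
   ⟨11, 4, 67, 9⟩,
   ⟨12, 4, 82, 10⟩,
   ⟨15, 4, 70, 13⟩,
   ⟨17, 4, 68, 15⟩,
   ⟨18, 37, 0, 16⟩,
   ⟨19, 4, 82, 17⟩,
   ⟨26, 4, 67, 24⟩,
   ⟨29, 4, 1, 27⟩,
   ⟨30, 4, 82, 28⟩,
   ⟨31, 4, 92, 29⟩,
   ⟨32, 4, 67, 30⟩,
   ⟨34, 4, 82, 31⟩,
   ⟨35, 4, 82, 32⟩,
   ⟨36, 4, 4, 33⟩,
   ⟨38, 4, 82, 34⟩,
   ⟨42, 4, 82, 38⟩,
   ⟨44, 37, 118, 40⟩,
   ⟨45, 4, 82, 41⟩,
   ⟨46, 4, 82, 42⟩,
   ⟨47, 4, 82, 43⟩,
   ⟨50, 4, 70, 46⟩,
   ⟨51, 4, 82, 47⟩,
   ⟨52, 4, 1, 48⟩,
   ⟨54, 37, 1, 50⟩,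
   ⟨56, 4, 90, 52⟩,
   ⟨57, 4, 92, 53⟩,
   ⟨58, 4, 10, 54⟩,
   ⟨60, 4, 11, 56⟩,
   ⟨63, 4, 95, 58⟩,
   ⟨64, 4, 118, 59⟩,
   ⟨66, 4, 92, 61⟩,
   ⟨67, 4, 82, 62⟩,
   ⟨68, 4, 82, 63⟩,
   ⟨69, 4, 82, 64⟩,
   ⟨70, 4, 82, 65⟩,
   ⟨71, 4, 82, 66⟩,
   ⟨73, 4, 10, 68⟩,
   ⟨75, 37, 1, 70⟩,
   ⟨78, 4, 7, 73⟩,
   ⟨82, 4, 6, 77⟩,
   ⟨85, 4, 10, 79⟩,
   ⟨87, 4, 80, 81⟩,
   ⟨88, 4, 70, 82⟩,
   ⟨89, 4, 82, 83⟩,
   ⟨90, 4, 68, 84⟩,
   ⟨92, 4, 3, 86⟩,
   ⟨93, 4, 82, 87⟩,
   ⟨94, 37, 106, 88⟩,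
   ⟨95, 37, 0, 89⟩,
   ⟨96, 37, 0, 90⟩,
   ⟨97, 4, 6, 91⟩,
   ⟨99, 4, 116, 93⟩,
   ⟨100, 4, 82, 94⟩,
   ⟨101, 4, 82, 95⟩,
   ⟨102, 4, 5, 96⟩,
   ⟨104, 37, 1, 98⟩,
   ⟨106, 4, 82, 100⟩,
   ⟨107, 4, 82, 101⟩,
   ⟨108, 4, 5, 102⟩,
   ⟨109, 37, 1, 103⟩,
   ⟨110, 4, 11, 104⟩,
   ⟨112, 4, 82, 106⟩,
   ⟨114, 4, 130, 108⟩,
   ⟨115, 4, 82, 109⟩,
   ⟨116, 4, 82, 110⟩,
   ⟨118, 4, 82, 112⟩,
   ⟨119, 4, 118, 113⟩,
   ⟨120, 4, 11, 114⟩,
   ⟨122, 4, 127, 116⟩,
   ⟨123, 37, 0, 117⟩,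
   ⟨124, 37, 0, 118⟩]

theorem ok : nodeOK2 autA 192 P [4, 37, 62] [0, 33, 83] T F = true := by decide +kernel

theorem t : BP 0x4000002000000010 0x800000000000200000001 := by
  have h := node2 autOK hP ok
  rw [show maskL [4, 37, 62] = 0x4000002000000010 from by decide +kernel, show maskL [0, 33, 83] = 0x800000000000200000001 from by decide +kernel] at h
  exact h

end Pool.Agent.H805.T5.N9
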