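import Mathlib
import Pool.Agent.H805.T5.Tree2
import Pool.Agent.H805.T5.Auts
import Pool.Agent.H184.T5.D.F124_33_1
import Pool.Agent.H184.T5.D.F12_43_1
import Pool.Agent.H184.T5.D.F14_43_1
import Pool.Agent.H184.T5.D.F14_43_2
import Pool.Agent.H184.T5.D.F1_91_0
import Pool.Agent.H184.T5.D.F24_43_1
import Pool.Agent.H184.T5.D.F2_33_0
import Pool.Agent.H184.T5.D.F2_33_1
import Pool.Agent.H184.T5.D.F32_91_0
import Pool.Agent.H184.T5.D.F32_91_1
import Pool.Agent.H184.T5.D.F33_91_0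
import Pool.Agent.H184.T5.D.F33_91_1
import Pool.Agent.H184.T5.D.F38_33_1
import Pool.Agent.H184.T5.D.F44_4_1
import Pool.Agent.H184.T5.D.F4_33_0
import Pool.Agent.H184.T5.D.F4_33_1
import Pool.Agent.H184.T5.D.F7_33_0
import Pool.Agent.H184.T5.D.F7_33_2
import Pool.Agent.H184.T5.D.F8_33_2
import Pool.Agent.H184.T5.D.F9_33_0
import Pool.Agent.H184.T5.D.F9_33_1
import Pool.Agent.H184.T5.D.F9_33_2
import Pool.Agent.H184.T5.D.F9_33_3
import Pool.Agent.H184.T5.D.V_000
import Pool.Agent.H184.T5.D.V_001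
import Pool.Agent.H184.T5.D.V_002
import Pool.Agent.H184.T5.D.V_003
import Pool.Agent.H184.T5.D.V_005
import Pool.Agent.H184.T5.D.V_006
import Pool.Agent.H184.T5.D.V_008
import Pool.Agent.H184.T5.D.V_010
import Pool.Agent.H184.T5.D.V_014
import Pool.Agent.H184.T5.D.V_016
import Pool.Agent.H184.T5.D.V_020
import Pool.Agent.H184.T5.D.V_021
import Pool.Agent.H805.T5.N.N2
import Pool.Agent.H805.T5.N.N9

set_option autoImplicit false
set_option maxRecDepth 20000

namespace Pool.Agent.H805.T5.N18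

open Pool.Agent.Helper582.Cube

def P : List (ℕ × ℕ) :=
  [(0x4000000200000002, 0x80000000000020000000001),
   (0x80000004000000000000004, 0x80200000001),
   (0x4000000200000008, 0x80200000000000000000001),
   (0x4000020000100010, 0x10000800000000000200000001),
   (0x4000000200000020, 0x80000000000020000000001),
   (0x100000000004000000000000200, 0x200100001),
   (0x4000000200000080, 0x80000000000020000000001),
   (0x4000000200000100, 0x80000000000020000000001),
   (0x4000020000200010, 0x10000800000000000200000001),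
   (0x4000000000000014, 0x80200000001),
   (0x4000020000000080, 0x800000000000200000001),
   (0x4000020000001010, 0x800000000000201000001),
   (0x10000000000000004000008000000000, 0x10000000000000000200000001),
   (0x4000020000400010, 0x10000800000000000200000001),
   (0x4000080000000002, 0x80200000000000000000001),
   (0x4000020000000100, 0x800000000000200000001),
   (0x4000020000002010, 0x10000800000000000200000001),
   (0x4000000000040010, 0x800000000000200000001),
   (0x4000020000800010, 0x10000800000000000200000001),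
   (0x4000020000000200, 0x800000000000200000001),
   (0x10000000000000004000004000000000, 0x800000000000000000011),
   (0x4000020000080010, 0x10000800000000000200000001),
   (0x4000020001000010, 0xa00000000000200000001),
   (0x4000020002000010, 0xa00000000000200000001),
   (0x4000000200000040, 0x80200000000000000000001),
   (0x4000000200000080, 0x80200000000000000000001),
   (0x4000030000000010, 0x10000800000000000200000001),
   (0x4000000200000200, 0x80200000000000000000001),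
   (0x4000000001000200, 0x10000000000000000200000001),
   (0x100000000004000000080000010, 0x80200100001),
   (0x4000000300000000, 0x80000000000020000000001),
   (0x4000000600000000, 0x80000000000020000000001),
   (0x4000020008000010, 0x10000800000000000200000001),
   (0x4000000080000004, 0x200100001),
   (0x4000002000000010, 0x800000000000200000001),
   (0x4000060000000010, 0x10000800000000000200000001),
   (0x4000008200000000, 0x80000000000020000000001),
   (0x4000020010000010, 0x10000800000000000200000001),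
   (0x4000040200000000, 0x80000000000020000000001),
   (0x40000a0000000010, 0x800000000000201000001),
   (0x4001020000000010, 0x10000800000000000200000001),
   (0x200004000000000000200, 0x80200000001),
   (0x200004000000400000010, 0x80200100001),
   (0x4000800200000000, 0x80000000000020000000001),
   (0x4000000001000200, 0x10000000000000020000000001),
   (0x4002000200000000, 0x80000000000020000000001),
   (0x4000000000000410, 0x80200000001),
   (0x200004000000800000010, 0x80200100001),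
   (0x800004000000000001000, 0xa0000000001),
   (0x4000000200002000, 0x80200000000000000000001),
   (0x80000004000000000004000, 0x80200000001),
   (0x4000000a00000000, 0x80200000000000000000001),
   (0x10000000000000004000000000004000, 0x80000100001),
   (0x4000002200000000, 0x80200000000000000000001),
   (0x44000020000000010, 0x800000000000201000001),
   (0x10000000000000004000800000000000, 0x200000000000000000011),
   (0x4010020000000010, 0x800000000000201000001),
   (0x200004000002000000010, 0x80200100001),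
   (0x84000020000000010, 0x10000800000000000200000001),
   (0x14000000200000000, 0x80000000000020000000001),
   (0x24000000200000000, 0x80000000000020000000001),
   (0x200004000004000000000, 0x80200000001),
   (0x100000000004000000000001000, 0x80000100001),
   (0x104000020000000010, 0x800000000000201000001),
   (0x2004000020000000010, 0x10000800000000000200000001),
   (0x200004000000000004000, 0x80200000001),
   (0x804000000200000000, 0x80000000000020000000001),
   (0x1004000000200000000, 0x80000000000020000000001),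
   (0x10000000000000004000800000000000, 0x800000000000000000011),
   (0x4004000000200000000, 0x80000000000020000000001),
   (0x4000000000008010, 0x80200000001),
   (0x80000004000000000000100, 0x80200000001),
   (0x80000004000000000000080, 0x80200000001),
   (0x10000000000000004000000000000200, 0x10000000000000000200000001),
   (0x80000004000000000000200, 0x80200000001),
   (0x4000010200000000, 0x80200000000000000000001),
   (0x200004000020000000010, 0x80200100001),
   (0x10000000000000004000000000400000, 0x10000000000000000200000001),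
   (0x80000004000020000000010, 0x800000000000201000001),
   (0x1000000004000000000000010, 0x800000000000200000001),
   (0x200004000000000020010, 0x80200100001),
   (0x44000000200000000, 0x80200000000000000000001),
   (0x8000004000020000000010, 0x10000800000000000200000001),
   (0x4000080100000000, 0x80200000000000000000001),
   (0x204000000200000000, 0x80200000000000000000001),
   (0x200004000000000040010, 0x80200100001),
   (0x10000000000000004000000000000004, 0x200100001),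
   (0x200000004000020000000010, 0x800000000000201000001),
   (0x400000004000000200100000, 0x10080000000000020000000001),
   (0x200004000000000080010, 0x100000000000000080200000001),
   (0x1000000004000000200100000, 0x10080000000000020000000001),
   (0x2000000004000000200000000, 0x80000000000020000000001),
   (0x4002000080000000, 0x200000000000000000011),
   (0x1000000000000004000100000000000, 0x800000000000000000011),
   (0x200004000000000100010, 0x100000000000000080200000001),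
   (0x200000000004000020000000010, 0x10000800000000000200000001),
   (0x800004000000000004000, 0xa0000000001),
   (0x4000000200800000, 0x80200000000000000000001),
   (0x800004000000001000000, 0xa0000000001),
   (0x10000004000000004000000000000000, 0x10000000000000000200000001),
   (0x400000000004000020000000010, 0x10000800000000000200000001),
   (0x8000000000004000020000000010, 0x800000000000201000001),
   (0x4001000200000000, 0x80200000000000000000001),
   (0x4002000200000000, 0x80200000000000000000001),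
   (0x200004000000000400010, 0x80200100001),
   (0x800000000004000020000000010, 0x800000000000201000001),
   (0x10000000000004000020000000010, 0x10000800000000000200000001),
   (0x2004000000200000000, 0x80200000000000000000001),
   (0x4000000101000000, 0x10080000000000000000000001),
   (0x800000004000000200000000, 0x80200000000000000000001),
   (0x1000000000004000020000000010, 0x10000800000000000200000001),
   (0x10000000000000004000000000020000, 0x200100001),
   (0x4000000004000000200000000, 0x80200000000000000000001),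
   (0x8000000004000000200000000, 0x80200000000000000000001),
   (0x200004000000001000000, 0x80200000001),
   (0x2000000000000004000000200000000, 0x80000000000020000000001),
   (0x10000000000000004000000100000000, 0x10080000000000000000000001),
   (0x8000000000000004000000200000000, 0x80000000000020000000001),
   (0x10000000000000004000000000000010, 0x800000000000200000001)]

theorem hP : ∀ p ∈ P, BP p.1 p.2 :=
  consP Pool.Agent.H184.T5.B.p1_91_33 <|
  consP Pool.Agent.H184.T5.B.p2_33_91 <|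
  consP Pool.Agent.H184.T5.B.p33_91_3 <|
  consP Pool.Agent.H184.T5.V.p1416 <|
  consP Pool.Agent.H184.T5.B.p33_91_5 <|
  consP Pool.Agent.H184.T5.B.p9_33_104 <|
  consP Pool.Agent.H184.T5.B.p33_91_7 <|
  consP Pool.Agent.H184.T5.B.p33_91_8 <|
  consP Pool.Agent.H184.T5.V.p679 <|
  consP Pool.Agent.H184.T5.B.p2_33_4 <|
  consP Pool.Agent.H184.T5.B.p7_33_41 <|
  consP Pool.Agent.H184.T5.V.p1417 <|
  consP Pool.Agent.H184.T5.V.p400 <|
  consP Pool.Agent.H184.T5.V.p1418 <|
  consP Pool.Agent.H184.T5.B.p1_91_43 <|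
  consP Pool.Agent.H184.T5.V.p217 <|
  consP Pool.Agent.H184.T5.V.p1419 <|
  consP Pool.Agent.H805.T5.N2.t <|
  consP Pool.Agent.H184.T5.V.p1420 <|
  consP Pool.Agent.H184.T5.B.p9_33_41 <|
  consP Pool.Agent.H184.T5.V.p225 <|
  consP Pool.Agent.H184.T5.V.p1421 <|
  consP Pool.Agent.H184.T5.V.p1422 <|
  consP Pool.Agent.H184.T5.V.p1423 <|
  consP Pool.Agent.H184.T5.V.p410 <|
  consP Pool.Agent.H184.T5.V.p198 <|
  consP Pool.Agent.H184.T5.V.p1424 <|
  consP Pool.Agent.H184.T5.B.p33_91_9 <|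
  consP Pool.Agent.H184.T5.B.p9_33_24 <|
  consP Pool.Agent.H184.T5.V.p1425 <|
  consP Pool.Agent.H184.T5.B.p32_91_33 <|
  consP Pool.Agent.H184.T5.B.p33_91_34 <|
  consP Pool.Agent.H184.T5.V.p1426 <|
  consP Pool.Agent.H184.T5.B.p2_33_31 <|
  consP Pool.Agent.H805.T5.N9.t <|
  consP Pool.Agent.H184.T5.V.p1427 <|
  consP Pool.Agent.H184.T5.B.p33_91_39 <|
  consP Pool.Agent.H184.T5.V.p1428 <|
  consP Pool.Agent.H184.T5.B.p33_91_42 <|
  consP Pool.Agent.H184.T5.V.p1429 <|
  consP Pool.Agent.H184.T5.V.p1430 <|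
  consP Pool.Agent.H184.T5.B.p9_33_81 <|
  consP Pool.Agent.H184.T5.V.p86 <|
  consP Pool.Agent.H184.T5.B.p33_91_47 <|
  consP Pool.Agent.H184.T5.V.p417 <|
  consP Pool.Agent.H184.T5.B.p33_91_49 <|
  consP Pool.Agent.H184.T5.B.p4_33_10 <|
  consP Pool.Agent.H184.T5.V.p1431 <|
  consP Pool.Agent.H184.T5.B.p12_43_83 <|
  consP Pool.Agent.H184.T5.B.p33_91_13 <|
  consP Pool.Agent.H184.T5.B.p14_43_91 <|
  consP Pool.Agent.H184.T5.B.p33_91_35 <|
  consP Pool.Agent.H184.T5.B.p14_43_124 <|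
  consP Pool.Agent.H184.T5.B.p33_91_37 <|
  consP Pool.Agent.H184.T5.V.p1432 <|
  consP Pool.Agent.H184.T5.V.p424 <|
  consP Pool.Agent.H184.T5.V.p1433 <|
  consP Pool.Agent.H184.T5.V.p1434 <|
  consP Pool.Agent.H184.T5.V.p938 <|
  consP Pool.Agent.H184.T5.B.p33_91_64 <|
  consP Pool.Agent.H184.T5.B.p33_91_65 <|
  consP Pool.Agent.H184.T5.B.p38_33_81 <|
  consP Pool.Agent.H184.T5.B.p12_43_104 <|
  consP Pool.Agent.H184.T5.V.p1435 <|
  consP Pool.Agent.H184.T5.V.p1436 <|
  consP Pool.Agent.H184.T5.B.p14_43_81 <|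
  consP Pool.Agent.H184.T5.B.p33_91_71 <|
  consP Pool.Agent.H184.T5.B.p33_91_72 <|
  consP Pool.Agent.H184.T5.V.p423 <|
  consP Pool.Agent.H184.T5.B.p33_91_74 <|
  consP Pool.Agent.H184.T5.B.p4_33_15 <|
  consP Pool.Agent.H184.T5.B.p8_33_91 <|
  consP Pool.Agent.H184.T5.B.p7_33_91 <|
  consP Pool.Agent.H184.T5.B.p9_33_124 <|
  consP Pool.Agent.H184.T5.B.p9_33_91 <|
  consP Pool.Agent.H184.T5.B.p33_91_40 <|
  consP Pool.Agent.H184.T5.V.p1134 <|
  consP Pool.Agent.H184.T5.V.p205 <|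
  consP Pool.Agent.H184.T5.V.p1437 <|
  consP Pool.Agent.H184.T5.B.p4_33_96 <|
  consP Pool.Agent.H184.T5.V.p1438 <|
  consP Pool.Agent.H184.T5.B.p33_91_66 <|
  consP Pool.Agent.H184.T5.V.p1094 <|
  consP Pool.Agent.H184.T5.B.p32_91_43 <|
  consP Pool.Agent.H184.T5.B.p33_91_69 <|
  consP Pool.Agent.H184.T5.V.p1439 <|
  consP Pool.Agent.H184.T5.B.p2_33_124 <|
  consP Pool.Agent.H184.T5.V.p1440 <|
  consP Pool.Agent.H184.T5.V.p34 <|
  consP Pool.Agent.H184.T5.V.p1441 <|
  consP Pool.Agent.H184.T5.V.p4 <|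
  consP Pool.Agent.H184.T5.B.p33_91_97 <|
  consP Pool.Agent.H184.T5.V.p364 <|
  consP Pool.Agent.H184.T5.B.p44_4_120 <|
  consP Pool.Agent.H184.T5.V.p224 <|
  consP Pool.Agent.H184.T5.V.p1442 <|
  consP Pool.Agent.H184.T5.B.p14_43_83 <|
  consP Pool.Agent.H184.T5.B.p33_91_23 <|
  consP Pool.Agent.H184.T5.B.p24_43_83 <|
  consP Pool.Agent.H184.T5.B.p124_33_98 <|
  consP Pool.Agent.H184.T5.V.p1443 <|
  consP Pool.Agent.H184.T5.V.p1444 <|
  consP Pool.Agent.H184.T5.B.p33_91_48 <|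
  consP Pool.Agent.H184.T5.V.p209 <|
  consP Pool.Agent.H184.T5.V.p533 <|
  consP Pool.Agent.H184.T5.V.p1445 <|
  consP Pool.Agent.H184.T5.V.p1446 <|
  consP Pool.Agent.H184.T5.B.p33_91_73 <|
  consP Pool.Agent.H184.T5.B.p32_91_24 <|
  consP Pool.Agent.H184.T5.B.p33_91_95 <|
  consP Pool.Agent.H184.T5.V.p1447 <|
  consP Pool.Agent.H184.T5.V.p971 <|
  consP Pool.Agent.H184.T5.B.p33_91_98 <|
  consP Pool.Agent.H184.T5.B.p33_91_99 <|
  consP Pool.Agent.H184.T5.B.p24_43_81 <|
  consP Pool.Agent.H184.T5.B.p33_91_121 <|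
  consP Pool.Agent.H184.T5.B.p32_91_124 <|
  consP Pool.Agent.H184.T5.B.p33_91_123 <|
  consP Pool.Agent.H184.T5.B.p4_33_124 <|
  nilP

def T : List Ent :=
  [⟨4, 100, 4, 3⟩,
   ⟨9, 100, 4, 8⟩,
   ⟨12, 24, 4, 11⟩,
   ⟨14, 100, 4, 13⟩,
   ⟨17, 100, 4, 16⟩,
   ⟨19, 100, 4, 18⟩,
   ⟨23, 100, 4, 21⟩,
   ⟨24, 81, 4, 22⟩,
   ⟨25, 81, 4, 23⟩,
   ⟨28, 100, 4, 26⟩,
   ⟨31, 100, 61, 29⟩,
   ⟨35, 100, 4, 32⟩,
   ⟨38, 100, 4, 35⟩,
   ⟨40, 100, 4, 37⟩,
   ⟨43, 24, 4, 39⟩,
   ⟨44, 100, 4, 40⟩,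
   ⟨46, 100, 8, 42⟩,
   ⟨51, 100, 8, 47⟩,
   ⟨58, 24, 4, 54⟩,
   ⟨60, 24, 4, 56⟩,
   ⟨61, 100, 8, 57⟩,
   ⟨63, 100, 4, 58⟩,
   ⟨68, 24, 4, 63⟩,
   ⟨69, 100, 4, 64⟩,
   ⟨81, 100, 8, 76⟩,
   ⟨83, 24, 4, 78⟩,
   ⟨85, 100, 8, 80⟩,
   ⟨87, 100, 4, 82⟩,
   ⟨90, 100, 8, 85⟩,
   ⟨93, 24, 4, 87⟩,
   ⟨94, 100, 0, 88⟩,
   ⟨95, 24, 8, 89⟩,
   ⟨96, 100, 0, 90⟩,
   ⟨100, 24, 8, 94⟩,
   ⟨101, 100, 4, 95⟩,
   ⟨106, 100, 4, 100⟩,
   ⟨107, 24, 4, 101⟩,
   ⟨110, 100, 8, 104⟩,
   ⟨111, 24, 4, 105⟩,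
   ⟨112, 100, 4, 106⟩,
   ⟨116, 100, 4, 110⟩]

def F : List Ent :=
  [⟨1, 20, 0, 0⟩,
   ⟨2, 20, 3, 1⟩,
   ⟨3, 20, 1, 2⟩,
   ⟨5, 20, 0, 4⟩,
   ⟨6, 20, 61, 5⟩,
   ⟨7, 20, 0, 6⟩,
   ⟨8, 20, 0, 7⟩,
   ⟨10, 33, 8, 9⟩,
   ⟨11, 20, 4, 10⟩,
   ⟨13, 20, 64, 12⟩,
   ⟨15, 20, 10, 14⟩,
   ⟨16, 20, 4, 15⟩,
   ⟨18, 33, 4, 17⟩,
   ⟨21, 20, 4, 19⟩,
   ⟨22, 20, 111, 20⟩,
   ⟨26, 20, 1, 24⟩,
   ⟨27, 20, 1, 25⟩,
   ⟨29, 20, 1, 27⟩,
   ⟨30, 20, 63, 28⟩,
   ⟨32, 20, 0, 30⟩,
   ⟨34, 20, 0, 31⟩,
   ⟨36, 33, 61, 33⟩,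
   ⟨37, 33, 4, 34⟩,
   ⟨39, 20, 0, 36⟩,
   ⟨42, 20, 0, 38⟩,
   ⟨45, 20, 8, 41⟩,
   ⟨47, 20, 0, 43⟩,
   ⟨48, 20, 77, 44⟩,
   ⟨49, 20, 0, 45⟩,
   ⟨50, 33, 8, 46⟩,
   ⟨52, 20, 7, 48⟩,
   ⟨53, 20, 1, 49⟩,
   ⟨54, 20, 3, 50⟩,
   ⟨55, 20, 1, 51⟩,
   ⟨56, 20, 84, 52⟩,
   ⟨57, 20, 1, 53⟩,
   ⟨59, 20, 97, 55⟩,
   ⟨64, 20, 0, 59⟩,
   ⟨65, 20, 0, 60⟩,
   ⟨66, 20, 8, 61⟩,
   ⟨67, 20, 89, 62⟩,
   ⟨70, 20, 8, 65⟩,
   ⟨71, 20, 0, 66⟩,
   ⟨72, 20, 0, 67⟩,
   ⟨73, 20, 111, 68⟩,
   ⟨74, 20, 0, 69⟩,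
   ⟨75, 33, 8, 70⟩,
   ⟨76, 20, 3, 71⟩,
   ⟨77, 20, 3, 72⟩,
   ⟨78, 20, 64, 73⟩,
   ⟨79, 20, 3, 74⟩,
   ⟨80, 20, 1, 75⟩,
   ⟨82, 20, 64, 77⟩,
   ⟨84, 33, 4, 79⟩,
   ⟨86, 20, 1, 81⟩,
   ⟨88, 20, 10, 83⟩,
   ⟨89, 20, 1, 84⟩,
   ⟨92, 20, 65, 86⟩,
   ⟨97, 20, 0, 91⟩,
   ⟨98, 33, 99, 92⟩,
   ⟨99, 20, 109, 93⟩,
   ⟨102, 20, 7, 96⟩,
   ⟨103, 20, 1, 97⟩,
   ⟨104, 20, 7, 98⟩,
   ⟨105, 20, 64, 99⟩,
   ⟨108, 20, 1, 102⟩,
   ⟨109, 20, 1, 103⟩,
   ⟨113, 20, 1, 107⟩,
   ⟨114, 20, 123, 108⟩,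
   ⟨115, 20, 1, 109⟩,
   ⟨117, 20, 65, 111⟩,
   ⟨118, 20, 1, 112⟩,
   ⟨119, 20, 1, 113⟩,
   ⟨120, 20, 8, 114⟩,
   ⟨121, 20, 0, 115⟩,
   ⟨122, 20, 124, 116⟩,
   ⟨123, 20, 0, 117⟩,
   ⟨124, 33, 4, 118⟩]

theorem ok : nodeOK2 autA 192 P [20, 33, 62] [0, 41, 91] T F = true := by decide +kernel

theorem t : BP 0x4000000200100000 0x80000000000020000000001 := by
  have h := node2 autOK hP ok
  rw [show maskL [20, 33, 62] = 0x4000000200100000 from by decide +kernel, show maskL [0, 41, 91] = 0x80000000000020000000001 from by decide +kernel] at h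
  exact h

end Pool.Agent.H805.T5.N18
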