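import Mathlib
import Pool.Agent.H805.T5.Tree2
import Pool.Agent.H805.T5.Auts
import Pool.Agent.H184.T5.D.F124_33_1
import Pool.Agent.H184.T5.D.F12_43_1
import Pool.Agent.H184.T5.D.F14_43_1
import Pool.Agent.H184.T5.D.F14_43_2
import Pool.Agent.H184.T5.D.F1_91_0
import Pool.Agent.H184.T5.D.F1_91_1
import Pool.Agent.H184.T5.D.F24_43_0
import Pool.Agent.H184.T5.D.F24_43_1
import Pool.Agent.H184.T5.D.F2_33_1
import Pool.Agent.H184.T5.D.F32_91_0
import Pool.Agent.H184.T5.D.F32_91_1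
import Pool.Agent.H184.T5.D.F33_91_0
import Pool.Agent.H184.T5.D.F33_91_1
import Pool.Agent.H184.T5.D.F38_33_1
import Pool.Agent.H184.T5.D.F39_33_1
import Pool.Agent.H184.T5.D.F44_4_1
import Pool.Agent.H184.T5.D.F49_43_1
import Pool.Agent.H184.T5.D.F64_41_0
import Pool.Agent.H184.T5.D.F64_41_1
import Pool.Agent.H184.T5.D.F64_41_2
import Pool.Agent.H184.T5.D.F7_33_0
import Pool.Agent.H184.T5.D.F7_33_2
import Pool.Agent.H184.T5.D.F8_33_2
import Pool.Agent.H184.T5.D.F9_33_0
import Pool.Agent.H184.T5.D.F9_33_1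
import Pool.Agent.H184.T5.D.F9_33_2
import Pool.Agent.H184.T5.D.F9_33_3
import Pool.Agent.H184.T5.D.V_002
import Pool.Agent.H184.T5.D.V_003
import Pool.Agent.H184.T5.D.V_005
import Pool.Agent.H184.T5.D.V_006
import Pool.Agent.H184.T5.D.V_013
import Pool.Agent.H184.T5.D.V_014
import Pool.Agent.H184.T5.D.V_018
import Pool.Agent.H805.T5.N.N0
import Pool.Agent.H805.T5.N.N18

set_option autoImplicit false
set_option maxRecDepth 20000

namespace Pool.Agent.H805.T5.N19

open Pool.Agent.Helper582.Cube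

def P : List (ℕ × ℕ) :=
  [(0xc000000000000002, 0x80000000000020000000001),
   (0x80000004000000000000004, 0x80200000001),
   (0x4000000200000008, 0x80200000000000000000001),
   (0x80000006000000000000010, 0x100000000000000080200000001),
   (0x4000000200000020, 0x80000000000020000000001),
   (0x100000000004000000000000200, 0x200100001),
   (0x4000000200000080, 0x80000000000020000000001),
   (0x4000000200000100, 0x80000000000020000000001),
   (0xc000000200000200, 0x80000000000020001000001),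
   (0x4000020000000004, 0x800000000000200000001),
   (0x4000020000000080, 0x800000000000200000001),
   (0xc000000200001000, 0x80000000000020001000001),
   (0x10000000000000004000008000000000, 0x10000000000000000200000001),
   (0xc000000200004000, 0x80000000000020001000001),
   (0x4000002000000002, 0x80200000000000000000001),
   (0x4000020000000100, 0x800000000000200000001),
   (0x14000000008000000, 0x10000000000000020000000001),
   (0xc000000200040000, 0x80000000000020001000001),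
   (0x14000000010000000, 0x10000000000000020000000001),
   (0x4000000200100000, 0x80000000000020000000001),
   (0x4000020000000200, 0x800000000000200000001),
   (0x10000000000000004000004000000000, 0x800000000000000000011),
   (0xc000000200800000, 0x80000000000020001000001),
   (0xc000000201000000, 0x80200000000020000000001),
   (0xc000000202000000, 0x80000000000020001000001),
   (0x4000000200000040, 0x80200000000000000000001),
   (0x4000000200000080, 0x80200000000000000000001),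
   (0xc000000210000000, 0x80000000000020001000001),
   (0x4000000200000200, 0x80200000000000000000001),
   (0x4000000001000200, 0x10000000000000000200000001),
   (0xc000000280000000, 0x80000000000020001000001),
   (0x4000000300000000, 0x80000000000020000000001),
   (0x4000000600000000, 0x80000000000020000000001),
   (0xc000000a00000000, 0x80000000000020001000001),
   (0xc000001200000000, 0x80000000000020001000001),
   (0x1014000000000000000, 0x20000000011),
   (0xc000004200000000, 0x80000000000020001000001),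
   (0x4000008200000000, 0x80000000000020000000001),
   (0xc000010200000000, 0x10080000000000020000000001),
   (0x4000040200000000, 0x80000000000020000000001),
   (0xc000080200000000, 0x80000000000020001000001),
   (0xc000100200000000, 0x80000000000020001000001),
   (0x200004000000000000200, 0x80200000001),
   (0xc000400200000000, 0x80000000000020001000001),
   (0x4000800200000000, 0x80000000000020000000001),
   (0x14000000000000200, 0x10000000000000020000000001),
   (0x4002000200000000, 0x80000000000020000000001),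
   (0xc004000200000000, 0x80000000000020001000001),
   (0xc008000200000000, 0x80000000000020001000001),
   (0x800004000000000001000, 0xa0000000001),
   (0x14000008000000000, 0x200100001),
   (0x80000004000000000004000, 0x80200000001),
   (0x4000000a00000000, 0x80200000000000000000001),
   (0x10000000000000004000000000004000, 0x80000100001),
   (0x4000002200000000, 0x80200000000000000000001),
   (0x5004000000001000000, 0x10000000000000020200000001),
   (0x10000000000000004000800000000000, 0x200000000000000000011),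
   (0x8000004000000000001000, 0x80200000001),
   (0x10000000000004000000000001000, 0x80000000011),
   (0x14000000200000000, 0x80000000000020000000001),
   (0x24000000200000000, 0x80000000000020000000001),
   (0x200004000004000000000, 0x80200000001),
   (0x100000000004000000000001000, 0x80000100001),
   (0x10c000000200000000, 0x80000000000020001000001),
   (0x6000008000000000, 0x80200000001),
   (0x200004000000000004000, 0x80200000001),
   (0x804000000200000000, 0x80000000000020000000001),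
   (0x1004000000200000000, 0x80000000000020000000001),
   (0x10000000000000004000800000000000, 0x800000000000000000011),
   (0x4004000000200000000, 0x80000000000020000000001),
   (0x800c000000200000000, 0x80000000000020001000001),
   (0x80000004000000000000100, 0x80200000001),
   (0x80000004000000000000080, 0x80200000001),
   (0x10000000000000004000000000000200, 0x10000000000000000200000001),
   (0x80000004000000000000200, 0x80200000001),
   (0x4000010200000000, 0x80200000000000000000001),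
   (0x20000c000000200000000, 0x80000000000020001000001),
   (0x10000000000000004000000000400000, 0x10000000000000000200000001),
   (0x100000c000000200000000, 0x80000000000020001000001),
   (0x200000c000000200000000, 0x80000000000020001000001),
   (0x44000000200000000, 0x80200000000000000000001),
   (0x10000000001004000000001000000, 0x110000000000000000200000001),
   (0x4000080100000000, 0x80200000000000000000001),
   (0x204000000200000000, 0x80200000000000000000001),
   (0x4000000c000000200000000, 0x80000000000020001000001),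
   (0x14000000000000004, 0x200100001),
   (0x20000000c000000200000000, 0x80000000000020001000001),
   (0x40000000c000000200000000, 0x80000000000020001000001),
   (0x400000000014000000000000000, 0x10000000000000020000000001),
   (0x100000000c000000200000000, 0x80000000000020001000001),
   (0x2000000004000000200000000, 0x80000000000020000000001),
   (0x400000000c000000200000000, 0x80000000000020001000001),
   (0x1004000100000000000, 0x200000000000000000011),
   (0x80000014000000000000000, 0x10000000000000020000000001),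
   (0x2000000000c000000200000000, 0x10080000000000020000000001),
   (0x800004000000000004000, 0xa0000000001),
   (0x4000000200800000, 0x80200000000000000000001),
   (0x4200000001000000, 0xa0000000001),
   (0x10000004000000004000000000000000, 0x10000000000000000200000001),
   (0x40000000000c000000200000000, 0x80000000000020001000001),
   (0x80000000000c000000200000000, 0x80000000000020001000001),
   (0x4001000200000000, 0x80200000000000000000001),
   (0x4002000200000000, 0x80200000000000000000001),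
   (0x4000014000000000000000, 0x10000000000000020000000001),
   (0x800000000000c000000200000000, 0x80000000000020001000001),
   (0x14200000000000000, 0xa0000000001),
   (0x2004000000200000000, 0x80200000000000000000001),
   (0x4000000101000000, 0x10080000000000000000000001),
   (0x800000004000000200000000, 0x80200000000000000000001),
   (0x10000000000000c000000200000000, 0x80000000000020001000001),
   (0x10000000000000004000000000020000, 0x200100001),
   (0x4000000004000000200000000, 0x80200000000000000000001),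
   (0x8000000004000000200000000, 0x80200000000000000000001),
   (0x8000004000000001000000, 0x80200000001),
   (0x8000004002000000000000, 0x80200000001),
   (0x14000000100000000, 0x80000000000000000100001),
   (0x8000000000000004000000200000000, 0x80000000000020000000001),
   (0x1000000000000000c000000200000000, 0x80000000000020001000001)]

theorem hP : ∀ p ∈ P, BP p.1 p.2 :=
  consP Pool.Agent.H184.T5.B.p1_91_63 <|
  consP Pool.Agent.H184.T5.B.p2_33_91 <|
  consP Pool.Agent.H184.T5.B.p33_91_3 <|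
  consP Pool.Agent.H184.T5.V.p933 <|
  consP Pool.Agent.H184.T5.B.p33_91_5 <|
  consP Pool.Agent.H184.T5.B.p9_33_104 <|
  consP Pool.Agent.H184.T5.B.p33_91_7 <|
  consP Pool.Agent.H184.T5.B.p33_91_8 <|
  consP Pool.Agent.H184.T5.V.p934 <|
  consP Pool.Agent.H805.T5.N0.t <|
  consP Pool.Agent.H184.T5.B.p7_33_41 <|
  consP Pool.Agent.H184.T5.V.p935 <|
  consP Pool.Agent.H184.T5.V.p400 <|
  consP Pool.Agent.H184.T5.V.p936 <|
  consP Pool.Agent.H184.T5.B.p1_91_37 <|
  consP Pool.Agent.H184.T5.V.p217 <|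
  consP Pool.Agent.H184.T5.B.p64_41_27 <|
  consP Pool.Agent.H184.T5.V.p937 <|
  consP Pool.Agent.H184.T5.B.p64_41_28 <|
  consP Pool.Agent.H805.T5.N18.t <|
  consP Pool.Agent.H184.T5.B.p9_33_41 <|
  consP Pool.Agent.H184.T5.V.p225 <|
  consP Pool.Agent.H184.T5.V.p939 <|
  consP Pool.Agent.H184.T5.V.p940 <|
  consP Pool.Agent.H184.T5.V.p941 <|
  consP Pool.Agent.H184.T5.V.p410 <|
  consP Pool.Agent.H184.T5.V.p198 <|
  consP Pool.Agent.H184.T5.V.p942 <|
  consP Pool.Agent.H184.T5.B.p33_91_9 <|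
  consP Pool.Agent.H184.T5.B.p9_33_24 <|
  consP Pool.Agent.H184.T5.V.p943 <|
  consP Pool.Agent.H184.T5.B.p32_91_33 <|
  consP Pool.Agent.H184.T5.B.p33_91_34 <|
  consP Pool.Agent.H184.T5.V.p944 <|
  consP Pool.Agent.H184.T5.V.p945 <|
  consP Pool.Agent.H184.T5.B.p64_41_72 <|
  consP Pool.Agent.H184.T5.V.p946 <|
  consP Pool.Agent.H184.T5.B.p33_91_39 <|
  consP Pool.Agent.H184.T5.V.p947 <|
  consP Pool.Agent.H184.T5.B.p33_91_42 <|
  consP Pool.Agent.H184.T5.V.p948 <|
  consP Pool.Agent.H184.T5.V.p949 <|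
  consP Pool.Agent.H184.T5.B.p9_33_81 <|
  consP Pool.Agent.H184.T5.V.p950 <|
  consP Pool.Agent.H184.T5.B.p33_91_47 <|
  consP Pool.Agent.H184.T5.B.p64_41_9 <|
  consP Pool.Agent.H184.T5.B.p33_91_49 <|
  consP Pool.Agent.H184.T5.V.p951 <|
  consP Pool.Agent.H184.T5.V.p952 <|
  consP Pool.Agent.H184.T5.B.p12_43_83 <|
  consP Pool.Agent.H184.T5.B.p39_33_64 <|
  consP Pool.Agent.H184.T5.B.p14_43_91 <|
  consP Pool.Agent.H184.T5.B.p33_91_35 <|
  consP Pool.Agent.H184.T5.B.p14_43_124 <|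
  consP Pool.Agent.H184.T5.B.p33_91_37 <|
  consP Pool.Agent.H184.T5.V.p953 <|
  consP Pool.Agent.H184.T5.V.p424 <|
  consP Pool.Agent.H184.T5.B.p12_43_87 <|
  consP Pool.Agent.H184.T5.B.p12_43_112 <|
  consP Pool.Agent.H184.T5.B.p33_91_64 <|
  consP Pool.Agent.H184.T5.B.p33_91_65 <|
  consP Pool.Agent.H184.T5.B.p38_33_81 <|
  consP Pool.Agent.H184.T5.B.p12_43_104 <|
  consP Pool.Agent.H184.T5.V.p954 <|
  consP Pool.Agent.H184.T5.B.p39_33_61 <|
  consP Pool.Agent.H184.T5.B.p14_43_81 <|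
  consP Pool.Agent.H184.T5.B.p33_91_71 <|
  consP Pool.Agent.H184.T5.B.p33_91_72 <|
  consP Pool.Agent.H184.T5.V.p423 <|
  consP Pool.Agent.H184.T5.B.p33_91_74 <|
  consP Pool.Agent.H184.T5.V.p955 <|
  consP Pool.Agent.H184.T5.B.p8_33_91 <|
  consP Pool.Agent.H184.T5.B.p7_33_91 <|
  consP Pool.Agent.H184.T5.B.p9_33_124 <|
  consP Pool.Agent.H184.T5.B.p9_33_91 <|
  consP Pool.Agent.H184.T5.B.p33_91_40 <|
  consP Pool.Agent.H184.T5.V.p956 <|
  consP Pool.Agent.H184.T5.V.p205 <|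
  consP Pool.Agent.H184.T5.V.p957 <|
  consP Pool.Agent.H184.T5.V.p958 <|
  consP Pool.Agent.H184.T5.B.p33_91_66 <|
  consP Pool.Agent.H184.T5.V.p959 <|
  consP Pool.Agent.H184.T5.B.p32_91_43 <|
  consP Pool.Agent.H184.T5.B.p33_91_69 <|
  consP Pool.Agent.H184.T5.V.p960 <|
  consP Pool.Agent.H184.T5.B.p2_33_64 <|
  consP Pool.Agent.H184.T5.V.p961 <|
  consP Pool.Agent.H184.T5.V.p962 <|
  consP Pool.Agent.H184.T5.V.p963 <|
  consP Pool.Agent.H184.T5.V.p964 <|
  consP Pool.Agent.H184.T5.B.p33_91_97 <|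
  consP Pool.Agent.H184.T5.V.p965 <|
  consP Pool.Agent.H184.T5.B.p44_4_72 <|
  consP Pool.Agent.H184.T5.B.p64_41_91 <|
  consP Pool.Agent.H184.T5.V.p966 <|
  consP Pool.Agent.H184.T5.B.p14_43_83 <|
  consP Pool.Agent.H184.T5.B.p33_91_23 <|
  consP Pool.Agent.H184.T5.B.p24_43_57 <|
  consP Pool.Agent.H184.T5.B.p124_33_98 <|
  consP Pool.Agent.H184.T5.V.p967 <|
  consP Pool.Agent.H184.T5.V.p968 <|
  consP Pool.Agent.H184.T5.B.p33_91_48 <|
  consP Pool.Agent.H184.T5.V.p209 <|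
  consP Pool.Agent.H184.T5.B.p64_41_86 <|
  consP Pool.Agent.H184.T5.V.p969 <|
  consP Pool.Agent.H184.T5.B.p64_41_57 <|
  consP Pool.Agent.H184.T5.B.p33_91_73 <|
  consP Pool.Agent.H184.T5.B.p32_91_24 <|
  consP Pool.Agent.H184.T5.B.p33_91_95 <|
  consP Pool.Agent.H184.T5.V.p970 <|
  consP Pool.Agent.H184.T5.V.p971 <|
  consP Pool.Agent.H184.T5.B.p33_91_98 <|
  consP Pool.Agent.H184.T5.B.p33_91_99 <|
  consP Pool.Agent.H184.T5.B.p24_43_87 <|
  consP Pool.Agent.H184.T5.B.p49_43_87 <|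
  consP Pool.Agent.H184.T5.B.p32_91_64 <|
  consP Pool.Agent.H184.T5.B.p33_91_123 <|
  consP Pool.Agent.H184.T5.V.p1234 <|
  nilP

def T : List Ent :=
  [⟨4, 24, 3, 3⟩,
   ⟨9, 24, 0, 8⟩,
   ⟨12, 24, 0, 11⟩,
   ⟨14, 24, 0, 13⟩,
   ⟨18, 24, 0, 17⟩,
   ⟨23, 24, 0, 22⟩,
   ⟨24, 81, 0, 23⟩,
   ⟨25, 24, 0, 24⟩,
   ⟨28, 24, 0, 27⟩,
   ⟨31, 24, 0, 30⟩,
   ⟨35, 24, 0, 33⟩,
   ⟨36, 24, 0, 34⟩,
   ⟨38, 24, 0, 36⟩,
   ⟨40, 100, 0, 38⟩,
   ⟨43, 24, 0, 40⟩,
   ⟨44, 24, 0, 41⟩,
   ⟨46, 24, 0, 43⟩,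
   ⟨50, 24, 0, 47⟩,
   ⟨51, 24, 0, 48⟩,
   ⟨58, 24, 63, 55⟩,
   ⟨68, 24, 0, 63⟩,
   ⟨75, 24, 0, 70⟩,
   ⟨81, 24, 0, 76⟩,
   ⟨84, 24, 0, 78⟩,
   ⟨85, 24, 0, 79⟩,
   ⟨87, 81, 63, 81⟩,
   ⟨90, 24, 0, 84⟩,
   ⟨93, 24, 0, 86⟩,
   ⟨94, 24, 0, 87⟩,
   ⟨96, 24, 0, 89⟩,
   ⟨98, 24, 0, 91⟩,
   ⟨101, 100, 0, 94⟩,
   ⟨106, 24, 0, 99⟩,
   ⟨107, 24, 0, 100⟩,
   ⟨111, 24, 0, 104⟩,
   ⟨116, 24, 0, 109⟩,
   ⟨124, 24, 0, 117⟩]

def F : List Ent :=
  [⟨1, 33, 0, 0⟩,
   ⟨2, 63, 3, 1⟩,
   ⟨3, 63, 1, 2⟩,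
   ⟨5, 63, 0, 4⟩,
   ⟨6, 63, 61, 5⟩,
   ⟨7, 63, 0, 6⟩,
   ⟨8, 63, 0, 7⟩,
   ⟨10, 63, 4, 9⟩,
   ⟨11, 63, 4, 10⟩,
   ⟨13, 63, 64, 12⟩,
   ⟨15, 33, 10, 14⟩,
   ⟨16, 63, 4, 15⟩,
   ⟨17, 33, 77, 16⟩,
   ⟨19, 33, 77, 18⟩,
   ⟨20, 63, 0, 19⟩,
   ⟨21, 63, 4, 20⟩,
   ⟨22, 63, 111, 21⟩,
   ⟨26, 63, 1, 25⟩,
   ⟨27, 63, 1, 26⟩,
   ⟨29, 63, 1, 28⟩,
   ⟨30, 63, 63, 29⟩,
   ⟨32, 63, 0, 31⟩,
   ⟨34, 63, 0, 32⟩,
   ⟨37, 33, 75, 35⟩,
   ⟨39, 63, 0, 37⟩,
   ⟨42, 63, 0, 39⟩,
   ⟨45, 63, 8, 42⟩,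
   ⟨47, 63, 0, 44⟩,
   ⟨48, 33, 77, 45⟩,
   ⟨49, 63, 0, 46⟩,
   ⟨52, 63, 7, 49⟩,
   ⟨53, 33, 65, 50⟩,
   ⟨54, 63, 3, 51⟩,
   ⟨55, 63, 1, 52⟩,
   ⟨56, 63, 84, 53⟩,
   ⟨57, 63, 1, 54⟩,
   ⟨59, 63, 97, 56⟩,
   ⟨60, 33, 8, 57⟩,
   ⟨61, 33, 85, 58⟩,
   ⟨64, 63, 0, 59⟩,
   ⟨65, 63, 0, 60⟩,
   ⟨66, 63, 8, 61⟩,
   ⟨67, 63, 89, 62⟩,
   ⟨69, 33, 3, 64⟩,
   ⟨70, 63, 8, 65⟩,
   ⟨71, 63, 0, 66⟩,
   ⟨72, 63, 0, 67⟩,
   ⟨73, 63, 111, 68⟩,
   ⟨74, 63, 0, 69⟩,
   ⟨76, 63, 3, 71⟩,
   ⟨77, 63, 3, 72⟩,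
   ⟨78, 63, 64, 73⟩,
   ⟨79, 63, 3, 74⟩,
   ⟨80, 63, 1, 75⟩,
   ⟨82, 63, 64, 77⟩,
   ⟨83, 33, 10, 54⟩,
   ⟨86, 63, 1, 80⟩,
   ⟨88, 63, 10, 82⟩,
   ⟨89, 63, 1, 83⟩,
   ⟨92, 33, 65, 85⟩,
   ⟨95, 33, 77, 88⟩,
   ⟨97, 63, 0, 90⟩,
   ⟨99, 33, 99, 92⟩,
   ⟨100, 33, 77, 93⟩,
   ⟨102, 63, 7, 95⟩,
   ⟨103, 63, 1, 96⟩,
   ⟨104, 33, 7, 97⟩,
   ⟨105, 63, 64, 98⟩,
   ⟨108, 63, 1, 101⟩,
   ⟨109, 63, 1, 102⟩,
   ⟨110, 33, 77, 103⟩,
   ⟨112, 33, 7, 105⟩,
   ⟨113, 63, 1, 106⟩,
   ⟨114, 63, 123, 107⟩,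
   ⟨115, 63, 1, 108⟩,
   ⟨117, 63, 65, 110⟩,
   ⟨118, 63, 1, 111⟩,
   ⟨119, 63, 1, 112⟩,
   ⟨120, 33, 8, 113⟩,
   ⟨121, 33, 8, 114⟩,
   ⟨122, 33, 125, 115⟩,
   ⟨123, 63, 0, 116⟩]

theorem ok : nodeOK2 autA 192 P [33, 62, 63] [0, 41, 91] T F = true := by decide +kernel

theorem t : BP 0xc000000200000000 0x80000000000020000000001 := by
  have h := node2 autOK hP ok
  rw [show maskL [33, 62, 63] = 0xc000000200000000 from by decide +kernel, show maskL [0, 41, 91] = 0x80000000000020000000001 from by decide +kernel] at h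
  exact h

end Pool.Agent.H805.T5.N19
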