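import Mathlib
import Pool.Agent.H805.T5.Tree2
import Pool.Agent.H805.T5.Auts
import Pool.Agent.H184.T5.D.F12_43_0
import Pool.Agent.H184.T5.D.F12_43_1
import Pool.Agent.H184.T5.D.F14_43_0
import Pool.Agent.H184.T5.D.F14_43_1
import Pool.Agent.H184.T5.D.F14_43_2
import Pool.Agent.H184.T5.D.F1_91_0
import Pool.Agent.H184.T5.D.F24_43_0
import Pool.Agent.H184.T5.D.F2_33_0
import Pool.Agent.H184.T5.D.F32_91_0
import Pool.Agent.H184.T5.D.F32_91_1
import Pool.Agent.H184.T5.D.F33_91_0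
import Pool.Agent.H184.T5.D.F34_33_0
import Pool.Agent.H184.T5.D.F34_33_1
import Pool.Agent.H184.T5.D.F38_33_1
import Pool.Agent.H184.T5.D.F4_33_0
import Pool.Agent.H184.T5.D.F4_33_1
import Pool.Agent.H184.T5.D.F64_41_2
import Pool.Agent.H184.T5.D.F7_33_0
import Pool.Agent.H184.T5.D.F8_33_0
import Pool.Agent.H184.T5.D.F8_33_1
import Pool.Agent.H184.T5.D.F9_33_0
import Pool.Agent.H184.T5.D.F9_33_1
import Pool.Agent.H184.T5.D.V_000
import Pool.Agent.H184.T5.D.V_001

set_option autoImplicit false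
set_option maxRecDepth 20000

namespace Pool.Agent.H805.T5.N20

open Pool.Agent.Helper582.Cube

def P : List (ℕ × ℕ) :=
  [(0x400000004000000000000002, 0x10080000000000000000000001),
   (0x4000000400000004, 0x200100001),
   (0x4000000400000002, 0x80200000001),
   (0x80000004000000000000010, 0x10000000000000000200000001),
   (0x400000004000000200000020, 0x80200000000000000100001),
   (0x4000000400040000, 0x200100001),
   (0x4000000400020000, 0x200100001),
   (0x4000000400010000, 0x200100001),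
   (0x4000000400080000, 0x200100001),
   (0x8004000004000000000, 0x80200000001),
   (0x4000000400002000, 0x200100001),
   (0x4000100000001000, 0x80000100001),
   (0x4000000400000800, 0x200100001),
   (0x4000000400004000, 0x200100001),
   (0x4000000000000102, 0x800000000000200000001),
   (0x4000000400000100, 0x200100001),
   (0x4000000000000082, 0x800000000000200000001),
   (0x4000000000000202, 0x800000000000200000001),
   (0x4000000400000200, 0x200100001),
   (0x8004000000000000100, 0x80200000001),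
   (0x4000000400400000, 0x200100001),
   (0x400000004000000200800000, 0x80200000000000000100001),
   (0x1000000004000000200100000, 0x10080000000000020000000001),
   (0x4000000400008000, 0x10000000000000000200000001),
   (0x4000000400040000, 0x10000000000000000200000001),
   (0x4000000400020000, 0x10000000000000000200000001),
   (0x400000004000000210000000, 0x80200000000000000100001),
   (0x400000004000000220000000, 0x80200000000000000100001),
   (0x40000004000000400000000, 0x200100001),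
   (0x8004000000001000000, 0x80200000001),
   (0x400000004000000100000000, 0x10080000000000000000000001),
   (0x400000004000000400000000, 0x200100001),
   (0x24000000400000000, 0x10000000000000000200000001),
   (0x400000004000001200000000, 0x80200000000000000100001),
   (0x84000000400000000, 0x10000000000000000200000001),
   (0x4000004200000000, 0x80000000000000000100001),
   (0x400000004000008200000000, 0x80200000000000000100001),
   (0x4000000000008200, 0x800000000000200000001),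
   (0x10000000000000004000000000000010, 0x800000000000200000001),
   (0x4000040400000000, 0x10000000000000000200000001),
   (0x400000004000080200000000, 0x10080000000000000000100001),
   (0x10000000000000004000000000080000, 0x800000000000200000001),
   (0x800000004000000400000000, 0x200100001),
   (0x8004000000000000200, 0x80200000001),
   (0x2000000004000000400000000, 0x200100001),
   (0x1000000004000000400000000, 0x200100001),
   (0x400000004002000200000000, 0x80200000000000000100001),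
   (0x4000000400000400, 0x10000000000000000200000001),
   (0x4000000400002000, 0x10000000000000000200000001),
   (0x100000000000014000000000000000, 0x20000000011),
   (0x4000008000000002, 0x800000000000200000001),
   (0x400000004040000200000000, 0x80200000000000000100001),
   (0x24000000400000000, 0x200100001),
   (0x8004000000000004000, 0xa0000000001),
   (0x400000004200000200000000, 0x80200000000000000100001),
   (0x1000000004000000100000000, 0x10080000000000000000000001),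
   (0x204000000400000000, 0x200100001),
   (0x400000000000004000000000001000, 0x80000000011),
   (0x8004000000000001000, 0xa0000000001),
   (0x6000000400000000, 0x10000000000000000200000001),
   (0x400000014000000200000000, 0x80200000000000000100001),
   (0x4000000000008080, 0x800000000000200000001),
   (0x4000000000008004, 0x800000000000200000001),
   (0x4000002400000000, 0x10000000000000000200000001),
   (0x4000001400000000, 0x10000000000000000200000001),
   (0x4000008400000000, 0x10000000000000000200000001),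
   (0x4001000000000004, 0x10000000000000000200000001),
   (0x8004000000000000080, 0x80200000001),
   (0x1004000000400000000, 0x200100001),
   (0x804000000400000000, 0x200100001),
   (0x4004000000400000000, 0x200100001),
   (0x400008004000000200000000, 0x80200000000000000100001),
   (0x400010004000000200000000, 0x10080000000000000000100001),
   (0x400020004000000200000000, 0x80200000000000000100001),
   (0x4000000000000202, 0x80200000001),
   (0x4000000400000200, 0x10000000000000000200000001),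
   (0x40000004000100000000000, 0x10000000000000020000000001),
   (0x400200004000000200000000, 0x80000000000000001100001),
   (0x4000000000004020, 0xa0000000001),
   (0x4000000001000002, 0x80200000001),
   (0x4000100200000000, 0x10080000000000000000000001),
   (0x4000000c00000000, 0x200100001),
   (0x4000004400000000, 0x200100001),
   (0x4000000000001002, 0x80200000001),
   (0x410000004000000200000000, 0x80200000000000000100001),
   (0x4000008400000000, 0x200100001),
   (0x400000000000000a, 0x80000000000020000000001),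
   (0x4000000000000006, 0x80200000001),
   (0xc00000004000000200000000, 0x80200000000000000100001),
   (0x4001000400000000, 0x200100001),
   (0x4000800400000000, 0x200100001),
   (0x4000400400000000, 0x200100001),
   (0x4002000400000000, 0x200100001),
   (0x400000004000000200100000, 0x10080000000000020000000001),
   (0x4000000400800000, 0x10000000000000000200000001),
   (0x4000000000000004000100000000000, 0x10000000000000020000000001),
   (0x4000000400200000, 0x10000000000000000200000001),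
   (0x4000000200000020, 0x80000000000020000000001),
   (0x800000004000000400000000, 0x10000000000000000200000001),
   (0x2000000004000000400000000, 0x10000000000000000200000001),
   (0x1000000004000000400000000, 0x10000000000000000200000001),
   (0x8000000004000000400000000, 0x10000000000000000200000001),
   (0x400000000000004000000000004000, 0x80000100001),
   (0x8000400000004000000200000000, 0x80200000000000000100001),
   (0x10000400000004000000200000000, 0x80200000000000000100001),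
   (0x804000000400000000, 0x10000000000000000200000001),
   (0x40000400000004000000200000000, 0x80200000000000000100001),
   (0x4000200400000000, 0x10000000000000000200000001),
   (0x100000400000004000000200000000, 0x80200000000000000100001),
   (0x200000400000004000000200000000, 0x80200000000000000100001),
   (0x800000400000004000000200000000, 0x80000000000100000100001),
   (0x4001000000000200, 0x10000000000000000200000001),
   (0x4000000100000008, 0x80000000000020000000001),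
   (0x2000000000000004000000400000000, 0x200100001),
   (0x4000000200000008, 0x80200000000000000000001)]

theorem hP : ∀ p ∈ P, BP p.1 p.2 :=
  consP Pool.Agent.H184.T5.V.p0 <|
  consP Pool.Agent.H184.T5.B.p2_33_34 <|
  consP Pool.Agent.H184.T5.B.p34_33_1 <|
  consP Pool.Agent.H184.T5.B.p4_33_91 <|
  consP Pool.Agent.H184.T5.V.p1 <|
  consP Pool.Agent.H184.T5.B.p34_33_18 <|
  consP Pool.Agent.H184.T5.B.p34_33_17 <|
  consP Pool.Agent.H184.T5.B.p34_33_16 <|
  consP Pool.Agent.H184.T5.B.p34_33_19 <|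
  consP Pool.Agent.H184.T5.B.p38_33_75 <|
  consP Pool.Agent.H184.T5.B.p34_33_13 <|
  consP Pool.Agent.H184.T5.B.p12_43_44 <|
  consP Pool.Agent.H184.T5.B.p34_33_11 <|
  consP Pool.Agent.H184.T5.B.p34_33_14 <|
  consP Pool.Agent.H184.T5.B.p8_33_1 <|
  consP Pool.Agent.H184.T5.B.p8_33_34 <|
  consP Pool.Agent.H184.T5.B.p7_33_1 <|
  consP Pool.Agent.H184.T5.B.p9_33_1 <|
  consP Pool.Agent.H184.T5.V.p2 <|
  consP Pool.Agent.H184.T5.B.p8_33_75 <|
  consP Pool.Agent.H184.T5.B.p34_33_22 <|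
  consP Pool.Agent.H184.T5.V.p3 <|
  consP Pool.Agent.H184.T5.V.p4 <|
  consP Pool.Agent.H184.T5.B.p34_33_15 <|
  consP Pool.Agent.H184.T5.V.p5 <|
  consP Pool.Agent.H184.T5.V.p6 <|
  consP Pool.Agent.H184.T5.V.p7 <|
  consP Pool.Agent.H184.T5.V.p8 <|
  consP Pool.Agent.H184.T5.B.p34_33_90 <|
  consP Pool.Agent.H184.T5.B.p24_43_75 <|
  consP Pool.Agent.H184.T5.B.p32_91_94 <|
  consP Pool.Agent.H184.T5.B.p34_33_94 <|
  consP Pool.Agent.H184.T5.B.p34_33_65 <|
  consP Pool.Agent.H184.T5.V.p9 <|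
  consP Pool.Agent.H184.T5.B.p34_33_67 <|
  consP Pool.Agent.H184.T5.B.p33_91_38 <|
  consP Pool.Agent.H184.T5.V.p10 <|
  consP Pool.Agent.H184.T5.B.p9_33_15 <|
  consP Pool.Agent.H184.T5.B.p4_33_124 <|
  consP Pool.Agent.H184.T5.V.p11 <|
  consP Pool.Agent.H184.T5.V.p12 <|
  consP Pool.Agent.H184.T5.V.p13 <|
  consP Pool.Agent.H184.T5.B.p34_33_95 <|
  consP Pool.Agent.H184.T5.B.p9_33_75 <|
  consP Pool.Agent.H184.T5.B.p34_33_97 <|
  consP Pool.Agent.H184.T5.B.p34_33_96 <|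
  consP Pool.Agent.H184.T5.V.p14 <|
  consP Pool.Agent.H184.T5.B.p34_33_10 <|
  consP Pool.Agent.H184.T5.V.p15 <|
  consP Pool.Agent.H184.T5.B.p64_41_116 <|
  consP Pool.Agent.H184.T5.V.p16 <|
  consP Pool.Agent.H184.T5.V.p17 <|
  consP Pool.Agent.H184.T5.V.p18 <|
  consP Pool.Agent.H184.T5.B.p14_43_75 <|
  consP Pool.Agent.H184.T5.V.p19 <|
  consP Pool.Agent.H184.T5.B.p32_91_96 <|
  consP Pool.Agent.H184.T5.B.p34_33_69 <|
  consP Pool.Agent.H184.T5.B.p12_43_118 <|
  consP Pool.Agent.H184.T5.B.p12_43_75 <|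
  consP Pool.Agent.H184.T5.B.p34_33_61 <|
  consP Pool.Agent.H184.T5.V.p20 <|
  consP Pool.Agent.H184.T5.B.p7_33_15 <|
  consP Pool.Agent.H184.T5.B.p2_33_15 <|
  consP Pool.Agent.H184.T5.V.p21 <|
  consP Pool.Agent.H184.T5.V.p22 <|
  consP Pool.Agent.H184.T5.V.p23 <|
  consP Pool.Agent.H184.T5.B.p2_33_48 <|
  consP Pool.Agent.H184.T5.V.p24 <|
  consP Pool.Agent.H184.T5.B.p34_33_72 <|
  consP Pool.Agent.H184.T5.V.p25 <|
  consP Pool.Agent.H184.T5.B.p34_33_74 <|
  consP Pool.Agent.H184.T5.V.p26 <|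
  consP Pool.Agent.H184.T5.V.p27 <|
  consP Pool.Agent.H184.T5.V.p28 <|
  consP Pool.Agent.H184.T5.V.p29 <|
  consP Pool.Agent.H184.T5.B.p9_33_34 <|
  consP Pool.Agent.H184.T5.V.p30 <|
  consP Pool.Agent.H184.T5.V.p116 <|
  consP Pool.Agent.H184.T5.B.p14_43_5 <|
  consP Pool.Agent.H184.T5.B.p24_43_1 <|
  consP Pool.Agent.H184.T5.B.p33_91_44 <|
  consP Pool.Agent.H184.T5.V.p31 <|
  consP Pool.Agent.H184.T5.B.p34_33_38 <|
  consP Pool.Agent.H184.T5.B.p12_43_1 <|
  consP Pool.Agent.H184.T5.V.p32 <|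
  consP Pool.Agent.H184.T5.B.p34_33_39 <|
  consP Pool.Agent.H184.T5.B.p1_91_3 <|
  consP Pool.Agent.H184.T5.B.p2_33_1 <|
  consP Pool.Agent.H184.T5.V.p33 <|
  consP Pool.Agent.H184.T5.B.p34_33_48 <|
  consP Pool.Agent.H184.T5.B.p34_33_47 <|
  consP Pool.Agent.H184.T5.B.p34_33_46 <|
  consP Pool.Agent.H184.T5.B.p34_33_49 <|
  consP Pool.Agent.H184.T5.V.p34 <|
  consP Pool.Agent.H184.T5.V.p35 <|
  consP Pool.Agent.H184.T5.V.p36 <|
  consP Pool.Agent.H184.T5.B.p34_33_21 <|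
  consP Pool.Agent.H184.T5.B.p33_91_5 <|
  consP Pool.Agent.H184.T5.V.p37 <|
  consP Pool.Agent.H184.T5.V.p38 <|
  consP Pool.Agent.H184.T5.V.p39 <|
  consP Pool.Agent.H184.T5.B.p34_33_99 <|
  consP Pool.Agent.H184.T5.B.p14_43_118 <|
  consP Pool.Agent.H184.T5.V.p40 <|
  consP Pool.Agent.H184.T5.V.p41 <|
  consP Pool.Agent.H184.T5.B.p34_33_71 <|
  consP Pool.Agent.H184.T5.V.p42 <|
  consP Pool.Agent.H184.T5.B.p34_33_45 <|
  consP Pool.Agent.H184.T5.V.p43 <|
  consP Pool.Agent.H184.T5.V.p44 <|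
  consP Pool.Agent.H184.T5.V.p45 <|
  consP Pool.Agent.H184.T5.B.p9_33_48 <|
  consP Pool.Agent.H184.T5.B.p32_91_3 <|
  consP Pool.Agent.H184.T5.B.p34_33_121 <|
  consP Pool.Agent.H184.T5.B.p33_91_3 <|
  nilP

def T : List Ent :=
  [⟨5, 81, 0, 4⟩,
   ⟨23, 81, 0, 21⟩,
   ⟨24, 81, 154, 22⟩,
   ⟨28, 81, 0, 26⟩,
   ⟨29, 81, 0, 27⟩,
   ⟨36, 81, 0, 33⟩,
   ⟨39, 81, 0, 36⟩,
   ⟨43, 100, 0, 40⟩,
   ⟨49, 81, 0, 46⟩,
   ⟨54, 81, 0, 51⟩,
   ⟨57, 81, 0, 54⟩,
   ⟨64, 81, 0, 60⟩,
   ⟨75, 81, 0, 71⟩,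
   ⟨76, 100, 0, 72⟩,
   ⟨77, 81, 0, 73⟩,
   ⟨81, 24, 0, 77⟩,
   ⟨88, 81, 0, 84⟩,
   ⟨95, 81, 0, 88⟩,
   ⟨100, 81, 1, 93⟩,
   ⟨111, 81, 0, 103⟩,
   ⟨112, 81, 0, 104⟩,
   ⟨114, 81, 0, 106⟩,
   ⟨116, 81, 0, 108⟩,
   ⟨117, 81, 0, 109⟩,
   ⟨119, 44, 0, 110⟩]

def F : List Ent :=
  [⟨1, 33, 1, 0⟩,
   ⟨2, 33, 2, 1⟩,
   ⟨3, 33, 64, 2⟩,
   ⟨4, 94, 3, 3⟩,
   ⟨6, 33, 2, 5⟩,
   ⟨7, 33, 2, 6⟩,
   ⟨8, 33, 2, 7⟩,
   ⟨9, 33, 2, 8⟩,
   ⟨10, 33, 85, 9⟩,
   ⟨11, 33, 2, 10⟩,
   ⟨12, 33, 30, 11⟩,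
   ⟨13, 33, 2, 12⟩,
   ⟨14, 33, 2, 13⟩,
   ⟨15, 33, 65, 14⟩,
   ⟨16, 33, 2, 15⟩,
   ⟨17, 33, 65, 16⟩,
   ⟨18, 33, 65, 17⟩,
   ⟨19, 33, 2, 18⟩,
   ⟨21, 33, 85, 19⟩,
   ⟨22, 33, 2, 20⟩,
   ⟨25, 33, 3, 23⟩,
   ⟨26, 33, 3, 24⟩,
   ⟨27, 33, 3, 25⟩,
   ⟨30, 33, 2, 28⟩,
   ⟨31, 33, 85, 29⟩,
   ⟨32, 33, 1, 30⟩,
   ⟨34, 33, 2, 31⟩,
   ⟨35, 33, 3, 32⟩,
   ⟨37, 33, 3, 34⟩,
   ⟨38, 94, 0, 35⟩,
   ⟨40, 33, 111, 37⟩,
   ⟨41, 94, 111, 38⟩,
   ⟨42, 33, 3, 39⟩,
   ⟨44, 94, 111, 41⟩,
   ⟨45, 33, 2, 42⟩,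
   ⟨46, 33, 85, 43⟩,
   ⟨47, 33, 2, 44⟩,
   ⟨48, 33, 2, 45⟩,
   ⟨50, 33, 3, 47⟩,
   ⟨51, 33, 3, 48⟩,
   ⟨52, 33, 20, 49⟩,
   ⟨53, 33, 65, 50⟩,
   ⟨55, 33, 2, 52⟩,
   ⟨56, 33, 84, 53⟩,
   ⟨58, 33, 154, 55⟩,
   ⟨59, 33, 2, 56⟩,
   ⟨60, 33, 8, 57⟩,
   ⟨61, 33, 84, 58⟩,
   ⟨63, 33, 3, 59⟩,
   ⟨65, 33, 111, 61⟩,
   ⟨66, 33, 111, 62⟩,
   ⟨67, 33, 3, 63⟩,
   ⟨68, 33, 3, 64⟩,
   ⟨69, 33, 3, 65⟩,
   ⟨70, 33, 152, 66⟩,
   ⟨71, 33, 85, 67⟩,
   ⟨72, 33, 2, 68⟩,
   ⟨73, 33, 2, 69⟩,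
   ⟨74, 33, 2, 70⟩,
   ⟨78, 33, 64, 74⟩,
   ⟨79, 33, 3, 75⟩,
   ⟨80, 33, 148, 76⟩,
   ⟨82, 33, 74, 78⟩,
   ⟨83, 33, 64, 79⟩,
   ⟨84, 94, 1, 80⟩,
   ⟨85, 33, 2, 81⟩,
   ⟨86, 33, 2, 82⟩,
   ⟨87, 33, 64, 83⟩,
   ⟨89, 33, 2, 85⟩,
   ⟨90, 33, 125, 86⟩,
   ⟨92, 33, 64, 87⟩,
   ⟨93, 94, 65, 38⟩,
   ⟨96, 33, 2, 89⟩,
   ⟨97, 33, 2, 90⟩,
   ⟨98, 33, 2, 91⟩,
   ⟨99, 33, 2, 92⟩,
   ⟨101, 33, 3, 94⟩,
   ⟨102, 33, 148, 95⟩,
   ⟨103, 33, 3, 96⟩,
   ⟨104, 33, 75, 97⟩,
   ⟨105, 33, 3, 98⟩,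
   ⟨106, 94, 154, 80⟩,
   ⟨107, 33, 3, 99⟩,
   ⟨108, 33, 3, 100⟩,
   ⟨109, 33, 3, 101⟩,
   ⟨110, 33, 9, 102⟩,
   ⟨113, 33, 3, 105⟩,
   ⟨115, 33, 3, 107⟩,
   ⟨118, 94, 65, 41⟩,
   ⟨120, 94, 152, 3⟩,
   ⟨121, 33, 152, 111⟩,
   ⟨122, 33, 125, 112⟩,
   ⟨123, 33, 2, 113⟩,
   ⟨124, 33, 124, 114⟩]

theorem ok : nodeOK2 autA 192 P [33, 62, 94] [0, 20, 91] T F = true := by decide +kernel

theorem t : BP 0x400000004000000200000000 0x80000000000000000100001 := by
  have h := node2 autOK hP ok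
  rw [show maskL [33, 62, 94] = 0x400000004000000200000000 from by decide +kernel, show maskL [0, 20, 91] = 0x80000000000000000100001 from by decide +kernel] at h
  exact h

end Pool.Agent.H805.T5.N20
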