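import Mathlib
import Pool.Agent.H805.T5.Tree2
import Pool.Agent.H805.T5.Auts
import Pool.Agent.H184.T5.D.F12_43_0
import Pool.Agent.H184.T5.D.F12_43_1
import Pool.Agent.H184.T5.D.F14_43_0
import Pool.Agent.H184.T5.D.F14_43_2
import Pool.Agent.H184.T5.D.F1_91_0
import Pool.Agent.H184.T5.D.F1_91_1
import Pool.Agent.H184.T5.D.F24_43_0
import Pool.Agent.H184.T5.D.F24_43_1
import Pool.Agent.H184.T5.D.F2_33_0
import Pool.Agent.H184.T5.D.F2_33_1
import Pool.Agent.H184.T5.D.F32_91_0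
import Pool.Agent.H184.T5.D.F32_91_1
import Pool.Agent.H184.T5.D.F33_91_0
import Pool.Agent.H184.T5.D.F34_33_0
import Pool.Agent.H184.T5.D.F34_33_1
import Pool.Agent.H184.T5.D.F38_33_1
import Pool.Agent.H184.T5.D.F39_33_1
import Pool.Agent.H184.T5.D.F44_4_1
import Pool.Agent.H184.T5.D.F49_43_1
import Pool.Agent.H184.T5.D.F64_41_0
import Pool.Agent.H184.T5.D.F64_41_1
import Pool.Agent.H184.T5.D.F64_41_2
import Pool.Agent.H184.T5.D.F7_33_0
import Pool.Agent.H184.T5.D.F8_33_0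
import Pool.Agent.H184.T5.D.F8_33_1
import Pool.Agent.H184.T5.D.F9_33_0
import Pool.Agent.H184.T5.D.F9_33_1
import Pool.Agent.H184.T5.D.V_000
import Pool.Agent.H184.T5.D.V_003
import Pool.Agent.H184.T5.D.V_004
import Pool.Agent.H184.T5.D.V_005
import Pool.Agent.H184.T5.D.V_014
import Pool.Agent.H805.T5.N.N1
import Pool.Agent.H805.T5.N.N20
import Pool.Agent.H805.T5.N.N7

set_option autoImplicit false
set_option maxRecDepth 20000

namespace Pool.Agent.H805.T5.N22

open Pool.Agent.Helper582.Cube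

def P : List (ℕ × ℕ) :=
  [(0x4000000400000002, 0x80200000001),
   (0x14000000000000004, 0x200100001),
   (0x400000004000000000000002, 0x10080000000000000000000001),
   (0x4000000400000010, 0x200100001),
   (0x4000000000000102, 0x800000000000200000001),
   (0x14000000010000000, 0x10000000000000020000000001),
   (0x14000000008000000, 0x10000000000000020000000001),
   (0x4000002000000002, 0x80200000000000000000001),
   (0x4000000400000200, 0x200100001),
   (0x8004000004000000000, 0x80200000001),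
   (0x6000008000000000, 0x80200000001),
   (0x4000100000001000, 0x80000100001),
   (0x4000000400002000, 0x200100001),
   (0x4000000400004000, 0x200100001),
   (0x14000000400008000, 0x201100001),
   (0x4000000400010000, 0x200100001),
   (0x4000000400020000, 0x200100001),
   (0x4000000400040000, 0x200100001),
   (0x4000000400080000, 0x200100001),
   (0x14000000400200000, 0x80200100001),
   (0x4000000400400000, 0x200100001),
   (0x8004000000000000100, 0x80200000001),
   (0x14000000401000000, 0x10000000000000000200100001),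
   (0x14000000402000000, 0x80200100001),
   (0x400000000000014000000000000000, 0x10000000000000020000000001),
   (0x14000000408000000, 0x201100001),
   (0x14000000410000000, 0x80200100001),
   (0x4000000400000200, 0x10000000000000000200000001),
   (0xc000000000000002, 0x80000000000020000000001),
   (0x4000000000000012, 0x80200000001),
   (0x4000000000000006, 0x80200000001),
   (0x4000000c00000000, 0x200100001),
   (0x14000001400000000, 0x201100001),
   (0x4000000000001002, 0x80200000001),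
   (0x4000004400000000, 0x200100001),
   (0x14000008000000000, 0x200100001),
   (0x40000004000100000000000, 0x10000000000000020000000001),
   (0x4200000001000000, 0xa0000000001),
   (0x4000000000004020, 0xa0000000001),
   (0x80000014000000000000000, 0x10000000000000020000000001),
   (0x14000100400000000, 0x201100001),
   (0x14000200400000000, 0x80200100001),
   (0x4000400400000000, 0x200100001),
   (0x4000800400000000, 0x200100001),
   (0x4001000400000000, 0x200100001),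
   (0x4002000400000000, 0x200100001),
   (0x4000000400000400, 0x10000000000000000200000001),
   (0x4000008000000002, 0x800000000000200000001),
   (0x100000000000014000000000000000, 0x20000000011),
   (0x4000000400002000, 0x10000000000000000200000001),
   (0x14040000400000000, 0x201100001),
   (0x4000000000008080, 0x800000000000200000001),
   (0x4000001400000000, 0x10000000000000000200000001),
   (0x4000002400000000, 0x10000000000000000200000001),
   (0x4000000000008004, 0x800000000000200000001),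
   (0x4000008400000000, 0x10000000000000000200000001),
   (0x10000000000004000000000001000, 0x80000000011),
   (0x6000000400000000, 0x10000000000000000200000001),
   (0x8000004000000000001000, 0x80200000001),
   (0x24000000400000000, 0x200100001),
   (0x1000000004000000100000000, 0x10080000000000000000000001),
   (0x14200000000000000, 0xa0000000001),
   (0x4000014000000000000000, 0x10000000000000020000000001),
   (0x204000000400000000, 0x200100001),
   (0x4001000000000004, 0x10000000000000000200000001),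
   (0x804000000400000000, 0x200100001),
   (0x1014000000000000000, 0x20000000011),
   (0x8004000000000000080, 0x80200000001),
   (0x4004000000400000000, 0x200100001),
   (0x4000000400008000, 0x10000000000000000200000001),
   (0x1004000100000000000, 0x200000000000000000011),
   (0x4000000400020000, 0x10000000000000000200000001),
   (0x400000000014000000000000000, 0x10000000000000020000000001),
   (0x80014000000400000000, 0x201100001),
   (0x4000000000008200, 0x800000000000200000001),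
   (0x200014000000400000000, 0x80200100001),
   (0x4000040400000000, 0x10000000000000000200000001),
   (0x84000000000008010, 0x800000000080200000001),
   (0x1000014000000400000000, 0x201100001),
   (0x24000000400000000, 0x10000000000000000200000001),
   (0x4000014000000400000000, 0x201100001),
   (0x84000000400000000, 0x10000000000000000200000001),
   (0x10000014000000400000000, 0x201100001),
   (0x20000014000000400000000, 0x201100001),
   (0x8000004002000000000000, 0x80200000001),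
   (0x400000004000000200000000, 0x80000000000000000100001),
   (0x14000000100000000, 0x80000000000000000100001),
   (0x8000004000000001000000, 0x80200000001),
   (0x400000004000000400000000, 0x200100001),
   (0x800000004000000400000000, 0x200100001),
   (0x1000000004000000400000000, 0x200100001),
   (0x2000000004000000400000000, 0x200100001),
   (0x8004000000000000200, 0x80200000001),
   (0x14000000000000200, 0x10000000000000020000000001),
   (0x14000000400100000, 0x10000800000000000200000001),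
   (0x4000000400200000, 0x10000000000000000200000001),
   (0x4000000000000004000100000000000, 0x10000000000000020000000001),
   (0x4000000400800000, 0x10000000000000000200000001),
   (0x4000002200000000, 0x80200000000000000000001),
   (0x4000200400000000, 0x10000000000000000200000001),
   (0x400000000014000000400000000, 0x201100001),
   (0x800000000014000000400000000, 0x80200100001),
   (0x1000000000014000000400000000, 0x201100001),
   (0x2000000000014000000400000000, 0x201100001),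
   (0x400000000000004000000000004000, 0x80000100001),
   (0x804000000400000000, 0x10000000000000000200000001),
   (0x10000000000014000000400000000, 0x80200100001),
   (0x20000000000014000000400000000, 0x201100001),
   (0x40000000000014000000400000000, 0x80200100001),
   (0x800000004000000400000000, 0x10000000000000000200000001),
   (0x1000000004000000400000000, 0x10000000000000000200000001),
   (0x2000000004000000400000000, 0x10000000000000000200000001),
   (0x400000000000014000000400000000, 0x201100001),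
   (0x8000000004000000400000000, 0x10000000000000000200000001),
   (0x1004001000000000010, 0x10000800000000000200000001),
   (0x2000000000000004000000400000000, 0x200100001),
   (0x4000000100000008, 0x80000000000020000000001),
   (0x4001000000000200, 0x10000000000000000200000001),
   (0x4000000200000008, 0x80200000000000000000001)]

theorem hP : ∀ p ∈ P, BP p.1 p.2 :=
  consP Pool.Agent.H184.T5.B.p34_33_1 <|
  consP Pool.Agent.H184.T5.B.p2_33_64 <|
  consP Pool.Agent.H184.T5.V.p0 <|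
  consP Pool.Agent.H805.T5.N7.t <|
  consP Pool.Agent.H184.T5.B.p8_33_1 <|
  consP Pool.Agent.H184.T5.B.p64_41_28 <|
  consP Pool.Agent.H184.T5.B.p64_41_27 <|
  consP Pool.Agent.H184.T5.B.p1_91_37 <|
  consP Pool.Agent.H184.T5.V.p2 <|
  consP Pool.Agent.H184.T5.B.p38_33_75 <|
  consP Pool.Agent.H184.T5.B.p39_33_61 <|
  consP Pool.Agent.H184.T5.B.p12_43_44 <|
  consP Pool.Agent.H184.T5.B.p34_33_13 <|
  consP Pool.Agent.H184.T5.B.p34_33_14 <|
  consP Pool.Agent.H184.T5.V.p232 <|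
  consP Pool.Agent.H184.T5.B.p34_33_16 <|
  consP Pool.Agent.H184.T5.B.p34_33_17 <|
  consP Pool.Agent.H184.T5.B.p34_33_18 <|
  consP Pool.Agent.H184.T5.B.p34_33_19 <|
  consP Pool.Agent.H184.T5.V.p233 <|
  consP Pool.Agent.H184.T5.B.p34_33_22 <|
  consP Pool.Agent.H184.T5.B.p8_33_75 <|
  consP Pool.Agent.H184.T5.V.p234 <|
  consP Pool.Agent.H184.T5.V.p235 <|
  consP Pool.Agent.H184.T5.V.p302 <|
  consP Pool.Agent.H184.T5.V.p236 <|
  consP Pool.Agent.H184.T5.V.p237 <|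
  consP Pool.Agent.H184.T5.B.p9_33_34 <|
  consP Pool.Agent.H184.T5.B.p1_91_63 <|
  consP Pool.Agent.H805.T5.N1.t <|
  consP Pool.Agent.H184.T5.B.p2_33_1 <|
  consP Pool.Agent.H184.T5.V.p31 <|
  consP Pool.Agent.H184.T5.V.p238 <|
  consP Pool.Agent.H184.T5.B.p12_43_1 <|
  consP Pool.Agent.H184.T5.B.p34_33_38 <|
  consP Pool.Agent.H184.T5.B.p39_33_64 <|
  consP Pool.Agent.H184.T5.V.p30 <|
  consP Pool.Agent.H184.T5.B.p24_43_57 <|
  consP Pool.Agent.H184.T5.B.p14_43_5 <|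
  consP Pool.Agent.H184.T5.B.p64_41_91 <|
  consP Pool.Agent.H184.T5.V.p239 <|
  consP Pool.Agent.H184.T5.V.p240 <|
  consP Pool.Agent.H184.T5.B.p34_33_46 <|
  consP Pool.Agent.H184.T5.B.p34_33_47 <|
  consP Pool.Agent.H184.T5.B.p34_33_48 <|
  consP Pool.Agent.H184.T5.B.p34_33_49 <|
  consP Pool.Agent.H184.T5.B.p34_33_10 <|
  consP Pool.Agent.H184.T5.V.p16 <|
  consP Pool.Agent.H184.T5.B.p64_41_116 <|
  consP Pool.Agent.H184.T5.V.p15 <|
  consP Pool.Agent.H184.T5.V.p241 <|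
  consP Pool.Agent.H184.T5.B.p7_33_15 <|
  consP Pool.Agent.H184.T5.V.p22 <|
  consP Pool.Agent.H184.T5.V.p21 <|
  consP Pool.Agent.H184.T5.B.p2_33_15 <|
  consP Pool.Agent.H184.T5.V.p23 <|
  consP Pool.Agent.H184.T5.B.p12_43_112 <|
  consP Pool.Agent.H184.T5.B.p34_33_61 <|
  consP Pool.Agent.H184.T5.B.p12_43_87 <|
  consP Pool.Agent.H184.T5.V.p18 <|
  consP Pool.Agent.H184.T5.B.p32_91_96 <|
  consP Pool.Agent.H184.T5.B.p64_41_57 <|
  consP Pool.Agent.H184.T5.B.p64_41_86 <|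
  consP Pool.Agent.H184.T5.B.p34_33_69 <|
  consP Pool.Agent.H184.T5.B.p2_33_48 <|
  consP Pool.Agent.H184.T5.V.p25 <|
  consP Pool.Agent.H184.T5.B.p64_41_72 <|
  consP Pool.Agent.H184.T5.V.p24 <|
  consP Pool.Agent.H184.T5.B.p34_33_74 <|
  consP Pool.Agent.H184.T5.B.p34_33_15 <|
  consP Pool.Agent.H184.T5.B.p44_4_72 <|
  consP Pool.Agent.H184.T5.V.p6 <|
  consP Pool.Agent.H184.T5.V.p963 <|
  consP Pool.Agent.H184.T5.V.p242 <|
  consP Pool.Agent.H184.T5.B.p9_33_15 <|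
  consP Pool.Agent.H184.T5.V.p243 <|
  consP Pool.Agent.H184.T5.V.p11 <|
  consP Pool.Agent.H184.T5.V.p355 <|
  consP Pool.Agent.H184.T5.V.p244 <|
  consP Pool.Agent.H184.T5.B.p34_33_65 <|
  consP Pool.Agent.H184.T5.V.p245 <|
  consP Pool.Agent.H184.T5.B.p34_33_67 <|
  consP Pool.Agent.H184.T5.V.p246 <|
  consP Pool.Agent.H184.T5.V.p247 <|
  consP Pool.Agent.H184.T5.B.p49_43_87 <|
  consP Pool.Agent.H805.T5.N20.t <|
  consP Pool.Agent.H184.T5.B.p32_91_64 <|
  consP Pool.Agent.H184.T5.B.p24_43_87 <|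
  consP Pool.Agent.H184.T5.B.p34_33_94 <|
  consP Pool.Agent.H184.T5.B.p34_33_95 <|
  consP Pool.Agent.H184.T5.B.p34_33_96 <|
  consP Pool.Agent.H184.T5.B.p34_33_97 <|
  consP Pool.Agent.H184.T5.B.p9_33_75 <|
  consP Pool.Agent.H184.T5.B.p64_41_9 <|
  consP Pool.Agent.H184.T5.V.p248 <|
  consP Pool.Agent.H184.T5.B.p34_33_21 <|
  consP Pool.Agent.H184.T5.V.p36 <|
  consP Pool.Agent.H184.T5.V.p35 <|
  consP Pool.Agent.H184.T5.B.p33_91_37 <|
  consP Pool.Agent.H184.T5.B.p34_33_45 <|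
  consP Pool.Agent.H184.T5.V.p249 <|
  consP Pool.Agent.H184.T5.V.p250 <|
  consP Pool.Agent.H184.T5.V.p251 <|
  consP Pool.Agent.H184.T5.V.p252 <|
  consP Pool.Agent.H184.T5.B.p14_43_118 <|
  consP Pool.Agent.H184.T5.B.p34_33_71 <|
  consP Pool.Agent.H184.T5.V.p253 <|
  consP Pool.Agent.H184.T5.V.p254 <|
  consP Pool.Agent.H184.T5.V.p255 <|
  consP Pool.Agent.H184.T5.V.p37 <|
  consP Pool.Agent.H184.T5.V.p39 <|
  consP Pool.Agent.H184.T5.V.p38 <|
  consP Pool.Agent.H184.T5.V.p256 <|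
  consP Pool.Agent.H184.T5.B.p34_33_99 <|
  consP Pool.Agent.H184.T5.V.p61 <|
  consP Pool.Agent.H184.T5.B.p34_33_121 <|
  consP Pool.Agent.H184.T5.B.p32_91_3 <|
  consP Pool.Agent.H184.T5.B.p9_33_48 <|
  consP Pool.Agent.H184.T5.B.p33_91_3 <|
  nilP

def T : List Ent :=
  [⟨15, 24, 0, 14⟩,
   ⟨21, 43, 0, 19⟩,
   ⟨24, 100, 0, 22⟩,
   ⟨25, 43, 0, 23⟩,
   ⟨27, 24, 0, 25⟩,
   ⟨28, 43, 0, 26⟩,
   ⟨36, 24, 0, 32⟩,
   ⟨44, 24, 0, 40⟩,
   ⟨45, 43, 0, 41⟩,
   ⟨54, 24, 0, 50⟩,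
   ⟨79, 24, 0, 73⟩,
   ⟨81, 43, 0, 75⟩,
   ⟨83, 24, 116, 77⟩,
   ⟨84, 24, 0, 78⟩,
   ⟨86, 24, 0, 80⟩,
   ⟨88, 24, 0, 82⟩,
   ⟨89, 24, 0, 83⟩,
   ⟨100, 43, 1, 94⟩,
   ⟨106, 24, 0, 100⟩,
   ⟨107, 43, 0, 101⟩,
   ⟨108, 24, 0, 102⟩,
   ⟨109, 24, 0, 103⟩,
   ⟨112, 43, 0, 106⟩,
   ⟨113, 24, 0, 107⟩,
   ⟨114, 43, 0, 108⟩,
   ⟨118, 24, 0, 112⟩,
   ⟨120, 43, 154, 114⟩]

def F : List Ent :=
  [⟨1, 64, 67, 0⟩,
   ⟨2, 34, 0, 1⟩,
   ⟨3, 64, 3, 2⟩,
   ⟨4, 64, 0, 3⟩,
   ⟨5, 64, 66, 4⟩,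
   ⟨6, 34, 150, 5⟩,
   ⟨7, 34, 150, 6⟩,
   ⟨8, 34, 106, 7⟩,
   ⟨9, 64, 0, 8⟩,
   ⟨10, 64, 94, 9⟩,
   ⟨11, 34, 67, 10⟩,
   ⟨12, 64, 28, 11⟩,
   ⟨13, 64, 0, 12⟩,
   ⟨14, 64, 0, 13⟩,
   ⟨16, 64, 0, 15⟩,
   ⟨17, 64, 0, 16⟩,
   ⟨18, 64, 0, 17⟩,
   ⟨19, 64, 0, 18⟩,
   ⟨22, 64, 0, 20⟩,
   ⟨23, 64, 94, 21⟩,
   ⟨26, 34, 150, 24⟩,
   ⟨29, 64, 1, 27⟩,
   ⟨30, 34, 126, 28⟩,
   ⟨31, 64, 67, 29⟩,
   ⟨32, 64, 67, 30⟩,
   ⟨35, 64, 0, 31⟩,
   ⟨37, 64, 67, 33⟩,
   ⟨38, 64, 0, 34⟩,
   ⟨39, 34, 0, 35⟩,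
   ⟨40, 64, 150, 36⟩,
   ⟨41, 34, 81, 37⟩,
   ⟨42, 64, 81, 38⟩,
   ⟨43, 34, 150, 39⟩,
   ⟨46, 64, 0, 42⟩,
   ⟨47, 64, 0, 43⟩,
   ⟨48, 64, 0, 44⟩,
   ⟨49, 64, 0, 45⟩,
   ⟨50, 64, 1, 46⟩,
   ⟨51, 64, 66, 47⟩,
   ⟨52, 64, 22, 48⟩,
   ⟨53, 64, 1, 49⟩,
   ⟨55, 64, 116, 51⟩,
   ⟨56, 64, 1, 52⟩,
   ⟨57, 64, 1, 53⟩,
   ⟨58, 64, 116, 54⟩,
   ⟨59, 64, 1, 55⟩,
   ⟨60, 34, 10, 56⟩,
   ⟨61, 64, 1, 57⟩,
   ⟨63, 34, 94, 58⟩,
   ⟨65, 64, 0, 59⟩,
   ⟨66, 64, 152, 60⟩,
   ⟨67, 34, 81, 61⟩,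
   ⟨68, 34, 150, 62⟩,
   ⟨69, 64, 0, 63⟩,
   ⟨70, 64, 154, 64⟩,
   ⟨71, 64, 0, 65⟩,
   ⟨72, 34, 4, 66⟩,
   ⟨73, 64, 94, 67⟩,
   ⟨74, 64, 0, 68⟩,
   ⟨75, 64, 1, 69⟩,
   ⟨76, 34, 18, 70⟩,
   ⟨77, 64, 1, 71⟩,
   ⟨78, 34, 150, 72⟩,
   ⟨80, 64, 116, 74⟩,
   ⟨82, 64, 1, 76⟩,
   ⟨85, 64, 1, 79⟩,
   ⟨87, 64, 1, 81⟩,
   ⟨90, 34, 94, 84⟩,
   ⟨91, 64, 2, 85⟩,
   ⟨92, 34, 2, 86⟩,
   ⟨93, 34, 94, 87⟩,
   ⟨94, 64, 0, 88⟩,
   ⟨95, 64, 0, 89⟩,
   ⟨96, 64, 0, 90⟩,
   ⟨97, 64, 0, 91⟩,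
   ⟨98, 64, 94, 92⟩,
   ⟨99, 34, 150, 93⟩,
   ⟨101, 64, 1, 95⟩,
   ⟨102, 64, 150, 96⟩,
   ⟨103, 64, 1, 97⟩,
   ⟨104, 34, 106, 98⟩,
   ⟨105, 64, 1, 99⟩,
   ⟨110, 64, 11, 104⟩,
   ⟨111, 64, 1, 105⟩,
   ⟨115, 64, 1, 109⟩,
   ⟨116, 64, 1, 110⟩,
   ⟨117, 64, 1, 111⟩,
   ⟨119, 64, 1, 113⟩,
   ⟨121, 64, 0, 115⟩,
   ⟨122, 64, 126, 116⟩,
   ⟨123, 64, 154, 117⟩,
   ⟨124, 64, 127, 118⟩]

theorem ok : nodeOK2 autA 192 P [34, 62, 64] [0, 20, 33] T F = true := by decide +kernel

theorem t : BP 0x14000000400000000 0x200100001 := by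
  have h := node2 autOK hP ok
  rw [show maskL [34, 62, 64] = 0x14000000400000000 from by decide +kernel, show maskL [0, 20, 33] = 0x200100001 from by decide +kernel] at h
  exact h

end Pool.Agent.H805.T5.N22
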