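import Mathlib
import Pool.Agent.H805.T5.Tree2
import Pool.Agent.H805.T5.Auts
import Pool.Agent.H184.T5.D.F12_43_0
import Pool.Agent.H184.T5.D.F14_43_1
import Pool.Agent.H184.T5.D.F1_91_1
import Pool.Agent.H184.T5.D.F24_43_0
import Pool.Agent.H184.T5.D.F2_33_0
import Pool.Agent.H184.T5.D.F2_33_1
import Pool.Agent.H184.T5.D.F32_91_0
import Pool.Agent.H184.T5.D.F32_91_1
import Pool.Agent.H184.T5.D.F34_33_1
import Pool.Agent.H184.T5.D.F38_33_1
import Pool.Agent.H184.T5.D.F38_33_2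
import Pool.Agent.H184.T5.D.F39_33_0
import Pool.Agent.H184.T5.D.F39_33_1
import Pool.Agent.H184.T5.D.F39_33_2
import Pool.Agent.H184.T5.D.F44_4_0
import Pool.Agent.H184.T5.D.F44_4_1
import Pool.Agent.H184.T5.D.F4_33_0
import Pool.Agent.H184.T5.D.F64_41_0
import Pool.Agent.H184.T5.D.F64_41_1
import Pool.Agent.H184.T5.D.F64_41_2
import Pool.Agent.H184.T5.D.F7_33_0
import Pool.Agent.H184.T5.D.F7_33_1
import Pool.Agent.H184.T5.D.F8_33_0
import Pool.Agent.H184.T5.D.F8_33_1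
import Pool.Agent.H184.T5.D.F9_33_0
import Pool.Agent.H184.T5.D.F9_33_1
import Pool.Agent.H184.T5.D.F9_33_2
import Pool.Agent.H184.T5.D.V_003
import Pool.Agent.H184.T5.D.V_004
import Pool.Agent.H184.T5.D.V_008
import Pool.Agent.H184.T5.D.V_009
import Pool.Agent.H184.T5.D.V_015
import Pool.Agent.H184.T5.D.V_016
import Pool.Agent.H184.T5.D.V_017
import Pool.Agent.H184.T5.D.V_020
import Pool.Agent.H184.T5.D.V_025
import Pool.Agent.H805.T5.N.N9

set_option autoImplicit false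
set_option maxRecDepth 20000

namespace Pool.Agent.H805.T5.N23

open Pool.Agent.Helper582.Cube

def P : List (ℕ × ℕ) :=
  [(0x14000100000000002, 0x20001000011),
   (0x84000004000000000, 0x80200000001),
   (0x6000100000000000, 0xa0000000001),
   (0x14000100000000020, 0x20001000011),
   (0x14000100000000040, 0x200000000020000000011),
   (0x84000008000000000, 0x80200000001),
   (0x14000100000000100, 0x200000000020000000011),
   (0x14000100000000200, 0xa0000000011),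
   (0x1004000000000000004, 0x200100001),
   (0x4001000000000080, 0x200100001),
   (0x4010000000001000, 0x80000100001),
   (0x4000100000002000, 0x20000000011),
   (0x14000000000004000, 0x20000000011),
   (0x1000000004000000000000002, 0x80000000000000000100001),
   (0x1004000000000000100, 0x200100001),
   (0x14000100000020000, 0x20001000011),
   (0x14000100000040000, 0x20001000011),
   (0x14000100000080000, 0xa0000000011),
   (0x4001000000000010, 0x200100001),
   (0x4001000000000200, 0x200100001),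
   (0x14000000000400000, 0x20000000011),
   (0x14000000000800000, 0x20000000011),
   (0x4000000000101100, 0x10000800000000000200000001),
   (0x14000100002000000, 0xa0000000011),
   (0x4010000000000100, 0x200100001),
   (0x4000100008000000, 0x20000000011),
   (0x14000100010000000, 0x200000000020000000011),
   (0x14000000020000000, 0x20000000011),
   (0x84000000000000200, 0x80200000001),
   (0x4000000000008010, 0x80200000001),
   (0x4000100100000000, 0x20000000011),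
   (0xc000000001000000, 0xa0000000001),
   (0x14000000400000000, 0x20000000011),
   (0x84000000000000080, 0x80200000001),
   (0x14000101000000000, 0x20001000011),
   (0xc000000000001000, 0xa0000000001),
   (0xc000000000004000, 0xa0000000001),
   (0x14000008000000000, 0x20000000011),
   (0x14000110000000000, 0x10000000000000020000000011),
   (0x1004000004000000000, 0x200100001),
   (0x14000080000000000, 0x20000000011),
   (0x10000000000004000000000000200, 0x10000000000000000200000001),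
   (0x1004000000400000000, 0x200100001),
   (0x4001008000000000, 0x200100001),
   (0x14001000000000000, 0x20000000011),
   (0x2000000000014000000400000000, 0x201100001),
   (0x8000004000004000000000, 0x800000000000200000001),
   (0x14008000000000000, 0x20000000011),
   (0x14000000000001000, 0x80000000011),
   (0x14020000000000000, 0x20000000011),
   (0x4000000000001004, 0x10000000000000000200000001),
   (0x8000004000008000000000, 0x800000000000200000001),
   (0x10000014000000400000000, 0x201100001),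
   (0x14200100000000000, 0x20001000011),
   (0x4000000100001000, 0x10080000000000000000000001),
   (0x14800000000000000, 0x20000000011),
   (0x15000000000000000, 0x20000000011),
   (0x16000000000000000, 0x20000000011),
   (0x1c000000000000000, 0x20000000011),
   (0x4000100800000000, 0x80000000011),
   (0x54000100000000000, 0x20001000011),
   (0x4200000000001000, 0x80200000001),
   (0x6000000000004000, 0xa0000000001),
   (0x40000000000000a0, 0x80200000001),
   (0x84000000100000000, 0x80200000000000000000001),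
   (0x10000000000004000008000000000, 0x10000000000000000200000001),
   (0x1014000000000000000, 0x20000000011),
   (0x2014000100000000000, 0x20001000011),
   (0x4014000000000000000, 0x20000000011),
   (0x14000000400008000, 0x201100001),
   (0x10014000100000000000, 0x200000000020000000011),
   (0x20014000100000000000, 0x20001000011),
   (0x40014000100000000000, 0x20001000011),
   (0x80014000000000000000, 0x20000000011),
   (0x5000100000000000, 0x800000000000000000011),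
   (0x200014000100000000000, 0x20001000011),
   (0x400014000100000000000, 0x20001000011),
   (0x10000000000000084000000000000000, 0x80200000001),
   (0x1000014000100000000000, 0x100000200000000000000000011),
   (0x2000014000000000000000, 0x20000000011),
   (0x4000014000100000000000, 0xa0000000011),
   (0x14000002000000000, 0x800000000000000000011),
   (0x1004000000100000000, 0x80000000000000000100001),
   (0x20000014000100000000000, 0x20001000011),
   (0x40000014000100000000000, 0x20001000011),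
   (0x4000002000000010, 0x800000000000200000001),
   (0x100000014000100000000000, 0xa0000000011),
   (0x200004000000000000100, 0x10000000000000000200000001),
   (0x4200000000000200, 0x80200000001),
   (0x800000014000100000000000, 0x200000000020000000011),
   (0x1000000014000000000000000, 0x20000000011),
   (0x2000000014000000000000000, 0x20000000011),
   (0x14000400000000000, 0x800000000000000000011),
   (0x4000000000200100, 0x10000000000000000200000001),
   (0x14000100000100000, 0x100000000000000080000000011),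
   (0x20000000014000100000000000, 0x20001000011),
   (0x1004000000000004000, 0x80000100001),
   (0x80000000014000000000000000, 0x20000000011),
   (0x14000000001000000, 0x80000000011),
   (0x200000000014000100000000000, 0x20001000011),
   (0x400000000014000100000000000, 0x10000000000000020000000011),
   (0x800000000014000000000000000, 0x20000000011),
   (0x1000000004000100000000000, 0x80000000011),
   (0x2000000000014000000000000000, 0x20000000011),
   (0x4000000000014000100000000000, 0x20001000011),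
   (0x4000008000001000, 0x10000000000000000200000001),
   (0x10000000000014000100000000000, 0x20001000011),
   (0x20000000000014000100000000000, 0x20001000011),
   (0x4000002100000000, 0x80000000000020000000001),
   (0x80000000000014000100000000000, 0x20001000011),
   (0x100000000000014000000000000000, 0x20000000011),
   (0x200000000000014000000000000000, 0x20000000011),
   (0x400000000000014000000000000000, 0x20000000011),
   (0x4000000000001200, 0x10000000000000000200000001),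
   (0x11000000000004000000001000000, 0x10000000000000020200000001),
   (0x2000000000000014000100000000000, 0x200000000020000000011),
   (0x4004000000000000100, 0x10000000000000000200000001),
   (0x8000000000000014000000000000000, 0x20000000011),
   (0x4000000001001100, 0x10000000000000020200000001)]

theorem hP : ∀ p ∈ P, BP p.1 p.2 :=
  consP Pool.Agent.H184.T5.V.p1146 <|
  consP Pool.Agent.H184.T5.B.p38_33_67 <|
  consP Pool.Agent.H184.T5.V.p297 <|
  consP Pool.Agent.H184.T5.V.p1147 <|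
  consP Pool.Agent.H184.T5.V.p1148 <|
  consP Pool.Agent.H184.T5.B.p39_33_67 <|
  consP Pool.Agent.H184.T5.V.p1149 <|
  consP Pool.Agent.H184.T5.V.p1150 <|
  consP Pool.Agent.H184.T5.B.p2_33_72 <|
  consP Pool.Agent.H184.T5.B.p7_33_48 <|
  consP Pool.Agent.H184.T5.B.p12_43_52 <|
  consP Pool.Agent.H184.T5.V.p567 <|
  consP Pool.Agent.H184.T5.B.p64_41_14 <|
  consP Pool.Agent.H184.T5.B.p1_91_96 <|
  consP Pool.Agent.H184.T5.B.p8_33_72 <|
  consP Pool.Agent.H184.T5.V.p1151 <|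
  consP Pool.Agent.H184.T5.V.p1152 <|
  consP Pool.Agent.H184.T5.V.p1153 <|
  consP Pool.Agent.H184.T5.B.p4_33_48 <|
  consP Pool.Agent.H184.T5.V.p615 <|
  consP Pool.Agent.H184.T5.B.p64_41_22 <|
  consP Pool.Agent.H184.T5.B.p64_41_23 <|
  consP Pool.Agent.H184.T5.V.p1154 <|
  consP Pool.Agent.H184.T5.V.p1155 <|
  consP Pool.Agent.H184.T5.B.p8_33_52 <|
  consP Pool.Agent.H184.T5.V.p1156 <|
  consP Pool.Agent.H184.T5.V.p1157 <|
  consP Pool.Agent.H184.T5.B.p64_41_29 <|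
  consP Pool.Agent.H184.T5.V.p1069 <|
  consP Pool.Agent.H184.T5.B.p4_33_15 <|
  consP Pool.Agent.H184.T5.B.p44_4_32 <|
  consP Pool.Agent.H184.T5.V.p1203 <|
  consP Pool.Agent.H184.T5.V.p320 <|
  consP Pool.Agent.H184.T5.B.p7_33_67 <|
  consP Pool.Agent.H184.T5.V.p1158 <|
  consP Pool.Agent.H184.T5.B.p12_43_63 <|
  consP Pool.Agent.H184.T5.B.p14_43_63 <|
  consP Pool.Agent.H184.T5.B.p64_41_39 <|
  consP Pool.Agent.H184.T5.V.p1159 <|
  consP Pool.Agent.H184.T5.B.p38_33_72 <|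
  consP Pool.Agent.H184.T5.B.p64_41_43 <|
  consP Pool.Agent.H184.T5.B.p9_33_112 <|
  consP Pool.Agent.H184.T5.B.p34_33_72 <|
  consP Pool.Agent.H184.T5.B.p39_33_48 <|
  consP Pool.Agent.H184.T5.B.p64_41_48 <|
  consP Pool.Agent.H184.T5.V.p252 <|
  consP Pool.Agent.H184.T5.B.p38_33_87 <|
  consP Pool.Agent.H184.T5.B.p64_41_51 <|
  consP Pool.Agent.H184.T5.B.p12_43_64 <|
  consP Pool.Agent.H184.T5.V.p296 <|
  consP Pool.Agent.H184.T5.B.p2_33_12 <|
  consP Pool.Agent.H184.T5.B.p39_33_87 <|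
  consP Pool.Agent.H184.T5.V.p246 <|
  consP Pool.Agent.H184.T5.V.p1160 <|
  consP Pool.Agent.H184.T5.B.p32_91_12 <|
  consP Pool.Agent.H184.T5.B.p64_41_59 <|
  consP Pool.Agent.H184.T5.V.p305 <|
  consP Pool.Agent.H184.T5.V.p300 <|
  consP Pool.Agent.H184.T5.B.p64_41_63 <|
  consP Pool.Agent.H184.T5.B.p44_4_35 <|
  consP Pool.Agent.H184.T5.V.p1161 <|
  consP Pool.Agent.H184.T5.B.p12_43_57 <|
  consP Pool.Agent.H184.T5.B.p14_43_61 <|
  consP Pool.Agent.H184.T5.B.p7_33_5 <|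
  consP Pool.Agent.H184.T5.B.p32_91_67 <|
  consP Pool.Agent.H184.T5.B.p39_33_112 <|
  consP Pool.Agent.H184.T5.B.p64_41_72 <|
  consP Pool.Agent.H184.T5.V.p1162 <|
  consP Pool.Agent.H184.T5.B.p64_41_74 <|
  consP Pool.Agent.H184.T5.V.p232 <|
  consP Pool.Agent.H184.T5.V.p1163 <|
  consP Pool.Agent.H184.T5.V.p1164 <|
  consP Pool.Agent.H184.T5.V.p1165 <|
  consP Pool.Agent.H184.T5.B.p64_41_79 <|
  consP Pool.Agent.H184.T5.B.p44_4_60 <|
  consP Pool.Agent.H184.T5.V.p1166 <|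
  consP Pool.Agent.H184.T5.V.p1167 <|
  consP Pool.Agent.H184.T5.V.p331 <|
  consP Pool.Agent.H184.T5.V.p1168 <|
  consP Pool.Agent.H184.T5.B.p64_41_85 <|
  consP Pool.Agent.H184.T5.V.p1169 <|
  consP Pool.Agent.H184.T5.V.p303 <|
  consP Pool.Agent.H184.T5.B.p32_91_72 <|
  consP Pool.Agent.H184.T5.V.p1170 <|
  consP Pool.Agent.H184.T5.V.p1171 <|
  consP Pool.Agent.H805.T5.N9.t <|
  consP Pool.Agent.H184.T5.V.p1173 <|
  consP Pool.Agent.H184.T5.B.p8_33_81 <|
  consP Pool.Agent.H184.T5.B.p9_33_57 <|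
  consP Pool.Agent.H184.T5.V.p1174 <|
  consP Pool.Agent.H184.T5.B.p64_41_96 <|
  consP Pool.Agent.H184.T5.B.p64_41_97 <|
  consP Pool.Agent.H184.T5.V.p315 <|
  consP Pool.Agent.H184.T5.B.p8_33_21 <|
  consP Pool.Agent.H184.T5.V.p1175 <|
  consP Pool.Agent.H184.T5.V.p1395 <|
  consP Pool.Agent.H184.T5.B.p14_43_72 <|
  consP Pool.Agent.H184.T5.B.p64_41_103 <|
  consP Pool.Agent.H184.T5.B.p24_43_64 <|
  consP Pool.Agent.H184.T5.V.p1176 <|
  consP Pool.Agent.H184.T5.V.p1177 <|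
  consP Pool.Agent.H184.T5.B.p64_41_107 <|
  consP Pool.Agent.H184.T5.V.p607 <|
  consP Pool.Agent.H184.T5.B.p64_41_109 <|
  consP Pool.Agent.H184.T5.V.p1178 <|
  consP Pool.Agent.H184.T5.B.p39_33_12 <|
  consP Pool.Agent.H184.T5.V.p1179 <|
  consP Pool.Agent.H184.T5.V.p1180 <|
  consP Pool.Agent.H184.T5.B.p32_91_37 <|
  consP Pool.Agent.H184.T5.V.p1181 <|
  consP Pool.Agent.H184.T5.B.p64_41_116 <|
  consP Pool.Agent.H184.T5.B.p64_41_117 <|
  consP Pool.Agent.H184.T5.B.p64_41_118 <|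
  consP Pool.Agent.H184.T5.B.p9_33_12 <|
  consP Pool.Agent.H184.T5.V.p1182 <|
  consP Pool.Agent.H184.T5.V.p1183 <|
  consP Pool.Agent.H184.T5.B.p8_33_74 <|
  consP Pool.Agent.H184.T5.B.p64_41_123 <|
  consP Pool.Agent.H184.T5.V.p1184 <|
  nilP

def T : List Ent :=
  [⟨1, 24, 0, 0⟩,
   ⟨5, 24, 0, 3⟩,
   ⟨6, 81, 0, 4⟩,
   ⟨8, 81, 0, 6⟩,
   ⟨9, 43, 0, 7⟩,
   ⟨17, 24, 0, 15⟩,
   ⟨18, 24, 0, 16⟩,
   ⟨19, 43, 0, 17⟩,
   ⟨24, 43, 145, 22⟩,
   ⟨25, 43, 0, 23⟩,
   ⟨28, 81, 0, 26⟩,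
   ⟨36, 24, 0, 34⟩,
   ⟨40, 100, 0, 38⟩,
   ⟨49, 100, 31, 45⟩,
   ⟨56, 100, 31, 52⟩,
   ⟨57, 24, 0, 53⟩,
   ⟨66, 24, 0, 60⟩,
   ⟨73, 24, 0, 67⟩,
   ⟨75, 100, 31, 69⟩,
   ⟨76, 81, 0, 70⟩,
   ⟨77, 24, 0, 71⟩,
   ⟨78, 24, 0, 72⟩,
   ⟨81, 24, 0, 75⟩,
   ⟨82, 24, 0, 76⟩,
   ⟨84, 24, 1, 78⟩,
   ⟨86, 43, 0, 80⟩,
   ⟨89, 24, 0, 83⟩,
   ⟨90, 24, 0, 84⟩,
   ⟨92, 43, 0, 86⟩,
   ⟨95, 81, 0, 89⟩,
   ⟨100, 24, 3, 94⟩,
   ⟨101, 24, 0, 95⟩,
   ⟨105, 24, 0, 99⟩,
   ⟨106, 100, 0, 100⟩,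
   ⟨110, 24, 0, 104⟩,
   ⟨112, 24, 0, 106⟩,
   ⟨113, 24, 0, 107⟩,
   ⟨115, 24, 0, 109⟩,
   ⟨120, 81, 8, 114⟩,
   ⟨121, 81, 0, 115⟩,
   ⟨124, 81, 145, 118⟩]

def F : List Ent :=
  [⟨2, 44, 63, 1⟩,
   ⟨3, 44, 89, 2⟩,
   ⟨7, 44, 63, 5⟩,
   ⟨10, 44, 4, 8⟩,
   ⟨11, 64, 4, 9⟩,
   ⟨12, 44, 26, 10⟩,
   ⟨13, 64, 0, 11⟩,
   ⟨14, 44, 0, 12⟩,
   ⟨15, 64, 6, 13⟩,
   ⟨16, 44, 4, 14⟩,
   ⟨20, 64, 4, 18⟩,
   ⟨21, 64, 4, 19⟩,
   ⟨22, 44, 0, 20⟩,
   ⟨23, 44, 0, 21⟩,
   ⟨26, 44, 25, 24⟩,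
   ⟨27, 64, 0, 25⟩,
   ⟨29, 44, 0, 27⟩,
   ⟨30, 44, 63, 28⟩,
   ⟨31, 64, 63, 29⟩,
   ⟨32, 64, 0, 30⟩,
   ⟨33, 44, 77, 31⟩,
   ⟨34, 44, 0, 32⟩,
   ⟨35, 44, 63, 33⟩,
   ⟨37, 44, 77, 35⟩,
   ⟨38, 44, 77, 36⟩,
   ⟨39, 44, 0, 37⟩,
   ⟨42, 44, 4, 39⟩,
   ⟨43, 44, 0, 40⟩,
   ⟨45, 44, 8, 41⟩,
   ⟨46, 44, 4, 42⟩,
   ⟨47, 64, 4, 43⟩,
   ⟨48, 44, 0, 44⟩,
   ⟨50, 44, 61, 46⟩,
   ⟨51, 44, 0, 47⟩,
   ⟨52, 44, 3, 48⟩,
   ⟨53, 44, 0, 49⟩,
   ⟨54, 44, 145, 50⟩,
   ⟨55, 44, 61, 51⟩,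
   ⟨58, 44, 147, 54⟩,
   ⟨59, 44, 0, 55⟩,
   ⟨60, 44, 0, 56⟩,
   ⟨61, 44, 0, 57⟩,
   ⟨63, 44, 0, 58⟩,
   ⟨65, 64, 3, 59⟩,
   ⟨67, 44, 87, 61⟩,
   ⟨68, 44, 89, 62⟩,
   ⟨69, 64, 87, 63⟩,
   ⟨70, 44, 99, 64⟩,
   ⟨71, 44, 8, 65⟩,
   ⟨72, 44, 0, 66⟩,
   ⟨74, 44, 0, 68⟩,
   ⟨79, 44, 0, 73⟩,
   ⟨80, 44, 15, 74⟩,
   ⟨83, 44, 63, 77⟩,
   ⟨85, 44, 0, 79⟩,
   ⟨87, 44, 2, 81⟩,
   ⟨88, 44, 6, 82⟩,
   ⟨91, 44, 109, 85⟩,
   ⟨93, 64, 145, 87⟩,
   ⟨94, 44, 87, 88⟩,
   ⟨96, 44, 0, 90⟩,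
   ⟨97, 44, 0, 91⟩,
   ⟨98, 44, 2, 92⟩,
   ⟨99, 64, 145, 93⟩,
   ⟨102, 44, 7, 96⟩,
   ⟨103, 44, 0, 97⟩,
   ⟨104, 44, 3, 98⟩,
   ⟨107, 44, 0, 101⟩,
   ⟨108, 64, 3, 102⟩,
   ⟨109, 44, 0, 103⟩,
   ⟨111, 44, 145, 105⟩,
   ⟨114, 44, 121, 108⟩,
   ⟨116, 44, 0, 110⟩,
   ⟨117, 44, 0, 111⟩,
   ⟨118, 44, 0, 112⟩,
   ⟨119, 44, 145, 113⟩,
   ⟨122, 64, 145, 116⟩,
   ⟨123, 44, 0, 117⟩]

theorem ok : nodeOK2 autA 192 P [44, 62, 64] [0, 4, 41] T F = true := by decide +kernel

theorem t : BP 0x14000100000000000 0x20000000011 := by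
  have h := node2 autOK hP ok
  rw [show maskL [44, 62, 64] = 0x14000100000000000 from by decide +kernel, show maskL [0, 4, 41] = 0x20000000011 from by decide +kernel] at h
  exact h

end Pool.Agent.H805.T5.N23
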