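import Mathlib
import Pool.Agent.H805.T5.Tree2
import Pool.Agent.H805.T5.Auts
import Pool.Agent.H184.T5.D.F12_43_0
import Pool.Agent.H184.T5.D.F14_43_0
import Pool.Agent.H184.T5.D.F1_91_0
import Pool.Agent.H184.T5.D.F2_33_0
import Pool.Agent.H184.T5.D.F32_91_0
import Pool.Agent.H184.T5.D.F33_91_1
import Pool.Agent.H184.T5.D.F34_33_0
import Pool.Agent.H184.T5.D.F34_33_1
import Pool.Agent.H184.T5.D.F38_33_0
import Pool.Agent.H184.T5.D.F38_33_1
import Pool.Agent.H184.T5.D.F38_33_2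
import Pool.Agent.H184.T5.D.F39_33_0
import Pool.Agent.H184.T5.D.F39_33_1
import Pool.Agent.H184.T5.D.F39_33_2
import Pool.Agent.H184.T5.D.F44_4_0
import Pool.Agent.H184.T5.D.F44_4_1
import Pool.Agent.H184.T5.D.F64_41_1
import Pool.Agent.H184.T5.D.F64_41_2
import Pool.Agent.H184.T5.D.F7_33_0
import Pool.Agent.H184.T5.D.F7_33_1
import Pool.Agent.H184.T5.D.F8_33_1
import Pool.Agent.H184.T5.D.F8_33_2
import Pool.Agent.H184.T5.D.F9_33_0
import Pool.Agent.H184.T5.D.F9_33_1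
import Pool.Agent.H184.T5.D.V_001
import Pool.Agent.H184.T5.D.V_002
import Pool.Agent.H184.T5.D.V_003
import Pool.Agent.H184.T5.D.V_018
import Pool.Agent.H184.T5.D.V_019
import Pool.Agent.H184.T5.D.V_020
import Pool.Agent.H184.T5.D.V_026
import Pool.Agent.H805.T5.N.N11

set_option autoImplicit false
set_option maxRecDepth 20000

namespace Pool.Agent.H805.T5.N24

open Pool.Agent.Helper582.Cube

def P : List (ℕ × ℕ) :=
  [(0x4000100000000002, 0x800000000000000000011),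
   (0x4000004000100000, 0x80200000001),
   (0x200004000100000000008, 0x10000800000000000000000011),
   (0x4000020000000002, 0x10080000000000000000000001),
   (0x4000000020000010, 0xa0000000001),
   (0x4000000008000010, 0xa0000000001),
   (0x4000000000100002, 0x80200000000000000000001),
   (0x2000000000004000000000100100, 0x100000000000000080200000001),
   (0x4000080000000004, 0x200100001),
   (0x204000000000000010, 0xa0000000001),
   (0x4000000200001000, 0x80000100001),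
   (0x4000080000000080, 0x200100001),
   (0x10000000004000004000000000, 0x800000000000200000001),
   (0x4000000400100000, 0x80200000001),
   (0x800000000000004000000000000010, 0xa0000000001),
   (0x4000008000100000, 0x80200000001),
   (0x10000000004000000000000200, 0x800000000000200000001),
   (0x200004000100000080000, 0x10000800000000000000000011),
   (0x4000080000000010, 0x200100001),
   (0x200004000100000200000, 0x10000800000000000000000011),
   (0x4000000200004000, 0x80000100001),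
   (0x4000080000000200, 0x200100001),
   (0x200004000100001000000, 0x800000000080000000011),
   (0x200004000100002000000, 0x800000000000001000011),
   (0x20000000004000000000000010, 0xa0000000001),
   (0x4000080200000000, 0x20000000011),
   (0x4000000000104000, 0x80200000001),
   (0x2000000000004000000000100010, 0xa0200000001),
   (0x4000000000100200, 0x80200000001),
   (0x8000000000004000000000000010, 0xa0000000001),
   (0x4000020100000000, 0x10080000000000000000000001),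
   (0x10000000014000000000000000, 0x80000000000020000000001),
   (0x404000000000000010, 0xa0000000001),
   (0x10000000004000008000000000, 0x800000000000200000001),
   (0x4000110000000000, 0x200000000000000000011),
   (0x200004000120000000000, 0x800000000080000000011),
   (0x200004000140000000000, 0x10000800000000000000000011),
   (0x200004000180000000000, 0x10000800000000000000000011),
   (0x400000000004000000000000010, 0xa0000000001),
   (0x2000000000004000000000000010, 0xa0000000001),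
   (0x800000000004000000000000010, 0xa0000000001),
   (0x200004001100000000000, 0x10000800000000000000000011),
   (0x1000000000004000000000000010, 0xa0000000001),
   (0x4000000000002010, 0xa0000000001),
   (0x4100100000000000, 0x800000000000000000011),
   (0x4000000000001010, 0xa0000000001),
   (0x4000000000100004, 0x80200000001),
   (0x4000000000100080, 0x80200000001),
   (0x14000080000000000, 0x20000000011),
   (0x200006000100000000000, 0x800000000080000000011),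
   (0x20000c000100000000000, 0x800000000000001000011),
   (0x4000000100100000, 0x80200000000000000000001),
   (0x20000004000000000000010, 0xa0000000001),
   (0x80000014000000000000000, 0x10000000000000020000000001),
   (0x800004000008000000000, 0x10000000000000000200000001),
   (0x4000004000000000000010, 0xa0000000001),
   (0x800000000000004000000000000100, 0x80200000001),
   (0x800004000000000000100, 0x10000000000000000200000001),
   (0x4000084000000000, 0x200100001),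
   (0x4040000000000010, 0xa0000000001),
   (0x4000100200000000, 0x200000000000000000011),
   (0x800000000000004000000000100010, 0x100000000000000080200000001),
   (0x800004000000000000200, 0x10000000000000000200000001),
   (0x1000000004000100000000000, 0x800000000000000000011),
   (0x4000088000000000, 0x200100001),
   (0x1000000004000000400000000, 0x200100001),
   (0x8000200004000100000000000, 0x10000800000000000000000011),
   (0x800004000100000100000, 0x200000000020000000011),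
   (0x20000200004000100000000000, 0x800000000000001000011),
   (0x200000200004000100000000000, 0x10000800000000000000000011),
   (0x4000000004000100000000000, 0x200000000000000000011),
   (0x10004000080400000000, 0x201100001),
   (0x4000900000000000, 0x200000000000000000011),
   (0x400000000200004000100000000000, 0x10000800000000000000000011),
   (0x4002100000000000, 0x200000000000000000011),
   (0x1000000000000004000100000000000, 0x800000000000000000011),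
   (0x2000000000200004000100000000000, 0x800000000080000000011),
   (0x400004000000000000010, 0xa0000000001),
   (0x8000000000200004000100000000000, 0x10000800000000000000000011),
   (0x4002000200000000, 0x80000000000020000000001)]

theorem hP : ∀ p ∈ P, BP p.1 p.2 :=
  consP Pool.Agent.H184.T5.B.p44_4_1 <|
  consP Pool.Agent.H184.T5.B.p38_33_20 <|
  consP Pool.Agent.H184.T5.V.p1334 <|
  consP Pool.Agent.H184.T5.B.p1_91_41 <|
  consP Pool.Agent.H184.T5.V.p201 <|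
  consP Pool.Agent.H184.T5.V.p200 <|
  consP Pool.Agent.H184.T5.B.p1_91_20 <|
  consP Pool.Agent.H184.T5.V.p1335 <|
  consP Pool.Agent.H184.T5.B.p2_33_43 <|
  consP Pool.Agent.H184.T5.V.p215 <|
  consP Pool.Agent.H184.T5.B.p12_43_33 <|
  consP Pool.Agent.H184.T5.B.p7_33_43 <|
  consP Pool.Agent.H184.T5.B.p38_33_100 <|
  consP Pool.Agent.H184.T5.B.p34_33_20 <|
  consP Pool.Agent.H184.T5.V.p1257 <|
  consP Pool.Agent.H184.T5.B.p39_33_20 <|
  consP Pool.Agent.H184.T5.V.p218 <|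
  consP Pool.Agent.H184.T5.V.p1336 <|
  consP Pool.Agent.H805.T5.N11.t <|
  consP Pool.Agent.H184.T5.V.p1338 <|
  consP Pool.Agent.H184.T5.B.p14_43_33 <|
  consP Pool.Agent.H184.T5.B.p9_33_43 <|
  consP Pool.Agent.H184.T5.V.p1339 <|
  consP Pool.Agent.H184.T5.V.p1340 <|
  consP Pool.Agent.H184.T5.V.p228 <|
  consP Pool.Agent.H184.T5.V.p266 <|
  consP Pool.Agent.H184.T5.B.p14_43_20 <|
  consP Pool.Agent.H184.T5.V.p1378 <|
  consP Pool.Agent.H184.T5.B.p9_33_20 <|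
  consP Pool.Agent.H184.T5.V.p1260 <|
  consP Pool.Agent.H184.T5.B.p32_91_41 <|
  consP Pool.Agent.H184.T5.B.p64_41_100 <|
  consP Pool.Agent.H184.T5.V.p1259 <|
  consP Pool.Agent.H184.T5.B.p39_33_100 <|
  consP Pool.Agent.H184.T5.B.p44_4_40 <|
  consP Pool.Agent.H184.T5.V.p1341 <|
  consP Pool.Agent.H184.T5.V.p1342 <|
  consP Pool.Agent.H184.T5.V.p1343 <|
  consP Pool.Agent.H184.T5.V.p1267 <|
  consP Pool.Agent.H184.T5.V.p1270 <|
  consP Pool.Agent.H184.T5.V.p115 <|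
  consP Pool.Agent.H184.T5.V.p1344 <|
  consP Pool.Agent.H184.T5.V.p117 <|
  consP Pool.Agent.H184.T5.V.p213 <|
  consP Pool.Agent.H184.T5.B.p44_4_56 <|
  consP Pool.Agent.H184.T5.B.p12_43_4 <|
  consP Pool.Agent.H184.T5.B.p2_33_20 <|
  consP Pool.Agent.H184.T5.B.p7_33_20 <|
  consP Pool.Agent.H184.T5.B.p64_41_43 <|
  consP Pool.Agent.H184.T5.V.p1345 <|
  consP Pool.Agent.H184.T5.V.p1346 <|
  consP Pool.Agent.H184.T5.B.p32_91_20 <|
  consP Pool.Agent.H184.T5.V.p208 <|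
  consP Pool.Agent.H184.T5.B.p64_41_91 <|
  consP Pool.Agent.H184.T5.B.p39_33_83 <|
  consP Pool.Agent.H184.T5.V.p212 <|
  consP Pool.Agent.H184.T5.B.p8_33_119 <|
  consP Pool.Agent.H184.T5.B.p8_33_83 <|
  consP Pool.Agent.H184.T5.B.p38_33_43 <|
  consP Pool.Agent.H184.T5.V.p1817 <|
  consP Pool.Agent.H184.T5.B.p44_4_33 <|
  consP Pool.Agent.H184.T5.V.p1380 <|
  consP Pool.Agent.H184.T5.B.p9_33_83 <|
  consP Pool.Agent.H184.T5.B.p44_4_96 <|
  consP Pool.Agent.H184.T5.B.p39_33_43 <|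
  consP Pool.Agent.H184.T5.B.p34_33_96 <|
  consP Pool.Agent.H184.T5.V.p1348 <|
  consP Pool.Agent.H184.T5.V.p1349 <|
  consP Pool.Agent.H184.T5.V.p1350 <|
  consP Pool.Agent.H184.T5.V.p1352 <|
  consP Pool.Agent.H184.T5.B.p44_4_98 <|
  consP Pool.Agent.H184.T5.V.p109 <|
  consP Pool.Agent.H184.T5.B.p44_4_47 <|
  consP Pool.Agent.H184.T5.V.p1353 <|
  consP Pool.Agent.H184.T5.B.p44_4_49 <|
  consP Pool.Agent.H184.T5.B.p44_4_120 <|
  consP Pool.Agent.H184.T5.V.p1354 <|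
  consP Pool.Agent.H184.T5.V.p122 <|
  consP Pool.Agent.H184.T5.V.p1355 <|
  consP Pool.Agent.H184.T5.B.p33_91_49 <|
  nilP

def T : List Ent :=
  [⟨3, 100, 0, 2⟩,
   ⟨9, 43, 92, 7⟩,
   ⟨19, 100, 0, 17⟩,
   ⟨21, 100, 0, 19⟩,
   ⟨24, 43, 0, 22⟩,
   ⟨25, 24, 0, 23⟩,
   ⟨33, 100, 92, 27⟩,
   ⟨41, 43, 0, 35⟩,
   ⟨42, 100, 0, 36⟩,
   ⟨43, 100, 0, 37⟩,
   ⟨48, 100, 0, 41⟩,
   ⟨61, 43, 0, 49⟩,
   ⟨63, 24, 0, 50⟩,
   ⟨93, 43, 68, 61⟩,
   ⟨99, 100, 0, 66⟩,
   ⟨100, 43, 3, 67⟩,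
   ⟨101, 24, 0, 68⟩,
   ⟨105, 100, 0, 69⟩,
   ⟨108, 100, 27, 71⟩,
   ⟨118, 100, 0, 73⟩,
   ⟨121, 43, 0, 76⟩,
   ⟨123, 100, 0, 78⟩]

def F : List Ent :=
  [⟨1, 81, 0, 0⟩,
   ⟨2, 44, 68, 1⟩,
   ⟨5, 44, 8, 3⟩,
   ⟨6, 44, 78, 4⟩,
   ⟨7, 44, 78, 5⟩,
   ⟨8, 44, 104, 6⟩,
   ⟨10, 44, 6, 8⟩,
   ⟨11, 44, 90, 9⟩,
   ⟨12, 44, 24, 10⟩,
   ⟨13, 44, 6, 11⟩,
   ⟨14, 44, 118, 12⟩,
   ⟨15, 44, 68, 13⟩,
   ⟨16, 44, 90, 14⟩,
   ⟨17, 44, 68, 15⟩,
   ⟨18, 44, 70, 16⟩,
   ⟨20, 44, 6, 18⟩,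
   ⟨22, 44, 24, 20⟩,
   ⟨23, 44, 6, 21⟩,
   ⟨26, 44, 78, 14⟩,
   ⟨27, 44, 92, 15⟩,
   ⟨28, 44, 118, 16⟩,
   ⟨29, 44, 92, 13⟩,
   ⟨30, 44, 78, 24⟩,
   ⟨31, 44, 15, 25⟩,
   ⟨32, 44, 92, 26⟩,
   ⟨34, 44, 92, 28⟩,
   ⟨35, 44, 78, 29⟩,
   ⟨36, 44, 8, 30⟩,
   ⟨37, 44, 82, 31⟩,
   ⟨38, 44, 90, 32⟩,
   ⟨39, 44, 118, 33⟩,
   ⟨40, 81, 3, 34⟩,
   ⟨45, 44, 78, 38⟩,
   ⟨46, 44, 78, 39⟩,
   ⟨47, 44, 78, 40⟩,
   ⟨49, 44, 78, 42⟩,
   ⟨50, 44, 70, 12⟩,
   ⟨51, 44, 78, 9⟩,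
   ⟨52, 44, 5, 10⟩,
   ⟨53, 44, 27, 11⟩,
   ⟨54, 44, 27, 8⟩,
   ⟨55, 44, 90, 43⟩,
   ⟨56, 81, 0, 44⟩,
   ⟨57, 44, 90, 45⟩,
   ⟨58, 44, 92, 46⟩,
   ⟨59, 44, 92, 47⟩,
   ⟨60, 44, 15, 48⟩,
   ⟨64, 44, 2, 48⟩,
   ⟨65, 44, 70, 33⟩,
   ⟨66, 44, 145, 30⟩,
   ⟨67, 44, 130, 31⟩,
   ⟨68, 44, 78, 32⟩,
   ⟨69, 44, 90, 29⟩,
   ⟨70, 44, 104, 51⟩,
   ⟨71, 44, 90, 52⟩,
   ⟨72, 44, 146, 53⟩,
   ⟨73, 44, 10, 54⟩,
   ⟨74, 44, 90, 55⟩,
   ⟨75, 81, 68, 56⟩,
   ⟨76, 44, 90, 4⟩,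
   ⟨77, 44, 90, 5⟩,
   ⟨78, 44, 128, 6⟩,
   ⟨79, 44, 145, 3⟩,
   ⟨80, 44, 10, 57⟩,
   ⟨82, 44, 6, 58⟩,
   ⟨84, 44, 147, 57⟩,
   ⟨85, 44, 68, 47⟩,
   ⟨86, 44, 90, 59⟩,
   ⟨87, 44, 78, 45⟩,
   ⟨88, 44, 68, 46⟩,
   ⟨89, 44, 78, 43⟩,
   ⟨90, 44, 68, 28⟩,
   ⟨91, 81, 3, 60⟩,
   ⟨92, 44, 68, 26⟩,
   ⟨94, 44, 90, 24⟩,
   ⟨95, 44, 10, 62⟩,
   ⟨96, 81, 0, 63⟩,
   ⟨97, 44, 6, 64⟩,
   ⟨98, 81, 6, 65⟩,
   ⟨102, 44, 5, 20⟩,
   ⟨103, 44, 27, 21⟩,
   ⟨104, 44, 27, 18⟩,
   ⟨106, 81, 3, 70⟩,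
   ⟨107, 44, 27, 64⟩,
   ⟨109, 44, 147, 62⟩,
   ⟨110, 44, 78, 55⟩,
   ⟨111, 44, 78, 52⟩,
   ⟨112, 44, 11, 53⟩,
   ⟨113, 44, 147, 54⟩,
   ⟨114, 44, 128, 51⟩,
   ⟨115, 44, 90, 42⟩,
   ⟨116, 44, 90, 39⟩,
   ⟨117, 81, 3, 72⟩,
   ⟨119, 81, 3, 74⟩,
   ⟨120, 81, 0, 75⟩,
   ⟨122, 44, 78, 77⟩,
   ⟨124, 81, 130, 79⟩]

theorem ok : nodeOK2 autA 192 P [44, 62, 81] [0, 4, 83] T F = true := by decide +kernel

theorem t : BP 0x200004000100000000000 0x800000000000000000011 := by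
  have h := node2 autOK hP ok
  rw [show maskL [44, 62, 81] = 0x200004000100000000000 from by decide +kernel, show maskL [0, 4, 83] = 0x800000000000000000011 from by decide +kernel] at h
  exact h

end Pool.Agent.H805.T5.N24
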