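import Mathlib
import Pool.Agent.H805.T5.Tree2
import Pool.Agent.H805.T5.Auts
import Pool.Agent.H184.T5.D.F12_43_1
import Pool.Agent.H184.T5.D.F14_43_1
import Pool.Agent.H184.T5.D.F1_91_1
import Pool.Agent.H184.T5.D.F32_91_0
import Pool.Agent.H184.T5.D.F32_91_1
import Pool.Agent.H184.T5.D.F33_91_1
import Pool.Agent.H184.T5.D.F34_33_1
import Pool.Agent.H184.T5.D.F38_33_1
import Pool.Agent.H184.T5.D.F38_33_2
import Pool.Agent.H184.T5.D.F39_33_2
import Pool.Agent.H184.T5.D.F44_4_0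
import Pool.Agent.H184.T5.D.F44_4_1
import Pool.Agent.H184.T5.D.F4_33_0
import Pool.Agent.H184.T5.D.F64_41_2
import Pool.Agent.H184.T5.D.F7_33_0
import Pool.Agent.H184.T5.D.F7_33_2
import Pool.Agent.H184.T5.D.F8_33_0
import Pool.Agent.H184.T5.D.F8_33_1
import Pool.Agent.H184.T5.D.F8_33_2
import Pool.Agent.H184.T5.D.F9_33_0
import Pool.Agent.H184.T5.D.F9_33_1
import Pool.Agent.H184.T5.D.F9_33_2
import Pool.Agent.H184.T5.D.V_007
import Pool.Agent.H184.T5.D.V_008
import Pool.Agent.H184.T5.D.V_009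
import Pool.Agent.H805.T5.N.N23

set_option autoImplicit false
set_option maxRecDepth 20000

namespace Pool.Agent.H805.T5.N25

open Pool.Agent.Helper582.Cube

def P : List (ℕ × ℕ) :=
  [(0x1000004000100000000002, 0xa0000000011),
   (0x2000000000004000004000000000, 0x80200000001),
   (0x4000100000000002, 0x800000000000000000011),
   (0x1000004000100000000020, 0xa0000000011),
   (0x1040004000100000000000, 0xa0000000011),
   (0x800000000000004000008000000000, 0x80200000001),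
   (0x1000004000100000000100, 0xa0000000011),
   (0x1000004000100000000200, 0xa0000000011),
   (0x1000004000100000000400, 0x20001000011),
   (0x1000000004000000000000080, 0x200100001),
   (0x10004000000000001000, 0x80000100001),
   (0x4000100000002000, 0x20000000011),
   (0x1000004000100000004000, 0x200000000020000000011),
   (0x1000000004000000000000002, 0x80000000000000000100001),
   (0x8000000004000000000000002, 0x80000000000020000000001),
   (0x1000004000100000020000, 0x800000000020000000011),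
   (0x1000004000100000040000, 0xa0000000011),
   (0x1000004000100000080000, 0xa0000000011),
   (0x4001000000000010, 0x200100001),
   (0x1000000004000000000000200, 0x200100001),
   (0x10004000000000004000, 0x80000100001),
   (0x1000004000100000800000, 0xa0000000011),
   (0x4000000000010110, 0x10000000000000020200000001),
   (0x800000000000004000000000000100, 0x80200000001),
   (0x4002000000000002, 0x80000000000020000000001),
   (0x4000100000000080, 0x200000000000000000011),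
   (0x1000004000100010000000, 0xa0000000011),
   (0x4000100000000200, 0x200000000000000000011),
   (0x800000000000004000000000000200, 0x80200000001),
   (0x4000000000008010, 0x80200000001),
   (0x4000100100000000, 0x20000000011),
   (0x4000100200000000, 0x200000000000000000011),
   (0x1000004000100400000000, 0xa0000000011),
   (0x100000000000004000000000000080, 0x10000000000000000200000001),
   (0x1000004000101000000000, 0x20001000011),
   (0x4200100000000000, 0x200000000000000000011),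
   (0x10000004000000000000100, 0x10000000000000000200000001),
   (0x1000004000108000000000, 0xa0000000011),
   (0x100004000100000000000, 0x200000000000000000011),
   (0x10004000004000000000, 0x200100001),
   (0x800004000000000000100, 0x10000000000000000200000001),
   (0x100000000000004000000000000200, 0x10000000000000000200000001),
   (0x1000000004000000400000000, 0x200100001),
   (0x1000000004000008000000000, 0x200100001),
   (0x1000000004000100000000000, 0x800000000000000000011),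
   (0x1000004002100000000000, 0xa0000000011),
   (0x4000100000000400, 0x200000000000000000011),
   (0x4000100000002000, 0x80000000011),
   (0x1000004010100000000000, 0xa0000000011),
   (0x20004000000000000100, 0x10000000000000000200000001),
   (0x1000004000000000004000, 0x80000000011),
   (0x1000004080100000000000, 0x20001000011),
   (0x1000004100100000000000, 0x20001000011),
   (0x4000102000000000, 0x200000000000000000011),
   (0x4000000100000100, 0x10080000000000000000000001),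
   (0x4000000000020100, 0x10000000000000000200000001),
   (0x5000100000000000, 0x800000000000000000011),
   (0x1000006000100000000000, 0x20001000011),
   (0x6000100000000000, 0x80000000011),
   (0x14000100000000000, 0x20000000011),
   (0x4000100800000000, 0x80000000011),
   (0x1000044000100000000000, 0x20001000011),
   (0x1000084000100000000000, 0xa0000000011),
   (0x4100100000000000, 0x800000000000000000011),
   (0x40000000000000a0, 0x80200000001),
   (0x8000000004000000100000000, 0x80000000000020000000001),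
   (0x2004000100000000000, 0x800000000000000000011),
   (0x1001004000100000000000, 0x200000000020000000011),
   (0x1002004000100000000000, 0x800000000020000000011),
   (0x4000000000400100, 0x10000000000000000200000001),
   (0x2000000000004000008000000000, 0x80200000001),
   (0x4000110000000000, 0x200000000000000000011),
   (0x1200004000100000000000, 0xa0000000011),
   (0x1400004000100000000000, 0x20001000011),
   (0x3000004000100000000000, 0x20001000011),
   (0x5000004000100000000000, 0xa0000000011),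
   (0x8000000014000000000000000, 0x80000000000020000000001),
   (0x11000004000100000000000, 0x200000000020000000011),
   (0x4002008000000000, 0x800000000000200000001),
   (0x41000004000100000000000, 0x200000000020000000011),
   (0x1000004000100200000000, 0x800000000000001000011),
   (0x101000004000100000000000, 0xa0000000011),
   (0x200004000000000000100, 0x10000000000000000200000001),
   (0x4000100400000000, 0x80000000011),
   (0x801000004000100000000000, 0x800000000020000000011),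
   (0x1001000004000100000000000, 0x20001000011),
   (0x4000900000000000, 0x800000000000000000011),
   (0x4001000004000100000000000, 0x20001000011),
   (0x4000000000200100, 0x10000000000000000200000001),
   (0x1000004000100000100000, 0x100000200000000000000000011),
   (0x10004000000000000200, 0x200100001),
   (0x40001000004000100000000000, 0x200000000020000000011),
   (0x80001000004000100000000000, 0xa0000000011),
   (0x200001000004000100000000000, 0x200000000020000000011),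
   (0x400001000004000100000000000, 0x800000000020000000011),
   (0x4000900000000000, 0x200000000000000000011),
   (0x1000000004000100000000000, 0x80000000011),
   (0x4002100000000000, 0x200000000000000000011),
   (0x4000001000004000100000000000, 0xa0000000011),
   (0x8000001000004000100000000000, 0x200000000020000000011),
   (0x1004000100000000000, 0x200000000000000000011),
   (0x2004000100000000000, 0x200000000000000000011),
   (0x4002000100000000, 0x80000000000020000000001),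
   (0x80000001000004000100000000000, 0xa0000000011),
   (0x100000001000004000100000000000, 0x20001000011),
   (0x2000000004000100000000000, 0x200000000000000000011),
   (0x4000000004000100000000000, 0x200000000000000000011),
   (0x4000000000010200, 0x10000000000000000200000001),
   (0x1000000000000004000100000000000, 0x800000000000000000011),
   (0x2000000001000004000100000000000, 0xa0000000011),
   (0x4004000000000000100, 0x10000000000000000200000001),
   (0x2000000000000004000100000000000, 0x80000000011),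
   (0x4002000200000000, 0x80000000000020000000001)]

theorem hP : ∀ p ∈ P, BP p.1 p.2 :=
  consP Pool.Agent.H184.T5.V.p561 <|
  consP Pool.Agent.H184.T5.B.p38_33_109 <|
  consP Pool.Agent.H184.T5.B.p44_4_1 <|
  consP Pool.Agent.H184.T5.V.p562 <|
  consP Pool.Agent.H184.T5.V.p563 <|
  consP Pool.Agent.H184.T5.B.p39_33_119 <|
  consP Pool.Agent.H184.T5.V.p564 <|
  consP Pool.Agent.H184.T5.V.p565 <|
  consP Pool.Agent.H184.T5.V.p566 <|
  consP Pool.Agent.H184.T5.B.p7_33_96 <|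
  consP Pool.Agent.H184.T5.B.p12_43_76 <|
  consP Pool.Agent.H184.T5.V.p567 <|
  consP Pool.Agent.H184.T5.V.p568 <|
  consP Pool.Agent.H184.T5.B.p1_91_96 <|
  consP Pool.Agent.H184.T5.B.p1_91_99 <|
  consP Pool.Agent.H184.T5.V.p569 <|
  consP Pool.Agent.H184.T5.V.p570 <|
  consP Pool.Agent.H184.T5.V.p571 <|
  consP Pool.Agent.H184.T5.B.p4_33_48 <|
  consP Pool.Agent.H184.T5.B.p9_33_96 <|
  consP Pool.Agent.H184.T5.B.p14_43_76 <|
  consP Pool.Agent.H184.T5.V.p572 <|
  consP Pool.Agent.H184.T5.V.p573 <|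
  consP Pool.Agent.H184.T5.B.p8_33_119 <|
  consP Pool.Agent.H184.T5.B.p1_91_49 <|
  consP Pool.Agent.H184.T5.V.p465 <|
  consP Pool.Agent.H184.T5.V.p574 <|
  consP Pool.Agent.H184.T5.B.p44_4_9 <|
  consP Pool.Agent.H184.T5.B.p9_33_119 <|
  consP Pool.Agent.H184.T5.B.p4_33_15 <|
  consP Pool.Agent.H184.T5.B.p44_4_32 <|
  consP Pool.Agent.H184.T5.B.p44_4_33 <|
  consP Pool.Agent.H184.T5.V.p576 <|
  consP Pool.Agent.H184.T5.B.p7_33_116 <|
  consP Pool.Agent.H184.T5.V.p577 <|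
  consP Pool.Agent.H184.T5.B.p44_4_57 <|
  consP Pool.Agent.H184.T5.V.p578 <|
  consP Pool.Agent.H184.T5.V.p579 <|
  consP Pool.Agent.H184.T5.B.p44_4_80 <|
  consP Pool.Agent.H184.T5.B.p38_33_76 <|
  consP Pool.Agent.H184.T5.B.p8_33_83 <|
  consP Pool.Agent.H184.T5.B.p9_33_116 <|
  consP Pool.Agent.H184.T5.B.p34_33_96 <|
  consP Pool.Agent.H184.T5.B.p39_33_96 <|
  consP Pool.Agent.H184.T5.B.p44_4_96 <|
  consP Pool.Agent.H184.T5.V.p580 <|
  consP Pool.Agent.H184.T5.B.p44_4_10 <|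
  consP Pool.Agent.H184.T5.B.p44_4_13 <|
  consP Pool.Agent.H184.T5.V.p581 <|
  consP Pool.Agent.H184.T5.V.p582 <|
  consP Pool.Agent.H184.T5.B.p14_43_84 <|
  consP Pool.Agent.H184.T5.V.p583 <|
  consP Pool.Agent.H184.T5.V.p584 <|
  consP Pool.Agent.H184.T5.B.p44_4_37 <|
  consP Pool.Agent.H184.T5.B.p32_91_8 <|
  consP Pool.Agent.H184.T5.B.p8_33_17 <|
  consP Pool.Agent.H184.T5.B.p44_4_60 <|
  consP Pool.Agent.H184.T5.V.p585 <|
  consP Pool.Agent.H184.T5.B.p44_4_61 <|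
  consP Pool.Agent.H805.T5.N23.t <|
  consP Pool.Agent.H184.T5.B.p44_4_35 <|
  consP Pool.Agent.H184.T5.V.p586 <|
  consP Pool.Agent.H184.T5.V.p587 <|
  consP Pool.Agent.H184.T5.B.p44_4_56 <|
  consP Pool.Agent.H184.T5.B.p7_33_5 <|
  consP Pool.Agent.H184.T5.B.p32_91_99 <|
  consP Pool.Agent.H184.T5.B.p44_4_73 <|
  consP Pool.Agent.H184.T5.V.p588 <|
  consP Pool.Agent.H184.T5.V.p589 <|
  consP Pool.Agent.H184.T5.V.p590 <|
  consP Pool.Agent.H184.T5.B.p39_33_109 <|
  consP Pool.Agent.H184.T5.B.p44_4_40 <|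
  consP Pool.Agent.H184.T5.V.p591 <|
  consP Pool.Agent.H184.T5.V.p592 <|
  consP Pool.Agent.H184.T5.V.p593 <|
  consP Pool.Agent.H184.T5.V.p594 <|
  consP Pool.Agent.H184.T5.B.p64_41_99 <|
  consP Pool.Agent.H184.T5.V.p595 <|
  consP Pool.Agent.H184.T5.V.p485 <|
  consP Pool.Agent.H184.T5.V.p596 <|
  consP Pool.Agent.H184.T5.V.p597 <|
  consP Pool.Agent.H184.T5.V.p598 <|
  consP Pool.Agent.H184.T5.B.p8_33_81 <|
  consP Pool.Agent.H184.T5.B.p44_4_34 <|
  consP Pool.Agent.H184.T5.V.p599 <|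
  consP Pool.Agent.H184.T5.V.p600 <|
  consP Pool.Agent.H184.T5.V.p473 <|
  consP Pool.Agent.H184.T5.V.p601 <|
  consP Pool.Agent.H184.T5.B.p8_33_21 <|
  consP Pool.Agent.H184.T5.V.p602 <|
  consP Pool.Agent.H184.T5.B.p9_33_76 <|
  consP Pool.Agent.H184.T5.V.p603 <|
  consP Pool.Agent.H184.T5.V.p604 <|
  consP Pool.Agent.H184.T5.V.p605 <|
  consP Pool.Agent.H184.T5.V.p606 <|
  consP Pool.Agent.H184.T5.B.p44_4_47 <|
  consP Pool.Agent.H184.T5.V.p607 <|
  consP Pool.Agent.H184.T5.B.p44_4_49 <|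
  consP Pool.Agent.H184.T5.V.p608 <|
  consP Pool.Agent.H184.T5.V.p609 <|
  consP Pool.Agent.H184.T5.B.p44_4_72 <|
  consP Pool.Agent.H184.T5.V.p496 <|
  consP Pool.Agent.H184.T5.B.p32_91_49 <|
  consP Pool.Agent.H184.T5.V.p610 <|
  consP Pool.Agent.H184.T5.V.p611 <|
  consP Pool.Agent.H184.T5.V.p469 <|
  consP Pool.Agent.H184.T5.B.p44_4_98 <|
  consP Pool.Agent.H184.T5.B.p9_33_16 <|
  consP Pool.Agent.H184.T5.B.p44_4_120 <|
  consP Pool.Agent.H184.T5.V.p612 <|
  consP Pool.Agent.H184.T5.B.p8_33_74 <|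
  consP Pool.Agent.H184.T5.B.p44_4_121 <|
  consP Pool.Agent.H184.T5.B.p33_91_49 <|
  nilP

def T : List Ent :=
  [⟨1, 43, 0, 0⟩,
   ⟨5, 43, 0, 3⟩,
   ⟨6, 43, 3, 4⟩,
   ⟨8, 43, 0, 6⟩,
   ⟨9, 43, 0, 7⟩,
   ⟨10, 24, 0, 8⟩,
   ⟨14, 81, 0, 12⟩,
   ⟨17, 83, 0, 15⟩,
   ⟨18, 43, 0, 16⟩,
   ⟨19, 43, 0, 17⟩,
   ⟨23, 43, 0, 21⟩,
   ⟨24, 81, 144, 22⟩,
   ⟨28, 43, 0, 26⟩,
   ⟨34, 43, 0, 32⟩,
   ⟨36, 24, 0, 34⟩,
   ⟨39, 43, 0, 37⟩,
   ⟨49, 43, 0, 45⟩,
   ⟨52, 43, 0, 48⟩,
   ⟨55, 24, 0, 51⟩,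
   ⟨56, 24, 0, 52⟩,
   ⟨61, 24, 0, 57⟩,
   ⟨66, 24, 0, 61⟩,
   ⟨67, 43, 0, 62⟩,
   ⟨72, 81, 0, 67⟩,
   ⟨73, 83, 0, 68⟩,
   ⟨75, 43, 3, 3⟩,
   ⟨76, 43, 3, 6⟩,
   ⟨78, 43, 0, 4⟩,
   ⟨79, 43, 3, 7⟩,
   ⟨81, 43, 0, 72⟩,
   ⟨82, 24, 0, 73⟩,
   ⟨83, 43, 3, 72⟩,
   ⟨85, 24, 0, 74⟩,
   ⟨86, 43, 0, 75⟩,
   ⟨88, 81, 0, 77⟩,
   ⟨90, 81, 0, 79⟩,
   ⟨91, 24, 2, 80⟩,
   ⟨92, 43, 0, 81⟩,
   ⟨95, 83, 0, 84⟩,
   ⟨96, 24, 0, 85⟩,
   ⟨98, 24, 0, 87⟩,
   ⟨100, 24, 1, 89⟩,
   ⟨102, 81, 0, 91⟩,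
   ⟨103, 43, 0, 92⟩,
   ⟨104, 81, 145, 22⟩,
   ⟨105, 81, 0, 93⟩,
   ⟨106, 83, 0, 94⟩,
   ⟨110, 43, 0, 98⟩,
   ⟨111, 81, 0, 99⟩,
   ⟨115, 43, 0, 103⟩,
   ⟨116, 24, 0, 104⟩,
   ⟨121, 43, 0, 109⟩]

def F : List Ent :=
  [⟨2, 44, 87, 1⟩,
   ⟨3, 44, 2, 2⟩,
   ⟨7, 44, 63, 5⟩,
   ⟨11, 44, 4, 9⟩,
   ⟨12, 44, 26, 10⟩,
   ⟨13, 84, 0, 11⟩,
   ⟨15, 84, 6, 13⟩,
   ⟨16, 44, 73, 14⟩,
   ⟨20, 84, 4, 18⟩,
   ⟨21, 44, 4, 19⟩,
   ⟨22, 44, 26, 20⟩,
   ⟨25, 44, 63, 23⟩,
   ⟨26, 44, 121, 24⟩,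
   ⟨27, 44, 1, 25⟩,
   ⟨29, 44, 1, 27⟩,
   ⟨30, 44, 63, 28⟩,
   ⟨31, 84, 63, 29⟩,
   ⟨32, 84, 0, 30⟩,
   ⟨33, 44, 1, 31⟩,
   ⟨35, 44, 8, 33⟩,
   ⟨37, 44, 1, 35⟩,
   ⟨38, 84, 145, 36⟩,
   ⟨40, 44, 1, 38⟩,
   ⟨42, 44, 25, 39⟩,
   ⟨43, 84, 145, 40⟩,
   ⟨45, 44, 8, 41⟩,
   ⟨46, 44, 4, 42⟩,
   ⟨47, 44, 4, 43⟩,
   ⟨48, 44, 2, 44⟩,
   ⟨50, 44, 1, 46⟩,
   ⟨51, 84, 3, 47⟩,
   ⟨53, 84, 145, 49⟩,
   ⟨54, 44, 3, 50⟩,
   ⟨57, 44, 1, 53⟩,
   ⟨58, 44, 147, 54⟩,
   ⟨59, 84, 145, 55⟩,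
   ⟨60, 44, 2, 56⟩,
   ⟨63, 84, 3, 58⟩,
   ⟨64, 84, 0, 59⟩,
   ⟨65, 84, 3, 60⟩,
   ⟨68, 44, 2, 63⟩,
   ⟨69, 84, 87, 64⟩,
   ⟨70, 44, 73, 65⟩,
   ⟨71, 44, 2, 66⟩,
   ⟨74, 84, 145, 69⟩,
   ⟨77, 44, 87, 70⟩,
   ⟨80, 44, 1, 71⟩,
   ⟨87, 44, 73, 76⟩,
   ⟨89, 44, 109, 78⟩,
   ⟨93, 84, 145, 82⟩,
   ⟨94, 84, 3, 83⟩,
   ⟨97, 44, 2, 86⟩,
   ⟨99, 84, 145, 88⟩,
   ⟨101, 44, 25, 90⟩,
   ⟨107, 44, 1, 95⟩,
   ⟨108, 84, 3, 96⟩,
   ⟨109, 44, 1, 97⟩,
   ⟨112, 44, 1, 100⟩,
   ⟨113, 44, 1, 101⟩,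
   ⟨114, 44, 121, 102⟩,
   ⟨117, 44, 1, 105⟩,
   ⟨118, 44, 1, 106⟩,
   ⟨119, 44, 145, 107⟩,
   ⟨120, 44, 2, 108⟩,
   ⟨122, 84, 145, 110⟩,
   ⟨123, 84, 3, 111⟩,
   ⟨124, 44, 121, 112⟩]

theorem ok : nodeOK2 autA 192 P [44, 62, 84] [0, 4, 41] T F = true := by decide +kernel

theorem t : BP 0x1000004000100000000000 0x20000000011 := by
  have h := node2 autOK hP ok
  rw [show maskL [44, 62, 84] = 0x1000004000100000000000 from by decide +kernel, show maskL [0, 4, 41] = 0x20000000011 from by decide +kernel] at h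
  exact h

end Pool.Agent.H805.T5.N25
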