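import Mathlib
import Pool.Agent.H805.T5.Tree2
import Pool.Agent.H805.T5.Auts
import Pool.Agent.H184.T5.D.F12_43_0
import Pool.Agent.H184.T5.D.F14_43_0
import Pool.Agent.H184.T5.D.F14_43_1
import Pool.Agent.H184.T5.D.F2_33_0
import Pool.Agent.H184.T5.D.F32_91_0
import Pool.Agent.H184.T5.D.F32_91_1
import Pool.Agent.H184.T5.D.F34_33_0
import Pool.Agent.H184.T5.D.F38_33_0
import Pool.Agent.H184.T5.D.F38_33_1
import Pool.Agent.H184.T5.D.F39_33_0
import Pool.Agent.H184.T5.D.F39_33_1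
import Pool.Agent.H184.T5.D.F39_33_2
import Pool.Agent.H184.T5.D.F4_33_0
import Pool.Agent.H184.T5.D.F64_41_0
import Pool.Agent.H184.T5.D.F64_41_1
import Pool.Agent.H184.T5.D.F64_41_2
import Pool.Agent.H184.T5.D.F6_81_0
import Pool.Agent.H184.T5.D.F7_33_0
import Pool.Agent.H184.T5.D.F7_33_1
import Pool.Agent.H184.T5.D.F8_33_1
import Pool.Agent.H184.T5.D.F8_33_2
import Pool.Agent.H184.T5.D.F9_33_0
import Pool.Agent.H184.T5.D.F9_33_1
import Pool.Agent.H184.T5.D.F9_33_2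
import Pool.Agent.H184.T5.D.V_003
import Pool.Agent.H184.T5.D.V_004
import Pool.Agent.H184.T5.D.V_009
import Pool.Agent.H184.T5.D.V_010
import Pool.Agent.H184.T5.D.V_020
import Pool.Agent.H184.T5.D.V_024
import Pool.Agent.H805.T5.N.N2
import Pool.Agent.H805.T5.N.N23
import Pool.Agent.H805.T5.N.N9

set_option autoImplicit false
set_option maxRecDepth 20000

namespace Pool.Agent.H805.T5.N26

open Pool.Agent.Helper582.Cube

def P : List (ℕ × ℕ) :=
  [(0x20000000014000000000000002, 0xa0000000011),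
   (0x84000004000000000, 0x80200000001),
   (0x6000100000000000, 0xa0000000001),
   (0x20000000014000000000000020, 0x200000000020000000011),
   (0x20000000014000000000000040, 0x200000000020000000011),
   (0x84000008000000000, 0x80200000001),
   (0x20000000014000000000000100, 0xa0000000011),
   (0x20000000014000000000000200, 0x200000000020000000011),
   (0x4000200000000004, 0x10000000000000000200000001),
   (0x4000000000040080, 0x800000000000200000001),
   (0x4010000000001000, 0x80000100001),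
   (0x24000000000000200, 0x200100001),
   (0x4004000000000200, 0x200100001),
   (0x4000200000000200, 0x200100001),
   (0x200000000004000000000000100, 0x200100001),
   (0x20000000014000000000020000, 0xa0000000011),
   (0x20000000014000000000040000, 0xa0000000011),
   (0x20000000014000000000080000, 0xa0000000011),
   (0x14000000000100000, 0x20000000011),
   (0x20000000014000000000200000, 0x200000000020000000011),
   (0x14000000000400000, 0x20000000011),
   (0x14000000000800000, 0x20000000011),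
   (0x20000000014000000001000000, 0x200000000020000000011),
   (0x40004000000000000100, 0x80200000001),
   (0x4000000000000240, 0x200000000000000100001),
   (0x20000000014000000008000000, 0xa0000000011),
   (0x4000000000040200, 0x200100001),
   (0x14000000020000000, 0x20000000011),
   (0x40004000000000000200, 0x80200000001),
   (0x4000000000040010, 0x800000000000200000001),
   (0x14000000100000000, 0x20000000011),
   (0x200000004000000000000200, 0x200100001),
   (0x14000000400000000, 0x20000000011),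
   (0x84000000000000080, 0x80200000001),
   (0x20000000014000001000000000, 0xa0000000011),
   (0xc000000000001000, 0xa0000000001),
   (0x104000000000000200, 0x200100001),
   (0x14000008000000000, 0x20000000011),
   (0x4001000000000200, 0x200100001),
   (0x4000004000000200, 0x200100001),
   (0x4000080000000200, 0x200100001),
   (0x14000100000000000, 0x20000000011),
   (0x4000200000000200, 0x10000000000000000200000001),
   (0x4000200400000000, 0x10000000000000000200000001),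
   (0x20000000000004000000000000200, 0x200100001),
   (0x14001000000000000, 0x20000000011),
   (0x20000000014002000000000000, 0xa0000000011),
   (0x4000004000040000, 0x800000000000200000001),
   (0x14008000000000000, 0x20000000011),
   (0x4000000000081000, 0x80000100001),
   (0x14020000000000000, 0x20000000011),
   (0x4000000000804000, 0x80000000011),
   (0x8000004000008000000000, 0x800000000000200000001),
   (0x400004000000000000200, 0x200100001),
   (0x8000004000000000000200, 0x200100001),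
   (0x4000000100001000, 0x10080000000000000000000001),
   (0x14800000000000000, 0x20000000011),
   (0x15000000000000000, 0x20000000011),
   (0x16000000000000000, 0x20000000011),
   (0x84000000000000200, 0x200100001),
   (0x20000000034000000000000000, 0xa0000000011),
   (0x4000204000000000, 0x10000000000000000200000001),
   (0x4000000004001000, 0x80200000001),
   (0x6000000000004000, 0xa0000000001),
   (0x20000000214000000000000000, 0xa0000000011),
   (0x84000000100000000, 0x80200000000000000000001),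
   (0x800000000004000000000000200, 0x200100001),
   (0x1014000000000000000, 0x20000000011),
   (0x20000002014000000000000000, 0x200000000020000000011),
   (0x4014000000000000000, 0x20000000011),
   (0x20000008014000000000000000, 0x200000000020000000011),
   (0x20000010014000000000000000, 0x200000000020000000011),
   (0x20000020014000000000000000, 0xa0000000011),
   (0x20000040014000000000000000, 0xa0000000011),
   (0x80014000000000000000, 0x20000000011),
   (0x1000000004000000000000200, 0x200100001),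
   (0x20000200014000000000000000, 0xa0000000011),
   (0x20000400014000000000000000, 0x20001000011),
   (0x10000000000000084000000000000000, 0x80200000001),
   (0x10004000000000000200, 0x200100001),
   (0x2000014000000000000000, 0x20000000011),
   (0x4100000000000200, 0x200100001),
   (0x14000000000040000, 0x80000000000020000000001),
   (0x44000000000000200, 0x200100001),
   (0x4000008000000040, 0x800000000000200000001),
   (0x4000400000000200, 0x200100001),
   (0x4000002000000010, 0x800000000000200000001),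
   (0x20100000014000000000000000, 0x20001000011),
   (0x200000014000000000000000, 0x20000000011),
   (0x4000000004000200, 0x80200000001),
   (0x2000000000000004000000000000200, 0x200100001),
   (0x1000000014000000000000000, 0x20000000011),
   (0x8000000000004000000000000200, 0x200100001),
   (0x14000400000000000, 0x800000000000000000011),
   (0x20000000004000000000000200, 0x200100001),
   (0x30000000014000000000000000, 0xa0000000011),
   (0x1004000000000004000, 0x80000100001),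
   (0x80000000014000000000000000, 0x20000000011),
   (0x4000000000000210, 0x200100001),
   (0x8000000004000000000000200, 0x200100001),
   (0x1000004000000000000200, 0x200100001),
   (0x800000000014000000000000000, 0x20000000011),
   (0x1020000000014000000000000000, 0x20001000011),
   (0x2000000000014000000000000000, 0x20000000011),
   (0x4020000000014000000000000000, 0xa0000000011),
   (0x4000008000001000, 0x10000000000000000200000001),
   (0x10020000000014000000000000000, 0x20001000011),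
   (0x20020000000014000000000000000, 0x20001000011),
   (0x4040000000000200, 0x200100001),
   (0x80020000000014000000000000000, 0xa0000000011),
   (0x100000000000014000000000000000, 0x20000000011),
   (0x4000008000000200, 0x200100001),
   (0x400000000000014000000000000000, 0x20000000011),
   (0x4000000000001200, 0x10000000000000000200000001),
   (0x10000000000004000200001000000, 0x10000000000000020200000001),
   (0x2000020000000014000000000000000, 0x200000000020000000011),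
   (0x40000000000004000000000000200, 0x200100001),
   (0x8000000000000014000000000000000, 0x20000000011),
   (0x100000000004000000000000200, 0x200100001)]

theorem hP : ∀ p ∈ P, BP p.1 p.2 :=
  consP Pool.Agent.H184.T5.V.p1381 <|
  consP Pool.Agent.H184.T5.B.p38_33_67 <|
  consP Pool.Agent.H184.T5.V.p297 <|
  consP Pool.Agent.H184.T5.V.p1382 <|
  consP Pool.Agent.H184.T5.V.p1383 <|
  consP Pool.Agent.H184.T5.B.p39_33_67 <|
  consP Pool.Agent.H184.T5.V.p1384 <|
  consP Pool.Agent.H184.T5.V.p1385 <|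
  consP Pool.Agent.H184.T5.B.p2_33_45 <|
  consP Pool.Agent.H184.T5.B.p7_33_18 <|
  consP Pool.Agent.H184.T5.B.p12_43_52 <|
  consP Pool.Agent.H184.T5.B.p9_33_65 <|
  consP Pool.Agent.H184.T5.B.p9_33_50 <|
  consP Pool.Agent.H184.T5.V.p1649 <|
  consP Pool.Agent.H184.T5.B.p8_33_105 <|
  consP Pool.Agent.H184.T5.V.p1386 <|
  consP Pool.Agent.H184.T5.V.p1387 <|
  consP Pool.Agent.H184.T5.V.p1388 <|
  consP Pool.Agent.H184.T5.V.p313 <|
  consP Pool.Agent.H184.T5.V.p1389 <|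
  consP Pool.Agent.H184.T5.B.p64_41_22 <|
  consP Pool.Agent.H184.T5.B.p64_41_23 <|
  consP Pool.Agent.H184.T5.V.p1390 <|
  consP Pool.Agent.H184.T5.B.p8_33_78 <|
  consP Pool.Agent.H184.T5.B.p6_81_9 <|
  consP Pool.Agent.H184.T5.V.p1391 <|
  consP Pool.Agent.H184.T5.V.p1392 <|
  consP Pool.Agent.H184.T5.B.p64_41_29 <|
  consP Pool.Agent.H184.T5.B.p9_33_78 <|
  consP Pool.Agent.H805.T5.N2.t <|
  consP Pool.Agent.H184.T5.V.p323 <|
  consP Pool.Agent.H184.T5.B.p9_33_93 <|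
  consP Pool.Agent.H184.T5.V.p320 <|
  consP Pool.Agent.H184.T5.B.p7_33_67 <|
  consP Pool.Agent.H184.T5.V.p1394 <|
  consP Pool.Agent.H184.T5.B.p12_43_63 <|
  consP Pool.Agent.H184.T5.B.p9_33_68 <|
  consP Pool.Agent.H184.T5.B.p64_41_39 <|
  consP Pool.Agent.H184.T5.V.p615 <|
  consP Pool.Agent.H184.T5.B.p9_33_38 <|
  consP Pool.Agent.H184.T5.B.p9_33_43 <|
  consP Pool.Agent.H805.T5.N23.t <|
  consP Pool.Agent.H184.T5.B.p9_33_45 <|
  consP Pool.Agent.H184.T5.B.p34_33_45 <|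
  consP Pool.Agent.H184.T5.B.p9_33_113 <|
  consP Pool.Agent.H184.T5.B.p64_41_48 <|
  consP Pool.Agent.H184.T5.V.p1396 <|
  consP Pool.Agent.H184.T5.B.p38_33_18 <|
  consP Pool.Agent.H184.T5.B.p64_41_51 <|
  consP Pool.Agent.H184.T5.B.p12_43_19 <|
  consP Pool.Agent.H184.T5.V.p296 <|
  consP Pool.Agent.H184.T5.B.p14_43_23 <|
  consP Pool.Agent.H184.T5.B.p39_33_87 <|
  consP Pool.Agent.H184.T5.B.p9_33_82 <|
  consP Pool.Agent.H184.T5.B.p9_33_87 <|
  consP Pool.Agent.H184.T5.B.p32_91_12 <|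
  consP Pool.Agent.H184.T5.B.p64_41_59 <|
  consP Pool.Agent.H184.T5.V.p305 <|
  consP Pool.Agent.H184.T5.V.p300 <|
  consP Pool.Agent.H184.T5.B.p9_33_67 <|
  consP Pool.Agent.H184.T5.V.p1397 <|
  consP Pool.Agent.H184.T5.B.p38_33_45 <|
  consP Pool.Agent.H184.T5.B.p12_43_26 <|
  consP Pool.Agent.H184.T5.B.p14_43_61 <|
  consP Pool.Agent.H184.T5.V.p1398 <|
  consP Pool.Agent.H184.T5.B.p32_91_67 <|
  consP Pool.Agent.H184.T5.B.p9_33_107 <|
  consP Pool.Agent.H184.T5.B.p64_41_72 <|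
  consP Pool.Agent.H184.T5.V.p1399 <|
  consP Pool.Agent.H184.T5.B.p64_41_74 <|
  consP Pool.Agent.H184.T5.V.p1400 <|
  consP Pool.Agent.H184.T5.V.p1401 <|
  consP Pool.Agent.H184.T5.V.p1402 <|
  consP Pool.Agent.H184.T5.V.p1403 <|
  consP Pool.Agent.H184.T5.B.p64_41_79 <|
  consP Pool.Agent.H184.T5.B.p9_33_96 <|
  consP Pool.Agent.H184.T5.V.p1404 <|
  consP Pool.Agent.H184.T5.V.p1405 <|
  consP Pool.Agent.H184.T5.V.p331 <|
  consP Pool.Agent.H184.T5.B.p9_33_76 <|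
  consP Pool.Agent.H184.T5.B.p64_41_85 <|
  consP Pool.Agent.H184.T5.V.p626 <|
  consP Pool.Agent.H184.T5.B.p64_41_18 <|
  consP Pool.Agent.H184.T5.B.p9_33_66 <|
  consP Pool.Agent.H184.T5.V.p664 <|
  consP Pool.Agent.H184.T5.B.p9_33_46 <|
  consP Pool.Agent.H805.T5.N9.t <|
  consP Pool.Agent.H184.T5.V.p1407 <|
  consP Pool.Agent.H184.T5.V.p268 <|
  consP Pool.Agent.H184.T5.B.p9_33_26 <|
  consP Pool.Agent.H184.T5.B.p9_33_121 <|
  consP Pool.Agent.H184.T5.B.p64_41_96 <|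
  consP Pool.Agent.H184.T5.B.p9_33_111 <|
  consP Pool.Agent.H184.T5.V.p315 <|
  consP Pool.Agent.H184.T5.B.p9_33_101 <|
  consP Pool.Agent.H184.T5.V.p1408 <|
  consP Pool.Agent.H184.T5.B.p14_43_72 <|
  consP Pool.Agent.H184.T5.B.p64_41_103 <|
  consP Pool.Agent.H184.T5.B.p4_33_9 <|
  consP Pool.Agent.H184.T5.B.p9_33_99 <|
  consP Pool.Agent.H184.T5.B.p9_33_84 <|
  consP Pool.Agent.H184.T5.B.p64_41_107 <|
  consP Pool.Agent.H184.T5.V.p1409 <|
  consP Pool.Agent.H184.T5.B.p64_41_109 <|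
  consP Pool.Agent.H184.T5.V.p1410 <|
  consP Pool.Agent.H184.T5.B.p39_33_12 <|
  consP Pool.Agent.H184.T5.V.p1411 <|
  consP Pool.Agent.H184.T5.V.p1412 <|
  consP Pool.Agent.H184.T5.B.p9_33_54 <|
  consP Pool.Agent.H184.T5.V.p1413 <|
  consP Pool.Agent.H184.T5.B.p64_41_116 <|
  consP Pool.Agent.H184.T5.B.p9_33_39 <|
  consP Pool.Agent.H184.T5.B.p64_41_118 <|
  consP Pool.Agent.H184.T5.B.p9_33_12 <|
  consP Pool.Agent.H184.T5.V.p1414 <|
  consP Pool.Agent.H184.T5.V.p1415 <|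
  consP Pool.Agent.H184.T5.B.p9_33_114 <|
  consP Pool.Agent.H184.T5.B.p64_41_123 <|
  consP Pool.Agent.H184.T5.B.p9_33_104 <|
  nilP

def T : List Ent :=
  [⟨1, 43, 0, 0⟩,
   ⟨5, 81, 0, 3⟩,
   ⟨6, 81, 0, 4⟩,
   ⟨8, 43, 0, 6⟩,
   ⟨9, 81, 0, 7⟩,
   ⟨17, 43, 0, 15⟩,
   ⟨18, 43, 0, 16⟩,
   ⟨19, 43, 0, 17⟩,
   ⟨21, 81, 0, 19⟩,
   ⟨24, 81, 0, 22⟩,
   ⟨27, 43, 0, 25⟩,
   ⟨36, 43, 0, 34⟩,
   ⟨49, 43, 0, 46⟩,
   ⟨65, 43, 0, 60⟩,
   ⟨69, 43, 0, 64⟩,
   ⟨73, 81, 0, 68⟩,
   ⟨75, 81, 0, 70⟩,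
   ⟨76, 81, 0, 71⟩,
   ⟨77, 43, 0, 72⟩,
   ⟨78, 43, 0, 73⟩,
   ⟨81, 43, 0, 76⟩,
   ⟨82, 24, 0, 77⟩,
   ⟨92, 24, 0, 87⟩,
   ⟨100, 43, 0, 95⟩,
   ⟨108, 24, 0, 102⟩,
   ⟨110, 43, 0, 104⟩,
   ⟨112, 24, 0, 106⟩,
   ⟨113, 24, 0, 107⟩,
   ⟨115, 43, 0, 109⟩,
   ⟨120, 81, 8, 114⟩,
   ⟨121, 81, 0, 115⟩]

def F : List Ent :=
  [⟨2, 101, 63, 1⟩,
   ⟨3, 101, 89, 2⟩,
   ⟨7, 101, 63, 5⟩,
   ⟨10, 64, 8, 8⟩,
   ⟨11, 64, 61, 9⟩,
   ⟨12, 101, 26, 10⟩,
   ⟨13, 64, 25, 11⟩,
   ⟨14, 64, 25, 12⟩,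
   ⟨15, 64, 25, 13⟩,
   ⟨16, 64, 4, 14⟩,
   ⟨20, 101, 0, 18⟩,
   ⟨22, 101, 0, 20⟩,
   ⟨23, 101, 0, 21⟩,
   ⟨25, 64, 63, 23⟩,
   ⟨26, 64, 5, 24⟩,
   ⟨28, 64, 25, 26⟩,
   ⟨29, 101, 0, 27⟩,
   ⟨30, 64, 63, 28⟩,
   ⟨31, 64, 61, 29⟩,
   ⟨32, 101, 0, 30⟩,
   ⟨33, 64, 25, 31⟩,
   ⟨34, 101, 0, 32⟩,
   ⟨35, 101, 63, 33⟩,
   ⟨37, 101, 77, 35⟩,
   ⟨38, 64, 25, 36⟩,
   ⟨39, 101, 0, 37⟩,
   ⟨40, 64, 25, 38⟩,
   ⟨42, 64, 25, 39⟩,
   ⟨43, 64, 25, 40⟩,
   ⟨44, 101, 0, 41⟩,
   ⟨45, 64, 8, 42⟩,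
   ⟨46, 64, 8, 43⟩,
   ⟨47, 64, 25, 44⟩,
   ⟨48, 101, 0, 45⟩,
   ⟨50, 64, 61, 47⟩,
   ⟨51, 101, 0, 48⟩,
   ⟨52, 64, 7, 49⟩,
   ⟨53, 101, 0, 50⟩,
   ⟨54, 64, 3, 51⟩,
   ⟨55, 101, 61, 52⟩,
   ⟨56, 64, 25, 53⟩,
   ⟨57, 64, 25, 54⟩,
   ⟨58, 101, 147, 55⟩,
   ⟨59, 101, 0, 56⟩,
   ⟨60, 101, 0, 57⟩,
   ⟨61, 101, 0, 58⟩,
   ⟨63, 64, 25, 59⟩,
   ⟨66, 64, 8, 61⟩,
   ⟨67, 64, 87, 62⟩,
   ⟨68, 101, 89, 63⟩,
   ⟨70, 101, 99, 65⟩,
   ⟨71, 64, 25, 66⟩,
   ⟨72, 101, 0, 67⟩,
   ⟨74, 101, 0, 69⟩,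
   ⟨79, 101, 0, 74⟩,
   ⟨80, 64, 25, 75⟩,
   ⟨83, 101, 63, 78⟩,
   ⟨84, 64, 25, 79⟩,
   ⟨85, 101, 0, 80⟩,
   ⟨86, 64, 25, 81⟩,
   ⟨87, 64, 73, 82⟩,
   ⟨88, 64, 25, 83⟩,
   ⟨89, 64, 109, 84⟩,
   ⟨90, 64, 25, 85⟩,
   ⟨91, 101, 109, 86⟩,
   ⟨93, 101, 0, 88⟩,
   ⟨94, 64, 87, 89⟩,
   ⟨95, 64, 25, 90⟩,
   ⟨96, 101, 0, 91⟩,
   ⟨97, 64, 25, 92⟩,
   ⟨98, 101, 2, 93⟩,
   ⟨99, 64, 25, 94⟩,
   ⟨102, 101, 7, 96⟩,
   ⟨103, 101, 0, 97⟩,
   ⟨104, 64, 25, 98⟩,
   ⟨105, 64, 25, 99⟩,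
   ⟨106, 64, 25, 100⟩,
   ⟨107, 101, 0, 101⟩,
   ⟨109, 101, 0, 103⟩,
   ⟨111, 101, 145, 105⟩,
   ⟨114, 64, 25, 108⟩,
   ⟨116, 101, 0, 110⟩,
   ⟨117, 64, 25, 111⟩,
   ⟨118, 101, 0, 112⟩,
   ⟨119, 101, 145, 113⟩,
   ⟨122, 64, 25, 116⟩,
   ⟨123, 101, 0, 117⟩,
   ⟨124, 64, 25, 118⟩]

theorem ok : nodeOK2 autA 192 P [62, 64, 101] [0, 4, 41] T F = true := by decide +kernel

theorem t : BP 0x20000000014000000000000000 0x20000000011 := by
  have h := node2 autOK hP ok
  rw [show maskL [62, 64, 101] = 0x20000000014000000000000000 from by decide +kernel, show maskL [0, 4, 41] = 0x20000000011 from by decide +kernel] at h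
  exact h

end Pool.Agent.H805.T5.N26
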