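import Mathlib
import Pool.Agent.H805.T5.Tree2
import Pool.Agent.H805.T5.Auts
import Pool.Agent.H184.T5.D.F14_43_0
import Pool.Agent.H184.T5.D.F1_91_0
import Pool.Agent.H184.T5.D.F24_43_0
import Pool.Agent.H184.T5.D.F2_33_0
import Pool.Agent.H184.T5.D.F2_33_1
import Pool.Agent.H184.T5.D.F4_33_0
import Pool.Agent.H184.T5.D.F4_33_1
import Pool.Agent.H184.T5.D.V_000
import Pool.Agent.H184.T5.D.V_003
import Pool.Agent.H184.T5.D.V_004
import Pool.Agent.H184.T5.D.V_005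
import Pool.Agent.H184.T5.D.V_007
import Pool.Agent.H184.T5.D.V_008
import Pool.Agent.H184.T5.D.V_012
import Pool.Agent.H184.T5.D.V_016
import Pool.Agent.H184.T5.D.V_017
import Pool.Agent.H184.T5.D.V_020
import Pool.Agent.H184.T5.D.V_029
import Pool.Agent.H805.T5.N.N1
import Pool.Agent.H805.T5.N.N11
import Pool.Agent.H805.T5.N.N13
import Pool.Agent.H805.T5.N.N14
import Pool.Agent.H805.T5.N.N18
import Pool.Agent.H805.T5.N.N2
import Pool.Agent.H805.T5.N.N3
import Pool.Agent.H805.T5.N.N5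
import Pool.Agent.H805.T5.N.N6
import Pool.Agent.H805.T5.N.N8

set_option autoImplicit false
set_option maxRecDepth 20000

namespace Pool.Agent.H805.T5.N27

open Pool.Agent.Helper582.Cube

def P : List (ℕ × ℕ) :=
  [(0x4000000080000012, 0x200000000000200100001),
   (0x4000000080000004, 0x200100001),
   (0x4000000084000000, 0xa0000000001),
   (0x200000004000000000100100, 0x10000800000000000200000001),
   (0x4000000000000050, 0x200100001),
   (0x4000000080000090, 0x80200100001),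
   (0x4000000080000002, 0x80000000000020000000001),
   (0x4000000000000210, 0x200100001),
   (0x4000000080000410, 0x80200100001),
   (0x4000000080000810, 0x80200100001),
   (0x4000000000001010, 0x200100001),
   (0x4000000080002010, 0x80200100001),
   (0x4000000080004010, 0x80000000000000200100001),
   (0x4000000080008010, 0x80200100001),
   (0x4002000000000010, 0x80200000001),
   (0x4000000080020010, 0x80200100001),
   (0x4000000080040010, 0x80200100001),
   (0x4000000080080010, 0x80200100001),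
   (0x4000000080200010, 0x80200100001),
   (0x4000000000400010, 0x200100001),
   (0x4000000000800010, 0x200100001),
   (0x4000020001000010, 0x80200100001),
   (0x4000000082000010, 0x80200100001),
   (0x4000000084000010, 0x80200100001),
   (0x40000000a0000010, 0x80200100001),
   (0x4000000000000012, 0x80000000000020000000001),
   (0x4000000000000014, 0x80200000001),
   (0x4000000000000012, 0x80200000001),
   (0x4000000000004010, 0x80200000001),
   (0x4000002080000010, 0x80200100001),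
   (0x4000000000000410, 0x80200000001),
   (0x4000010000000010, 0x200100001),
   (0x4000000001000010, 0x80200000001),
   (0x4000000080400010, 0x80200100001),
   (0x4000080000000010, 0x200100001),
   (0x4000100000000010, 0x200100001),
   (0x4000000000008010, 0x80200000001),
   (0x4002000080000010, 0x80200100001),
   (0x4004000080000010, 0x80200100001),
   (0x4000000000000810, 0x10000000000000000200000001),
   (0x14000000001000000, 0x80000000011),
   (0x4000000000002010, 0x10000000000000000200000001),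
   (0x4000000000004010, 0x10000000000000000200000001),
   (0x4000000800000010, 0x10000000000000000200000001),
   (0x4000001000000010, 0x10000000000000000200000001),
   (0x4200000080000010, 0x80200100001),
   (0x200000004000000000000004, 0x80200000001),
   (0x4000008000000010, 0x10000000000000000200000001),
   (0xc000000000000010, 0x800000000000200000001),
   (0x6000000000000010, 0x10000000000000000200000001),
   (0xc000000080000010, 0x80200100001),
   (0x4010080000000010, 0x201100001),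
   (0x2004000000080000010, 0x80200100001),
   (0x44000000000000010, 0x200100001),
   (0x84000000080000010, 0x80200100001),
   (0x104000000080000010, 0x80200100001),
   (0x204000000000000010, 0x200100001),
   (0x804000000000000010, 0x200100001),
   (0x14000000000100000, 0x20000000011),
   (0x4004000000000000010, 0x200100001),
   (0x8004000000080000010, 0x80200100001),
   (0x4000000080010010, 0x10000000000000020200000001),
   (0x4000000080020010, 0x10000800000000000200000001),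
   (0x4000000080040010, 0x10000800000000000200000001),
   (0x4000000000080010, 0x10000000000000000200000001),
   (0x4000000080800010, 0x800000000000201000001),
   (0x100000000004000000080000010, 0x80200100001),
   (0x4000000080400010, 0x10000800000000000200000001),
   (0x800004000000080000010, 0x80200100001),
   (0x4000000080200010, 0x800000000000201000001),
   (0x2000004000000080000010, 0x80200100001),
   (0x40000000000004000000080000010, 0x80200100001),
   (0x10000000000004000000080000010, 0x80200100001),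
   (0x104000000000000010, 0x10000000000000000200000001),
   (0x20000004000000080000010, 0x80200100001),
   (0x8000000000000004000000000000010, 0x800000000000200000001),
   (0x10000000000000004000000000000010, 0x800000000000200000001),
   (0x4000000000000004000000000000010, 0x800000000000200000001),
   (0x200000004000000000000010, 0x200100001),
   (0x400000004000000000000010, 0x200100001),
   (0x800000004000000080000010, 0x200000000000200100001),
   (0x1000000004000000080000010, 0x80200100001),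
   (0x2000000004000000080000010, 0x80200100001),
   (0x800000004000000000000010, 0x800000000000200000001),
   (0x1000000004000000000000010, 0x800000000000200000001),
   (0x4002000200000000, 0x800000000000000000011),
   (0x4000000080800010, 0x10000800000000000200000001),
   (0x4000000200100000, 0x80000000000020000000001),
   (0x4000000000040010, 0x800000000000200000001),
   (0x800004000000000000012, 0x100000000000000080200000001),
   (0x4000000080008010, 0x800000000000201000001),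
   (0x2000000000004000000080000010, 0x80200100001),
   (0x4000000000004000000080000010, 0x80200100001),
   (0x2004000000000000010, 0x10000000000000000200000001),
   (0x80000000000004000000080000010, 0x80200100001),
   (0x100000000000004000000080000010, 0x80000000000000200100001),
   (0x1000000004000000200000000, 0x800000000000000000011),
   (0x1000000000000004000000000000010, 0x200100001),
   (0x4002000080000000, 0x200000000000000000011),
   (0x4004000000080000000, 0x200000000000000000011),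
   (0x8000000000000004000000080000010, 0x200000000000200100001),
   (0x10000000000000004000000080000010, 0x80200100001)]

theorem hP : ∀ p ∈ P, BP p.1 p.2 :=
  consP Pool.Agent.H184.T5.V.p1978 <|
  consP Pool.Agent.H184.T5.B.p2_33_31 <|
  consP Pool.Agent.H184.T5.V.p46 <|
  consP Pool.Agent.H184.T5.V.p1195 <|
  consP Pool.Agent.H184.T5.B.p4_33_6 <|
  consP Pool.Agent.H184.T5.V.p1979 <|
  consP Pool.Agent.H184.T5.B.p1_91_31 <|
  consP Pool.Agent.H184.T5.B.p4_33_9 <|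
  consP Pool.Agent.H184.T5.V.p1980 <|
  consP Pool.Agent.H184.T5.V.p1981 <|
  consP Pool.Agent.H184.T5.B.p4_33_12 <|
  consP Pool.Agent.H184.T5.V.p1982 <|
  consP Pool.Agent.H184.T5.V.p1983 <|
  consP Pool.Agent.H184.T5.V.p1984 <|
  consP Pool.Agent.H184.T5.B.p4_33_49 <|
  consP Pool.Agent.H184.T5.V.p1985 <|
  consP Pool.Agent.H184.T5.V.p1986 <|
  consP Pool.Agent.H184.T5.V.p1987 <|
  consP Pool.Agent.H184.T5.V.p1988 <|
  consP Pool.Agent.H805.T5.N5.t <|
  consP Pool.Agent.H805.T5.N6.t <|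
  consP Pool.Agent.H184.T5.V.p1121 <|
  consP Pool.Agent.H184.T5.V.p1989 <|
  consP Pool.Agent.H184.T5.V.p1990 <|
  consP Pool.Agent.H184.T5.V.p1991 <|
  consP Pool.Agent.H184.T5.B.p1_91_4 <|
  consP Pool.Agent.H184.T5.B.p2_33_4 <|
  consP Pool.Agent.H805.T5.N1.t <|
  consP Pool.Agent.H184.T5.B.p14_43_4 <|
  consP Pool.Agent.H184.T5.V.p1992 <|
  consP Pool.Agent.H184.T5.B.p4_33_10 <|
  consP Pool.Agent.H184.T5.B.p4_33_40 <|
  consP Pool.Agent.H184.T5.B.p4_33_24 <|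
  consP Pool.Agent.H184.T5.V.p515 <|
  consP Pool.Agent.H805.T5.N11.t <|
  consP Pool.Agent.H184.T5.B.p4_33_44 <|
  consP Pool.Agent.H184.T5.B.p4_33_15 <|
  consP Pool.Agent.H184.T5.V.p1993 <|
  consP Pool.Agent.H184.T5.V.p1994 <|
  consP Pool.Agent.H184.T5.B.p4_33_11 <|
  consP Pool.Agent.H184.T5.B.p24_43_64 <|
  consP Pool.Agent.H184.T5.B.p4_33_13 <|
  consP Pool.Agent.H184.T5.B.p4_33_14 <|
  consP Pool.Agent.H805.T5.N8.t <|
  consP Pool.Agent.H184.T5.B.p4_33_36 <|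
  consP Pool.Agent.H184.T5.V.p1995 <|
  consP Pool.Agent.H184.T5.B.p2_33_93 <|
  consP Pool.Agent.H184.T5.B.p4_33_39 <|
  consP Pool.Agent.H184.T5.B.p4_33_63 <|
  consP Pool.Agent.H184.T5.B.p4_33_61 <|
  consP Pool.Agent.H184.T5.V.p1996 <|
  consP Pool.Agent.H184.T5.V.p1997 <|
  consP Pool.Agent.H184.T5.V.p1998 <|
  consP Pool.Agent.H805.T5.N13.t <|
  consP Pool.Agent.H184.T5.V.p1999 <|
  consP Pool.Agent.H184.T5.V.p2000 <|
  consP Pool.Agent.H184.T5.B.p4_33_69 <|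
  consP Pool.Agent.H184.T5.B.p4_33_71 <|
  consP Pool.Agent.H184.T5.V.p313 <|
  consP Pool.Agent.H184.T5.B.p4_33_74 <|
  consP Pool.Agent.H184.T5.V.p2001 <|
  consP Pool.Agent.H184.T5.V.p795 <|
  consP Pool.Agent.H184.T5.V.p2002 <|
  consP Pool.Agent.H184.T5.V.p2003 <|
  consP Pool.Agent.H805.T5.N3.t <|
  consP Pool.Agent.H184.T5.V.p2004 <|
  consP Pool.Agent.H184.T5.V.p1425 <|
  consP Pool.Agent.H184.T5.V.p2005 <|
  consP Pool.Agent.H184.T5.V.p257 <|
  consP Pool.Agent.H184.T5.V.p2006 <|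
  consP Pool.Agent.H184.T5.V.p2007 <|
  consP Pool.Agent.H184.T5.V.p2008 <|
  consP Pool.Agent.H184.T5.V.p2009 <|
  consP Pool.Agent.H184.T5.B.p4_33_68 <|
  consP Pool.Agent.H184.T5.V.p2010 <|
  consP Pool.Agent.H184.T5.B.p4_33_123 <|
  consP Pool.Agent.H184.T5.B.p4_33_124 <|
  consP Pool.Agent.H184.T5.B.p4_33_122 <|
  consP Pool.Agent.H184.T5.B.p4_33_93 <|
  consP Pool.Agent.H184.T5.B.p4_33_94 <|
  consP Pool.Agent.H184.T5.V.p2011 <|
  consP Pool.Agent.H184.T5.V.p453 <|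
  consP Pool.Agent.H184.T5.V.p2012 <|
  consP Pool.Agent.H184.T5.B.p4_33_95 <|
  consP Pool.Agent.H184.T5.B.p4_33_96 <|
  consP Pool.Agent.H184.T5.V.p349 <|
  consP Pool.Agent.H184.T5.V.p2013 <|
  consP Pool.Agent.H805.T5.N18.t <|
  consP Pool.Agent.H805.T5.N2.t <|
  consP Pool.Agent.H184.T5.V.p386 <|
  consP Pool.Agent.H184.T5.V.p50 <|
  consP Pool.Agent.H184.T5.V.p2014 <|
  consP Pool.Agent.H184.T5.V.p2015 <|
  consP Pool.Agent.H184.T5.B.p4_33_73 <|
  consP Pool.Agent.H184.T5.V.p2016 <|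
  consP Pool.Agent.H184.T5.V.p2017 <|
  consP Pool.Agent.H184.T5.V.p369 <|
  consP Pool.Agent.H805.T5.N14.t <|
  consP Pool.Agent.H184.T5.V.p364 <|
  consP Pool.Agent.H184.T5.V.p363 <|
  consP Pool.Agent.H184.T5.V.p2018 <|
  consP Pool.Agent.H184.T5.V.p2019 <|
  nilP

def T : List Ent :=
  [⟨1, 81, 0, 0⟩,
   ⟨5, 43, 116, 3⟩,
   ⟨7, 43, 0, 5⟩,
   ⟨10, 43, 0, 8⟩,
   ⟨11, 43, 0, 9⟩,
   ⟨13, 43, 0, 11⟩,
   ⟨14, 91, 0, 12⟩,
   ⟨15, 43, 0, 13⟩,
   ⟨17, 43, 0, 15⟩,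
   ⟨18, 43, 0, 16⟩,
   ⟨19, 43, 0, 17⟩,
   ⟨21, 43, 0, 18⟩,
   ⟨24, 43, 28, 21⟩,
   ⟨25, 43, 0, 22⟩,
   ⟨26, 43, 0, 23⟩,
   ⟨27, 43, 67, 5⟩,
   ⟨28, 43, 7, 3⟩,
   ⟨29, 43, 0, 24⟩,
   ⟨35, 43, 67, 11⟩,
   ⟨37, 43, 0, 29⟩,
   ⟨39, 43, 67, 9⟩,
   ⟨42, 43, 67, 33⟩,
   ⟨45, 43, 67, 16⟩,
   ⟨46, 43, 67, 17⟩,
   ⟨47, 43, 67, 15⟩,
   ⟨49, 43, 0, 37⟩,
   ⟨50, 43, 0, 38⟩,
   ⟨57, 43, 0, 45⟩,
   ⟨63, 43, 0, 50⟩,
   ⟨64, 24, 38, 51⟩,
   ⟨65, 43, 67, 52⟩,
   ⟨67, 43, 0, 54⟩,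
   ⟨68, 43, 0, 55⟩,
   ⟨70, 43, 67, 55⟩,
   ⟨73, 43, 0, 52⟩,
   ⟨75, 43, 0, 60⟩,
   ⟨76, 81, 1, 61⟩,
   ⟨77, 43, 1, 62⟩,
   ⟨78, 43, 1, 63⟩,
   ⟨80, 81, 66, 65⟩,
   ⟨81, 43, 67, 66⟩,
   ⟨82, 43, 66, 67⟩,
   ⟨83, 43, 0, 68⟩,
   ⟨84, 81, 66, 69⟩,
   ⟨85, 43, 0, 70⟩,
   ⟨86, 43, 67, 71⟩,
   ⟨87, 43, 67, 72⟩,
   ⟨89, 43, 0, 74⟩,
   ⟨95, 81, 0, 80⟩,
   ⟨96, 43, 0, 81⟩,
   ⟨97, 43, 0, 82⟩,
   ⟨100, 43, 67, 68⟩,
   ⟨102, 43, 1, 67⟩,
   ⟨103, 43, 1, 86⟩,
   ⟨106, 81, 60, 89⟩,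
   ⟨107, 43, 66, 62⟩,
   ⟨108, 81, 66, 90⟩,
   ⟨109, 43, 0, 91⟩,
   ⟨110, 43, 0, 92⟩,
   ⟨111, 43, 67, 74⟩,
   ⟨112, 43, 0, 72⟩,
   ⟨114, 43, 0, 71⟩,
   ⟨115, 43, 0, 94⟩,
   ⟨116, 91, 0, 95⟩,
   ⟨117, 43, 67, 82⟩,
   ⟨119, 43, 67, 81⟩,
   ⟨123, 81, 0, 100⟩,
   ⟨124, 43, 0, 101⟩]

def F : List Ent :=
  [⟨2, 4, 0, 1⟩,
   ⟨3, 31, 81, 2⟩,
   ⟨6, 31, 0, 4⟩,
   ⟨8, 31, 80, 6⟩,
   ⟨9, 31, 0, 7⟩,
   ⟨12, 31, 0, 10⟩,
   ⟨16, 4, 67, 14⟩,
   ⟨22, 31, 0, 19⟩,
   ⟨23, 31, 0, 20⟩,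
   ⟨30, 4, 126, 25⟩,
   ⟨32, 4, 67, 26⟩,
   ⟨34, 4, 67, 27⟩,
   ⟨36, 4, 67, 28⟩,
   ⟨38, 4, 67, 30⟩,
   ⟨40, 31, 0, 31⟩,
   ⟨41, 4, 67, 32⟩,
   ⟨43, 31, 0, 34⟩,
   ⟨44, 31, 0, 35⟩,
   ⟨48, 4, 67, 36⟩,
   ⟨51, 31, 1, 39⟩,
   ⟨52, 31, 16, 40⟩,
   ⟨53, 31, 1, 41⟩,
   ⟨54, 31, 1, 42⟩,
   ⟨55, 31, 1, 43⟩,
   ⟨56, 31, 1, 44⟩,
   ⟨58, 31, 94, 46⟩,
   ⟨59, 31, 1, 47⟩,
   ⟨60, 4, 66, 48⟩,
   ⟨61, 31, 1, 49⟩,
   ⟨66, 31, 0, 53⟩,
   ⟨69, 31, 0, 56⟩,
   ⟨71, 31, 0, 57⟩,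
   ⟨72, 31, 4, 58⟩,
   ⟨74, 31, 0, 59⟩,
   ⟨79, 31, 1, 64⟩,
   ⟨88, 31, 1, 73⟩,
   ⟨90, 4, 66, 75⟩,
   ⟨91, 4, 66, 76⟩,
   ⟨92, 4, 66, 77⟩,
   ⟨93, 31, 0, 78⟩,
   ⟨94, 31, 0, 79⟩,
   ⟨98, 4, 66, 83⟩,
   ⟨99, 4, 66, 84⟩,
   ⟨101, 4, 20, 85⟩,
   ⟨104, 4, 80, 87⟩,
   ⟨105, 4, 66, 88⟩,
   ⟨113, 31, 1, 93⟩,
   ⟨118, 4, 20, 96⟩,
   ⟨120, 31, 0, 97⟩,
   ⟨121, 4, 8, 98⟩,
   ⟨122, 4, 8, 99⟩]

theorem ok : nodeOK2 autA 192 P [4, 31, 62] [0, 20, 33] T F = true := by decide +kernel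

theorem t : BP 0x4000000080000010 0x200100001 := by
  have h := node2 autOK hP ok
  rw [show maskL [4, 31, 62] = 0x4000000080000010 from by decide +kernel, show maskL [0, 20, 33] = 0x200100001 from by decide +kernel] at h
  exact h

end Pool.Agent.H805.T5.N27
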