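import Mathlib
import Pool.Agent.H805.T5.Tree2
import Pool.Agent.H805.T5.Auts
import Pool.Agent.H184.T5.D.F12_43_0
import Pool.Agent.H184.T5.D.F14_43_0
import Pool.Agent.H184.T5.D.F14_43_1
import Pool.Agent.H184.T5.D.F14_43_2
import Pool.Agent.H184.T5.D.F1_91_0
import Pool.Agent.H184.T5.D.F2_33_0
import Pool.Agent.H184.T5.D.F2_33_1
import Pool.Agent.H184.T5.D.F32_91_0
import Pool.Agent.H184.T5.D.F38_33_0
import Pool.Agent.H184.T5.D.F44_4_1
import Pool.Agent.H184.T5.D.F4_33_0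
import Pool.Agent.H184.T5.D.F4_33_1
import Pool.Agent.H184.T5.D.F64_41_1
import Pool.Agent.H184.T5.D.F7_33_1
import Pool.Agent.H184.T5.D.F8_33_1
import Pool.Agent.H184.T5.D.F9_33_1
import Pool.Agent.H184.T5.D.V_000
import Pool.Agent.H184.T5.D.V_003
import Pool.Agent.H184.T5.D.V_011
import Pool.Agent.H184.T5.D.V_014
import Pool.Agent.H184.T5.D.V_017
import Pool.Agent.H184.T5.D.V_023
import Pool.Agent.H184.T5.D.V_026
import Pool.Agent.H184.T5.D.V_028
import Pool.Agent.H184.T5.D.V_029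
import Pool.Agent.H805.T5.N.N10
import Pool.Agent.H805.T5.N.N13
import Pool.Agent.H805.T5.N.N14
import Pool.Agent.H805.T5.N.N16
import Pool.Agent.H805.T5.N.N27
import Pool.Agent.H805.T5.N.N3
import Pool.Agent.H805.T5.N.N5
import Pool.Agent.H805.T5.N.N6

set_option autoImplicit false
set_option maxRecDepth 20000

namespace Pool.Agent.H805.T5.N28

open Pool.Agent.Helper582.Cube

def P : List (ℕ × ℕ) :=
  [(0x4000040000000012, 0x80200100001),
   (0x4000000001004000, 0x80000000011),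
   (0x4000000084000000, 0xa0000000001),
   (0x4000100200000400, 0xa0000000011),
   (0x4000000000000050, 0x200100001),
   (0x4000040000000090, 0x80200100001),
   (0x4000000080000002, 0x80000000000020000000001),
   (0x4000000000000210, 0x200100001),
   (0x4000004000400000, 0x80200000001),
   (0x4000040000000810, 0x80200100001),
   (0x4000000000001010, 0x200100001),
   (0x4000040000002010, 0x80200100001),
   (0x4000000100004000, 0x80000100001),
   (0x4000040000008010, 0x80200100001),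
   (0x4000000000010010, 0x200100001),
   (0x4000040000020010, 0x200000000000200100001),
   (0x4000040000040010, 0x80200100001),
   (0x4000040000080010, 0x10000000000000000200100001),
   (0x4000040000200010, 0x200000000000200100001),
   (0x4000000000400010, 0x200100001),
   (0x4000000000800010, 0x200100001),
   (0x4000040001000010, 0x80200100001),
   (0x4000040002000010, 0x80200100001),
   (0x4000000000204000, 0xa0000000001),
   (0x4000040008000010, 0x80200100001),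
   (0x4000000000004002, 0xa0000000001),
   (0x4000040020000010, 0x80200100001),
   (0x104000000000000100, 0x200100001),
   (0x4000000080000010, 0x200100001),
   (0x4000000000400004, 0x80200000001),
   (0x4000000000004020, 0xa0000000001),
   (0x4000040800000010, 0x200000000000200100001),
   (0x4000000000404000, 0xa0000000001),
   (0x4000042000000010, 0x200000000000200100001),
   (0x4000044000000000, 0x200100001),
   (0x4000048000000010, 0x200000000000200100001),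
   (0x4000010000000010, 0x200100001),
   (0x4000020000000010, 0x200100001),
   (0x4040000000000010, 0xa0000000001),
   (0x4000100000000010, 0x200100001),
   (0x4000240000000010, 0x80200100001),
   (0x4000000000804000, 0xa0000000001),
   (0x4000840000000010, 0x80200100001),
   (0x4001000000000010, 0x200100001),
   (0x4000000000004100, 0xa0000000001),
   (0x4004040000000010, 0x80200100001),
   (0x4000000000000810, 0x10000000000000000200000001),
   (0x6000000000004000, 0xa0000000001),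
   (0x4000000000002010, 0x10000000000000000200000001),
   (0x4000000000004010, 0x10000000000000000200000001),
   (0x104000000000000080, 0x200100001),
   (0x4000001000000010, 0x10000000000000000200000001),
   (0x400004000002000000010, 0x10000000000000020200000001),
   (0x200000004000000000000004, 0x80200000001),
   (0x4000008000000010, 0x10000000000000000200000001),
   (0x4400000000001000, 0x80000100001),
   (0x6000000000000010, 0x10000000000000000200000001),
   (0xc000040000000010, 0x200000000000200100001),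
   (0x14000040000000010, 0x80200100001),
   (0x24000040000000010, 0x80200100001),
   (0x44000000000000010, 0x200100001),
   (0x84000040000000010, 0x80200100001),
   (0x104000040000000010, 0x201100001),
   (0x204000000000000010, 0x200100001),
   (0x44000000000004000, 0x80000000011),
   (0x2004000000000004000, 0xa0000000001),
   (0xc000000000004000, 0xa0000000001),
   (0x2004000040000000010, 0x10000000000000000200100001),
   (0x4400000000004000, 0xa0000000001),
   (0x8004000040000000010, 0x200000000000200100001),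
   (0x4100100000000000, 0x800000000000000000011),
   (0x400004000000000020010, 0x10000000000000020200000001),
   (0x20000000004000000000004000, 0xa0000000001),
   (0x4000000000080010, 0x10000000000000000200000001),
   (0x400004000010000000010, 0x10000000000000020200000001),
   (0x400004000020000000010, 0x10000000000000000200100001),
   (0x400004000040000000010, 0x80200100001),
   (0x800004000040000000010, 0x200000000000200100001),
   (0x1000004000040000000010, 0x80200100001),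
   (0x200000000000004000000000004000, 0xa0000000001),
   (0x4000004000040000000010, 0x10000000000000000200100001),
   (0x8000004000040000000010, 0x80200100001),
   (0x104000000000000010, 0x10000000000000000200000001),
   (0x20000004000040000000010, 0x80200100001),
   (0x800000000000004000000000004000, 0xa0000000001),
   (0x80000004000000000000010, 0x10000000000000000200000001),
   (0x4000040100000000, 0x10080000000000000000000001),
   (0x100000000004000000000004000, 0xa0000000001),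
   (0x400000004000000000000010, 0x200100001),
   (0x800000004000040000000010, 0x200000000000200100001),
   (0x1000000004000040000000010, 0x80200100001),
   (0x2000000004000040000000010, 0x200000000000200100001),
   (0x4000000004000000000000010, 0x200100001),
   (0x1000000000004000000000004000, 0xa0000000001),
   (0x200000004000020000000004, 0x80200100001),
   (0x1000000004000000000004000, 0xa0000000001),
   (0x400004000000000400010, 0x10000000000000020200000001),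
   (0x400004000000000800010, 0x10000000000000020200000001),
   (0x100000000004000040000000010, 0x80200100001),
   (0x104000000000000200, 0x200100001),
   (0x400000000004000040000000010, 0x200000000000200100001),
   (0x800000000004000040000000010, 0x80200100001),
   (0x8004000000000004000, 0xa0000000001),
   (0x100004000000000004000, 0xa0000000001),
   (0x4000000000004000040000000010, 0x200000000000200100001),
   (0x8000000000004000040000000010, 0x80200100001),
   (0x4000014000000000000000, 0x10000000000000020000000001),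
   (0x20004000000000004000, 0xa0000000001),
   (0x400004000000000004000, 0xa0000000001),
   (0x80000000000004000040000000010, 0x200000000000200100001),
   (0x100000000000004000040000000010, 0x80200100001),
   (0x200000000000004000040000000010, 0x200000000000200100001),
   (0x400000000000004000040000000010, 0x200000000000200100001),
   (0x800000000000004000040000000010, 0x200000000000200100001),
   (0x1000000000000004000000000000010, 0x200100001),
   (0x2000000000000004000040000000010, 0x200000000000200100001),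
   (0x4000000000000004000040000000010, 0x80200100001),
   (0x8000000000000004000040000000010, 0x200000000000200100001),
   (0x800004000000000004000, 0xa0000000001)]

theorem hP : ∀ p ∈ P, BP p.1 p.2 :=
  consP Pool.Agent.H184.T5.V.p1926 <|
  consP Pool.Agent.H805.T5.N16.t <|
  consP Pool.Agent.H184.T5.V.p46 <|
  consP Pool.Agent.H184.T5.V.p1190 <|
  consP Pool.Agent.H184.T5.B.p4_33_6 <|
  consP Pool.Agent.H184.T5.V.p1927 <|
  consP Pool.Agent.H184.T5.B.p1_91_31 <|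
  consP Pool.Agent.H184.T5.B.p4_33_9 <|
  consP Pool.Agent.H184.T5.V.p989 <|
  consP Pool.Agent.H184.T5.V.p1928 <|
  consP Pool.Agent.H184.T5.B.p4_33_12 <|
  consP Pool.Agent.H184.T5.V.p1929 <|
  consP Pool.Agent.H184.T5.B.p14_43_32 <|
  consP Pool.Agent.H184.T5.V.p1930 <|
  consP Pool.Agent.H184.T5.B.p4_33_16 <|
  consP Pool.Agent.H184.T5.V.p1931 <|
  consP Pool.Agent.H184.T5.V.p1932 <|
  consP Pool.Agent.H184.T5.V.p1595 <|
  consP Pool.Agent.H184.T5.V.p1933 <|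
  consP Pool.Agent.H805.T5.N5.t <|
  consP Pool.Agent.H805.T5.N6.t <|
  consP Pool.Agent.H184.T5.V.p1934 <|
  consP Pool.Agent.H184.T5.V.p1935 <|
  consP Pool.Agent.H184.T5.B.p14_43_21 <|
  consP Pool.Agent.H184.T5.V.p1936 <|
  consP Pool.Agent.H184.T5.B.p14_43_1 <|
  consP Pool.Agent.H184.T5.V.p1937 <|
  consP Pool.Agent.H184.T5.B.p8_33_68 <|
  consP Pool.Agent.H805.T5.N27.t <|
  consP Pool.Agent.H184.T5.B.p2_33_22 <|
  consP Pool.Agent.H184.T5.B.p14_43_5 <|
  consP Pool.Agent.H184.T5.V.p1938 <|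
  consP Pool.Agent.H184.T5.B.p14_43_22 <|
  consP Pool.Agent.H184.T5.V.p1939 <|
  consP Pool.Agent.H184.T5.B.p38_33_42 <|
  consP Pool.Agent.H184.T5.V.p1940 <|
  consP Pool.Agent.H184.T5.B.p4_33_40 <|
  consP Pool.Agent.H805.T5.N10.t <|
  consP Pool.Agent.H184.T5.V.p1817 <|
  consP Pool.Agent.H184.T5.B.p4_33_44 <|
  consP Pool.Agent.H184.T5.V.p1941 <|
  consP Pool.Agent.H184.T5.V.p979 <|
  consP Pool.Agent.H184.T5.V.p1942 <|
  consP Pool.Agent.H184.T5.B.p4_33_48 <|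
  consP Pool.Agent.H184.T5.V.p973 <|
  consP Pool.Agent.H184.T5.V.p1943 <|
  consP Pool.Agent.H184.T5.B.p4_33_11 <|
  consP Pool.Agent.H184.T5.B.p14_43_61 <|
  consP Pool.Agent.H184.T5.B.p4_33_13 <|
  consP Pool.Agent.H184.T5.B.p4_33_14 <|
  consP Pool.Agent.H184.T5.B.p7_33_68 <|
  consP Pool.Agent.H184.T5.B.p4_33_36 <|
  consP Pool.Agent.H184.T5.V.p1944 <|
  consP Pool.Agent.H184.T5.B.p2_33_93 <|
  consP Pool.Agent.H184.T5.B.p4_33_39 <|
  consP Pool.Agent.H184.T5.B.p12_43_58 <|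
  consP Pool.Agent.H184.T5.B.p4_33_61 <|
  consP Pool.Agent.H184.T5.V.p1945 <|
  consP Pool.Agent.H184.T5.V.p1946 <|
  consP Pool.Agent.H184.T5.V.p1947 <|
  consP Pool.Agent.H805.T5.N13.t <|
  consP Pool.Agent.H184.T5.V.p1948 <|
  consP Pool.Agent.H184.T5.V.p1949 <|
  consP Pool.Agent.H184.T5.B.p4_33_69 <|
  consP Pool.Agent.H184.T5.B.p14_43_66 <|
  consP Pool.Agent.H184.T5.B.p14_43_73 <|
  consP Pool.Agent.H184.T5.B.p14_43_63 <|
  consP Pool.Agent.H184.T5.V.p1950 <|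
  consP Pool.Agent.H184.T5.B.p14_43_58 <|
  consP Pool.Agent.H184.T5.V.p1951 <|
  consP Pool.Agent.H184.T5.B.p44_4_56 <|
  consP Pool.Agent.H184.T5.V.p1952 <|
  consP Pool.Agent.H184.T5.B.p14_43_101 <|
  consP Pool.Agent.H805.T5.N3.t <|
  consP Pool.Agent.H184.T5.V.p1953 <|
  consP Pool.Agent.H184.T5.V.p1954 <|
  consP Pool.Agent.H184.T5.V.p1955 <|
  consP Pool.Agent.H184.T5.V.p1956 <|
  consP Pool.Agent.H184.T5.V.p1957 <|
  consP Pool.Agent.H184.T5.B.p14_43_117 <|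
  consP Pool.Agent.H184.T5.V.p764 <|
  consP Pool.Agent.H184.T5.V.p1958 <|
  consP Pool.Agent.H184.T5.B.p4_33_68 <|
  consP Pool.Agent.H184.T5.V.p1959 <|
  consP Pool.Agent.H184.T5.B.p14_43_119 <|
  consP Pool.Agent.H184.T5.B.p4_33_91 <|
  consP Pool.Agent.H184.T5.B.p32_91_42 <|
  consP Pool.Agent.H184.T5.B.p14_43_104 <|
  consP Pool.Agent.H184.T5.B.p4_33_94 <|
  consP Pool.Agent.H184.T5.V.p1960 <|
  consP Pool.Agent.H184.T5.V.p1961 <|
  consP Pool.Agent.H184.T5.V.p1962 <|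
  consP Pool.Agent.H184.T5.B.p4_33_98 <|
  consP Pool.Agent.H184.T5.B.p14_43_108 <|
  consP Pool.Agent.H184.T5.V.p263 <|
  consP Pool.Agent.H184.T5.B.p14_43_96 <|
  consP Pool.Agent.H184.T5.V.p1963 <|
  consP Pool.Agent.H184.T5.V.p1964 <|
  consP Pool.Agent.H184.T5.V.p1965 <|
  consP Pool.Agent.H184.T5.B.p9_33_68 <|
  consP Pool.Agent.H184.T5.V.p1966 <|
  consP Pool.Agent.H184.T5.V.p1967 <|
  consP Pool.Agent.H184.T5.B.p14_43_75 <|
  consP Pool.Agent.H184.T5.B.p14_43_80 <|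
  consP Pool.Agent.H184.T5.V.p1968 <|
  consP Pool.Agent.H184.T5.V.p1969 <|
  consP Pool.Agent.H184.T5.B.p64_41_86 <|
  consP Pool.Agent.H184.T5.B.p14_43_77 <|
  consP Pool.Agent.H184.T5.B.p14_43_82 <|
  consP Pool.Agent.H184.T5.V.p1970 <|
  consP Pool.Agent.H184.T5.V.p1971 <|
  consP Pool.Agent.H184.T5.V.p1972 <|
  consP Pool.Agent.H184.T5.V.p1973 <|
  consP Pool.Agent.H184.T5.V.p1974 <|
  consP Pool.Agent.H805.T5.N14.t <|
  consP Pool.Agent.H184.T5.V.p1975 <|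
  consP Pool.Agent.H184.T5.V.p1976 <|
  consP Pool.Agent.H184.T5.V.p1977 <|
  consP Pool.Agent.H184.T5.B.p14_43_83 <|
  nilP

def T : List Ent :=
  [⟨1, 43, 0, 0⟩,
   ⟨5, 43, 93, 3⟩,
   ⟨7, 43, 0, 5⟩,
   ⟨11, 43, 0, 9⟩,
   ⟨13, 43, 0, 11⟩,
   ⟨15, 43, 0, 13⟩,
   ⟨17, 81, 0, 15⟩,
   ⟨18, 43, 0, 16⟩,
   ⟨19, 100, 0, 17⟩,
   ⟨21, 81, 0, 18⟩,
   ⟨24, 43, 0, 21⟩,
   ⟨25, 43, 0, 22⟩,
   ⟨27, 43, 0, 24⟩,
   ⟨29, 43, 0, 26⟩,
   ⟨35, 81, 0, 31⟩,
   ⟨37, 81, 0, 33⟩,
   ⟨39, 81, 0, 35⟩,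
   ⟨45, 43, 0, 40⟩,
   ⟨47, 43, 0, 42⟩,
   ⟨50, 43, 0, 45⟩,
   ⟨57, 81, 1, 52⟩,
   ⟨63, 81, 0, 57⟩,
   ⟨64, 43, 0, 58⟩,
   ⟨65, 43, 0, 59⟩,
   ⟨67, 43, 0, 61⟩,
   ⟨68, 24, 0, 62⟩,
   ⟨73, 100, 0, 67⟩,
   ⟨75, 81, 0, 69⟩,
   ⟨77, 81, 1, 71⟩,
   ⟨80, 81, 1, 74⟩,
   ⟨81, 100, 1, 75⟩,
   ⟨82, 43, 0, 76⟩,
   ⟨83, 81, 0, 77⟩,
   ⟨84, 43, 0, 78⟩,
   ⟨86, 100, 0, 80⟩,
   ⟨87, 43, 0, 81⟩,
   ⟨89, 43, 0, 83⟩,
   ⟨95, 81, 0, 89⟩,
   ⟨96, 43, 0, 90⟩,
   ⟨97, 81, 0, 91⟩,
   ⟨100, 43, 91, 94⟩,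
   ⟨102, 81, 1, 96⟩,
   ⟨103, 81, 1, 97⟩,
   ⟨104, 43, 0, 98⟩,
   ⟨106, 81, 0, 100⟩,
   ⟨107, 43, 0, 101⟩,
   ⟨110, 81, 0, 104⟩,
   ⟨111, 43, 0, 105⟩,
   ⟨115, 81, 0, 109⟩,
   ⟨116, 43, 0, 110⟩,
   ⟨117, 81, 0, 111⟩,
   ⟨118, 81, 0, 112⟩,
   ⟨119, 81, 0, 113⟩,
   ⟨121, 81, 0, 115⟩,
   ⟨122, 43, 0, 116⟩,
   ⟨123, 81, 0, 117⟩]

def F : List Ent :=
  [⟨2, 42, 16, 1⟩,
   ⟨3, 42, 81, 2⟩,
   ⟨6, 42, 0, 4⟩,
   ⟨8, 42, 80, 6⟩,
   ⟨9, 42, 0, 7⟩,
   ⟨10, 4, 67, 8⟩,
   ⟨12, 42, 0, 10⟩,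
   ⟨14, 4, 28, 12⟩,
   ⟨16, 42, 0, 14⟩,
   ⟨22, 42, 0, 19⟩,
   ⟨23, 42, 0, 20⟩,
   ⟨26, 4, 81, 23⟩,
   ⟨28, 4, 81, 25⟩,
   ⟨30, 4, 34, 27⟩,
   ⟨31, 42, 0, 28⟩,
   ⟨32, 4, 67, 29⟩,
   ⟨34, 4, 81, 30⟩,
   ⟨36, 4, 81, 32⟩,
   ⟨38, 4, 0, 34⟩,
   ⟨40, 42, 0, 36⟩,
   ⟨41, 42, 0, 37⟩,
   ⟨43, 4, 95, 38⟩,
   ⟨44, 42, 0, 39⟩,
   ⟨46, 4, 81, 41⟩,
   ⟨48, 42, 0, 43⟩,
   ⟨49, 4, 81, 44⟩,
   ⟨51, 42, 1, 46⟩,
   ⟨52, 4, 81, 47⟩,
   ⟨53, 42, 1, 48⟩,
   ⟨54, 42, 1, 49⟩,
   ⟨55, 4, 34, 50⟩,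
   ⟨56, 42, 1, 51⟩,
   ⟨58, 42, 94, 53⟩,
   ⟨59, 42, 1, 54⟩,
   ⟨60, 4, 11, 55⟩,
   ⟨61, 42, 1, 56⟩,
   ⟨66, 42, 0, 60⟩,
   ⟨69, 42, 0, 63⟩,
   ⟨70, 4, 10, 64⟩,
   ⟨71, 4, 81, 65⟩,
   ⟨72, 4, 81, 66⟩,
   ⟨74, 4, 81, 68⟩,
   ⟨76, 4, 20, 70⟩,
   ⟨78, 4, 81, 72⟩,
   ⟨79, 42, 1, 73⟩,
   ⟨85, 4, 81, 79⟩,
   ⟨88, 42, 1, 82⟩,
   ⟨90, 4, 81, 84⟩,
   ⟨91, 42, 1, 85⟩,
   ⟨92, 4, 3, 86⟩,
   ⟨93, 4, 81, 87⟩,
   ⟨94, 42, 0, 88⟩,
   ⟨98, 42, 0, 92⟩,
   ⟨99, 4, 81, 93⟩,
   ⟨101, 4, 81, 95⟩,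
   ⟨105, 4, 34, 99⟩,
   ⟨108, 4, 81, 102⟩,
   ⟨109, 4, 81, 103⟩,
   ⟨112, 4, 5, 106⟩,
   ⟨113, 4, 81, 107⟩,
   ⟨114, 4, 81, 108⟩,
   ⟨120, 42, 0, 114⟩,
   ⟨124, 4, 81, 118⟩]

theorem ok : nodeOK2 autA 192 P [4, 42, 62] [0, 20, 33] T F = true := by decide +kernel

theorem t : BP 0x4000040000000010 0x200100001 := by
  have h := node2 autOK hP ok
  rw [show maskL [4, 42, 62] = 0x4000040000000010 from by decide +kernel, show maskL [0, 20, 33] = 0x200100001 from by decide +kernel] at h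
  exact h

end Pool.Agent.H805.T5.N28
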