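import Mathlib
import Pool.Agent.H805.T5.Tree2
import Pool.Agent.H805.T5.Auts
import Pool.Agent.H184.T5.D.F12_43_0
import Pool.Agent.H184.T5.D.F14_43_1
import Pool.Agent.H184.T5.D.F1_91_0
import Pool.Agent.H184.T5.D.F24_43_0
import Pool.Agent.H184.T5.D.F2_33_1
import Pool.Agent.H184.T5.D.F33_91_0
import Pool.Agent.H184.T5.D.F38_33_0
import Pool.Agent.H184.T5.D.F38_33_1
import Pool.Agent.H184.T5.D.F39_33_0
import Pool.Agent.H184.T5.D.F39_33_1
import Pool.Agent.H184.T5.D.F39_33_2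
import Pool.Agent.H184.T5.D.F44_4_1
import Pool.Agent.H184.T5.D.F4_33_0
import Pool.Agent.H184.T5.D.F4_33_1
import Pool.Agent.H184.T5.D.F7_33_0
import Pool.Agent.H184.T5.D.F8_33_1
import Pool.Agent.H184.T5.D.F8_33_2
import Pool.Agent.H184.T5.D.F9_33_1
import Pool.Agent.H184.T5.D.F9_33_2
import Pool.Agent.H184.T5.D.V_000
import Pool.Agent.H184.T5.D.V_005
import Pool.Agent.H184.T5.D.V_007
import Pool.Agent.H184.T5.D.V_012
import Pool.Agent.H184.T5.D.V_024
import Pool.Agent.H184.T5.D.V_027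
import Pool.Agent.H184.T5.D.V_028
import Pool.Agent.H805.T5.N.N12
import Pool.Agent.H805.T5.N.N13
import Pool.Agent.H805.T5.N.N16
import Pool.Agent.H805.T5.N.N27
import Pool.Agent.H805.T5.N.N28
import Pool.Agent.H805.T5.N.N3
import Pool.Agent.H805.T5.N.N4
import Pool.Agent.H805.T5.N.N5
import Pool.Agent.H805.T5.N.N6
import Pool.Agent.H805.T5.N.N7

set_option autoImplicit false
set_option maxRecDepth 20000

namespace Pool.Agent.H805.T5.N29

open Pool.Agent.Helper582.Cube

def P : List (ℕ × ℕ) :=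
  [(0x4000800000000012, 0x10000800000000000200000001),
   (0x4000000001004000, 0x80000000011),
   (0x4000000084000000, 0xa0000000001),
   (0x20004000000000000100, 0x80200000001),
   (0x20004000000000000200, 0x80200000001),
   (0x4000800000000090, 0x10000800000000000200000001),
   (0x4000800000000100, 0x10000000000000000200000001),
   (0x4000800000000200, 0x10000000000000000200000001),
   (0x4000004000020000, 0x800000000000200000001),
   (0x4000000000000810, 0x10000000000000000200000001),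
   (0x10000000000004000008000000000, 0x10000000000000000200000001),
   (0x4000000000002010, 0x10000000000000000200000001),
   (0x4000000000004010, 0x10000000000000000200000001),
   (0x4000800000008010, 0x10000800000000000200000001),
   (0x2004000100000000000, 0x800000000000000000011),
   (0x4000800000020010, 0x10000000000000000200100001),
   (0x4000800000040010, 0x10000800000000000200000001),
   (0x4000000000080010, 0x10000000000000000200000001),
   (0x4000800000100010, 0x10000800000000000200000001),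
   (0x4000000000200010, 0x10000000000000000200000001),
   (0x4000800000400010, 0x10000000000000020200000001),
   (0x4000800000800010, 0x10000800000000000200000001),
   (0x10000000000000004000008000000000, 0x10000000000000000200000001),
   (0x4000800002000010, 0x10000800000000000200000001),
   (0x4000000000000050, 0x200100001),
   (0x4000000000020080, 0x800000000000200000001),
   (0x800000000004000000000000100, 0x200100001),
   (0x800000000004000000000000200, 0x200100001),
   (0x4000000000000082, 0x80000000000020000000001),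
   (0x4000000080000010, 0x200100001),
   (0x20004000000080000004, 0x80200100001),
   (0x4000000400000010, 0x200100001),
   (0x4000000000000880, 0x800000000000200000001),
   (0x4000001000000010, 0x10000000000000000200000001),
   (0x4000802000000010, 0x10000000000000020200000001),
   (0x200000004000000000000004, 0x80200000001),
   (0x4000008000000010, 0x10000000000000000200000001),
   (0x4000810000000010, 0x10000000000000020200000001),
   (0x4000820000000010, 0x10000800000000000200000001),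
   (0x4000840000000010, 0x10000000000000020200000001),
   (0x4000880000000010, 0x10000800000000000200000001),
   (0x4000900000000010, 0x10000000000000020200000001),
   (0x4000200000000010, 0x10000000000000000200000001),
   (0x4000c00000000010, 0x10000800000000000200000001),
   (0x4000008400000000, 0x10000000000000000200000001),
   (0x4002800000000010, 0x10000800000000000200000001),
   (0x4004800000000010, 0x10000000000000020200000001),
   (0x4008800000000010, 0x10000800000000000200000001),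
   (0x4000000000001010, 0x200100001),
   (0x4020800000000010, 0x10000800000000000200000001),
   (0x4040800000000010, 0x10000000000000020200000001),
   (0x4080800000000010, 0x10000000000000000200100001),
   (0x4100800000000010, 0x10000800000000000200000001),
   (0x800000000004000002000000010, 0x80200100001),
   (0x4800004000000000, 0x200100001),
   (0x2004000008000000000, 0x10000000000000000200000001),
   (0x204000000000001000, 0x80000100001),
   (0x6000000000000010, 0x10000000000000000200000001),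
   (0xc000800000000010, 0x10000800000000000200000001),
   (0x14000800000000010, 0x110000000000000000200000001),
   (0x4008008000000000, 0x10000000000000000200000001),
   (0x44000800000000010, 0x10000000000000000200100001),
   (0x84000800000000010, 0x10000800000000000200000001),
   (0x104000000000000010, 0x10000000000000000200000001),
   (0x204000800000000010, 0x10000800000000000200000001),
   (0x204000000000004000, 0x80000100001),
   (0x804000800000000010, 0x10000800000000000200000001),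
   (0x1004000800000000010, 0x10000000000000000200100001),
   (0x2004000000000000010, 0x10000000000000000200000001),
   (0x4004000800000000010, 0x10000000000000020200000001),
   (0x8004000800000000010, 0x10000800000000000200000001),
   (0x4000000000010010, 0x200100001),
   (0x2000004000008000000000, 0x10000000000000000200000001),
   (0x100004000008000000000, 0x10000000000000000200000001),
   (0x800000000004000000000080010, 0x80200100001),
   (0x4000010000000010, 0x200100001),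
   (0x20004000000001000000, 0x80200000001),
   (0x4000040000000010, 0x200100001),
   (0x800004000008000000000, 0x10000000000000000200000001),
   (0x4000100000000010, 0x200100001),
   (0x2000004000800000000010, 0x10000800000000000200000001),
   (0x44000000000000010, 0x200100001),
   (0x8000004000800000000010, 0x10000800000000000200000001),
   (0x10000004000800000000010, 0x110000000000000000200000001),
   (0x204000000000000010, 0x200100001),
   (0x10004000008000000000, 0x10000000000000000200000001),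
   (0x80000004000000000000010, 0x10000000000000000200000001),
   (0x100000004000000000000010, 0x10000000000000000200000001),
   (0x200000004000000000000010, 0x200100001),
   (0x400000004000000000000010, 0x200100001),
   (0x800000004000800000000010, 0x10000800000000000200000001),
   (0x1000000004000800000000010, 0x10000800000000000200000001),
   (0x2000000004000800000000010, 0x10000800000000000200000001),
   (0x4000000004000800000000010, 0x10000800000000000200000001),
   (0x8000000004000800000000010, 0x10000800000000000200000001),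
   (0x800000000004000000000200010, 0x80200100001),
   (0x4000000000400010, 0x200100001),
   (0x4000000000800010, 0x200100001),
   (0x100000000004000800000000010, 0x10000800000000000200000001),
   (0x800000000004000200000000010, 0x80200100001),
   (0x800000000004000400000000010, 0x201100001),
   (0x4000008000002000, 0x10000000000000000200000001),
   (0x4001000000000010, 0x200100001),
   (0x2000000000004000800000000010, 0x10000800000000000200000001),
   (0x4000000000004000800000000010, 0x10000800000000000200000001),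
   (0x804000000000000010, 0x200100001),
   (0x4000008000001000, 0x10000000000000000200000001),
   (0x20000000000004000800000000010, 0x10000800000000000200000001),
   (0x4004000000000000010, 0x200100001),
   (0x80000000000004000800000000010, 0x10000000000000000200100001),
   (0x100000000000004000800000000010, 0x10000800000000000200000001),
   (0x200000000000004000800000000010, 0x10000000000000020200000001),
   (0x4000000004000000000000010, 0x200100001),
   (0x4000008000200000, 0x10000000000000000200000001),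
   (0x2000000000000004000800000000010, 0x10000800000000000200000001),
   (0x4000000000000004000800000000010, 0x10000800000000000200000001),
   (0x8000000000000004000800000000010, 0x10000000000000020200000001),
   (0x4000000200000080, 0x80000000000020000000001)]

theorem hP : ∀ p ∈ P, BP p.1 p.2 :=
  consP Pool.Agent.H184.T5.V.p1871 <|
  consP Pool.Agent.H805.T5.N16.t <|
  consP Pool.Agent.H184.T5.V.p46 <|
  consP Pool.Agent.H184.T5.B.p8_33_77 <|
  consP Pool.Agent.H184.T5.B.p9_33_77 <|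
  consP Pool.Agent.H184.T5.V.p1872 <|
  consP Pool.Agent.H184.T5.B.p8_33_47 <|
  consP Pool.Agent.H184.T5.B.p9_33_47 <|
  consP Pool.Agent.H184.T5.B.p38_33_17 <|
  consP Pool.Agent.H184.T5.B.p4_33_11 <|
  consP Pool.Agent.H184.T5.B.p39_33_112 <|
  consP Pool.Agent.H184.T5.B.p4_33_13 <|
  consP Pool.Agent.H184.T5.B.p4_33_14 <|
  consP Pool.Agent.H184.T5.V.p1873 <|
  consP Pool.Agent.H184.T5.B.p44_4_73 <|
  consP Pool.Agent.H184.T5.V.p1874 <|
  consP Pool.Agent.H184.T5.V.p1658 <|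
  consP Pool.Agent.H805.T5.N3.t <|
  consP Pool.Agent.H184.T5.V.p1875 <|
  consP Pool.Agent.H805.T5.N4.t <|
  consP Pool.Agent.H184.T5.V.p1876 <|
  consP Pool.Agent.H184.T5.V.p1877 <|
  consP Pool.Agent.H184.T5.V.p400 <|
  consP Pool.Agent.H184.T5.V.p1878 <|
  consP Pool.Agent.H184.T5.B.p4_33_6 <|
  consP Pool.Agent.H184.T5.B.p7_33_17 <|
  consP Pool.Agent.H184.T5.B.p8_33_107 <|
  consP Pool.Agent.H184.T5.B.p9_33_107 <|
  consP Pool.Agent.H184.T5.B.p1_91_7 <|
  consP Pool.Agent.H805.T5.N27.t <|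
  consP Pool.Agent.H184.T5.V.p856 <|
  consP Pool.Agent.H805.T5.N7.t <|
  consP Pool.Agent.H184.T5.B.p7_33_11 <|
  consP Pool.Agent.H184.T5.B.p4_33_36 <|
  consP Pool.Agent.H184.T5.V.p1879 <|
  consP Pool.Agent.H184.T5.B.p2_33_93 <|
  consP Pool.Agent.H184.T5.B.p4_33_39 <|
  consP Pool.Agent.H184.T5.V.p1880 <|
  consP Pool.Agent.H184.T5.V.p1881 <|
  consP Pool.Agent.H184.T5.V.p1882 <|
  consP Pool.Agent.H184.T5.V.p1883 <|
  consP Pool.Agent.H184.T5.V.p1884 <|
  consP Pool.Agent.H805.T5.N12.t <|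
  consP Pool.Agent.H184.T5.V.p1885 <|
  consP Pool.Agent.H184.T5.V.p23 <|
  consP Pool.Agent.H184.T5.V.p1886 <|
  consP Pool.Agent.H184.T5.V.p1887 <|
  consP Pool.Agent.H184.T5.V.p1888 <|
  consP Pool.Agent.H184.T5.B.p4_33_12 <|
  consP Pool.Agent.H184.T5.V.p1889 <|
  consP Pool.Agent.H184.T5.V.p1890 <|
  consP Pool.Agent.H184.T5.V.p1891 <|
  consP Pool.Agent.H184.T5.V.p1892 <|
  consP Pool.Agent.H184.T5.V.p1893 <|
  consP Pool.Agent.H184.T5.B.p38_33_59 <|
  consP Pool.Agent.H184.T5.B.p39_33_73 <|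
  consP Pool.Agent.H184.T5.B.p12_43_69 <|
  consP Pool.Agent.H184.T5.B.p4_33_61 <|
  consP Pool.Agent.H184.T5.V.p1894 <|
  consP Pool.Agent.H184.T5.V.p1895 <|
  consP Pool.Agent.H184.T5.B.p39_33_51 <|
  consP Pool.Agent.H184.T5.V.p1896 <|
  consP Pool.Agent.H184.T5.V.p1897 <|
  consP Pool.Agent.H184.T5.B.p4_33_68 <|
  consP Pool.Agent.H184.T5.V.p1898 <|
  consP Pool.Agent.H184.T5.B.p14_43_69 <|
  consP Pool.Agent.H184.T5.V.p1899 <|
  consP Pool.Agent.H184.T5.V.p1900 <|
  consP Pool.Agent.H184.T5.B.p4_33_73 <|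
  consP Pool.Agent.H184.T5.V.p1901 <|
  consP Pool.Agent.H184.T5.V.p1902 <|
  consP Pool.Agent.H184.T5.B.p4_33_16 <|
  consP Pool.Agent.H184.T5.B.p39_33_85 <|
  consP Pool.Agent.H184.T5.V.p1903 <|
  consP Pool.Agent.H184.T5.V.p1904 <|
  consP Pool.Agent.H184.T5.B.p4_33_40 <|
  consP Pool.Agent.H184.T5.B.p24_43_77 <|
  consP Pool.Agent.H805.T5.N28.t <|
  consP Pool.Agent.H184.T5.B.p39_33_83 <|
  consP Pool.Agent.H184.T5.B.p4_33_44 <|
  consP Pool.Agent.H184.T5.V.p1905 <|
  consP Pool.Agent.H805.T5.N13.t <|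
  consP Pool.Agent.H184.T5.V.p1906 <|
  consP Pool.Agent.H184.T5.V.p1907 <|
  consP Pool.Agent.H184.T5.B.p4_33_69 <|
  consP Pool.Agent.H184.T5.B.p39_33_76 <|
  consP Pool.Agent.H184.T5.B.p4_33_91 <|
  consP Pool.Agent.H184.T5.B.p4_33_92 <|
  consP Pool.Agent.H184.T5.B.p4_33_93 <|
  consP Pool.Agent.H184.T5.B.p4_33_94 <|
  consP Pool.Agent.H184.T5.V.p1908 <|
  consP Pool.Agent.H184.T5.V.p1909 <|
  consP Pool.Agent.H184.T5.V.p1910 <|
  consP Pool.Agent.H184.T5.V.p1911 <|
  consP Pool.Agent.H184.T5.V.p463 <|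
  consP Pool.Agent.H184.T5.V.p1912 <|
  consP Pool.Agent.H805.T5.N5.t <|
  consP Pool.Agent.H805.T5.N6.t <|
  consP Pool.Agent.H184.T5.V.p1913 <|
  consP Pool.Agent.H184.T5.V.p1914 <|
  consP Pool.Agent.H184.T5.V.p1915 <|
  consP Pool.Agent.H184.T5.V.p1916 <|
  consP Pool.Agent.H184.T5.B.p4_33_48 <|
  consP Pool.Agent.H184.T5.V.p1917 <|
  consP Pool.Agent.H184.T5.V.p1918 <|
  consP Pool.Agent.H184.T5.B.p4_33_71 <|
  consP Pool.Agent.H184.T5.B.p39_33_12 <|
  consP Pool.Agent.H184.T5.V.p1919 <|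
  consP Pool.Agent.H184.T5.B.p4_33_74 <|
  consP Pool.Agent.H184.T5.V.p1920 <|
  consP Pool.Agent.H184.T5.V.p1921 <|
  consP Pool.Agent.H184.T5.V.p1922 <|
  consP Pool.Agent.H184.T5.B.p4_33_98 <|
  consP Pool.Agent.H184.T5.B.p39_33_21 <|
  consP Pool.Agent.H184.T5.V.p1923 <|
  consP Pool.Agent.H184.T5.V.p1924 <|
  consP Pool.Agent.H184.T5.V.p1925 <|
  consP Pool.Agent.H184.T5.B.p33_91_7 <|
  nilP

def T : List Ent :=
  [⟨1, 83, 0, 0⟩,
   ⟨7, 83, 0, 5⟩,
   ⟨15, 83, 0, 13⟩,
   ⟨17, 20, 0, 15⟩,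
   ⟨18, 83, 0, 16⟩,
   ⟨20, 83, 0, 18⟩,
   ⟨22, 41, 0, 20⟩,
   ⟨23, 83, 0, 21⟩,
   ⟨25, 83, 0, 23⟩,
   ⟨32, 83, 66, 30⟩,
   ⟨37, 41, 0, 34⟩,
   ⟨40, 41, 0, 37⟩,
   ⟨41, 83, 0, 38⟩,
   ⟨42, 41, 0, 39⟩,
   ⟨43, 83, 0, 40⟩,
   ⟨44, 41, 0, 41⟩,
   ⟨46, 83, 0, 43⟩,
   ⟨49, 83, 0, 45⟩,
   ⟨50, 41, 0, 46⟩,
   ⟨51, 83, 0, 47⟩,
   ⟨53, 83, 0, 49⟩,
   ⟨54, 41, 0, 50⟩,
   ⟨55, 20, 0, 51⟩,
   ⟨56, 83, 0, 52⟩,
   ⟨57, 83, 1, 53⟩,
   ⟨63, 83, 0, 58⟩,
   ⟨64, 104, 0, 59⟩,
   ⟨66, 20, 0, 61⟩,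
   ⟨67, 83, 0, 62⟩,
   ⟨69, 83, 0, 64⟩,
   ⟨71, 83, 0, 66⟩,
   ⟨72, 20, 0, 67⟩,
   ⟨74, 41, 0, 69⟩,
   ⟨75, 83, 0, 70⟩,
   ⟨79, 83, 1, 74⟩,
   ⟨85, 83, 0, 80⟩,
   ⟨87, 83, 0, 82⟩,
   ⟨88, 104, 0, 83⟩,
   ⟨95, 83, 0, 90⟩,
   ⟨96, 83, 0, 91⟩,
   ⟨97, 83, 0, 92⟩,
   ⟨98, 83, 0, 93⟩,
   ⟨99, 83, 0, 94⟩,
   ⟨101, 83, 1, 95⟩,
   ⟨104, 83, 0, 98⟩,
   ⟨105, 83, 1, 99⟩,
   ⟨106, 104, 1, 100⟩,
   ⟨109, 83, 0, 103⟩,
   ⟨110, 83, 0, 104⟩,
   ⟨113, 83, 0, 107⟩,
   ⟨115, 20, 0, 109⟩,
   ⟨116, 83, 0, 110⟩,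
   ⟨117, 41, 0, 111⟩,
   ⟨121, 83, 0, 114⟩,
   ⟨122, 83, 0, 115⟩,
   ⟨123, 41, 0, 116⟩]

def F : List Ent :=
  [⟨2, 47, 17, 1⟩,
   ⟨3, 47, 80, 2⟩,
   ⟨5, 4, 66, 3⟩,
   ⟨6, 4, 66, 4⟩,
   ⟨8, 4, 0, 6⟩,
   ⟨9, 4, 0, 7⟩,
   ⟨10, 4, 67, 8⟩,
   ⟨11, 47, 0, 9⟩,
   ⟨12, 4, 155, 10⟩,
   ⟨13, 47, 0, 11⟩,
   ⟨14, 47, 0, 12⟩,
   ⟨16, 4, 21, 14⟩,
   ⟨19, 47, 0, 17⟩,
   ⟨21, 47, 0, 19⟩,
   ⟨24, 4, 155, 22⟩,
   ⟨26, 47, 1, 24⟩,
   ⟨27, 4, 67, 25⟩,
   ⟨28, 4, 1, 26⟩,
   ⟨29, 4, 1, 27⟩,
   ⟨30, 4, 127, 28⟩,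
   ⟨31, 47, 1, 29⟩,
   ⟨34, 47, 1, 31⟩,
   ⟨35, 4, 117, 32⟩,
   ⟨36, 47, 0, 33⟩,
   ⟨38, 47, 95, 35⟩,
   ⟨39, 47, 0, 36⟩,
   ⟨45, 47, 0, 42⟩,
   ⟨48, 4, 155, 44⟩,
   ⟨52, 47, 1, 48⟩,
   ⟨58, 4, 35, 54⟩,
   ⟨59, 4, 155, 55⟩,
   ⟨60, 4, 10, 56⟩,
   ⟨61, 47, 0, 57⟩,
   ⟨65, 4, 155, 60⟩,
   ⟨68, 47, 0, 63⟩,
   ⟨70, 4, 10, 65⟩,
   ⟨73, 47, 0, 68⟩,
   ⟨76, 47, 1, 71⟩,
   ⟨77, 4, 155, 72⟩,
   ⟨78, 4, 155, 73⟩,
   ⟨80, 47, 1, 75⟩,
   ⟨81, 4, 66, 76⟩,
   ⟨82, 47, 1, 77⟩,
   ⟨83, 4, 155, 78⟩,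
   ⟨84, 47, 1, 79⟩,
   ⟨86, 47, 1, 81⟩,
   ⟨89, 47, 1, 84⟩,
   ⟨90, 4, 155, 85⟩,
   ⟨91, 47, 0, 86⟩,
   ⟨92, 47, 0, 87⟩,
   ⟨93, 47, 1, 88⟩,
   ⟨94, 47, 1, 89⟩,
   ⟨102, 47, 1, 96⟩,
   ⟨103, 47, 1, 97⟩,
   ⟨107, 4, 155, 101⟩,
   ⟨108, 47, 1, 102⟩,
   ⟨111, 47, 1, 105⟩,
   ⟨112, 4, 155, 106⟩,
   ⟨114, 47, 1, 108⟩,
   ⟨118, 47, 1, 112⟩,
   ⟨119, 4, 155, 113⟩,
   ⟨120, 4, 155, 36⟩,
   ⟨124, 4, 127, 117⟩]

theorem ok : nodeOK2 autA 192 P [4, 47, 62] [0, 33, 100] T F = true := by decide +kernel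

theorem t : BP 0x4000800000000010 0x10000000000000000200000001 := by
  have h := node2 autOK hP ok
  rw [show maskL [4, 47, 62] = 0x4000800000000010 from by decide +kernel, show maskL [0, 33, 100] = 0x10000000000000000200000001 from by decide +kernel] at h
  exact h

end Pool.Agent.H805.T5.N29
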