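import Mathlib
import Pool.Agent.H805.T5.Tree2
import Pool.Agent.H805.T5.Auts
import Pool.Agent.H184.T5.D.F14_43_1
import Pool.Agent.H184.T5.D.F14_43_2
import Pool.Agent.H184.T5.D.F1_91_0
import Pool.Agent.H184.T5.D.F1_91_1
import Pool.Agent.H184.T5.D.F24_43_0
import Pool.Agent.H184.T5.D.F2_33_1
import Pool.Agent.H184.T5.D.F32_91_0
import Pool.Agent.H184.T5.D.F32_91_1
import Pool.Agent.H184.T5.D.F33_91_0
import Pool.Agent.H184.T5.D.F33_91_1
import Pool.Agent.H184.T5.D.F38_33_1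
import Pool.Agent.H184.T5.D.F39_33_1
import Pool.Agent.H184.T5.D.F39_33_2
import Pool.Agent.H184.T5.D.F4_33_0
import Pool.Agent.H184.T5.D.F4_33_1
import Pool.Agent.H184.T5.D.F64_41_1
import Pool.Agent.H184.T5.D.F7_33_1
import Pool.Agent.H184.T5.D.F8_33_0
import Pool.Agent.H184.T5.D.F9_33_0
import Pool.Agent.H184.T5.D.F9_33_1
import Pool.Agent.H184.T5.D.V_000
import Pool.Agent.H184.T5.D.V_003
import Pool.Agent.H184.T5.D.V_005
import Pool.Agent.H184.T5.D.V_011
import Pool.Agent.H184.T5.D.V_013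
import Pool.Agent.H184.T5.D.V_015
import Pool.Agent.H184.T5.D.V_018
import Pool.Agent.H184.T5.D.V_023
import Pool.Agent.H184.T5.D.V_026
import Pool.Agent.H184.T5.D.V_027
import Pool.Agent.H805.T5.N.N12
import Pool.Agent.H805.T5.N.N13
import Pool.Agent.H805.T5.N.N16
import Pool.Agent.H805.T5.N.N27
import Pool.Agent.H805.T5.N.N28
import Pool.Agent.H805.T5.N.N29
import Pool.Agent.H805.T5.N.N3
import Pool.Agent.H805.T5.N.N4
import Pool.Agent.H805.T5.N.N5
import Pool.Agent.H805.T5.N.N6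

set_option autoImplicit false
set_option maxRecDepth 20000

namespace Pool.Agent.H805.T5.N30

open Pool.Agent.Helper582.Cube

def P : List (ℕ × ℕ) :=
  [(0x20004000000000000012, 0x80200100001),
   (0x4000000001004000, 0x80000000011),
   (0x4000000084000000, 0xa0000000001),
   (0x4000000000020030, 0x10000800000000000200000001),
   (0x4000000000020050, 0x10000800000000000200000001),
   (0x4000000000020090, 0x10000800000000000200000001),
   (0x4000000000020100, 0x10000000000000000200000001),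
   (0x4000000000020200, 0x10000000000000000200000001),
   (0x4000804000000000, 0x800000000000200000001),
   (0x4000000000000810, 0x10000000000000000200000001),
   (0x14800000000000000, 0x20000000011),
   (0x4000000000002010, 0x10000000000000000200000001),
   (0x4000008100000000, 0x80000000000020000000001),
   (0x4000000000028010, 0x10000000000000020200000001),
   (0x4000000000030010, 0x10000800000000000200000001),
   (0x4000000000060010, 0x10000800000000000200000001),
   (0x4000000000080010, 0x10000000000000000200000001),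
   (0x800004800000080000000, 0x80200100001),
   (0x4000000000200010, 0x10000000000000000200000001),
   (0x4000000000420010, 0x10000000000000020200000001),
   (0x4000000000820010, 0x10000800000000000200000001),
   (0x4000008200000000, 0x80000000000020000000001),
   (0x4000000002020010, 0x10000800000000000200000001),
   (0x4000000000000050, 0x200100001),
   (0x4000800000000080, 0x800000000000200000001),
   (0x4000000080000002, 0x80000000000020000000001),
   (0x4000000000000210, 0x200100001),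
   (0x2000000004000000000000002, 0x80000000000020000000001),
   (0x4000000080000010, 0x200100001),
   (0x800000000004000000080000004, 0x80200100001),
   (0x4000000400020000, 0x10000000000000000200000001),
   (0x804000000000000080, 0x200100001),
   (0x4000001000000010, 0x10000000000000000200000001),
   (0x4000002000020010, 0x10000800000000000200000001),
   (0x200000004000000000000004, 0x80200000001),
   (0x4000008000000010, 0x10000000000000000200000001),
   (0x4000010000020010, 0x10000000000000020200000001),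
   (0x4000020000020010, 0x10000800000000000200000001),
   (0x4000040000020010, 0x10000000000000020200000001),
   (0x4000080000020010, 0x10000800000000000200000001),
   (0x4000100000020010, 0x10000000000000020200000001),
   (0x4000200000000010, 0x10000000000000000200000001),
   (0x4000400000020010, 0x10000000000000020200000001),
   (0x4000800000000010, 0x10000000000000000200000001),
   (0x804000000400000000, 0x200100001),
   (0x4002000000020010, 0x10000800000000000200000001),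
   (0x4004000000020010, 0x10000000000000020200000001),
   (0x800000000004000008000000000, 0x80200000001),
   (0x4000000000001010, 0x200100001),
   (0x4020000000020010, 0x10000800000000000200000001),
   (0x2000000004000000000004000, 0x80000100001),
   (0x4080000000020010, 0x10000000000000000200100001),
   (0x4100000000020010, 0x10000000000000020200000001),
   (0x4200000000020010, 0x10000800000000000200000001),
   (0x4000004001000000, 0x80000100001),
   (0x20004000008000000000, 0x200100001),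
   (0x5000000000000010, 0x10000000000000000200000001),
   (0x6000000000000010, 0x10000000000000000200000001),
   (0xc000000000020010, 0x10000800000000000200000001),
   (0x14000000000020010, 0x10000000000000020200000001),
   (0x24000000000020010, 0x10000800000000000200000001),
   (0x44000000000020010, 0x10000000000000000200100001),
   (0x84000000000020010, 0x10000000000000020200000001),
   (0x104000000000000010, 0x10000000000000000200000001),
   (0x204000000000020010, 0x10000800000000000200000001),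
   (0x404000000000020010, 0x10000000000000020200000001),
   (0x804000000000020010, 0x10000800000000000200000001),
   (0x1004000000000020010, 0x10000000000000000200100001),
   (0x804000008000000000, 0x200100001),
   (0x4004000000000020010, 0x10000000000000020200000001),
   (0x8004000000000020010, 0x10000800000000000200000001),
   (0x4000000000010010, 0x200100001),
   (0x20004000000000020010, 0x10000800000000000200000001),
   (0x40004000000000020010, 0x10000800000000000200000001),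
   (0x80004000000000020010, 0x10000800000000000200000001),
   (0x4000010000000010, 0x200100001),
   (0x800000000004000000001000000, 0x80200000001),
   (0x4000040000000010, 0x200100001),
   (0x8000000000004000000000000010, 0xa0000000001),
   (0x4000100000000010, 0x200100001),
   (0x2000004000000000020010, 0x10000800000000000200000001),
   (0x44000000000000010, 0x200100001),
   (0x2014000000000000000, 0xa0000000001),
   (0x2004000000000004000, 0xa0000000001),
   (0x204000000000000010, 0x200100001),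
   (0x40000004000000000000010, 0x200100001),
   (0x80000004000000000000010, 0x10000000000000000200000001),
   (0x100000004000000000000010, 0x10000000000000000200000001),
   (0x200000004000000000000010, 0x200100001),
   (0x400000004000000000000010, 0x200100001),
   (0x800000004000000000020010, 0x10000800000000000200000001),
   (0x1000000004000000000020010, 0x10000800000000000200000001),
   (0x2000000004000000000020010, 0x10000000000000020200000001),
   (0x4000000004000000000020010, 0x10000800000000000200000001),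
   (0x8000000004000000000020010, 0x10000800000000000200000001),
   (0x20000000004000000000020010, 0x10000800000000000200000001),
   (0x4000000000400010, 0x200100001),
   (0x4000000000800010, 0x200100001),
   (0x100000000004000000000020010, 0x10000000000000020200000001),
   (0x200000000004000000000020010, 0x10000000000000020200000001),
   (0x400000000004000000000020010, 0x10000800000000000200000001),
   (0x800000000004000000000020010, 0x10000000000000020200000001),
   (0x4001000000000010, 0x200100001),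
   (0x2000000000004000000000020010, 0x10000000000000020200000001),
   (0x804000000000000004, 0x200100001),
   (0x804000000000000010, 0x200100001),
   (0x2000014000000000000000, 0x20000000011),
   (0x204000000000000080, 0x80200000001),
   (0x4004000000000000010, 0x200100001),
   (0x80000000000004000000000020010, 0x10000000000000000200100001),
   (0x100000000000004000000000020010, 0x10000000000000020200000001),
   (0x200000000000004000000000020010, 0x10000000000000020200000001),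
   (0x204000000000000200, 0x80200000001),
   (0x800000000000004000000000020010, 0x10000800000000000200000001),
   (0x2000000000000004000000000020010, 0x10000800000000000200000001),
   (0x2000000004000000100000000, 0x80000000000020000000001),
   (0x8000000000004000000000000200, 0x10000000000000000200000001),
   (0x2000000004000000200000000, 0x80000000000020000000001)]

theorem hP : ∀ p ∈ P, BP p.1 p.2 :=
  consP Pool.Agent.H184.T5.V.p384 <|
  consP Pool.Agent.H805.T5.N16.t <|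
  consP Pool.Agent.H184.T5.V.p46 <|
  consP Pool.Agent.H184.T5.V.p1819 <|
  consP Pool.Agent.H184.T5.V.p1820 <|
  consP Pool.Agent.H184.T5.V.p1821 <|
  consP Pool.Agent.H184.T5.B.p8_33_17 <|
  consP Pool.Agent.H184.T5.B.p9_33_17 <|
  consP Pool.Agent.H184.T5.B.p38_33_47 <|
  consP Pool.Agent.H184.T5.B.p4_33_11 <|
  consP Pool.Agent.H184.T5.B.p64_41_59 <|
  consP Pool.Agent.H184.T5.B.p4_33_13 <|
  consP Pool.Agent.H184.T5.B.p32_91_39 <|
  consP Pool.Agent.H184.T5.V.p1822 <|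
  consP Pool.Agent.H184.T5.V.p788 <|
  consP Pool.Agent.H184.T5.V.p1644 <|
  consP Pool.Agent.H805.T5.N3.t <|
  consP Pool.Agent.H184.T5.V.p270 <|
  consP Pool.Agent.H805.T5.N4.t <|
  consP Pool.Agent.H184.T5.V.p1823 <|
  consP Pool.Agent.H184.T5.V.p1824 <|
  consP Pool.Agent.H184.T5.B.p33_91_39 <|
  consP Pool.Agent.H184.T5.V.p1825 <|
  consP Pool.Agent.H184.T5.B.p4_33_6 <|
  consP Pool.Agent.H184.T5.B.p7_33_47 <|
  consP Pool.Agent.H184.T5.B.p1_91_31 <|
  consP Pool.Agent.H184.T5.B.p4_33_9 <|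
  consP Pool.Agent.H184.T5.B.p1_91_97 <|
  consP Pool.Agent.H805.T5.N27.t <|
  consP Pool.Agent.H184.T5.V.p875 <|
  consP Pool.Agent.H184.T5.V.p6 <|
  consP Pool.Agent.H184.T5.B.p7_33_71 <|
  consP Pool.Agent.H184.T5.B.p4_33_36 <|
  consP Pool.Agent.H184.T5.V.p1826 <|
  consP Pool.Agent.H184.T5.B.p2_33_93 <|
  consP Pool.Agent.H184.T5.B.p4_33_39 <|
  consP Pool.Agent.H184.T5.V.p1827 <|
  consP Pool.Agent.H184.T5.V.p1828 <|
  consP Pool.Agent.H184.T5.V.p1829 <|
  consP Pool.Agent.H184.T5.V.p1830 <|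
  consP Pool.Agent.H184.T5.V.p1831 <|
  consP Pool.Agent.H805.T5.N12.t <|
  consP Pool.Agent.H184.T5.V.p1832 <|
  consP Pool.Agent.H805.T5.N29.t <|
  consP Pool.Agent.H184.T5.V.p25 <|
  consP Pool.Agent.H184.T5.V.p1833 <|
  consP Pool.Agent.H184.T5.V.p1834 <|
  consP Pool.Agent.H184.T5.B.p39_33_107 <|
  consP Pool.Agent.H184.T5.B.p4_33_12 <|
  consP Pool.Agent.H184.T5.V.p1835 <|
  consP Pool.Agent.H184.T5.B.p14_43_97 <|
  consP Pool.Agent.H184.T5.V.p1836 <|
  consP Pool.Agent.H184.T5.V.p1837 <|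
  consP Pool.Agent.H184.T5.V.p1838 <|
  consP Pool.Agent.H184.T5.B.p24_43_38 <|
  consP Pool.Agent.H184.T5.B.p39_33_77 <|
  consP Pool.Agent.H184.T5.B.p4_33_60 <|
  consP Pool.Agent.H184.T5.B.p4_33_61 <|
  consP Pool.Agent.H184.T5.V.p1839 <|
  consP Pool.Agent.H184.T5.V.p1840 <|
  consP Pool.Agent.H184.T5.V.p1841 <|
  consP Pool.Agent.H184.T5.V.p1842 <|
  consP Pool.Agent.H184.T5.V.p1843 <|
  consP Pool.Agent.H184.T5.B.p4_33_68 <|
  consP Pool.Agent.H184.T5.V.p1844 <|
  consP Pool.Agent.H184.T5.V.p1845 <|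
  consP Pool.Agent.H184.T5.V.p1846 <|
  consP Pool.Agent.H184.T5.V.p1847 <|
  consP Pool.Agent.H184.T5.B.p39_33_71 <|
  consP Pool.Agent.H184.T5.V.p1848 <|
  consP Pool.Agent.H184.T5.V.p1849 <|
  consP Pool.Agent.H184.T5.B.p4_33_16 <|
  consP Pool.Agent.H184.T5.V.p1850 <|
  consP Pool.Agent.H184.T5.V.p1851 <|
  consP Pool.Agent.H184.T5.V.p1852 <|
  consP Pool.Agent.H184.T5.B.p4_33_40 <|
  consP Pool.Agent.H184.T5.V.p1014 <|
  consP Pool.Agent.H805.T5.N28.t <|
  consP Pool.Agent.H184.T5.V.p1260 <|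
  consP Pool.Agent.H184.T5.B.p4_33_44 <|
  consP Pool.Agent.H184.T5.V.p1853 <|
  consP Pool.Agent.H805.T5.N13.t <|
  consP Pool.Agent.H184.T5.B.p64_41_73 <|
  consP Pool.Agent.H184.T5.B.p14_43_73 <|
  consP Pool.Agent.H184.T5.B.p4_33_69 <|
  consP Pool.Agent.H184.T5.B.p4_33_90 <|
  consP Pool.Agent.H184.T5.B.p4_33_91 <|
  consP Pool.Agent.H184.T5.B.p4_33_92 <|
  consP Pool.Agent.H184.T5.B.p4_33_93 <|
  consP Pool.Agent.H184.T5.B.p4_33_94 <|
  consP Pool.Agent.H184.T5.V.p1854 <|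
  consP Pool.Agent.H184.T5.V.p1855 <|
  consP Pool.Agent.H184.T5.V.p1856 <|
  consP Pool.Agent.H184.T5.V.p1857 <|
  consP Pool.Agent.H184.T5.V.p1858 <|
  consP Pool.Agent.H184.T5.V.p1859 <|
  consP Pool.Agent.H805.T5.N5.t <|
  consP Pool.Agent.H805.T5.N6.t <|
  consP Pool.Agent.H184.T5.V.p1860 <|
  consP Pool.Agent.H184.T5.V.p1861 <|
  consP Pool.Agent.H184.T5.V.p1862 <|
  consP Pool.Agent.H184.T5.V.p1863 <|
  consP Pool.Agent.H184.T5.B.p4_33_48 <|
  consP Pool.Agent.H184.T5.V.p1864 <|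
  consP Pool.Agent.H184.T5.B.p2_33_71 <|
  consP Pool.Agent.H184.T5.B.p4_33_71 <|
  consP Pool.Agent.H184.T5.B.p64_41_85 <|
  consP Pool.Agent.H184.T5.B.p7_33_69 <|
  consP Pool.Agent.H184.T5.B.p4_33_74 <|
  consP Pool.Agent.H184.T5.V.p1865 <|
  consP Pool.Agent.H184.T5.V.p1866 <|
  consP Pool.Agent.H184.T5.V.p1867 <|
  consP Pool.Agent.H184.T5.B.p9_33_69 <|
  consP Pool.Agent.H184.T5.V.p1868 <|
  consP Pool.Agent.H184.T5.V.p1869 <|
  consP Pool.Agent.H184.T5.B.p32_91_97 <|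
  consP Pool.Agent.H184.T5.V.p1870 <|
  consP Pool.Agent.H184.T5.B.p33_91_97 <|
  nilP

def T : List Ent :=
  [⟨1, 83, 1, 0⟩,
   ⟨5, 83, 0, 3⟩,
   ⟨6, 83, 0, 4⟩,
   ⟨7, 83, 0, 5⟩,
   ⟨15, 41, 0, 13⟩,
   ⟨16, 83, 0, 14⟩,
   ⟨18, 83, 0, 15⟩,
   ⟨20, 83, 70, 17⟩,
   ⟨22, 41, 0, 19⟩,
   ⟨23, 83, 0, 20⟩,
   ⟨25, 83, 0, 22⟩,
   ⟨32, 83, 66, 29⟩,
   ⟨37, 83, 0, 33⟩,
   ⟨40, 41, 0, 36⟩,
   ⟨41, 83, 0, 37⟩,
   ⟨42, 41, 0, 38⟩,
   ⟨43, 83, 0, 39⟩,
   ⟨44, 41, 0, 40⟩,
   ⟨46, 41, 0, 42⟩,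
   ⟨49, 83, 0, 45⟩,
   ⟨50, 41, 0, 46⟩,
   ⟨53, 83, 0, 49⟩,
   ⟨55, 20, 0, 51⟩,
   ⟨56, 41, 0, 52⟩,
   ⟨57, 83, 0, 53⟩,
   ⟨63, 83, 0, 58⟩,
   ⟨64, 41, 0, 59⟩,
   ⟨65, 83, 0, 60⟩,
   ⟨66, 20, 0, 61⟩,
   ⟨67, 41, 0, 62⟩,
   ⟨69, 83, 0, 64⟩,
   ⟨70, 41, 0, 65⟩,
   ⟨71, 83, 0, 66⟩,
   ⟨72, 20, 0, 67⟩,
   ⟨74, 41, 0, 69⟩,
   ⟨75, 83, 0, 70⟩,
   ⟨77, 83, 0, 72⟩,
   ⟨78, 83, 0, 73⟩,
   ⟨79, 83, 0, 74⟩,
   ⟨85, 83, 0, 80⟩,
   ⟨95, 83, 0, 90⟩,
   ⟨96, 83, 0, 91⟩,
   ⟨97, 41, 0, 92⟩,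
   ⟨98, 83, 0, 93⟩,
   ⟨99, 83, 0, 94⟩,
   ⟨101, 83, 0, 95⟩,
   ⟨104, 41, 0, 98⟩,
   ⟨105, 41, 0, 99⟩,
   ⟨106, 83, 0, 100⟩,
   ⟨107, 41, 0, 101⟩,
   ⟨109, 41, 0, 103⟩,
   ⟨115, 20, 0, 109⟩,
   ⟨116, 41, 0, 110⟩,
   ⟨117, 41, 0, 111⟩,
   ⟨119, 83, 0, 113⟩,
   ⟨121, 83, 0, 114⟩]

def F : List Ent :=
  [⟨2, 17, 17, 1⟩,
   ⟨3, 17, 80, 2⟩,
   ⟨8, 4, 0, 6⟩,
   ⟨9, 4, 0, 7⟩,
   ⟨10, 4, 67, 8⟩,
   ⟨11, 17, 0, 9⟩,
   ⟨12, 4, 23, 10⟩,
   ⟨13, 17, 0, 11⟩,
   ⟨14, 4, 81, 12⟩,
   ⟨19, 17, 0, 16⟩,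
   ⟨21, 17, 0, 18⟩,
   ⟨24, 4, 81, 21⟩,
   ⟨26, 17, 1, 23⟩,
   ⟨27, 4, 67, 24⟩,
   ⟨28, 17, 81, 25⟩,
   ⟨29, 17, 1, 26⟩,
   ⟨30, 4, 127, 27⟩,
   ⟨31, 17, 1, 28⟩,
   ⟨34, 4, 0, 30⟩,
   ⟨35, 4, 35, 31⟩,
   ⟨36, 17, 0, 32⟩,
   ⟨38, 17, 95, 34⟩,
   ⟨39, 17, 0, 35⟩,
   ⟨45, 17, 0, 41⟩,
   ⟨47, 17, 0, 43⟩,
   ⟨48, 4, 35, 44⟩,
   ⟨51, 4, 66, 47⟩,
   ⟨52, 17, 1, 48⟩,
   ⟨54, 4, 29, 50⟩,
   ⟨58, 17, 29, 54⟩,
   ⟨59, 4, 1, 55⟩,
   ⟨60, 17, 0, 56⟩,
   ⟨61, 17, 0, 57⟩,
   ⟨68, 17, 0, 63⟩,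
   ⟨73, 4, 35, 68⟩,
   ⟨76, 17, 1, 71⟩,
   ⟨80, 17, 1, 75⟩,
   ⟨81, 4, 66, 76⟩,
   ⟨82, 17, 1, 77⟩,
   ⟨83, 4, 80, 78⟩,
   ⟨84, 17, 1, 79⟩,
   ⟨86, 17, 1, 81⟩,
   ⟨87, 4, 94, 82⟩,
   ⟨88, 4, 94, 83⟩,
   ⟨89, 17, 1, 84⟩,
   ⟨90, 17, 1, 85⟩,
   ⟨91, 17, 0, 86⟩,
   ⟨92, 17, 0, 87⟩,
   ⟨93, 17, 1, 88⟩,
   ⟨94, 17, 1, 89⟩,
   ⟨102, 17, 1, 96⟩,
   ⟨103, 17, 1, 97⟩,
   ⟨108, 17, 1, 102⟩,
   ⟨110, 4, 35, 104⟩,
   ⟨111, 17, 1, 105⟩,
   ⟨112, 4, 5, 106⟩,
   ⟨113, 4, 95, 107⟩,
   ⟨114, 17, 1, 108⟩,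
   ⟨118, 4, 95, 112⟩,
   ⟨120, 4, 35, 105⟩,
   ⟨122, 4, 127, 115⟩,
   ⟨123, 4, 155, 116⟩,
   ⟨124, 4, 127, 117⟩]

theorem ok : nodeOK2 autA 192 P [4, 17, 62] [0, 33, 100] T F = true := by decide +kernel

theorem t : BP 0x4000000000020010 0x10000000000000000200000001 := by
  have h := node2 autOK hP ok
  rw [show maskL [4, 17, 62] = 0x4000000000020010 from by decide +kernel, show maskL [0, 33, 100] = 0x10000000000000000200000001 from by decide +kernel] at h
  exact h

end Pool.Agent.H805.T5.N30
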