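import Mathlib
import Pool.Agent.H805.T5.Tree2
import Pool.Agent.H805.T5.Auts
import Pool.Agent.H184.T5.D.F14_43_2
import Pool.Agent.H184.T5.D.F1_91_1
import Pool.Agent.H184.T5.D.F24_43_0
import Pool.Agent.H184.T5.D.F24_43_1
import Pool.Agent.H184.T5.D.F2_33_0
import Pool.Agent.H184.T5.D.F2_33_1
import Pool.Agent.H184.T5.D.F32_91_1
import Pool.Agent.H184.T5.D.F33_91_0
import Pool.Agent.H184.T5.D.F34_33_0
import Pool.Agent.H184.T5.D.F38_33_1
import Pool.Agent.H184.T5.D.F39_33_1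
import Pool.Agent.H184.T5.D.F4_33_0
import Pool.Agent.H184.T5.D.F4_33_1
import Pool.Agent.H184.T5.D.F64_41_2
import Pool.Agent.H184.T5.D.F7_33_1
import Pool.Agent.H184.T5.D.F8_33_1
import Pool.Agent.H184.T5.D.F9_33_1
import Pool.Agent.H184.T5.D.V_000
import Pool.Agent.H184.T5.D.V_001
import Pool.Agent.H184.T5.D.V_003
import Pool.Agent.H184.T5.D.V_004
import Pool.Agent.H184.T5.D.V_012
import Pool.Agent.H184.T5.D.V_014
import Pool.Agent.H184.T5.D.V_015
import Pool.Agent.H184.T5.D.V_021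
import Pool.Agent.H184.T5.D.V_025
import Pool.Agent.H184.T5.D.V_026
import Pool.Agent.H805.T5.N.N10
import Pool.Agent.H805.T5.N.N12
import Pool.Agent.H805.T5.N.N13
import Pool.Agent.H805.T5.N.N14
import Pool.Agent.H805.T5.N.N16
import Pool.Agent.H805.T5.N.N27
import Pool.Agent.H805.T5.N.N29
import Pool.Agent.H805.T5.N.N3
import Pool.Agent.H805.T5.N.N30
import Pool.Agent.H805.T5.N.N4
import Pool.Agent.H805.T5.N.N5
import Pool.Agent.H805.T5.N.N6
import Pool.Agent.H805.T5.N.N8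

set_option autoImplicit false
set_option maxRecDepth 20000

namespace Pool.Agent.H805.T5.N32

open Pool.Agent.Helper582.Cube

def P : List (ℕ × ℕ) :=
  [(0x4000400000000012, 0x200000000000200100001),
   (0x4000000001004000, 0x80000000011),
   (0x4000000084000000, 0xa0000000001),
   (0x4000400000000030, 0x80200100001),
   (0x4000000000000050, 0x200100001),
   (0x4000400000000080, 0x200100001),
   (0x4000400000000100, 0x200100001),
   (0x4000400000000200, 0x200100001),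
   (0x4000400000000410, 0x80200100001),
   (0x4000400000000810, 0x80200100001),
   (0x4000000000001010, 0x200100001),
   (0x4000400000002010, 0x80200100001),
   (0x4000400000004010, 0x200000000000200100001),
   (0x4000400000008010, 0x80200100001),
   (0x4000000000010010, 0x200100001),
   (0x4000400000020010, 0x80200100001),
   (0x4000400000040010, 0x80200100001),
   (0x4000400000080010, 0x80000000000000200100001),
   (0x4000400000200010, 0x80200100001),
   (0x4000000000400010, 0x200100001),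
   (0x4000000000800010, 0x200100001),
   (0x4000400001000010, 0x80200100001),
   (0x400000000004000000000000030, 0x10000800000000000200000001),
   (0x4000400004000010, 0x80200100001),
   (0x4000400008000010, 0x80200100001),
   (0x4000400010000010, 0x80200100001),
   (0x4000400020000010, 0x80200100001),
   (0x200000004000000000000002, 0x80000000000020000000001),
   (0x4000000080000010, 0x200100001),
   (0x4000000000080004, 0x80200000001),
   (0x4000400400000000, 0x200100001),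
   (0x4000400800000010, 0x80200100001),
   (0x4000401000000010, 0x80200100001),
   (0x4000402000000010, 0x80200100001),
   (0x4000404000000000, 0x200100001),
   (0x4000408000000000, 0x200100001),
   (0x4000010000000010, 0x200100001),
   (0x4000020000000010, 0x200100001),
   (0x4000000000804000, 0xa0000000001),
   (0x20000000004000000000000010, 0xa0000000001),
   (0x4000100000000010, 0x200100001),
   (0x4000600000000010, 0x80200100001),
   (0x4000c00000000010, 0x200000000000200100001),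
   (0x4001000000000010, 0x200100001),
   (0x4002400000000010, 0x80200100001),
   (0x80004000004000000000, 0x800000000000200000001),
   (0x4000000000000810, 0x10000000000000000200000001),
   (0x14000000001000000, 0x80000000011),
   (0x4000000000002010, 0x10000000000000000200000001),
   (0x4000000000004010, 0x10000000000000000200000001),
   (0x4000000800000010, 0x10000000000000000200000001),
   (0x4000001000000010, 0x10000000000000000200000001),
   (0x400000000004000002000000010, 0x10000800000000000200000001),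
   (0x200000004000000000000004, 0x80200000001),
   (0x4000008000000010, 0x10000000000000000200000001),
   (0x5000000000000010, 0x10000000000000000200000001),
   (0x6000000000000010, 0x10000000000000000200000001),
   (0xc000400000000010, 0x80200100001),
   (0x14000000000040000, 0x10000000000000020000000001),
   (0x24000400000000010, 0x80200100001),
   (0x44000000000000010, 0x200100001),
   (0x84000400000000010, 0x200000000000200100001),
   (0x20000000004000000000004000, 0xa0000000001),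
   (0x204000000000000010, 0x200100001),
   (0x404000400000000010, 0x80200100001),
   (0x804000000000000010, 0x200100001),
   (0x14000000400000000, 0x20000000011),
   (0x2004000400000000010, 0x200000000000200100001),
   (0x4004000000000000010, 0x200100001),
   (0x8004000400000000010, 0x80200100001),
   (0x400000000004000000000010010, 0x10000800000000000200000001),
   (0x4000000000020010, 0x10000000000000000200000001),
   (0x400000000004000000000040010, 0x10000800000000000200000001),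
   (0x4000000000080010, 0x10000000000000000200000001),
   (0x100004000400000000010, 0x200000000000200100001),
   (0x400000000004000020000000010, 0x10000800000000000200000001),
   (0x400000000004000040000000010, 0x10000800000000000200000001),
   (0x800004000400000000010, 0x80200100001),
   (0x1000004000400000000010, 0x80200100001),
   (0x2000004000400000000010, 0x80200100001),
   (0x4000004000400000000010, 0x201100001),
   (0x800000014000000000000000, 0x80000000000020000000001),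
   (0x104000000000000010, 0x10000000000000000200000001),
   (0x20000004000400000000010, 0x80200100001),
   (0x40000004000000000000010, 0x200100001),
   (0x80000004000000000000010, 0x10000000000000000200000001),
   (0x4000000004000000100000000, 0x80000000000000000100001),
   (0x20000000004000000001000000, 0xa0000000001),
   (0x400000004000000000000010, 0x200100001),
   (0x800000004000400000000010, 0x200000000000200100001),
   (0x1000000004000400000000010, 0x200000000000200100001),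
   (0x2000000004000400000000010, 0x200000000000200100001),
   (0x4000000004000000000000010, 0x200100001),
   (0x8000000004000400000000010, 0x80200100001),
   (0x400000000000004000000000100010, 0x10000800000000000200000001),
   (0x4000000000200010, 0x10000000000000000200000001),
   (0x40000000004000400000000010, 0x80200100001),
   (0x400000000004000000000800010, 0x10000800000000000200000001),
   (0x100000000004000400000000010, 0x80200100001),
   (0x4000200000000010, 0x10000000000000000200000001),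
   (0x400000000004000400000000010, 0x200000000000200100001),
   (0x4000800000000010, 0x10000000000000000200000001),
   (0x4000000400040000, 0x10000000000000000200000001),
   (0x2000000000004000400000000010, 0x80200100001),
   (0x4000000004000000000004000, 0x80000100001),
   (0x8000000000004000400000000010, 0x80200100001),
   (0x400000000014000000000000000, 0x10000000000000020000000001),
   (0x2004000000000000010, 0x10000000000000000200000001),
   (0x40000000000004000400000000010, 0x200000000000200100001),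
   (0x80000000000004000400000000010, 0x80200100001),
   (0x100000000000004000400000000010, 0x80200100001),
   (0x200000000000004000400000000010, 0x80200100001),
   (0x400000000000004000400000000010, 0x80200100001),
   (0x800000000000004000400000000010, 0x80200100001),
   (0x1000000000000004000000000000010, 0x200100001),
   (0x2000000000000004000400000000010, 0x80200100001),
   (0x4000000000000004000400000000010, 0x80200100001),
   (0x8000000000000004000400000000010, 0x200000000000200100001),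
   (0x4000000200000200, 0x80200000000000000000001)]

theorem hP : ∀ p ∈ P, BP p.1 p.2 :=
  consP Pool.Agent.H184.T5.V.p1760 <|
  consP Pool.Agent.H805.T5.N16.t <|
  consP Pool.Agent.H184.T5.V.p46 <|
  consP Pool.Agent.H184.T5.V.p1761 <|
  consP Pool.Agent.H184.T5.B.p4_33_6 <|
  consP Pool.Agent.H184.T5.B.p7_33_46 <|
  consP Pool.Agent.H184.T5.B.p8_33_46 <|
  consP Pool.Agent.H184.T5.B.p9_33_46 <|
  consP Pool.Agent.H184.T5.V.p1762 <|
  consP Pool.Agent.H184.T5.V.p1763 <|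
  consP Pool.Agent.H184.T5.B.p4_33_12 <|
  consP Pool.Agent.H184.T5.V.p1764 <|
  consP Pool.Agent.H184.T5.V.p1765 <|
  consP Pool.Agent.H184.T5.V.p1766 <|
  consP Pool.Agent.H184.T5.B.p4_33_16 <|
  consP Pool.Agent.H184.T5.V.p1767 <|
  consP Pool.Agent.H184.T5.V.p1768 <|
  consP Pool.Agent.H184.T5.V.p1769 <|
  consP Pool.Agent.H184.T5.V.p1770 <|
  consP Pool.Agent.H805.T5.N5.t <|
  consP Pool.Agent.H805.T5.N6.t <|
  consP Pool.Agent.H184.T5.V.p1771 <|
  consP Pool.Agent.H184.T5.V.p138 <|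
  consP Pool.Agent.H184.T5.V.p1772 <|
  consP Pool.Agent.H184.T5.V.p1773 <|
  consP Pool.Agent.H184.T5.V.p1774 <|
  consP Pool.Agent.H184.T5.V.p1775 <|
  consP Pool.Agent.H184.T5.B.p1_91_93 <|
  consP Pool.Agent.H805.T5.N27.t <|
  consP Pool.Agent.H184.T5.B.p2_33_19 <|
  consP Pool.Agent.H184.T5.B.p34_33_46 <|
  consP Pool.Agent.H184.T5.V.p1776 <|
  consP Pool.Agent.H184.T5.V.p1777 <|
  consP Pool.Agent.H184.T5.V.p1778 <|
  consP Pool.Agent.H184.T5.B.p38_33_46 <|
  consP Pool.Agent.H184.T5.B.p39_33_46 <|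
  consP Pool.Agent.H184.T5.B.p4_33_40 <|
  consP Pool.Agent.H805.T5.N10.t <|
  consP Pool.Agent.H184.T5.V.p979 <|
  consP Pool.Agent.H184.T5.V.p228 <|
  consP Pool.Agent.H184.T5.B.p4_33_44 <|
  consP Pool.Agent.H184.T5.V.p1779 <|
  consP Pool.Agent.H184.T5.V.p1780 <|
  consP Pool.Agent.H184.T5.B.p4_33_48 <|
  consP Pool.Agent.H184.T5.V.p1781 <|
  consP Pool.Agent.H184.T5.B.p38_33_79 <|
  consP Pool.Agent.H184.T5.B.p4_33_11 <|
  consP Pool.Agent.H184.T5.B.p24_43_64 <|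
  consP Pool.Agent.H184.T5.B.p4_33_13 <|
  consP Pool.Agent.H184.T5.B.p4_33_14 <|
  consP Pool.Agent.H805.T5.N8.t <|
  consP Pool.Agent.H184.T5.B.p4_33_36 <|
  consP Pool.Agent.H184.T5.V.p1782 <|
  consP Pool.Agent.H184.T5.B.p2_33_93 <|
  consP Pool.Agent.H184.T5.B.p4_33_39 <|
  consP Pool.Agent.H184.T5.B.p4_33_60 <|
  consP Pool.Agent.H184.T5.B.p4_33_61 <|
  consP Pool.Agent.H184.T5.V.p1783 <|
  consP Pool.Agent.H184.T5.V.p1784 <|
  consP Pool.Agent.H184.T5.V.p1785 <|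
  consP Pool.Agent.H805.T5.N13.t <|
  consP Pool.Agent.H184.T5.V.p1786 <|
  consP Pool.Agent.H184.T5.B.p14_43_101 <|
  consP Pool.Agent.H184.T5.B.p4_33_69 <|
  consP Pool.Agent.H184.T5.V.p1787 <|
  consP Pool.Agent.H184.T5.B.p4_33_71 <|
  consP Pool.Agent.H184.T5.V.p320 <|
  consP Pool.Agent.H184.T5.V.p1788 <|
  consP Pool.Agent.H184.T5.B.p4_33_74 <|
  consP Pool.Agent.H184.T5.V.p1789 <|
  consP Pool.Agent.H184.T5.V.p825 <|
  consP Pool.Agent.H805.T5.N30.t <|
  consP Pool.Agent.H184.T5.V.p1790 <|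
  consP Pool.Agent.H805.T5.N3.t <|
  consP Pool.Agent.H184.T5.V.p1791 <|
  consP Pool.Agent.H184.T5.V.p1443 <|
  consP Pool.Agent.H184.T5.V.p1792 <|
  consP Pool.Agent.H184.T5.V.p1793 <|
  consP Pool.Agent.H184.T5.V.p1794 <|
  consP Pool.Agent.H184.T5.V.p1795 <|
  consP Pool.Agent.H184.T5.V.p1796 <|
  consP Pool.Agent.H184.T5.B.p64_41_95 <|
  consP Pool.Agent.H184.T5.B.p4_33_68 <|
  consP Pool.Agent.H184.T5.V.p1797 <|
  consP Pool.Agent.H184.T5.B.p4_33_90 <|
  consP Pool.Agent.H184.T5.B.p4_33_91 <|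
  consP Pool.Agent.H184.T5.B.p32_91_98 <|
  consP Pool.Agent.H184.T5.B.p24_43_101 <|
  consP Pool.Agent.H184.T5.B.p4_33_94 <|
  consP Pool.Agent.H184.T5.V.p1798 <|
  consP Pool.Agent.H184.T5.V.p1799 <|
  consP Pool.Agent.H184.T5.V.p1800 <|
  consP Pool.Agent.H184.T5.B.p4_33_98 <|
  consP Pool.Agent.H184.T5.V.p1801 <|
  consP Pool.Agent.H184.T5.V.p1057 <|
  consP Pool.Agent.H805.T5.N4.t <|
  consP Pool.Agent.H184.T5.V.p1802 <|
  consP Pool.Agent.H184.T5.V.p1803 <|
  consP Pool.Agent.H184.T5.V.p1804 <|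
  consP Pool.Agent.H805.T5.N12.t <|
  consP Pool.Agent.H184.T5.V.p1805 <|
  consP Pool.Agent.H805.T5.N29.t <|
  consP Pool.Agent.H184.T5.V.p5 <|
  consP Pool.Agent.H184.T5.V.p1806 <|
  consP Pool.Agent.H184.T5.B.p14_43_98 <|
  consP Pool.Agent.H184.T5.V.p1807 <|
  consP Pool.Agent.H184.T5.V.p963 <|
  consP Pool.Agent.H184.T5.B.p4_33_73 <|
  consP Pool.Agent.H184.T5.V.p1808 <|
  consP Pool.Agent.H184.T5.V.p1809 <|
  consP Pool.Agent.H184.T5.V.p1810 <|
  consP Pool.Agent.H184.T5.V.p1811 <|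
  consP Pool.Agent.H184.T5.V.p1812 <|
  consP Pool.Agent.H184.T5.V.p1758 <|
  consP Pool.Agent.H805.T5.N14.t <|
  consP Pool.Agent.H184.T5.V.p1813 <|
  consP Pool.Agent.H184.T5.V.p1814 <|
  consP Pool.Agent.H184.T5.V.p1815 <|
  consP Pool.Agent.H184.T5.B.p33_91_9 <|
  nilP

def T : List Ent :=
  [⟨1, 81, 0, 0⟩,
   ⟨5, 43, 0, 3⟩,
   ⟨10, 43, 0, 8⟩,
   ⟨11, 43, 0, 9⟩,
   ⟨13, 43, 0, 11⟩,
   ⟨14, 81, 0, 12⟩,
   ⟨15, 43, 0, 13⟩,
   ⟨17, 43, 0, 15⟩,
   ⟨18, 43, 0, 16⟩,
   ⟨19, 91, 0, 17⟩,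
   ⟨21, 43, 0, 18⟩,
   ⟨24, 43, 0, 21⟩,
   ⟨25, 43, 1, 22⟩,
   ⟨26, 43, 0, 23⟩,
   ⟨27, 43, 0, 24⟩,
   ⟨28, 43, 0, 25⟩,
   ⟨29, 43, 0, 26⟩,
   ⟨35, 43, 0, 31⟩,
   ⟨36, 43, 0, 32⟩,
   ⟨37, 43, 0, 33⟩,
   ⟨45, 43, 0, 41⟩,
   ⟨47, 81, 0, 42⟩,
   ⟨49, 43, 0, 44⟩,
   ⟨57, 43, 1, 52⟩,
   ⟨63, 43, 0, 57⟩,
   ⟨65, 43, 0, 59⟩,
   ⟨67, 81, 0, 61⟩,
   ⟨70, 43, 0, 64⟩,
   ⟨73, 81, 0, 67⟩,
   ⟨75, 43, 0, 69⟩,
   ⟨76, 43, 1, 70⟩,
   ⟨78, 43, 1, 72⟩,
   ⟨80, 81, 0, 74⟩,
   ⟨81, 43, 1, 75⟩,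
   ⟨82, 43, 1, 76⟩,
   ⟨83, 43, 0, 77⟩,
   ⟨84, 43, 0, 78⟩,
   ⟨85, 43, 0, 79⟩,
   ⟨86, 24, 0, 80⟩,
   ⟨89, 43, 0, 83⟩,
   ⟨95, 81, 0, 89⟩,
   ⟨96, 81, 0, 90⟩,
   ⟨97, 81, 0, 91⟩,
   ⟨99, 43, 0, 93⟩,
   ⟨100, 43, 7, 94⟩,
   ⟨102, 43, 0, 96⟩,
   ⟨103, 43, 1, 97⟩,
   ⟨104, 43, 0, 98⟩,
   ⟨106, 81, 0, 100⟩,
   ⟨109, 43, 0, 103⟩,
   ⟨111, 43, 0, 105⟩,
   ⟨114, 81, 0, 108⟩,
   ⟨115, 43, 0, 109⟩,
   ⟨116, 43, 0, 110⟩,
   ⟨117, 43, 0, 111⟩,
   ⟨118, 43, 0, 112⟩,
   ⟨119, 43, 0, 113⟩,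
   ⟨121, 43, 0, 115⟩,
   ⟨122, 43, 0, 116⟩,
   ⟨123, 81, 0, 117⟩]

def F : List Ent :=
  [⟨2, 46, 16, 1⟩,
   ⟨3, 46, 81, 2⟩,
   ⟨6, 46, 0, 4⟩,
   ⟨7, 4, 0, 5⟩,
   ⟨8, 4, 0, 6⟩,
   ⟨9, 4, 0, 7⟩,
   ⟨12, 46, 0, 10⟩,
   ⟨16, 46, 0, 14⟩,
   ⟨22, 46, 0, 19⟩,
   ⟨23, 46, 0, 20⟩,
   ⟨30, 46, 126, 27⟩,
   ⟨31, 46, 0, 28⟩,
   ⟨32, 4, 67, 29⟩,
   ⟨34, 4, 0, 30⟩,
   ⟨38, 4, 0, 34⟩,
   ⟨39, 4, 0, 35⟩,
   ⟨40, 46, 0, 36⟩,
   ⟨41, 46, 0, 37⟩,
   ⟨42, 4, 81, 38⟩,
   ⟨43, 4, 95, 39⟩,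
   ⟨44, 46, 0, 40⟩,
   ⟨48, 46, 0, 43⟩,
   ⟨50, 4, 66, 45⟩,
   ⟨51, 46, 1, 46⟩,
   ⟨52, 46, 16, 47⟩,
   ⟨53, 46, 1, 48⟩,
   ⟨54, 46, 1, 49⟩,
   ⟨55, 46, 1, 50⟩,
   ⟨56, 46, 1, 51⟩,
   ⟨58, 46, 94, 53⟩,
   ⟨59, 46, 1, 54⟩,
   ⟨60, 46, 1, 55⟩,
   ⟨61, 46, 1, 56⟩,
   ⟨64, 4, 150, 58⟩,
   ⟨66, 46, 0, 60⟩,
   ⟨68, 4, 95, 62⟩,
   ⟨69, 46, 0, 63⟩,
   ⟨71, 46, 0, 65⟩,
   ⟨72, 4, 4, 66⟩,
   ⟨74, 46, 0, 68⟩,
   ⟨77, 46, 1, 71⟩,
   ⟨79, 46, 1, 73⟩,
   ⟨87, 4, 80, 81⟩,
   ⟨88, 46, 1, 82⟩,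
   ⟨90, 46, 0, 84⟩,
   ⟨91, 46, 1, 85⟩,
   ⟨92, 4, 2, 86⟩,
   ⟨93, 4, 95, 87⟩,
   ⟨94, 46, 0, 88⟩,
   ⟨98, 46, 0, 92⟩,
   ⟨101, 46, 1, 95⟩,
   ⟨105, 46, 1, 99⟩,
   ⟨107, 46, 1, 101⟩,
   ⟨108, 4, 154, 102⟩,
   ⟨110, 4, 11, 104⟩,
   ⟨112, 4, 5, 106⟩,
   ⟨113, 46, 1, 107⟩,
   ⟨120, 46, 0, 114⟩,
   ⟨124, 4, 127, 118⟩]

theorem ok : nodeOK2 autA 192 P [4, 46, 62] [0, 20, 33] T F = true := by decide +kernel

theorem t : BP 0x4000400000000010 0x200100001 := by
  have h := node2 autOK hP ok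
  rw [show maskL [4, 46, 62] = 0x4000400000000010 from by decide +kernel, show maskL [0, 20, 33] = 0x200100001 from by decide +kernel] at h
  exact h

end Pool.Agent.H805.T5.N32
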