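import Mathlib
import Pool.Agent.H805.T5.Tree2
import Pool.Agent.H805.T5.Auts
import Pool.Agent.H184.T5.D.F12_43_0
import Pool.Agent.H184.T5.D.F14_43_0
import Pool.Agent.H184.T5.D.F14_43_1
import Pool.Agent.H184.T5.D.F24_43_0
import Pool.Agent.H184.T5.D.F2_33_0
import Pool.Agent.H184.T5.D.F2_33_1
import Pool.Agent.H184.T5.D.F32_91_0
import Pool.Agent.H184.T5.D.F32_91_1
import Pool.Agent.H184.T5.D.F34_33_1
import Pool.Agent.H184.T5.D.F38_33_1
import Pool.Agent.H184.T5.D.F38_33_2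
import Pool.Agent.H184.T5.D.F39_33_0
import Pool.Agent.H184.T5.D.F39_33_1
import Pool.Agent.H184.T5.D.F39_33_2
import Pool.Agent.H184.T5.D.F44_4_1
import Pool.Agent.H184.T5.D.F4_33_0
import Pool.Agent.H184.T5.D.F4_33_1
import Pool.Agent.H184.T5.D.F64_41_0
import Pool.Agent.H184.T5.D.F64_41_1
import Pool.Agent.H184.T5.D.F64_41_2
import Pool.Agent.H184.T5.D.F7_33_1
import Pool.Agent.H184.T5.D.F8_33_1
import Pool.Agent.H184.T5.D.F9_33_0
import Pool.Agent.H184.T5.D.F9_33_1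
import Pool.Agent.H184.T5.D.F9_33_2
import Pool.Agent.H184.T5.D.V_000
import Pool.Agent.H184.T5.D.V_003
import Pool.Agent.H184.T5.D.V_004
import Pool.Agent.H184.T5.D.V_012
import Pool.Agent.H184.T5.D.V_015
import Pool.Agent.H184.T5.D.V_016
import Pool.Agent.H184.T5.D.V_025
import Pool.Agent.H805.T5.N.N18
import Pool.Agent.H805.T5.N.N26
import Pool.Agent.H805.T5.N.N9

set_option autoImplicit false
set_option maxRecDepth 20000

namespace Pool.Agent.H805.T5.N33

open Pool.Agent.Helper582.Cube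

def P : List (ℕ × ℕ) :=
  [(0x1004000000400000000, 0x200100001),
   (0x4000000000000014, 0x80200000001),
   (0x4010000000000100, 0x200100001),
   (0x84000000000000030, 0x800000000080200000001),
   (0x10000000000004000000000000200, 0x10000000000000000200000001),
   (0x84000000000000080, 0x80200000001),
   (0x84000000000000110, 0x80200100001),
   (0x84000000000000200, 0x80200000001),
   (0x1004000004000000000, 0x200100001),
   (0x84000000000000810, 0xa0200000001),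
   (0xc000000000001000, 0xa0000000001),
   (0x84000000000002010, 0xa0200000001),
   (0x4000000000004010, 0x80200000001),
   (0x4000000000008010, 0x80200000001),
   (0x84000000000010010, 0x80200100001),
   (0x14000008000000000, 0x20000000011),
   (0x14000000020000000, 0x20000000011),
   (0x14000000400000000, 0x20000000011),
   (0x14000080000000000, 0x20000000011),
   (0x14001000000000000, 0x20000000011),
   (0xc000000000004000, 0xa0000000001),
   (0x84000000000800010, 0x80200100001),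
   (0x4000000001000010, 0x80200000001),
   (0x1004000000000000100, 0x200100001),
   (0x84000000004000010, 0xa0200000001),
   (0x84000000008000010, 0xa0200000001),
   (0x84000000010000010, 0xa0200000001),
   (0x84000000020000010, 0xa0200000001),
   (0xc000000000000040, 0xa00000000000000000001),
   (0x14000000000100000, 0x20000000011),
   (0x1004000000000000004, 0x200100001),
   (0x84000000400000010, 0x80200100001),
   (0x84000000800000010, 0xa0200000001),
   (0x14000000000400000, 0x20000000011),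
   (0x4010000000001000, 0x80000100001),
   (0x84000004000000000, 0x80200000001),
   (0x84000008000000000, 0x80200000001),
   (0x84000010000000010, 0xa0200000001),
   (0x84000020000000010, 0x80200100001),
   (0x14000000000004000, 0x20000000011),
   (0x84000100000000010, 0x80200100001),
   (0x84000200000000010, 0x80200100001),
   (0x14000000000800000, 0x20000000011),
   (0x84000800000000010, 0x80200100001),
   (0x6000100000000000, 0xa0000000001),
   (0x4002000000000010, 0x80200000001),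
   (0x84004000000000010, 0xa0200000001),
   (0x10000000000004000008000000000, 0x10000000000000000200000001),
   (0x16000000000000000, 0x20000000011),
   (0x14008000000000000, 0x20000000011),
   (0x84040000000000010, 0xa0200000001),
   (0x8000004000000800000010, 0x10000800000000000200000001),
   (0x84000000100000000, 0x80200000000000000000001),
   (0x15000000000000000, 0x20000000011),
   (0x8000004000004000000000, 0x800000000000200000001),
   (0x8000004000008000000000, 0x800000000000200000001),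
   (0x4200000000001000, 0x80200000001),
   (0x1014000000000000000, 0x20000000011),
   (0x14000000000001000, 0x80000000011),
   (0x94000000000000010, 0x80200100001),
   (0xa4000000000000010, 0xa0200000001),
   (0x4014000000000000000, 0x20000000011),
   (0x4000000000001004, 0x10000000000000000200000001),
   (0x14800000000000000, 0x20000000011),
   (0x6000000000004000, 0xa0000000001),
   (0x884000000000000010, 0xa0200000001),
   (0x1c000000000000000, 0x20000000011),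
   (0x14020000000000000, 0x20000000011),
   (0x4000000100001000, 0x10080000000000000000000001),
   (0x100000000000014000000000000000, 0x20000000011),
   (0x8000004000000000010010, 0x10000800000000000200000001),
   (0x4000008000001000, 0x10000000000000000200000001),
   (0x20000000014000000000000000, 0x20000000011),
   (0x8000004000000000080010, 0x10000800000000000200000001),
   (0x8000004000010000000010, 0x800000000000201000001),
   (0x4000000200100000, 0x80000000000020000000001),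
   (0x8000004000040000000010, 0x10000800000000000200000001),
   (0x8000004000080000000010, 0x10000800000000000200000001),
   (0x4002000200000000, 0x800000000000000000011),
   (0x200000000000014000000000000000, 0x20000000011),
   (0x4000000000000014000000000000000, 0x80000000011),
   (0x8000084000000000000010, 0xa0200000001),
   (0x1004000000000004000, 0x80000100001),
   (0x800000000014000000000000000, 0x20000000011),
   (0x4000000000001200, 0x10000000000000000200000001),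
   (0x80000084000000000000010, 0x80200100001),
   (0x4000002100000000, 0x80000000000020000000001),
   (0x14000000001000000, 0x80000000011),
   (0x2000000000014000000000000000, 0x20000000011),
   (0x400000000000014000000000000000, 0x20000000011),
   (0x8000000000000014000000000000000, 0x20000000011),
   (0x2000000084000000000000010, 0xa0200000001),
   (0x80000000014000000000000000, 0x20000000011),
   (0x8000000084000000000000010, 0xa0200000001),
   (0x4000002000000010, 0x800000000000200000001),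
   (0x1000000014000000000000000, 0x20000000011),
   (0x8000004000000000400010, 0x10000800000000000200000001),
   (0x8000004000000000800010, 0x800000000000201000001),
   (0x100000000084000000000000010, 0xa0200000001),
   (0x8000004000200000000010, 0xa00000000000200000001),
   (0x2000014000000000000000, 0x20000000011),
   (0x8000004001000000000010, 0x10000800000000000200000001),
   (0x5000100000000000, 0x800000000000000000011),
   (0x4000000000084000000000000010, 0xa0200000001),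
   (0x2000000014000000000000000, 0x20000000011),
   (0x14000002000000000, 0x800000000000000000011),
   (0x20000000000084000000000000010, 0xa0200000001),
   (0x40000000000084000000000000010, 0x80200100001),
   (0x4200000000000200, 0x80200000001),
   (0x1000000004000000000000010, 0x800000000000200000001),
   (0x200000000000084000000000000010, 0xa0200000001),
   (0x80014000000000000000, 0x20000000011),
   (0x800000000000084000000000000010, 0x80200100001),
   (0x200000014000000000000000, 0x20000000011),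
   (0x14000400000000000, 0x800000000000000000011),
   (0x1004000000100000000, 0x80000000000000000100001),
   (0x8000000000000004000000000000010, 0x800000000000200000001),
   (0x10000000000000004000000000000010, 0x800000000000200000001)]

theorem hP : ∀ p ∈ P, BP p.1 p.2 :=
  consP Pool.Agent.H184.T5.B.p34_33_72 <|
  consP Pool.Agent.H184.T5.B.p2_33_4 <|
  consP Pool.Agent.H184.T5.B.p8_33_52 <|
  consP Pool.Agent.H184.T5.V.p1067 <|
  consP Pool.Agent.H184.T5.B.p9_33_112 <|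
  consP Pool.Agent.H184.T5.B.p7_33_67 <|
  consP Pool.Agent.H184.T5.V.p1068 <|
  consP Pool.Agent.H184.T5.V.p1069 <|
  consP Pool.Agent.H184.T5.B.p38_33_72 <|
  consP Pool.Agent.H184.T5.V.p1070 <|
  consP Pool.Agent.H184.T5.B.p12_43_63 <|
  consP Pool.Agent.H184.T5.V.p1071 <|
  consP Pool.Agent.H184.T5.B.p14_43_4 <|
  consP Pool.Agent.H184.T5.B.p4_33_15 <|
  consP Pool.Agent.H184.T5.V.p1072 <|
  consP Pool.Agent.H184.T5.B.p64_41_39 <|
  consP Pool.Agent.H184.T5.B.p64_41_29 <|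
  consP Pool.Agent.H184.T5.V.p320 <|
  consP Pool.Agent.H184.T5.B.p64_41_43 <|
  consP Pool.Agent.H184.T5.B.p64_41_48 <|
  consP Pool.Agent.H184.T5.B.p14_43_63 <|
  consP Pool.Agent.H184.T5.V.p1073 <|
  consP Pool.Agent.H184.T5.B.p4_33_24 <|
  consP Pool.Agent.H184.T5.B.p8_33_72 <|
  consP Pool.Agent.H184.T5.V.p1074 <|
  consP Pool.Agent.H184.T5.V.p1075 <|
  consP Pool.Agent.H184.T5.V.p1076 <|
  consP Pool.Agent.H184.T5.V.p1077 <|
  consP Pool.Agent.H184.T5.V.p1078 <|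
  consP Pool.Agent.H184.T5.V.p313 <|
  consP Pool.Agent.H184.T5.B.p2_33_72 <|
  consP Pool.Agent.H184.T5.V.p1079 <|
  consP Pool.Agent.H184.T5.V.p1080 <|
  consP Pool.Agent.H184.T5.B.p64_41_22 <|
  consP Pool.Agent.H184.T5.B.p12_43_52 <|
  consP Pool.Agent.H184.T5.B.p38_33_67 <|
  consP Pool.Agent.H184.T5.B.p39_33_67 <|
  consP Pool.Agent.H184.T5.V.p1081 <|
  consP Pool.Agent.H184.T5.V.p1082 <|
  consP Pool.Agent.H184.T5.B.p64_41_14 <|
  consP Pool.Agent.H184.T5.V.p1083 <|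
  consP Pool.Agent.H184.T5.V.p1084 <|
  consP Pool.Agent.H184.T5.B.p64_41_23 <|
  consP Pool.Agent.H184.T5.V.p1085 <|
  consP Pool.Agent.H184.T5.V.p297 <|
  consP Pool.Agent.H184.T5.B.p4_33_49 <|
  consP Pool.Agent.H184.T5.V.p1086 <|
  consP Pool.Agent.H184.T5.B.p39_33_112 <|
  consP Pool.Agent.H184.T5.V.p300 <|
  consP Pool.Agent.H184.T5.B.p64_41_51 <|
  consP Pool.Agent.H184.T5.V.p1087 <|
  consP Pool.Agent.H184.T5.V.p1088 <|
  consP Pool.Agent.H184.T5.B.p32_91_67 <|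
  consP Pool.Agent.H184.T5.V.p305 <|
  consP Pool.Agent.H184.T5.B.p38_33_87 <|
  consP Pool.Agent.H184.T5.B.p39_33_87 <|
  consP Pool.Agent.H184.T5.B.p12_43_57 <|
  consP Pool.Agent.H184.T5.B.p64_41_72 <|
  consP Pool.Agent.H184.T5.B.p12_43_64 <|
  consP Pool.Agent.H184.T5.V.p1089 <|
  consP Pool.Agent.H184.T5.V.p1090 <|
  consP Pool.Agent.H184.T5.B.p64_41_74 <|
  consP Pool.Agent.H184.T5.B.p2_33_12 <|
  consP Pool.Agent.H184.T5.B.p64_41_59 <|
  consP Pool.Agent.H184.T5.B.p14_43_61 <|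
  consP Pool.Agent.H184.T5.V.p1091 <|
  consP Pool.Agent.H184.T5.B.p64_41_63 <|
  consP Pool.Agent.H184.T5.V.p296 <|
  consP Pool.Agent.H184.T5.B.p32_91_12 <|
  consP Pool.Agent.H184.T5.B.p64_41_116 <|
  consP Pool.Agent.H184.T5.V.p817 <|
  consP Pool.Agent.H184.T5.B.p39_33_12 <|
  consP Pool.Agent.H805.T5.N26.t <|
  consP Pool.Agent.H184.T5.V.p1092 <|
  consP Pool.Agent.H184.T5.V.p1093 <|
  consP Pool.Agent.H805.T5.N18.t <|
  consP Pool.Agent.H184.T5.V.p1095 <|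
  consP Pool.Agent.H184.T5.V.p1096 <|
  consP Pool.Agent.H184.T5.V.p349 <|
  consP Pool.Agent.H184.T5.B.p64_41_117 <|
  consP Pool.Agent.H184.T5.V.p312 <|
  consP Pool.Agent.H184.T5.V.p1097 <|
  consP Pool.Agent.H184.T5.B.p14_43_72 <|
  consP Pool.Agent.H184.T5.B.p64_41_107 <|
  consP Pool.Agent.H184.T5.B.p9_33_12 <|
  consP Pool.Agent.H184.T5.V.p1098 <|
  consP Pool.Agent.H184.T5.B.p32_91_37 <|
  consP Pool.Agent.H184.T5.B.p24_43_64 <|
  consP Pool.Agent.H184.T5.B.p64_41_109 <|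
  consP Pool.Agent.H184.T5.B.p64_41_118 <|
  consP Pool.Agent.H184.T5.B.p64_41_123 <|
  consP Pool.Agent.H184.T5.V.p1099 <|
  consP Pool.Agent.H184.T5.B.p64_41_103 <|
  consP Pool.Agent.H184.T5.V.p1100 <|
  consP Pool.Agent.H805.T5.N9.t <|
  consP Pool.Agent.H184.T5.B.p64_41_96 <|
  consP Pool.Agent.H184.T5.V.p1102 <|
  consP Pool.Agent.H184.T5.V.p1759 <|
  consP Pool.Agent.H184.T5.V.p1104 <|
  consP Pool.Agent.H184.T5.V.p1105 <|
  consP Pool.Agent.H184.T5.B.p64_41_85 <|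
  consP Pool.Agent.H184.T5.V.p64 <|
  consP Pool.Agent.H184.T5.B.p44_4_60 <|
  consP Pool.Agent.H184.T5.V.p1106 <|
  consP Pool.Agent.H184.T5.B.p64_41_97 <|
  consP Pool.Agent.H184.T5.V.p303 <|
  consP Pool.Agent.H184.T5.V.p1107 <|
  consP Pool.Agent.H184.T5.V.p1108 <|
  consP Pool.Agent.H184.T5.B.p9_33_57 <|
  consP Pool.Agent.H184.T5.B.p4_33_96 <|
  consP Pool.Agent.H184.T5.V.p1109 <|
  consP Pool.Agent.H184.T5.B.p64_41_79 <|
  consP Pool.Agent.H184.T5.V.p1110 <|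
  consP Pool.Agent.H184.T5.V.p268 <|
  consP Pool.Agent.H184.T5.V.p315 <|
  consP Pool.Agent.H184.T5.B.p32_91_72 <|
  consP Pool.Agent.H184.T5.B.p4_33_123 <|
  consP Pool.Agent.H184.T5.B.p4_33_124 <|
  nilP

def T : List Ent :=
  [⟨5, 83, 0, 3⟩,
   ⟨8, 20, 0, 6⟩,
   ⟨11, 41, 0, 9⟩,
   ⟨13, 41, 0, 11⟩,
   ⟨16, 20, 0, 14⟩,
   ⟨23, 20, 0, 21⟩,
   ⟨26, 41, 0, 24⟩,
   ⟨27, 41, 0, 25⟩,
   ⟨28, 41, 0, 26⟩,
   ⟨29, 41, 0, 27⟩,
   ⟨34, 20, 0, 31⟩,
   ⟨35, 41, 0, 32⟩,
   ⟨40, 41, 0, 37⟩,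
   ⟨41, 20, 0, 38⟩,
   ⟨44, 20, 0, 40⟩,
   ⟨45, 20, 0, 41⟩,
   ⟨47, 20, 0, 43⟩,
   ⟨50, 41, 0, 46⟩,
   ⟨54, 41, 0, 50⟩,
   ⟨55, 20, 1, 51⟩,
   ⟨64, 20, 0, 59⟩,
   ⟨65, 41, 0, 60⟩,
   ⟨71, 41, 0, 65⟩,
   ⟨76, 20, 1, 70⟩,
   ⟨79, 20, 1, 73⟩,
   ⟨80, 104, 1, 74⟩,
   ⟨82, 20, 1, 76⟩,
   ⟨83, 20, 1, 77⟩,
   ⟨87, 41, 0, 81⟩,
   ⟨91, 20, 0, 85⟩,
   ⟨97, 41, 0, 91⟩,
   ⟨99, 41, 0, 93⟩,
   ⟨102, 20, 1, 96⟩,
   ⟨103, 104, 1, 97⟩,
   ⟨104, 41, 0, 98⟩,
   ⟨105, 41, 1, 99⟩,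
   ⟨106, 104, 39, 74⟩,
   ⟨108, 20, 1, 101⟩,
   ⟨110, 41, 0, 103⟩,
   ⟨113, 41, 0, 106⟩,
   ⟨114, 20, 0, 107⟩,
   ⟨117, 41, 0, 110⟩,
   ⟨119, 20, 0, 112⟩]

def F : List Ent :=
  [⟨1, 4, 67, 0⟩,
   ⟨2, 67, 0, 1⟩,
   ⟨3, 4, 71, 2⟩,
   ⟨6, 4, 66, 4⟩,
   ⟨7, 4, 0, 5⟩,
   ⟨9, 4, 0, 7⟩,
   ⟨10, 4, 67, 8⟩,
   ⟨12, 4, 4, 10⟩,
   ⟨14, 67, 0, 12⟩,
   ⟨15, 67, 0, 13⟩,
   ⟨17, 4, 81, 15⟩,
   ⟨18, 4, 81, 16⟩,
   ⟨19, 4, 81, 17⟩,
   ⟨20, 4, 81, 18⟩,
   ⟨21, 4, 81, 19⟩,
   ⟨22, 4, 4, 20⟩,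
   ⟨24, 67, 0, 22⟩,
   ⟨25, 4, 67, 23⟩,
   ⟨30, 4, 8, 28⟩,
   ⟨31, 4, 81, 29⟩,
   ⟨32, 4, 67, 30⟩,
   ⟨36, 4, 81, 33⟩,
   ⟨37, 4, 91, 34⟩,
   ⟨38, 4, 0, 35⟩,
   ⟨39, 4, 0, 36⟩,
   ⟨42, 4, 81, 39⟩,
   ⟨46, 4, 81, 42⟩,
   ⟨48, 4, 10, 44⟩,
   ⟨49, 67, 0, 45⟩,
   ⟨51, 4, 66, 47⟩,
   ⟨52, 4, 81, 48⟩,
   ⟨53, 4, 81, 49⟩,
   ⟨56, 4, 9, 52⟩,
   ⟨57, 4, 81, 53⟩,
   ⟨58, 4, 1, 54⟩,
   ⟨59, 4, 1, 55⟩,
   ⟨60, 4, 11, 56⟩,
   ⟨61, 4, 81, 57⟩,
   ⟨63, 4, 95, 58⟩,
   ⟨66, 4, 81, 61⟩,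
   ⟨68, 4, 69, 62⟩,
   ⟨69, 4, 81, 63⟩,
   ⟨70, 4, 10, 64⟩,
   ⟨72, 4, 81, 66⟩,
   ⟨73, 4, 81, 67⟩,
   ⟨74, 4, 129, 68⟩,
   ⟨75, 4, 81, 69⟩,
   ⟨77, 4, 69, 71⟩,
   ⟨78, 4, 81, 72⟩,
   ⟨81, 67, 5, 75⟩,
   ⟨84, 67, 119, 78⟩,
   ⟨85, 4, 81, 79⟩,
   ⟨86, 4, 95, 80⟩,
   ⟨88, 4, 94, 82⟩,
   ⟨89, 4, 81, 83⟩,
   ⟨90, 4, 69, 84⟩,
   ⟨92, 4, 3, 86⟩,
   ⟨93, 4, 95, 87⟩,
   ⟨94, 4, 81, 88⟩,
   ⟨95, 4, 81, 89⟩,
   ⟨96, 4, 81, 90⟩,
   ⟨98, 4, 81, 92⟩,
   ⟨100, 4, 7, 94⟩,
   ⟨101, 4, 81, 95⟩,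
   ⟨107, 4, 81, 100⟩,
   ⟨109, 4, 119, 102⟩,
   ⟨111, 4, 81, 104⟩,
   ⟨112, 4, 117, 105⟩,
   ⟨115, 4, 11, 108⟩,
   ⟨116, 67, 1, 109⟩,
   ⟨118, 4, 81, 111⟩,
   ⟨120, 4, 81, 113⟩,
   ⟨121, 4, 117, 114⟩,
   ⟨122, 4, 127, 115⟩,
   ⟨123, 67, 1, 116⟩,
   ⟨124, 67, 1, 117⟩]

theorem ok : nodeOK2 autA 192 P [4, 62, 67] [0, 33, 43] T F = true := by decide +kernel

theorem t : BP 0x84000000000000010 0x80200000001 := by
  have h := node2 autOK hP ok
  rw [show maskL [4, 62, 67] = 0x84000000000000010 from by decide +kernel, show maskL [0, 33, 43] = 0x80200000001 from by decide +kernel] at h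
  exact h

end Pool.Agent.H805.T5.N33
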