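import Mathlib
import Pool.Agent.H805.T5.Tree2
import Pool.Agent.H805.T5.Auts
import Pool.Agent.H184.T5.D.F12_43_1
import Pool.Agent.H184.T5.D.F14_43_1
import Pool.Agent.H184.T5.D.F1_91_1
import Pool.Agent.H184.T5.D.F24_43_0
import Pool.Agent.H184.T5.D.F2_33_1
import Pool.Agent.H184.T5.D.F32_91_0
import Pool.Agent.H184.T5.D.F32_91_1
import Pool.Agent.H184.T5.D.F33_91_1
import Pool.Agent.H184.T5.D.F34_33_1
import Pool.Agent.H184.T5.D.F38_33_1
import Pool.Agent.H184.T5.D.F38_33_2
import Pool.Agent.H184.T5.D.F39_33_2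
import Pool.Agent.H184.T5.D.F44_4_0
import Pool.Agent.H184.T5.D.F44_4_1
import Pool.Agent.H184.T5.D.F4_33_0
import Pool.Agent.H184.T5.D.F4_33_1
import Pool.Agent.H184.T5.D.F64_41_2
import Pool.Agent.H184.T5.D.F7_33_2
import Pool.Agent.H184.T5.D.F8_33_2
import Pool.Agent.H184.T5.D.F9_33_0
import Pool.Agent.H184.T5.D.F9_33_1
import Pool.Agent.H184.T5.D.F9_33_2
import Pool.Agent.H184.T5.D.V_002
import Pool.Agent.H184.T5.D.V_004
import Pool.Agent.H184.T5.D.V_005
import Pool.Agent.H184.T5.D.V_007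
import Pool.Agent.H184.T5.D.V_011
import Pool.Agent.H184.T5.D.V_012
import Pool.Agent.H184.T5.D.V_013
import Pool.Agent.H184.T5.D.V_025
import Pool.Agent.H805.T5.N.N10
import Pool.Agent.H805.T5.N.N13
import Pool.Agent.H805.T5.N.N14
import Pool.Agent.H805.T5.N.N24
import Pool.Agent.H805.T5.N.N25
import Pool.Agent.H805.T5.N.N27
import Pool.Agent.H805.T5.N.N30
import Pool.Agent.H805.T5.N.N32
import Pool.Agent.H805.T5.N.N34
import Pool.Agent.H805.T5.N.N7

set_option autoImplicit false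
set_option maxRecDepth 20000

namespace Pool.Agent.H805.T5.N35

open Pool.Agent.Helper582.Cube

def P : List (ℕ × ℕ) :=
  [(0x4000000002010010, 0x10000800000000000200000001),
   (0x2000000000004000004000000000, 0x80200000001),
   (0x4000100000000002, 0x800000000000000000011),
   (0x800000000000004000000000000100, 0x80200000001),
   (0x4002000000000002, 0x80000000000020000000001),
   (0x4000100000000080, 0x200000000000000000011),
   (0x40004000000000010010, 0x10000800000000000200000001),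
   (0x4000100000000200, 0x200000000000000000011),
   (0x4000100000000400, 0x200000000000000000011),
   (0x4000100000000800, 0x200000000000000000011),
   (0x4000000000001010, 0x200100001),
   (0x20004000000000010010, 0x10000800000000000200000001),
   (0x1000004000000000004000, 0x80000000011),
   (0x20000000004000000000010010, 0x10000800000000000200000001),
   (0x4000000000000050, 0x200100001),
   (0x2000000000004000008000000000, 0x80200000001),
   (0x4000000000010010, 0x200100001),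
   (0x10004000000000000012, 0x80200100001),
   (0x100000000004000000000010010, 0x10000800000000000200000001),
   (0x10004000000000000200, 0x200100001),
   (0x4040000000010010, 0x10000000000000000200100001),
   (0x80004000000000010010, 0x10000000000000020200000001),
   (0x80000000000004000000000010010, 0x10000000000000020200000001),
   (0x4000010000010010, 0x10000000000000000200100001),
   (0x800000000000004000008000000000, 0x80200000001),
   (0x40000004000000000000010, 0x200100001),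
   (0x4000000000018010, 0x10000800000000000200000001),
   (0x800000000000004000000000000200, 0x80200000001),
   (0x8000000004000000000000010, 0x800000000000200000001),
   (0x104000000000000010, 0x10000000000000000200000001),
   (0x4000100200000000, 0x200000000000000000011),
   (0x4000000000050010, 0x10000800000000000200000001),
   (0x200000000000004000000000010010, 0x10000800000000000200000001),
   (0x4000040000010010, 0x10000000000000000200100001),
   (0x4000102000000000, 0x200000000000000000011),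
   (0x4000000100000100, 0x10080000000000000000000001),
   (0x4000000000020010, 0x10000000000000000200000001),
   (0x4000110000000000, 0x200000000000000000011),
   (0x4000020000010010, 0x110000000000000000200000001),
   (0x44000000000010010, 0x10080000000000000200000001),
   (0x80000004000000000000010, 0x10000000000000000200000001),
   (0x800000000000004000000000010010, 0x10000000000000020200000001),
   (0x4000100000010010, 0x10000000000000000200100001),
   (0x4000900000000000, 0x200000000000000000011),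
   (0x400000004000000000000010, 0x200100001),
   (0x4002100000000000, 0x200000000000000000011),
   (0x4000000000004000000000010010, 0x10000000000000020200000001),
   (0x1000000004000000000000080, 0x200100001),
   (0x10004000000000001000, 0x80000100001),
   (0x2000004000000000010010, 0x10000800000000000200000001),
   (0x4000000000010410, 0x10000800000000000200000001),
   (0x100000000000004000000000000080, 0x10000000000000000200000001),
   (0x200000004000000000000004, 0x80200000001),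
   (0x4200100000000000, 0x200000000000000000011),
   (0x10000004000000000010010, 0x10000800000000000200000001),
   (0x4000000000002010, 0x10000000000000000200000001),
   (0x5000100000000000, 0x800000000000000000011),
   (0x4000002000010010, 0x10000800000000000200000001),
   (0x8000004000000000010010, 0x10000800000000000200000001),
   (0x14000000001000000, 0x80000000011),
   (0x804000000000000010, 0x200100001),
   (0x4000001000000010, 0x10000000000000000200000001),
   (0x8000000014000000000000000, 0x80000000000020000000001),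
   (0x44000000000000010, 0x200100001),
   (0x4000000000000810, 0x10000000000000000200000001),
   (0x4004000000000000010, 0x200100001),
   (0x4000008000000010, 0x10000000000000000200000001),
   (0x1004000100000000000, 0x200000000000000000011),
   (0x204000000000000010, 0x200100001),
   (0x4002000100000000, 0x80000000000020000000001),
   (0x200000000004000000000010010, 0x10000000000000020200000001),
   (0x8000000004000000000000002, 0x80000000000020000000001),
   (0x4080000000010010, 0x10000000000000020200000001),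
   (0x4000010000000010, 0x200100001),
   (0x80004000100001000000, 0xa00000000000000000011),
   (0x100004000100000000000, 0x200000000000000000011),
   (0x10004000004000000000, 0x200100001),
   (0x200004000100000000000, 0x800000000000000000011),
   (0x1000004000100000000000, 0x20000000011),
   (0x800000000004000000000010010, 0x10000000000000020200000001),
   (0x2000000000004000000080000004, 0x100000000000000080200000001),
   (0x4200000000010010, 0x10000800000000000200000001),
   (0x4100100000000000, 0x800000000000000000011),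
   (0x4000000000010090, 0x10000800000000000200000001),
   (0x4000400000000010, 0x200100001),
   (0x4000000080000010, 0x200100001),
   (0x4100000000010010, 0x10000000000000020200000001),
   (0x4000020000000010, 0x200100001),
   (0x2000000000004000000000000200, 0x80200000001),
   (0x2000000000004000000000010010, 0x10000800000000000200000001),
   (0x4000000400000010, 0x200100001),
   (0x2000000004000100000000000, 0x200000000000000000011),
   (0x4000000004000100000000000, 0x200000000000000000011),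
   (0x4000000000010200, 0x10000000000000000200000001),
   (0x1000000000000004000000000000010, 0x200100001),
   (0x1000000004000000000000200, 0x200100001),
   (0x10004000000000004000, 0x80000100001),
   (0x800000004000000000010010, 0x10000000000000020200000001),
   (0x4000000000110010, 0x10000800000000000200000001),
   (0x100000000000004000000000000200, 0x10000000000000000200000001),
   (0x1000000004000000400000000, 0x200100001),
   (0x1000000004000008000000000, 0x200100001),
   (0x1000000004000100000000000, 0x800000000000000000011),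
   (0x4000000000810010, 0x10000800000000000200000001),
   (0x8000000004000000100000000, 0x80000000000020000000001),
   (0x2004000100000000000, 0x800000000000000000011),
   (0x1004000000000010010, 0x10000800000000000200000001),
   (0x2000000004000000000010010, 0x10000800000000000200000001),
   (0x40000000000004000100001000000, 0x200000000020000000011),
   (0x2000000000000004000000000010010, 0x10000000000000020200000001),
   (0x4000000400100100, 0x10000000000000020200000001),
   (0x4000900000000000, 0x800000000000000000011),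
   (0x1000000004000000000010010, 0x10000800000000000200000001),
   (0x4002100000000000, 0x800000000000000000011),
   (0x1000000000000004000100000000000, 0x800000000000000000011),
   (0x4002000000010010, 0x10000800000000000200000001),
   (0x4004000000000010010, 0x10000000000000020200000001),
   (0x8000000004000000000010010, 0x10000800000000000200000001),
   (0x4002000200000000, 0x80000000000020000000001)]

theorem hP : ∀ p ∈ P, BP p.1 p.2 :=
  consP Pool.Agent.H184.T5.V.p794 <|
  consP Pool.Agent.H184.T5.B.p38_33_109 <|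
  consP Pool.Agent.H184.T5.B.p44_4_1 <|
  consP Pool.Agent.H184.T5.B.p8_33_119 <|
  consP Pool.Agent.H184.T5.B.p1_91_49 <|
  consP Pool.Agent.H184.T5.V.p465 <|
  consP Pool.Agent.H184.T5.V.p813 <|
  consP Pool.Agent.H184.T5.B.p44_4_9 <|
  consP Pool.Agent.H184.T5.B.p44_4_10 <|
  consP Pool.Agent.H184.T5.V.p192 <|
  consP Pool.Agent.H184.T5.B.p4_33_12 <|
  consP Pool.Agent.H184.T5.V.p812 <|
  consP Pool.Agent.H184.T5.B.p14_43_84 <|
  consP Pool.Agent.H184.T5.V.p822 <|
  consP Pool.Agent.H184.T5.B.p4_33_6 <|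
  consP Pool.Agent.H184.T5.B.p39_33_109 <|
  consP Pool.Agent.H184.T5.B.p4_33_16 <|
  consP Pool.Agent.H184.T5.V.p383 <|
  consP Pool.Agent.H184.T5.V.p823 <|
  consP Pool.Agent.H184.T5.B.p9_33_76 <|
  consP Pool.Agent.H184.T5.V.p804 <|
  consP Pool.Agent.H184.T5.V.p814 <|
  consP Pool.Agent.H184.T5.V.p830 <|
  consP Pool.Agent.H184.T5.V.p1755 <|
  consP Pool.Agent.H184.T5.B.p39_33_119 <|
  consP Pool.Agent.H184.T5.B.p4_33_90 <|
  consP Pool.Agent.H184.T5.V.p343 <|
  consP Pool.Agent.H184.T5.B.p9_33_119 <|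
  consP Pool.Agent.H805.T5.N34.t <|
  consP Pool.Agent.H184.T5.B.p4_33_68 <|
  consP Pool.Agent.H184.T5.B.p44_4_33 <|
  consP Pool.Agent.H184.T5.V.p789 <|
  consP Pool.Agent.H184.T5.V.p831 <|
  consP Pool.Agent.H184.T5.V.p799 <|
  consP Pool.Agent.H184.T5.B.p44_4_37 <|
  consP Pool.Agent.H184.T5.B.p32_91_8 <|
  consP Pool.Agent.H805.T5.N30.t <|
  consP Pool.Agent.H184.T5.B.p44_4_40 <|
  consP Pool.Agent.H184.T5.V.p798 <|
  consP Pool.Agent.H184.T5.V.p808 <|
  consP Pool.Agent.H184.T5.B.p4_33_91 <|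
  consP Pool.Agent.H184.T5.V.p832 <|
  consP Pool.Agent.H184.T5.V.p801 <|
  consP Pool.Agent.H184.T5.B.p44_4_47 <|
  consP Pool.Agent.H184.T5.B.p4_33_94 <|
  consP Pool.Agent.H184.T5.B.p44_4_49 <|
  consP Pool.Agent.H184.T5.V.p828 <|
  consP Pool.Agent.H184.T5.B.p7_33_96 <|
  consP Pool.Agent.H184.T5.B.p12_43_76 <|
  consP Pool.Agent.H184.T5.V.p815 <|
  consP Pool.Agent.H184.T5.V.p787 <|
  consP Pool.Agent.H184.T5.B.p7_33_116 <|
  consP Pool.Agent.H184.T5.B.p2_33_93 <|
  consP Pool.Agent.H184.T5.B.p44_4_57 <|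
  consP Pool.Agent.H184.T5.V.p818 <|
  consP Pool.Agent.H184.T5.B.p4_33_13 <|
  consP Pool.Agent.H184.T5.B.p44_4_60 <|
  consP Pool.Agent.H184.T5.V.p796 <|
  consP Pool.Agent.H184.T5.V.p817 <|
  consP Pool.Agent.H184.T5.B.p24_43_64 <|
  consP Pool.Agent.H184.T5.B.p4_33_71 <|
  consP Pool.Agent.H184.T5.B.p4_33_36 <|
  consP Pool.Agent.H184.T5.B.p64_41_99 <|
  consP Pool.Agent.H805.T5.N13.t <|
  consP Pool.Agent.H184.T5.B.p4_33_11 <|
  consP Pool.Agent.H184.T5.B.p4_33_74 <|
  consP Pool.Agent.H184.T5.B.p4_33_39 <|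
  consP Pool.Agent.H184.T5.B.p44_4_72 <|
  consP Pool.Agent.H184.T5.B.p4_33_69 <|
  consP Pool.Agent.H184.T5.B.p32_91_49 <|
  consP Pool.Agent.H184.T5.V.p824 <|
  consP Pool.Agent.H184.T5.B.p1_91_99 <|
  consP Pool.Agent.H184.T5.V.p805 <|
  consP Pool.Agent.H184.T5.B.p4_33_40 <|
  consP Pool.Agent.H184.T5.V.p1756 <|
  consP Pool.Agent.H184.T5.B.p44_4_80 <|
  consP Pool.Agent.H184.T5.B.p38_33_76 <|
  consP Pool.Agent.H805.T5.N24.t <|
  consP Pool.Agent.H805.T5.N25.t <|
  consP Pool.Agent.H184.T5.V.p826 <|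
  consP Pool.Agent.H184.T5.V.p877 <|
  consP Pool.Agent.H184.T5.V.p807 <|
  consP Pool.Agent.H184.T5.B.p44_4_56 <|
  consP Pool.Agent.H184.T5.V.p786 <|
  consP Pool.Agent.H805.T5.N32.t <|
  consP Pool.Agent.H805.T5.N27.t <|
  consP Pool.Agent.H184.T5.V.p806 <|
  consP Pool.Agent.H805.T5.N10.t <|
  consP Pool.Agent.H184.T5.V.p322 <|
  consP Pool.Agent.H184.T5.V.p827 <|
  consP Pool.Agent.H805.T5.N7.t <|
  consP Pool.Agent.H184.T5.V.p469 <|
  consP Pool.Agent.H184.T5.B.p44_4_98 <|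
  consP Pool.Agent.H184.T5.B.p9_33_16 <|
  consP Pool.Agent.H805.T5.N14.t <|
  consP Pool.Agent.H184.T5.B.p9_33_96 <|
  consP Pool.Agent.H184.T5.B.p14_43_76 <|
  consP Pool.Agent.H184.T5.V.p819 <|
  consP Pool.Agent.H184.T5.V.p790 <|
  consP Pool.Agent.H184.T5.B.p9_33_116 <|
  consP Pool.Agent.H184.T5.B.p34_33_96 <|
  consP Pool.Agent.H184.T5.B.p39_33_96 <|
  consP Pool.Agent.H184.T5.B.p44_4_96 <|
  consP Pool.Agent.H184.T5.V.p793 <|
  consP Pool.Agent.H184.T5.B.p32_91_99 <|
  consP Pool.Agent.H184.T5.B.p44_4_73 <|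
  consP Pool.Agent.H184.T5.V.p809 <|
  consP Pool.Agent.H184.T5.V.p821 <|
  consP Pool.Agent.H184.T5.V.p1757 <|
  consP Pool.Agent.H184.T5.V.p833 <|
  consP Pool.Agent.H184.T5.V.p802 <|
  consP Pool.Agent.H184.T5.V.p473 <|
  consP Pool.Agent.H184.T5.V.p820 <|
  consP Pool.Agent.H184.T5.V.p791 <|
  consP Pool.Agent.H184.T5.B.p44_4_120 <|
  consP Pool.Agent.H184.T5.V.p803 <|
  consP Pool.Agent.H184.T5.V.p810 <|
  consP Pool.Agent.H184.T5.V.p444 <|
  consP Pool.Agent.H184.T5.B.p33_91_49 <|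
  nilP

def T : List Ent :=
  [⟨1, 83, 144, 0⟩,
   ⟨8, 83, 144, 6⟩,
   ⟨13, 83, 144, 11⟩,
   ⟨15, 83, 144, 13⟩,
   ⟨19, 83, 24, 17⟩,
   ⟨20, 83, 144, 18⟩,
   ⟨22, 104, 144, 20⟩,
   ⟨23, 41, 144, 21⟩,
   ⟨25, 41, 144, 22⟩,
   ⟨26, 104, 144, 23⟩,
   ⟨29, 83, 144, 26⟩,
   ⟨34, 83, 144, 31⟩,
   ⟨35, 83, 144, 32⟩,
   ⟨36, 104, 144, 33⟩,
   ⟨41, 20, 144, 38⟩,
   ⟨42, 43, 144, 39⟩,
   ⟨45, 41, 144, 41⟩,
   ⟨46, 104, 144, 42⟩,
   ⟨50, 41, 144, 46⟩,
   ⟨53, 83, 144, 49⟩,
   ⟨54, 83, 144, 50⟩,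
   ⟨58, 83, 144, 54⟩,
   ⟨61, 83, 144, 57⟩,
   ⟨63, 83, 144, 58⟩,
   ⟨75, 41, 144, 70⟩,
   ⟨77, 41, 144, 72⟩,
   ⟨79, 83, 0, 74⟩,
   ⟨85, 41, 144, 79⟩,
   ⟨86, 41, 86, 80⟩,
   ⟨87, 83, 144, 81⟩,
   ⟨89, 83, 144, 83⟩,
   ⟨92, 41, 144, 86⟩,
   ⟨95, 83, 144, 89⟩,
   ⟨103, 41, 144, 97⟩,
   ⟨104, 83, 144, 98⟩,
   ⟨109, 83, 144, 103⟩,
   ⟨112, 83, 144, 106⟩,
   ⟨113, 83, 144, 107⟩,
   ⟨114, 41, 0, 108⟩,
   ⟨115, 41, 144, 109⟩,
   ⟨116, 41, 145, 110⟩,
   ⟨118, 83, 144, 112⟩,
   ⟨121, 83, 144, 115⟩,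
   ⟨122, 41, 144, 116⟩,
   ⟨123, 83, 144, 117⟩]

def F : List Ent :=
  [⟨2, 24, 86, 1⟩,
   ⟨3, 24, 3, 2⟩,
   ⟨5, 24, 62, 3⟩,
   ⟨6, 24, 120, 4⟩,
   ⟨7, 24, 0, 5⟩,
   ⟨9, 24, 0, 7⟩,
   ⟨10, 24, 0, 8⟩,
   ⟨11, 24, 0, 9⟩,
   ⟨12, 44, 24, 10⟩,
   ⟨14, 24, 2, 12⟩,
   ⟨16, 44, 24, 14⟩,
   ⟨17, 24, 86, 15⟩,
   ⟨18, 44, 24, 16⟩,
   ⟨21, 24, 24, 19⟩,
   ⟨27, 24, 62, 24⟩,
   ⟨28, 44, 24, 25⟩,
   ⟨30, 24, 62, 27⟩,
   ⟨31, 24, 60, 28⟩,
   ⟨32, 44, 144, 29⟩,
   ⟨33, 24, 0, 30⟩,
   ⟨37, 24, 0, 34⟩,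
   ⟨38, 24, 146, 35⟩,
   ⟨39, 44, 144, 36⟩,
   ⟨40, 24, 0, 37⟩,
   ⟨43, 44, 144, 40⟩,
   ⟨47, 24, 0, 43⟩,
   ⟨48, 44, 24, 44⟩,
   ⟨49, 24, 0, 45⟩,
   ⟨51, 24, 5, 47⟩,
   ⟨52, 24, 27, 48⟩,
   ⟨55, 24, 9, 51⟩,
   ⟨56, 44, 62, 52⟩,
   ⟨57, 24, 0, 53⟩,
   ⟨59, 44, 144, 55⟩,
   ⟨60, 24, 3, 56⟩,
   ⟨64, 44, 2, 59⟩,
   ⟨65, 44, 24, 60⟩,
   ⟨66, 44, 144, 61⟩,
   ⟨67, 24, 72, 62⟩,
   ⟨68, 44, 24, 63⟩,
   ⟨69, 44, 144, 64⟩,
   ⟨70, 44, 24, 65⟩,
   ⟨71, 44, 144, 66⟩,
   ⟨72, 24, 0, 67⟩,
   ⟨73, 44, 24, 68⟩,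
   ⟨74, 24, 120, 69⟩,
   ⟨76, 24, 72, 71⟩,
   ⟨78, 44, 24, 73⟩,
   ⟨80, 24, 0, 75⟩,
   ⟨82, 24, 24, 76⟩,
   ⟨83, 24, 3, 77⟩,
   ⟨84, 24, 1, 78⟩,
   ⟨88, 24, 3, 82⟩,
   ⟨90, 44, 24, 84⟩,
   ⟨91, 44, 24, 85⟩,
   ⟨93, 44, 24, 87⟩,
   ⟨94, 24, 86, 88⟩,
   ⟨96, 44, 24, 90⟩,
   ⟨97, 24, 0, 91⟩,
   ⟨98, 24, 0, 92⟩,
   ⟨99, 24, 144, 93⟩,
   ⟨100, 44, 5, 94⟩,
   ⟨101, 24, 5, 95⟩,
   ⟨102, 24, 27, 96⟩,
   ⟨105, 24, 9, 99⟩,
   ⟨106, 24, 5, 100⟩,
   ⟨107, 24, 5, 101⟩,
   ⟨108, 24, 3, 102⟩,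
   ⟨110, 24, 72, 104⟩,
   ⟨111, 24, 3, 105⟩,
   ⟨117, 24, 3, 111⟩,
   ⟨119, 24, 3, 113⟩,
   ⟨120, 24, 3, 114⟩,
   ⟨124, 24, 120, 118⟩]

theorem ok : nodeOK2 autA 192 P [24, 44, 62] [0, 4, 81] T F = true := by decide +kernel

theorem t : BP 0x4000100001000000 0x200000000000000000011 := by
  have h := node2 autOK hP ok
  rw [show maskL [24, 44, 62] = 0x4000100001000000 from by decide +kernel, show maskL [0, 4, 81] = 0x200000000000000000011 from by decide +kernel] at h
  exact h

end Pool.Agent.H805.T5.N35
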