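import Mathlib
import Pool.Agent.H805.T5.Tree2
import Pool.Agent.H805.T5.Auts
import Pool.Agent.H184.T5.D.F12_43_0
import Pool.Agent.H184.T5.D.F14_43_1
import Pool.Agent.H184.T5.D.F2_33_0
import Pool.Agent.H184.T5.D.F2_33_1
import Pool.Agent.H184.T5.D.F32_91_0
import Pool.Agent.H184.T5.D.F32_91_1
import Pool.Agent.H184.T5.D.F38_33_1
import Pool.Agent.H184.T5.D.F38_33_2
import Pool.Agent.H184.T5.D.F39_33_0
import Pool.Agent.H184.T5.D.F39_33_1
import Pool.Agent.H184.T5.D.F39_33_2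
import Pool.Agent.H184.T5.D.F44_4_1
import Pool.Agent.H184.T5.D.F4_33_0
import Pool.Agent.H184.T5.D.F64_41_0
import Pool.Agent.H184.T5.D.F64_41_1
import Pool.Agent.H184.T5.D.F64_41_2
import Pool.Agent.H184.T5.D.F7_33_1
import Pool.Agent.H184.T5.D.F8_33_1
import Pool.Agent.H184.T5.D.F9_33_0
import Pool.Agent.H184.T5.D.F9_33_1
import Pool.Agent.H184.T5.D.F9_33_2
import Pool.Agent.H184.T5.D.V_004
import Pool.Agent.H184.T5.D.V_013
import Pool.Agent.H184.T5.D.V_014
import Pool.Agent.H184.T5.D.V_025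
import Pool.Agent.H805.T5.N.N23
import Pool.Agent.H805.T5.N.N26
import Pool.Agent.H805.T5.N.N33
import Pool.Agent.H805.T5.N.N9

set_option autoImplicit false
set_option maxRecDepth 20000

namespace Pool.Agent.H805.T5.N36

open Pool.Agent.Helper582.Cube

def P : List (ℕ × ℕ) :=
  [(0x10014000000000000002, 0x200000000020000000011),
   (0x84000004000000000, 0x80200000001),
   (0x6000100000000000, 0xa0000000001),
   (0x10014000000000000020, 0x200000000020000000011),
   (0x10014000000000000040, 0x200000000020000000011),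
   (0x84000008000000000, 0x80200000001),
   (0x10014000000000000100, 0x200000000020000000011),
   (0x10014000000000000200, 0x200000000020000000011),
   (0x1004000000000000004, 0x200100001),
   (0x100004000000000000080, 0x200100001),
   (0x4010000000001000, 0x80000100001),
   (0x10014000000000002000, 0x200000000020000000011),
   (0x14000000000004000, 0x20000000011),
   (0x80004000000000000040, 0x80200000000000000000001),
   (0x100004000000000000100, 0x200100001),
   (0x10014000000000020000, 0x200000000020000000011),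
   (0x10014000000000040000, 0xa0000000011),
   (0x10014000000000080000, 0x200000000020000000011),
   (0x14000000000100000, 0x20000000011),
   (0x10014000000000200000, 0x200000000020000000011),
   (0x14000000000400000, 0x20000000011),
   (0x14000000000800000, 0x20000000011),
   (0x10014000000001000000, 0x200000000020000000011),
   (0x10014000000002000000, 0x200000000020000000011),
   (0x4010000000000100, 0x200100001),
   (0x10014000000008000000, 0x200000000020000000011),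
   (0x10014000000010000000, 0xa0000000011),
   (0x14000000020000000, 0x20000000011),
   (0x80000000004000000000000200, 0x80200000001),
   (0x84000000000000010, 0x80200000001),
   (0x14000000100000000, 0x20000000011),
   (0x1000000000000004000000000000200, 0x800000000000200000001),
   (0x14000000400000000, 0x20000000011),
   (0x84000000000000080, 0x80200000001),
   (0x10014000001000000000, 0x200000000020000000011),
   (0xc000000000001000, 0xa0000000001),
   (0xc000000000004000, 0xa0000000001),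
   (0x14000008000000000, 0x20000000011),
   (0x10014000010000000000, 0x200000000020000000011),
   (0x1004000004000000000, 0x200100001),
   (0x14000080000000000, 0x20000000011),
   (0x14000100000000000, 0x20000000011),
   (0x10000000000004000000000000200, 0x10000000000000000200000001),
   (0x4000000000008200, 0x800000000000200000001),
   (0x10014000800000000000, 0x200000000020000000011),
   (0x14001000000000000, 0x20000000011),
   (0x10014002000000000000, 0x200000000020000000011),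
   (0x8000004000004000000000, 0x800000000000200000001),
   (0x14008000000000000, 0x20000000011),
   (0x14000000000001000, 0x80000000011),
   (0x14020000000000000, 0x20000000011),
   (0x4000000000001004, 0x10000000000000000200000001),
   (0x8000004000008000000000, 0x800000000000200000001),
   (0x10014100000000000000, 0x20001000011),
   (0x10014200000000000000, 0x200000000020000000011),
   (0x4000000100001000, 0x10080000000000000000000001),
   (0x14800000000000000, 0x20000000011),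
   (0x15000000000000000, 0x20000000011),
   (0x16000000000000000, 0x20000000011),
   (0x80000000000014000000000000000, 0xa0000000001),
   (0x10034000000000000000, 0xa0000000011),
   (0x10054000000000000000, 0x200000000020000000011),
   (0x4200000000001000, 0x80200000001),
   (0x6000000000004000, 0xa0000000001),
   (0x10214000000000000000, 0x200000000020000000011),
   (0x84000000100000000, 0x80200000000000000000001),
   (0x10000000000004000008000000000, 0x10000000000000000200000001),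
   (0x1014000000000000000, 0x20000000011),
   (0x12014000000000000000, 0x200000000020000000011),
   (0x4014000000000000000, 0x20000000011),
   (0x18014000000000000000, 0x200000000020000000011),
   (0x30014000000000000000, 0x200000000020000000011),
   (0x50014000000000000000, 0x200000000020000000011),
   (0x80014000000000000000, 0x20000000011),
   (0x5000100000000000, 0x800000000000000000011),
   (0x210014000000000000000, 0xa0000000011),
   (0x410014000000000000000, 0x200000000020000000011),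
   (0x10000000000000084000000000000000, 0x80200000001),
   (0x14000100000010000, 0x200000000020000000011),
   (0x2000014000000000000000, 0x20000000011),
   (0x4010014000000000000000, 0x200000000020000000011),
   (0x14000000000000200, 0x800000000000200000001),
   (0x1004000000100000000, 0x80000000000000000100001),
   (0x20010014000000000000000, 0x200000000020000000011),
   (0x40010014000000000000000, 0x200000000020000000011),
   (0x4000002000000010, 0x800000000000200000001),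
   (0x100010014000000000000000, 0xa0000000011),
   (0x4000000200000040, 0x20000000011),
   (0x4000000020000200, 0x80200000001),
   (0x800010014000000000000000, 0x200000000020000000011),
   (0x1000000014000000000000000, 0x20000000011),
   (0x2000000014000000000000000, 0x20000000011),
   (0x14000400000000000, 0x800000000000000000011),
   (0x8000010014000000000000000, 0x200000000020000000011),
   (0x10000010014000000000000000, 0x200000000020000000011),
   (0x20000000014000000000000000, 0x20000000011),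
   (0x1004000000000004000, 0x80000100001),
   (0x80000000014000000000000000, 0x20000000011),
   (0x4000000000000050, 0x200100001),
   (0x200000010014000000000000000, 0x200000000020000000011),
   (0x400000010014000000000000000, 0x200000000020000000011),
   (0x800000000014000000000000000, 0x20000000011),
   (0x1000000010014000000000000000, 0x200000000020000000011),
   (0x2000000000014000000000000000, 0x20000000011),
   (0x4000000010014000000000000000, 0x200000000020000000011),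
   (0x4000008000001000, 0x10000000000000000200000001),
   (0x14000000010000000, 0x10000000000000020000000001),
   (0x20000000010014000000000000000, 0x200000000020000000011),
   (0x4000002100000000, 0x80000000000020000000001),
   (0x80000000010014000000000000000, 0x200000000020000000011),
   (0x4000000000000202, 0x800000000000200000001),
   (0x200000000000014000000000000000, 0x20000000011),
   (0x400000000000014000000000000000, 0x20000000011),
   (0x4000000000001200, 0x10000000000000000200000001),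
   (0x10000000000004000010001000000, 0x10000000000000020200000001),
   (0x2000000000010014000000000000000, 0xa0000000011),
   (0x4000000000000014000000000000000, 0x80000000011),
   (0x8000000000000014000000000000000, 0x20000000011),
   (0x4000020000000200, 0x800000000000200000001)]

theorem hP : ∀ p ∈ P, BP p.1 p.2 :=
  consP Pool.Agent.H184.T5.V.p885 <|
  consP Pool.Agent.H184.T5.B.p38_33_67 <|
  consP Pool.Agent.H184.T5.V.p297 <|
  consP Pool.Agent.H184.T5.V.p886 <|
  consP Pool.Agent.H184.T5.V.p887 <|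
  consP Pool.Agent.H184.T5.B.p39_33_67 <|
  consP Pool.Agent.H184.T5.V.p888 <|
  consP Pool.Agent.H184.T5.V.p889 <|
  consP Pool.Agent.H184.T5.B.p2_33_72 <|
  consP Pool.Agent.H184.T5.V.p890 <|
  consP Pool.Agent.H184.T5.B.p12_43_52 <|
  consP Pool.Agent.H184.T5.V.p891 <|
  consP Pool.Agent.H184.T5.B.p64_41_14 <|
  consP Pool.Agent.H184.T5.V.p892 <|
  consP Pool.Agent.H184.T5.B.p8_33_80 <|
  consP Pool.Agent.H184.T5.V.p893 <|
  consP Pool.Agent.H184.T5.V.p894 <|
  consP Pool.Agent.H184.T5.V.p895 <|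
  consP Pool.Agent.H184.T5.V.p313 <|
  consP Pool.Agent.H184.T5.V.p896 <|
  consP Pool.Agent.H184.T5.B.p64_41_22 <|
  consP Pool.Agent.H184.T5.B.p64_41_23 <|
  consP Pool.Agent.H184.T5.V.p897 <|
  consP Pool.Agent.H184.T5.V.p898 <|
  consP Pool.Agent.H184.T5.B.p8_33_52 <|
  consP Pool.Agent.H184.T5.V.p899 <|
  consP Pool.Agent.H184.T5.V.p900 <|
  consP Pool.Agent.H184.T5.B.p64_41_29 <|
  consP Pool.Agent.H184.T5.V.p318 <|
  consP Pool.Agent.H805.T5.N33.t <|
  consP Pool.Agent.H184.T5.V.p323 <|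
  consP Pool.Agent.H184.T5.B.p9_33_120 <|
  consP Pool.Agent.H184.T5.V.p320 <|
  consP Pool.Agent.H184.T5.B.p7_33_67 <|
  consP Pool.Agent.H184.T5.V.p901 <|
  consP Pool.Agent.H184.T5.B.p12_43_63 <|
  consP Pool.Agent.H184.T5.B.p14_43_63 <|
  consP Pool.Agent.H184.T5.B.p64_41_39 <|
  consP Pool.Agent.H184.T5.V.p902 <|
  consP Pool.Agent.H184.T5.B.p38_33_72 <|
  consP Pool.Agent.H184.T5.B.p64_41_43 <|
  consP Pool.Agent.H805.T5.N23.t <|
  consP Pool.Agent.H184.T5.B.p9_33_112 <|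
  consP Pool.Agent.H184.T5.B.p9_33_15 <|
  consP Pool.Agent.H184.T5.V.p1753 <|
  consP Pool.Agent.H184.T5.B.p64_41_48 <|
  consP Pool.Agent.H184.T5.V.p904 <|
  consP Pool.Agent.H184.T5.B.p38_33_87 <|
  consP Pool.Agent.H184.T5.B.p64_41_51 <|
  consP Pool.Agent.H184.T5.B.p12_43_64 <|
  consP Pool.Agent.H184.T5.V.p296 <|
  consP Pool.Agent.H184.T5.B.p2_33_12 <|
  consP Pool.Agent.H184.T5.B.p39_33_87 <|
  consP Pool.Agent.H184.T5.V.p905 <|
  consP Pool.Agent.H184.T5.V.p906 <|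
  consP Pool.Agent.H184.T5.B.p32_91_12 <|
  consP Pool.Agent.H184.T5.B.p64_41_59 <|
  consP Pool.Agent.H184.T5.V.p305 <|
  consP Pool.Agent.H184.T5.V.p300 <|
  consP Pool.Agent.H184.T5.B.p64_41_115 <|
  consP Pool.Agent.H184.T5.V.p907 <|
  consP Pool.Agent.H184.T5.V.p908 <|
  consP Pool.Agent.H184.T5.B.p12_43_57 <|
  consP Pool.Agent.H184.T5.B.p14_43_61 <|
  consP Pool.Agent.H184.T5.V.p909 <|
  consP Pool.Agent.H184.T5.B.p32_91_67 <|
  consP Pool.Agent.H184.T5.B.p39_33_112 <|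
  consP Pool.Agent.H184.T5.B.p64_41_72 <|
  consP Pool.Agent.H184.T5.V.p910 <|
  consP Pool.Agent.H184.T5.B.p64_41_74 <|
  consP Pool.Agent.H184.T5.V.p911 <|
  consP Pool.Agent.H184.T5.V.p912 <|
  consP Pool.Agent.H184.T5.V.p913 <|
  consP Pool.Agent.H184.T5.B.p64_41_79 <|
  consP Pool.Agent.H184.T5.B.p44_4_60 <|
  consP Pool.Agent.H184.T5.V.p914 <|
  consP Pool.Agent.H184.T5.V.p915 <|
  consP Pool.Agent.H184.T5.V.p331 <|
  consP Pool.Agent.H184.T5.V.p916 <|
  consP Pool.Agent.H184.T5.B.p64_41_85 <|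
  consP Pool.Agent.H184.T5.V.p917 <|
  consP Pool.Agent.H184.T5.B.p9_33_64 <|
  consP Pool.Agent.H184.T5.B.p32_91_72 <|
  consP Pool.Agent.H184.T5.V.p918 <|
  consP Pool.Agent.H184.T5.V.p919 <|
  consP Pool.Agent.H805.T5.N9.t <|
  consP Pool.Agent.H184.T5.V.p921 <|
  consP Pool.Agent.H184.T5.V.p991 <|
  consP Pool.Agent.H184.T5.B.p9_33_29 <|
  consP Pool.Agent.H184.T5.V.p922 <|
  consP Pool.Agent.H184.T5.B.p64_41_96 <|
  consP Pool.Agent.H184.T5.B.p64_41_97 <|
  consP Pool.Agent.H184.T5.V.p315 <|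
  consP Pool.Agent.H184.T5.V.p923 <|
  consP Pool.Agent.H184.T5.V.p924 <|
  consP Pool.Agent.H805.T5.N26.t <|
  consP Pool.Agent.H184.T5.B.p14_43_72 <|
  consP Pool.Agent.H184.T5.B.p64_41_103 <|
  consP Pool.Agent.H184.T5.B.p4_33_6 <|
  consP Pool.Agent.H184.T5.V.p925 <|
  consP Pool.Agent.H184.T5.V.p926 <|
  consP Pool.Agent.H184.T5.B.p64_41_107 <|
  consP Pool.Agent.H184.T5.V.p1754 <|
  consP Pool.Agent.H184.T5.B.p64_41_109 <|
  consP Pool.Agent.H184.T5.V.p928 <|
  consP Pool.Agent.H184.T5.B.p39_33_12 <|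
  consP Pool.Agent.H184.T5.B.p64_41_28 <|
  consP Pool.Agent.H184.T5.V.p929 <|
  consP Pool.Agent.H184.T5.B.p32_91_37 <|
  consP Pool.Agent.H184.T5.V.p930 <|
  consP Pool.Agent.H184.T5.B.p9_33_1 <|
  consP Pool.Agent.H184.T5.B.p64_41_117 <|
  consP Pool.Agent.H184.T5.B.p64_41_118 <|
  consP Pool.Agent.H184.T5.B.p9_33_12 <|
  consP Pool.Agent.H184.T5.V.p931 <|
  consP Pool.Agent.H184.T5.V.p932 <|
  consP Pool.Agent.H184.T5.V.p312 <|
  consP Pool.Agent.H184.T5.B.p64_41_123 <|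
  consP Pool.Agent.H184.T5.B.p9_33_41 <|
  nilP

def T : List Ent :=
  [⟨1, 81, 0, 0⟩,
   ⟨5, 81, 0, 3⟩,
   ⟨6, 81, 0, 4⟩,
   ⟨8, 81, 0, 6⟩,
   ⟨9, 81, 0, 7⟩,
   ⟨13, 81, 0, 11⟩,
   ⟨17, 81, 0, 15⟩,
   ⟨18, 43, 0, 16⟩,
   ⟨19, 81, 0, 17⟩,
   ⟨21, 81, 0, 19⟩,
   ⟨24, 81, 0, 22⟩,
   ⟨25, 81, 0, 23⟩,
   ⟨27, 81, 0, 25⟩,
   ⟨28, 43, 0, 26⟩,
   ⟨36, 81, 0, 34⟩,
   ⟨40, 81, 0, 38⟩,
   ⟨47, 81, 0, 44⟩,
   ⟨49, 81, 0, 46⟩,
   ⟨56, 24, 0, 53⟩,
   ⟨57, 81, 0, 54⟩,
   ⟨65, 43, 0, 60⟩,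
   ⟨66, 81, 0, 61⟩,
   ⟨69, 81, 0, 64⟩,
   ⟨73, 81, 0, 68⟩,
   ⟨75, 81, 0, 70⟩,
   ⟨77, 81, 0, 71⟩,
   ⟨78, 81, 0, 72⟩,
   ⟨81, 43, 0, 75⟩,
   ⟨82, 81, 0, 76⟩,
   ⟨84, 81, 1, 78⟩,
   ⟨86, 81, 0, 80⟩,
   ⟨89, 81, 0, 83⟩,
   ⟨90, 81, 0, 84⟩,
   ⟨92, 43, 0, 86⟩,
   ⟨95, 81, 0, 89⟩,
   ⟨99, 81, 0, 93⟩,
   ⟨100, 81, 0, 94⟩,
   ⟨105, 81, 0, 99⟩,
   ⟨106, 81, 0, 100⟩,
   ⟨108, 81, 0, 102⟩,
   ⟨110, 81, 0, 104⟩,
   ⟨113, 81, 0, 107⟩,
   ⟨115, 81, 0, 109⟩,
   ⟨120, 81, 8, 114⟩,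
   ⟨121, 43, 0, 115⟩]

def F : List Ent :=
  [⟨2, 76, 63, 1⟩,
   ⟨3, 76, 89, 2⟩,
   ⟨7, 76, 63, 5⟩,
   ⟨10, 76, 4, 8⟩,
   ⟨11, 64, 4, 9⟩,
   ⟨12, 76, 26, 10⟩,
   ⟨14, 76, 0, 12⟩,
   ⟨15, 64, 99, 13⟩,
   ⟨16, 64, 4, 14⟩,
   ⟨20, 76, 0, 18⟩,
   ⟨22, 76, 0, 20⟩,
   ⟨23, 76, 0, 21⟩,
   ⟨26, 76, 25, 24⟩,
   ⟨29, 76, 0, 27⟩,
   ⟨30, 64, 63, 28⟩,
   ⟨31, 76, 63, 29⟩,
   ⟨32, 76, 0, 30⟩,
   ⟨33, 64, 109, 31⟩,
   ⟨34, 76, 0, 32⟩,
   ⟨35, 76, 63, 33⟩,
   ⟨37, 76, 77, 35⟩,
   ⟨38, 76, 77, 36⟩,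
   ⟨39, 76, 0, 37⟩,
   ⟨42, 76, 4, 39⟩,
   ⟨43, 76, 0, 40⟩,
   ⟨44, 76, 0, 41⟩,
   ⟨45, 76, 8, 42⟩,
   ⟨46, 64, 109, 43⟩,
   ⟨48, 76, 0, 45⟩,
   ⟨50, 76, 61, 47⟩,
   ⟨51, 76, 0, 48⟩,
   ⟨52, 76, 3, 49⟩,
   ⟨53, 76, 0, 50⟩,
   ⟨54, 76, 145, 51⟩,
   ⟨55, 76, 61, 52⟩,
   ⟨58, 76, 147, 55⟩,
   ⟨59, 76, 0, 56⟩,
   ⟨60, 76, 0, 57⟩,
   ⟨61, 76, 0, 58⟩,
   ⟨63, 64, 77, 59⟩,
   ⟨67, 76, 87, 62⟩,
   ⟨68, 76, 89, 63⟩,
   ⟨70, 76, 99, 65⟩,
   ⟨71, 76, 8, 66⟩,
   ⟨72, 76, 0, 67⟩,
   ⟨74, 76, 0, 69⟩,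
   ⟨79, 76, 0, 73⟩,
   ⟨80, 76, 15, 74⟩,
   ⟨83, 76, 63, 77⟩,
   ⟨85, 76, 0, 79⟩,
   ⟨87, 64, 109, 81⟩,
   ⟨88, 76, 6, 82⟩,
   ⟨91, 76, 109, 85⟩,
   ⟨93, 64, 13, 87⟩,
   ⟨94, 64, 87, 88⟩,
   ⟨96, 76, 0, 90⟩,
   ⟨97, 76, 0, 91⟩,
   ⟨98, 76, 2, 92⟩,
   ⟨101, 76, 0, 95⟩,
   ⟨102, 76, 7, 96⟩,
   ⟨103, 76, 0, 97⟩,
   ⟨104, 64, 25, 98⟩,
   ⟨107, 76, 0, 101⟩,
   ⟨109, 76, 0, 103⟩,
   ⟨111, 76, 145, 105⟩,
   ⟨112, 64, 9, 106⟩,
   ⟨114, 76, 121, 108⟩,
   ⟨116, 64, 109, 110⟩,
   ⟨117, 76, 0, 111⟩,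
   ⟨118, 76, 0, 112⟩,
   ⟨119, 76, 145, 113⟩,
   ⟨122, 76, 3, 116⟩,
   ⟨123, 76, 0, 117⟩,
   ⟨124, 64, 109, 118⟩]

theorem ok : nodeOK2 autA 192 P [62, 64, 76] [0, 4, 41] T F = true := by decide +kernel

theorem t : BP 0x10014000000000000000 0x20000000011 := by
  have h := node2 autOK hP ok
  rw [show maskL [62, 64, 76] = 0x10014000000000000000 from by decide +kernel, show maskL [0, 4, 41] = 0x20000000011 from by decide +kernel] at h
  exact h

end Pool.Agent.H805.T5.N36
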