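import Mathlib
import Pool.Agent.H805.T5.Tree2
import Pool.Agent.H805.T5.Auts
import Pool.Agent.H184.T5.D.F12_43_1
import Pool.Agent.H184.T5.D.F1_91_0
import Pool.Agent.H184.T5.D.F1_91_1
import Pool.Agent.H184.T5.D.F24_43_0
import Pool.Agent.H184.T5.D.F24_43_1
import Pool.Agent.H184.T5.D.F2_33_0
import Pool.Agent.H184.T5.D.F2_33_1
import Pool.Agent.H184.T5.D.F32_91_0
import Pool.Agent.H184.T5.D.F33_91_0
import Pool.Agent.H184.T5.D.F34_33_1
import Pool.Agent.H184.T5.D.F38_33_2
import Pool.Agent.H184.T5.D.F39_33_1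
import Pool.Agent.H184.T5.D.F39_33_2
import Pool.Agent.H184.T5.D.F44_4_0
import Pool.Agent.H184.T5.D.F4_33_0
import Pool.Agent.H184.T5.D.F4_33_1
import Pool.Agent.H184.T5.D.F64_41_2
import Pool.Agent.H184.T5.D.F7_33_2
import Pool.Agent.H184.T5.D.F8_33_0
import Pool.Agent.H184.T5.D.F9_33_0
import Pool.Agent.H184.T5.D.F9_33_2
import Pool.Agent.H184.T5.D.V_000
import Pool.Agent.H184.T5.D.V_005
import Pool.Agent.H184.T5.D.V_010
import Pool.Agent.H184.T5.D.V_018
import Pool.Agent.H184.T5.D.V_022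
import Pool.Agent.H184.T5.D.V_023
import Pool.Agent.H184.T5.D.V_025
import Pool.Agent.H805.T5.N.N28
import Pool.Agent.H805.T5.N.N29
import Pool.Agent.H805.T5.N.N3
import Pool.Agent.H805.T5.N.N30
import Pool.Agent.H805.T5.N.N32
import Pool.Agent.H805.T5.N.N35
import Pool.Agent.H805.T5.N.N4
import Pool.Agent.H805.T5.N.N5
import Pool.Agent.H805.T5.N.N6
import Pool.Agent.H805.T5.N.N8

set_option autoImplicit false
set_option maxRecDepth 20000

namespace Pool.Agent.H805.T5.N37

open Pool.Agent.Helper582.Cube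

def P : List (ℕ × ℕ) :=
  [(0x2000000000000004000000000000012, 0x80200100001),
   (0x2000000000000004000000000000004, 0x200100001),
   (0x4000000084000000, 0xa0000000001),
   (0x2000000000000004000000000000030, 0x80200100001),
   (0x4000000000000050, 0x200100001),
   (0x400000004000000000000080, 0x800000000000200000001),
   (0x4000000004000000000000002, 0x80000000000020000000001),
   (0x2000000000000004000000000000200, 0x200100001),
   (0x400000000004000004000000000, 0x80200000001),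
   (0x2000000000000004000000000000810, 0x200000000000200100001),
   (0x20000000004000000000001000, 0x80000100001),
   (0x2000000000000004000000000002010, 0x80200100001),
   (0x2000000000000004000000000004010, 0x200000000000200100001),
   (0x2000000000000004000000000008010, 0x200000000000200100001),
   (0x4000000000010010, 0x200100001),
   (0x2000000000000004000000000020010, 0x80200100001),
   (0x2000000000000004000000000040010, 0x80200100001),
   (0x2000000000000004000000000080010, 0x80200100001),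
   (0x2000000000000004000000000200010, 0x200000000000200100001),
   (0x4000000000400010, 0x200100001),
   (0x4000000000800010, 0x200100001),
   (0x2000000000000004000000001000010, 0x200000000000200100001),
   (0x2000000000000004000000002000010, 0x80200100001),
   (0x400000004000000000000200, 0x80200000001),
   (0x2000000000000004000000008000010, 0x80200100001),
   (0x2000000000000004000000010000010, 0x200000000000200100001),
   (0x2000000000000004000000020000010, 0x80200100001),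
   (0x4000000400000002, 0x80000000000020000000001),
   (0x4002000080000000, 0x200000000000000000011),
   (0x400000004000000000000004, 0x80200000001),
   (0x2000000000000004000000400000000, 0x200100001),
   (0x2000000000000004000000800000010, 0x200000000000200100001),
   (0x2000000000000004000001000000010, 0x80200100001),
   (0x400000004000000000001000, 0x80200000001),
   (0x4000004001000000, 0x80000100001),
   (0x2000000000000004000008000000000, 0x200100001),
   (0x4000010000000010, 0x200100001),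
   (0x400000004000000001000000, 0x80200000001),
   (0x4000040000000010, 0x200100001),
   (0x400000000004000000000000010, 0xa0000000001),
   (0x4000100000000010, 0x200100001),
   (0x2000000000000004000200000000010, 0x80200100001),
   (0x4000400000000010, 0x200100001),
   (0x2000000000000004000800000000010, 0x200000000000200100001),
   (0x4000000000080100, 0x10000000000000000200000001),
   (0x2000000000000004002000000000010, 0x200000000000200100001),
   (0x400000004000004000000000, 0x800000000000200000001),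
   (0x400000004000008000000000, 0x800000000000200000001),
   (0x14000000001000000, 0x80000000011),
   (0x4000000000002010, 0x10000000000000000200000001),
   (0x4000000000004010, 0x10000000000000000200000001),
   (0x4000000800000010, 0x10000000000000000200000001),
   (0x4000001000000010, 0x10000000000000000200000001),
   (0x2000000000000004000002000000010, 0x10000800000000000200000001),
   (0x4000400000000004, 0x800000000000200000001),
   (0x4000008000000010, 0x10000000000000000200000001),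
   (0x8000000004000000000001000, 0x80000000011),
   (0x6000000000000010, 0x10000000000000000200000001),
   (0x8000000004000002000000000, 0x80000000011),
   (0x2000000000000014000000000000010, 0x80200100001),
   (0x2000000000000024000000000000010, 0x80200100001),
   (0x4000000100000200, 0x10080000000000000000000001),
   (0x4000000014000000000000000, 0xa0000000001),
   (0x2000000000000104000000000000010, 0x200000000000200100001),
   (0x204000000000000010, 0x200100001),
   (0x2000000000000404000000000000010, 0x80200100001),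
   (0x804000000000000010, 0x200100001),
   (0x2000000000014000000000000000, 0x20000000011),
   (0x4000000000080080, 0x10000000000000000200000001),
   (0x4004000000000000010, 0x200100001),
   (0x2000000000008004000000000000010, 0x200000000000200100001),
   (0x4000100001000000, 0x200000000000000000011),
   (0x4000000000020010, 0x10000000000000000200000001),
   (0x2000000000000004000000000040010, 0x10000800000000000200000001),
   (0x4000000000080010, 0x10000000000000000200000001),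
   (0x4000400000000200, 0x800000000000200000001),
   (0x2000000000000004000020000000010, 0x10000800000000000200000001),
   (0x2000000000000004000040000000010, 0x10000000000000020200000001),
   (0x200000004000400000000010, 0x800000000000201000001),
   (0x2000000001000004000000000000010, 0x80200100001),
   (0x400000000004000008000000000, 0x80200000001),
   (0x2000000000000044000000000000010, 0x10000000000000020200000001),
   (0x2000000000000084000000000000010, 0x10000800000000000200000001),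
   (0x104000000000000010, 0x10000000000000000200000001),
   (0x2000000020000004000000000000010, 0x80200100001),
   (0x40000004000000000000010, 0x200100001),
   (0x80000004000000000000010, 0x10000000000000000200000001),
   (0x100000004000000000000010, 0x10000000000000000200000001),
   (0x400000000004000000001000000, 0x80200000001),
   (0x400000004000000000000010, 0x200100001),
   (0x2000000800000004000000000000010, 0x200000000000200100001),
   (0x4002100000000000, 0x200000000000000000011),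
   (0x2000002000000004000000000000010, 0x80200100001),
   (0x400000000004000000000000200, 0x80200000001),
   (0x2000008000000004000000000000010, 0x80200100001),
   (0x2000010000000004000000000000010, 0x200000000000200100001),
   (0x4000000000200010, 0x10000000000000000200000001),
   (0x2000000000000004000000000400010, 0x10000000000000020200000001),
   (0x2000000000000004000000000800010, 0x10000800000000000200000001),
   (0x2000100000000004000000000000010, 0x80200100001),
   (0x80004000000000000200, 0x200100001),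
   (0x2000000000000004000400000000010, 0x10000000000000020200000001),
   (0x4000800000000010, 0x10000000000000000200000001),
   (0x2001000000000004000000000000010, 0x80200100001),
   (0x2002000000000004000000000000010, 0x80200100001),
   (0x2004000000000004000000000000010, 0x80200100001),
   (0x2008000000000004000000000000010, 0x80200100001),
   (0x2010000000000004000000000000010, 0x201100001),
   (0x80004000008000000000, 0x200100001),
   (0x2000000000004004000000000000010, 0x10000000000000020200000001),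
   (0x2080000000000004000000000000010, 0x200000000000200100001),
   (0x2100000000000004000000000000010, 0x80200100001),
   (0x2200000000000004000000000000010, 0x80200100001),
   (0x800000000000004000000400100000, 0x10000800000000000200000001),
   (0x2000008000000004000000000000010, 0x10000800000000000200000001),
   (0x6000000000000004000000000000010, 0x80200100001),
   (0x4000000000080200, 0x10000000000000000200000001),
   (0x4000000600000000, 0x80000000000020000000001)]

theorem hP : ∀ p ∈ P, BP p.1 p.2 :=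
  consP Pool.Agent.H184.T5.V.p1699 <|
  consP Pool.Agent.H184.T5.B.p2_33_121 <|
  consP Pool.Agent.H184.T5.V.p46 <|
  consP Pool.Agent.H184.T5.V.p1700 <|
  consP Pool.Agent.H184.T5.B.p4_33_6 <|
  consP Pool.Agent.H184.T5.B.p7_33_94 <|
  consP Pool.Agent.H184.T5.B.p1_91_98 <|
  consP Pool.Agent.H184.T5.B.p9_33_121 <|
  consP Pool.Agent.H184.T5.B.p38_33_106 <|
  consP Pool.Agent.H184.T5.V.p1701 <|
  consP Pool.Agent.H184.T5.B.p12_43_101 <|
  consP Pool.Agent.H184.T5.V.p1702 <|
  consP Pool.Agent.H184.T5.V.p1703 <|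
  consP Pool.Agent.H184.T5.V.p1704 <|
  consP Pool.Agent.H184.T5.B.p4_33_16 <|
  consP Pool.Agent.H184.T5.V.p1705 <|
  consP Pool.Agent.H184.T5.V.p1706 <|
  consP Pool.Agent.H184.T5.V.p1707 <|
  consP Pool.Agent.H184.T5.V.p1708 <|
  consP Pool.Agent.H805.T5.N5.t <|
  consP Pool.Agent.H805.T5.N6.t <|
  consP Pool.Agent.H184.T5.V.p1709 <|
  consP Pool.Agent.H184.T5.V.p1710 <|
  consP Pool.Agent.H184.T5.B.p9_33_94 <|
  consP Pool.Agent.H184.T5.V.p1711 <|
  consP Pool.Agent.H184.T5.V.p1712 <|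
  consP Pool.Agent.H184.T5.V.p1713 <|
  consP Pool.Agent.H184.T5.B.p1_91_34 <|
  consP Pool.Agent.H184.T5.V.p364 <|
  consP Pool.Agent.H184.T5.B.p2_33_94 <|
  consP Pool.Agent.H184.T5.B.p34_33_121 <|
  consP Pool.Agent.H184.T5.V.p1714 <|
  consP Pool.Agent.H184.T5.V.p1715 <|
  consP Pool.Agent.H184.T5.B.p12_43_94 <|
  consP Pool.Agent.H184.T5.B.p24_43_38 <|
  consP Pool.Agent.H184.T5.B.p39_33_121 <|
  consP Pool.Agent.H184.T5.B.p4_33_40 <|
  consP Pool.Agent.H184.T5.B.p24_43_94 <|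
  consP Pool.Agent.H805.T5.N28.t <|
  consP Pool.Agent.H184.T5.V.p1267 <|
  consP Pool.Agent.H184.T5.B.p4_33_44 <|
  consP Pool.Agent.H184.T5.V.p1716 <|
  consP Pool.Agent.H805.T5.N32.t <|
  consP Pool.Agent.H184.T5.V.p1717 <|
  consP Pool.Agent.H184.T5.B.p8_33_19 <|
  consP Pool.Agent.H184.T5.V.p1718 <|
  consP Pool.Agent.H184.T5.B.p38_33_94 <|
  consP Pool.Agent.H184.T5.B.p39_33_94 <|
  consP Pool.Agent.H184.T5.B.p24_43_64 <|
  consP Pool.Agent.H184.T5.B.p4_33_13 <|
  consP Pool.Agent.H184.T5.B.p4_33_14 <|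
  consP Pool.Agent.H805.T5.N8.t <|
  consP Pool.Agent.H184.T5.B.p4_33_36 <|
  consP Pool.Agent.H184.T5.V.p1517 <|
  consP Pool.Agent.H184.T5.B.p2_33_46 <|
  consP Pool.Agent.H184.T5.B.p4_33_39 <|
  consP Pool.Agent.H184.T5.B.p12_43_99 <|
  consP Pool.Agent.H184.T5.B.p4_33_61 <|
  consP Pool.Agent.H184.T5.V.p1604 <|
  consP Pool.Agent.H184.T5.V.p1719 <|
  consP Pool.Agent.H184.T5.V.p1720 <|
  consP Pool.Agent.H184.T5.B.p32_91_9 <|
  consP Pool.Agent.H184.T5.B.p64_41_98 <|
  consP Pool.Agent.H184.T5.V.p1721 <|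
  consP Pool.Agent.H184.T5.B.p4_33_69 <|
  consP Pool.Agent.H184.T5.V.p1722 <|
  consP Pool.Agent.H184.T5.B.p4_33_71 <|
  consP Pool.Agent.H184.T5.B.p64_41_109 <|
  consP Pool.Agent.H184.T5.V.p1583 <|
  consP Pool.Agent.H184.T5.B.p4_33_74 <|
  consP Pool.Agent.H184.T5.V.p1723 <|
  consP Pool.Agent.H805.T5.N35.t <|
  consP Pool.Agent.H805.T5.N30.t <|
  consP Pool.Agent.H184.T5.V.p1724 <|
  consP Pool.Agent.H805.T5.N3.t <|
  consP Pool.Agent.H184.T5.V.p1725 <|
  consP Pool.Agent.H184.T5.V.p1726 <|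
  consP Pool.Agent.H184.T5.V.p1727 <|
  consP Pool.Agent.H184.T5.V.p1728 <|
  consP Pool.Agent.H184.T5.V.p1729 <|
  consP Pool.Agent.H184.T5.B.p39_33_106 <|
  consP Pool.Agent.H184.T5.V.p1730 <|
  consP Pool.Agent.H184.T5.V.p1731 <|
  consP Pool.Agent.H184.T5.B.p4_33_68 <|
  consP Pool.Agent.H184.T5.V.p1732 <|
  consP Pool.Agent.H184.T5.B.p4_33_90 <|
  consP Pool.Agent.H184.T5.B.p4_33_91 <|
  consP Pool.Agent.H184.T5.B.p4_33_92 <|
  consP Pool.Agent.H184.T5.B.p24_43_106 <|
  consP Pool.Agent.H184.T5.B.p4_33_94 <|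
  consP Pool.Agent.H184.T5.V.p1733 <|
  consP Pool.Agent.H184.T5.B.p44_4_49 <|
  consP Pool.Agent.H184.T5.V.p1734 <|
  consP Pool.Agent.H184.T5.B.p9_33_106 <|
  consP Pool.Agent.H184.T5.V.p1735 <|
  consP Pool.Agent.H184.T5.V.p1736 <|
  consP Pool.Agent.H805.T5.N4.t <|
  consP Pool.Agent.H184.T5.V.p1737 <|
  consP Pool.Agent.H184.T5.V.p1738 <|
  consP Pool.Agent.H184.T5.V.p1739 <|
  consP Pool.Agent.H184.T5.V.p665 <|
  consP Pool.Agent.H184.T5.V.p1740 <|
  consP Pool.Agent.H805.T5.N29.t <|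
  consP Pool.Agent.H184.T5.V.p1741 <|
  consP Pool.Agent.H184.T5.V.p1742 <|
  consP Pool.Agent.H184.T5.V.p1743 <|
  consP Pool.Agent.H184.T5.V.p1744 <|
  consP Pool.Agent.H184.T5.V.p1745 <|
  consP Pool.Agent.H184.T5.B.p39_33_79 <|
  consP Pool.Agent.H184.T5.V.p1746 <|
  consP Pool.Agent.H184.T5.V.p1747 <|
  consP Pool.Agent.H184.T5.V.p1748 <|
  consP Pool.Agent.H184.T5.V.p1749 <|
  consP Pool.Agent.H184.T5.V.p1750 <|
  consP Pool.Agent.H184.T5.V.p1751 <|
  consP Pool.Agent.H184.T5.V.p1752 <|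
  consP Pool.Agent.H184.T5.B.p9_33_19 <|
  consP Pool.Agent.H184.T5.B.p33_91_34 <|
  nilP

def T : List Ent :=
  [⟨1, 43, 0, 0⟩,
   ⟨5, 43, 0, 3⟩,
   ⟨11, 81, 0, 9⟩,
   ⟨13, 43, 0, 11⟩,
   ⟨14, 81, 0, 12⟩,
   ⟨15, 81, 0, 13⟩,
   ⟨17, 43, 0, 15⟩,
   ⟨18, 43, 0, 16⟩,
   ⟨19, 43, 0, 17⟩,
   ⟨21, 81, 0, 18⟩,
   ⟨24, 81, 0, 21⟩,
   ⟨25, 43, 0, 22⟩,
   ⟨27, 43, 0, 24⟩,
   ⟨28, 81, 0, 25⟩,
   ⟨29, 43, 0, 26⟩,
   ⟨35, 81, 0, 31⟩,
   ⟨36, 43, 0, 32⟩,
   ⟨45, 43, 0, 41⟩,
   ⟨47, 81, 0, 43⟩,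
   ⟨49, 81, 0, 45⟩,
   ⟨57, 43, 1, 53⟩,
   ⟨64, 43, 0, 59⟩,
   ⟨65, 43, 0, 60⟩,
   ⟨68, 81, 0, 63⟩,
   ⟨70, 43, 0, 65⟩,
   ⟨75, 81, 0, 70⟩,
   ⟨78, 43, 1, 73⟩,
   ⟨81, 43, 1, 76⟩,
   ⟨82, 81, 1, 77⟩,
   ⟨83, 81, 116, 78⟩,
   ⟨84, 43, 0, 79⟩,
   ⟨86, 81, 1, 81⟩,
   ⟨87, 43, 1, 82⟩,
   ⟨89, 43, 0, 84⟩,
   ⟨95, 81, 0, 90⟩,
   ⟨97, 43, 0, 92⟩,
   ⟨99, 43, 0, 94⟩,
   ⟨100, 81, 0, 95⟩,
   ⟨102, 81, 1, 97⟩,
   ⟨103, 43, 1, 98⟩,
   ⟨104, 43, 0, 99⟩,
   ⟨106, 81, 1, 101⟩,
   ⟨108, 43, 0, 103⟩,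
   ⟨109, 43, 0, 104⟩,
   ⟨110, 43, 0, 105⟩,
   ⟨111, 43, 0, 106⟩,
   ⟨112, 24, 0, 107⟩,
   ⟨114, 81, 1, 109⟩,
   ⟨115, 81, 0, 110⟩,
   ⟨116, 43, 0, 111⟩,
   ⟨117, 43, 0, 112⟩,
   ⟨118, 43, 7, 113⟩,
   ⟨119, 43, 1, 114⟩,
   ⟨122, 43, 0, 115⟩]

def F : List Ent :=
  [⟨2, 4, 0, 1⟩,
   ⟨3, 121, 81, 2⟩,
   ⟨6, 121, 0, 4⟩,
   ⟨7, 4, 66, 5⟩,
   ⟨8, 4, 80, 6⟩,
   ⟨9, 4, 0, 7⟩,
   ⟨10, 4, 94, 8⟩,
   ⟨12, 4, 28, 10⟩,
   ⟨16, 121, 0, 14⟩,
   ⟨22, 121, 0, 19⟩,
   ⟨23, 121, 0, 20⟩,
   ⟨26, 4, 67, 23⟩,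
   ⟨30, 4, 126, 27⟩,
   ⟨31, 4, 8, 28⟩,
   ⟨32, 4, 67, 29⟩,
   ⟨34, 4, 0, 30⟩,
   ⟨37, 4, 67, 33⟩,
   ⟨38, 121, 28, 34⟩,
   ⟨39, 4, 0, 35⟩,
   ⟨40, 121, 0, 36⟩,
   ⟨41, 4, 67, 37⟩,
   ⟨42, 121, 0, 38⟩,
   ⟨43, 4, 95, 39⟩,
   ⟨44, 121, 0, 40⟩,
   ⟨46, 121, 0, 42⟩,
   ⟨48, 4, 154, 44⟩,
   ⟨50, 4, 66, 46⟩,
   ⟨51, 4, 66, 47⟩,
   ⟨52, 121, 16, 48⟩,
   ⟨53, 121, 1, 49⟩,
   ⟨54, 121, 1, 50⟩,
   ⟨55, 121, 1, 51⟩,
   ⟨56, 121, 1, 52⟩,
   ⟨58, 4, 116, 54⟩,
   ⟨59, 121, 1, 55⟩,
   ⟨60, 4, 10, 56⟩,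
   ⟨61, 121, 1, 57⟩,
   ⟨63, 4, 10, 58⟩,
   ⟨66, 4, 152, 61⟩,
   ⟨67, 4, 81, 62⟩,
   ⟨69, 121, 0, 64⟩,
   ⟨71, 121, 0, 66⟩,
   ⟨72, 4, 4, 67⟩,
   ⟨73, 4, 154, 68⟩,
   ⟨74, 121, 0, 69⟩,
   ⟨76, 121, 18, 71⟩,
   ⟨77, 121, 1, 72⟩,
   ⟨79, 121, 1, 74⟩,
   ⟨80, 4, 116, 75⟩,
   ⟨85, 4, 94, 80⟩,
   ⟨88, 121, 1, 83⟩,
   ⟨90, 121, 0, 85⟩,
   ⟨91, 121, 1, 86⟩,
   ⟨92, 121, 1, 87⟩,
   ⟨93, 4, 94, 88⟩,
   ⟨94, 121, 0, 89⟩,
   ⟨96, 4, 8, 91⟩,
   ⟨98, 4, 94, 93⟩,
   ⟨101, 121, 1, 96⟩,
   ⟨105, 4, 34, 100⟩,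
   ⟨107, 121, 1, 102⟩,
   ⟨113, 4, 34, 108⟩,
   ⟨120, 4, 154, 74⟩,
   ⟨123, 4, 154, 116⟩,
   ⟨124, 4, 126, 117⟩]

theorem ok : nodeOK2 autA 192 P [4, 62, 121] [0, 20, 33] T F = true := by decide +kernel

theorem t : BP 0x2000000000000004000000000000010 0x200100001 := by
  have h := node2 autOK hP ok
  rw [show maskL [4, 62, 121] = 0x2000000000000004000000000000010 from by decide +kernel, show maskL [0, 20, 33] = 0x200100001 from by decide +kernel] at h
  exact h

end Pool.Agent.H805.T5.N37
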