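import Mathlib
import Pool.Agent.H805.T5.Tree2
import Pool.Agent.H805.T5.Auts
import Pool.Agent.H184.T5.D.F12_43_0
import Pool.Agent.H184.T5.D.F14_43_0
import Pool.Agent.H184.T5.D.F1_91_0
import Pool.Agent.H184.T5.D.F2_33_0
import Pool.Agent.H184.T5.D.F32_91_0
import Pool.Agent.H184.T5.D.F34_33_0
import Pool.Agent.H184.T5.D.F38_33_0
import Pool.Agent.H184.T5.D.F38_33_1
import Pool.Agent.H184.T5.D.F38_33_2
import Pool.Agent.H184.T5.D.F39_33_0
import Pool.Agent.H184.T5.D.F39_33_1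
import Pool.Agent.H184.T5.D.F39_33_2
import Pool.Agent.H184.T5.D.F64_41_1
import Pool.Agent.H184.T5.D.F64_41_2
import Pool.Agent.H184.T5.D.F7_33_0
import Pool.Agent.H184.T5.D.F7_33_1
import Pool.Agent.H184.T5.D.F8_33_0
import Pool.Agent.H184.T5.D.F8_33_1
import Pool.Agent.H184.T5.D.F8_33_2
import Pool.Agent.H184.T5.D.F9_33_0
import Pool.Agent.H184.T5.D.F9_33_1
import Pool.Agent.H184.T5.D.V_001
import Pool.Agent.H184.T5.D.V_002
import Pool.Agent.H184.T5.D.V_003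
import Pool.Agent.H184.T5.D.V_018
import Pool.Agent.H184.T5.D.V_025
import Pool.Agent.H805.T5.N.N11
import Pool.Agent.H805.T5.N.N24
import Pool.Agent.H805.T5.N.N31

set_option autoImplicit false
set_option maxRecDepth 20000

namespace Pool.Agent.H805.T5.N38

open Pool.Agent.Helper582.Cube

def P : List (ℕ × ℕ) :=
  [(0x4000000000100102, 0xa0200000001),
   (0x4000000000100004, 0x80200000001),
   (0x4000000000100002, 0x80200000000000000000001),
   (0x4000000000100010, 0x80200000001),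
   (0x800004000000000000100, 0x10000000000000000200000001),
   (0x800004000000000000200, 0x10000000000000000200000001),
   (0x4000000000100080, 0x80200000001),
   (0x4000000000100200, 0x80200000001),
   (0x4000084000000000, 0x200100001),
   (0x4000088000000000, 0x200100001),
   (0x4000000000001010, 0xa0000000001),
   (0x4000000008000010, 0xa0000000001),
   (0x4000000000104000, 0x80200000001),
   (0x4000000000110100, 0x100000000000000080200000001),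
   (0x4000000000002010, 0xa0000000001),
   (0x4000020000000002, 0x10080000000000000000000001),
   (0x20000000004000000000000010, 0xa0000000001),
   (0x4000000000000210, 0xa0000000001),
   (0x4000000000500100, 0x100000000000000080200000001),
   (0x4000000020000010, 0xa0000000001),
   (0x4000000001000100, 0x80200000001),
   (0x4000080000000200, 0x200100001),
   (0x4000080000000080, 0x200100001),
   (0x4000000010100100, 0x100000000000000080200000001),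
   (0x10000000004000000000000200, 0x800000000000200000001),
   (0x4000080000000010, 0x200100001),
   (0x4000080000000004, 0x200100001),
   (0x4000000400100000, 0x80200000001),
   (0x4000000200004000, 0x80000100001),
   (0x4000000200001000, 0x80000100001),
   (0x4000004000100000, 0x80200000001),
   (0x4000008000100000, 0x80200000001),
   (0x4000010000100100, 0x100000000000000080200000001),
   (0x4000020000100100, 0x100000000000000080200000001),
   (0x10000000004000004000000000, 0x800000000000200000001),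
   (0x4000100000100100, 0x100000000000000080200000001),
   (0x4000400000100100, 0x100000000000000080200000001),
   (0x204000000000000010, 0xa0000000001),
   (0x4001000000100100, 0x100000000000000080200000001),
   (0x800000000000004000000000000010, 0xa0000000001),
   (0x800004000008000000000, 0x10000000000000000200000001),
   (0x4010000000100100, 0x100000000000000080200000001),
   (0x404000000000000010, 0xa0000000001),
   (0x4000000100100000, 0x80200000000000000000001),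
   (0x14000080000000000, 0x20000000011),
   (0x10000000004000008000000000, 0x800000000000200000001),
   (0x80000014000000000000000, 0x10000000000000020000000001),
   (0x10000000014000000000000000, 0x80000000000020000000001),
   (0x4000004000000000000010, 0xa0000000001),
   (0x8000000000004000000000000010, 0xa0000000001),
   (0x404000000000100100, 0x100000000000000080200000001),
   (0x804000000000000100, 0x80200000001),
   (0x1004000000000100100, 0x100000000000000080200000001),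
   (0x4000020100000000, 0x10080000000000000000000001),
   (0x8004000000000000100, 0x80200000001),
   (0x10004000000000100100, 0x100000000000000080200000001),
   (0x80004000000000100100, 0x100000000000000080200000001),
   (0x100004000000000100100, 0xa0200000001),
   (0x200004000000000100100, 0x100000000000000080200000001),
   (0x800004000000000100100, 0x100000000000000080200000001),
   (0x1000000000004000000000000010, 0xa0000000001),
   (0x400004000000000000010, 0xa0000000001),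
   (0x800000000004000000000000010, 0xa0000000001),
   (0x80000004000000000000100, 0x80200000001),
   (0x400000000004000000000000010, 0xa0000000001),
   (0x800000004000000000000100, 0x80200000001),
   (0x1000000004000000000100100, 0x100000000000000080200000001),
   (0x20000004000000000000010, 0xa0000000001),
   (0x4000000004000000000100100, 0x100000000000000080200000001),
   (0x2000000000004000000000000010, 0xa0000000001),
   (0x20000000004000000000100100, 0x100000000000000080200000001),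
   (0x100000000004000000000100100, 0xa0200000001),
   (0x1000000000004000000000100100, 0x100000000000000080200000001),
   (0x200004000100000000000, 0x800000000000000000011),
   (0x40000000000004000000000100100, 0xa0200000001),
   (0x800000000000004000000000000100, 0x80200000001),
   (0x4000080200000000, 0x20000000011),
   (0x10000000000000004000000000100100, 0x100000000000000080200000001)]

theorem hP : ∀ p ∈ P, BP p.1 p.2 :=
  consP Pool.Agent.H184.T5.V.p105 <|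
  consP Pool.Agent.H184.T5.B.p2_33_20 <|
  consP Pool.Agent.H184.T5.B.p1_91_20 <|
  consP Pool.Agent.H805.T5.N31.t <|
  consP Pool.Agent.H184.T5.B.p8_33_83 <|
  consP Pool.Agent.H184.T5.B.p9_33_83 <|
  consP Pool.Agent.H184.T5.B.p7_33_20 <|
  consP Pool.Agent.H184.T5.B.p9_33_20 <|
  consP Pool.Agent.H184.T5.B.p38_33_43 <|
  consP Pool.Agent.H184.T5.B.p39_33_43 <|
  consP Pool.Agent.H184.T5.B.p12_43_4 <|
  consP Pool.Agent.H184.T5.V.p200 <|
  consP Pool.Agent.H184.T5.B.p14_43_20 <|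
  consP Pool.Agent.H184.T5.V.p1249 <|
  consP Pool.Agent.H184.T5.V.p213 <|
  consP Pool.Agent.H184.T5.B.p1_91_41 <|
  consP Pool.Agent.H184.T5.V.p228 <|
  consP Pool.Agent.H184.T5.V.p107 <|
  consP Pool.Agent.H184.T5.V.p1250 <|
  consP Pool.Agent.H184.T5.V.p201 <|
  consP Pool.Agent.H184.T5.B.p8_33_24 <|
  consP Pool.Agent.H184.T5.B.p9_33_43 <|
  consP Pool.Agent.H184.T5.B.p7_33_43 <|
  consP Pool.Agent.H184.T5.V.p1251 <|
  consP Pool.Agent.H184.T5.V.p218 <|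
  consP Pool.Agent.H805.T5.N11.t <|
  consP Pool.Agent.H184.T5.B.p2_33_43 <|
  consP Pool.Agent.H184.T5.B.p34_33_20 <|
  consP Pool.Agent.H184.T5.B.p14_43_33 <|
  consP Pool.Agent.H184.T5.B.p12_43_33 <|
  consP Pool.Agent.H184.T5.B.p38_33_20 <|
  consP Pool.Agent.H184.T5.B.p39_33_20 <|
  consP Pool.Agent.H184.T5.V.p1252 <|
  consP Pool.Agent.H184.T5.V.p1253 <|
  consP Pool.Agent.H184.T5.B.p38_33_100 <|
  consP Pool.Agent.H184.T5.V.p1254 <|
  consP Pool.Agent.H184.T5.V.p1255 <|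
  consP Pool.Agent.H184.T5.V.p215 <|
  consP Pool.Agent.H184.T5.V.p1256 <|
  consP Pool.Agent.H184.T5.V.p1257 <|
  consP Pool.Agent.H184.T5.B.p39_33_83 <|
  consP Pool.Agent.H184.T5.V.p1697 <|
  consP Pool.Agent.H184.T5.V.p1259 <|
  consP Pool.Agent.H184.T5.B.p32_91_20 <|
  consP Pool.Agent.H184.T5.B.p64_41_43 <|
  consP Pool.Agent.H184.T5.B.p39_33_100 <|
  consP Pool.Agent.H184.T5.B.p64_41_91 <|
  consP Pool.Agent.H184.T5.B.p64_41_100 <|
  consP Pool.Agent.H184.T5.V.p212 <|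
  consP Pool.Agent.H184.T5.V.p1260 <|
  consP Pool.Agent.H184.T5.V.p1261 <|
  consP Pool.Agent.H184.T5.B.p8_33_71 <|
  consP Pool.Agent.H184.T5.V.p1262 <|
  consP Pool.Agent.H184.T5.B.p32_91_41 <|
  consP Pool.Agent.H184.T5.B.p8_33_75 <|
  consP Pool.Agent.H184.T5.V.p1263 <|
  consP Pool.Agent.H184.T5.V.p1264 <|
  consP Pool.Agent.H184.T5.V.p1265 <|
  consP Pool.Agent.H184.T5.V.p219 <|
  consP Pool.Agent.H184.T5.V.p1266 <|
  consP Pool.Agent.H184.T5.V.p117 <|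
  consP Pool.Agent.H184.T5.V.p122 <|
  consP Pool.Agent.H184.T5.V.p115 <|
  consP Pool.Agent.H184.T5.B.p8_33_91 <|
  consP Pool.Agent.H184.T5.V.p1267 <|
  consP Pool.Agent.H184.T5.B.p8_33_95 <|
  consP Pool.Agent.H184.T5.V.p1268 <|
  consP Pool.Agent.H184.T5.V.p208 <|
  consP Pool.Agent.H184.T5.V.p1269 <|
  consP Pool.Agent.H184.T5.V.p1270 <|
  consP Pool.Agent.H184.T5.V.p1698 <|
  consP Pool.Agent.H184.T5.V.p1272 <|
  consP Pool.Agent.H184.T5.V.p1273 <|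
  consP Pool.Agent.H805.T5.N24.t <|
  consP Pool.Agent.H184.T5.V.p1274 <|
  consP Pool.Agent.H184.T5.B.p8_33_119 <|
  consP Pool.Agent.H184.T5.V.p266 <|
  consP Pool.Agent.H184.T5.V.p1275 <|
  nilP

def T : List Ent :=
  [⟨1, 41, 0, 0⟩,
   ⟨16, 104, 0, 13⟩,
   ⟨22, 104, 0, 18⟩,
   ⟨28, 104, 0, 23⟩,
   ⟨40, 104, 0, 32⟩,
   ⟨41, 104, 0, 33⟩,
   ⟨44, 104, 0, 35⟩,
   ⟨46, 104, 0, 36⟩,
   ⟨48, 104, 0, 38⟩,
   ⟨52, 104, 0, 41⟩,
   ⟨70, 104, 0, 50⟩,
   ⟨72, 104, 0, 52⟩,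
   ⟨76, 104, 0, 55⟩,
   ⟨79, 104, 0, 56⟩,
   ⟨80, 41, 0, 57⟩,
   ⟨81, 104, 0, 58⟩,
   ⟨83, 104, 0, 59⟩,
   ⟨96, 104, 0, 66⟩,
   ⟨98, 104, 0, 68⟩,
   ⟨101, 104, 0, 70⟩,
   ⟨104, 41, 0, 71⟩,
   ⟨108, 104, 0, 72⟩,
   ⟨114, 41, 0, 74⟩,
   ⟨124, 104, 0, 77⟩]

def F : List Ent :=
  [⟨2, 8, 0, 1⟩,
   ⟨3, 8, 2, 2⟩,
   ⟨4, 8, 0, 3⟩,
   ⟨5, 8, 66, 4⟩,
   ⟨6, 8, 66, 5⟩,
   ⟨7, 8, 0, 6⟩,
   ⟨9, 8, 0, 7⟩,
   ⟨10, 8, 67, 8⟩,
   ⟨11, 8, 67, 9⟩,
   ⟨12, 8, 4, 10⟩,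
   ⟨13, 8, 10, 11⟩,
   ⟨14, 8, 0, 12⟩,
   ⟨15, 8, 69, 4⟩,
   ⟨17, 8, 4, 14⟩,
   ⟨18, 8, 129, 15⟩,
   ⟨19, 8, 10, 16⟩,
   ⟨21, 8, 4, 17⟩,
   ⟨23, 8, 10, 19⟩,
   ⟨24, 20, 0, 20⟩,
   ⟨25, 8, 9, 2⟩,
   ⟨26, 8, 67, 21⟩,
   ⟨27, 8, 67, 22⟩,
   ⟨29, 8, 1, 24⟩,
   ⟨30, 8, 126, 15⟩,
   ⟨31, 8, 67, 25⟩,
   ⟨32, 8, 67, 26⟩,
   ⟨34, 8, 0, 27⟩,
   ⟨35, 8, 4, 11⟩,
   ⟨36, 8, 91, 28⟩,
   ⟨37, 8, 91, 29⟩,
   ⟨38, 8, 0, 30⟩,
   ⟨39, 8, 0, 31⟩,
   ⟨42, 8, 7, 34⟩,
   ⟨45, 8, 4, 19⟩,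
   ⟨47, 8, 10, 37⟩,
   ⟨49, 8, 10, 39⟩,
   ⟨50, 8, 11, 1⟩,
   ⟨51, 8, 66, 40⟩,
   ⟨53, 8, 71, 22⟩,
   ⟨54, 8, 4, 42⟩,
   ⟨55, 8, 10, 14⟩,
   ⟨56, 8, 9, 43⟩,
   ⟨57, 8, 83, 44⟩,
   ⟨58, 8, 1, 34⟩,
   ⟨59, 8, 1, 45⟩,
   ⟨60, 8, 10, 10⟩,
   ⟨61, 8, 79, 46⟩,
   ⟨63, 8, 94, 29⟩,
   ⟨64, 8, 3, 47⟩,
   ⟨65, 8, 11, 6⟩,
   ⟨66, 8, 10, 48⟩,
   ⟨67, 8, 81, 44⟩,
   ⟨68, 8, 71, 26⟩,
   ⟨69, 8, 10, 49⟩,
   ⟨71, 20, 0, 51⟩,
   ⟨73, 8, 4, 37⟩,
   ⟨74, 8, 129, 53⟩,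
   ⟨75, 20, 0, 54⟩,
   ⟨77, 8, 69, 40⟩,
   ⟨78, 8, 71, 21⟩,
   ⟨82, 8, 4, 48⟩,
   ⟨84, 8, 10, 60⟩,
   ⟨85, 8, 71, 9⟩,
   ⟨86, 8, 4, 61⟩,
   ⟨87, 8, 80, 46⟩,
   ⟨88, 8, 94, 28⟩,
   ⟨89, 8, 10, 62⟩,
   ⟨90, 8, 69, 5⟩,
   ⟨91, 20, 0, 63⟩,
   ⟨92, 8, 2, 43⟩,
   ⟨93, 8, 71, 25⟩,
   ⟨94, 8, 10, 64⟩,
   ⟨95, 20, 0, 65⟩,
   ⟨97, 8, 4, 67⟩,
   ⟨99, 8, 10, 69⟩,
   ⟨100, 8, 11, 3⟩,
   ⟨102, 8, 10, 42⟩,
   ⟨103, 8, 7, 24⟩,
   ⟨105, 8, 4, 16⟩,
   ⟨106, 8, 4, 64⟩,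
   ⟨107, 8, 4, 49⟩,
   ⟨109, 8, 119, 73⟩,
   ⟨110, 8, 11, 12⟩,
   ⟨111, 8, 4, 62⟩,
   ⟨112, 8, 5, 47⟩,
   ⟨113, 8, 11, 31⟩,
   ⟨115, 8, 11, 7⟩,
   ⟨116, 8, 4, 60⟩,
   ⟨117, 8, 7, 45⟩,
   ⟨118, 8, 11, 27⟩,
   ⟨119, 20, 0, 75⟩,
   ⟨120, 8, 83, 76⟩,
   ⟨121, 8, 4, 69⟩,
   ⟨122, 8, 126, 53⟩,
   ⟨123, 8, 4, 39⟩]

theorem ok : nodeOK2 autA 192 P [8, 20, 62] [0, 33, 43] T F = true := by decide +kernel

theorem t : BP 0x4000000000100100 0x80200000001 := by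
  have h := node2 autOK hP ok
  rw [show maskL [8, 20, 62] = 0x4000000000100100 from by decide +kernel, show maskL [0, 33, 43] = 0x80200000001 from by decide +kernel] at h
  exact h

end Pool.Agent.H805.T5.N38
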